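import Pool.Agent.Work.MP_c07f0d_lc.TL.Grid
import Pool.Agent.Work.MP_c07f0d_lc.LS.Upper3

/-!
# Short Frege refutations of the grid contradictions with lines of quadratic size
-/

set_option linter.unusedSectionVars false

namespace GridLine

open Finset LineSize FregeEF

variable {D M : ℕ}

lemma upperG_src_ne_tgt (e : GE D M) : gsrc e ≠ gtgt e := by
  intro h
  have h1 := congrFun h e.1.2
  simp only [gsrc, gtgt, Function.update_self] at h1
  have h2 := congrArg Fin.val h1
  simp at h2

lemma upperG_bd (v : GV D M) : bd gsrc gtgt {v} =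
    (univ : Finset (GE D M)).filter fun e => gsrc e = v ∨ gtgt e = v := by
  ext e
  have := upperG_src_ne_tgt e
  simp only [bd, mem_filter, mem_univ, true_and, mem_singleton]
  constructor
  · intro h
    by_contra hc
    push Not at hc
    exact h ⟨fun h1 => absurd h1 hc.1, fun h1 => absurd h1 hc.2⟩
  · rintro (h | h) hc
    · exact this (h.trans (hc.1 h).symm)
    · exact this ((hc.2 h).trans h.symm)

/-- The list of the edges at `v`. -/
noncomputable def gstar (v : GV D M) : List (GE D M) :=
  ((univ : Finset (GE D M)).filter fun e => gsrc e = v ∨ gtgt e = v).toList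

lemma upperG_sv (x : GE D M → Bool) (v : GV D M) :
    sv x (gparity v) = chi (bd gsrc gtgt {v}) x := by
  unfold gparity chi
  rw [sv_parity, List.map_map, upperG_bd]
  have h2 : (sv x ∘ Fm.var) = fun p => sg (x p) := by
    funext p
    exact sv_var _ p
  rw [h2, Finset.prod_map_toList]

/-- The value of a constraint. -/
lemma gridAx_eval (v : GV D M) (x : GE D M → Bool) :
    (gridAx v).eval (fun e => x e = true) ↔ chi (bd gsrc gtgt {v}) x = sg (gcharge v) := by
  rw [← upperG_sv]
  unfold gridAx sv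
  by_cases hu : gcharge v = true
  · rw [if_pos hu, hu]
    split_ifs with h
    · simp [h, sg]
    · simp only [h, sg, if_true, false_iff]
      norm_num
  · rw [if_neg hu]
    have hu' : gcharge v = false := by simpa using hu
    rw [hu']
    split_ifs with h
    · simp only [Fm.eval, h, sg, not_true, Bool.false_eq_true, if_false, false_iff]
      norm_num
    · simp [Fm.eval, h, sg]

lemma upperG_star_card (v : GV D M) :
    ((univ : Finset (GE D M)).filter fun e => gsrc e = v ∨ gtgt e = v).card ≤ 2 * D := by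
  rw [Finset.filter_or]
  have h1 := gout_le v
  have h2 := gin_le v
  have h3 := Finset.card_union_le ((univ : Finset (GE D M)).filter fun e => gsrc e = v)
    ((univ : Finset (GE D M)).filter fun e => gtgt e = v)
  omega

/-- The tree of a constraint. -/
noncomputable def gTree (v : GV D M) : XT (GE D M) :=
  XT.ofList (Nat.clog 2 ((gstar v).map Fm.var).length) ((gstar v).map fun p => .leaf (some p))

lemma gTree_fm (v : GV D M) : (gTree v).fm = gparity v := by
  unfold gTree gparity parity gstar
  rw [XT.fm_ofList, List.map_map]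
  rfl

lemma gridAx_eq (v : GV D M) : gridAx v = litF (gcharge v) (gTree v).fm := by
  unfold gridAx litF
  rw [gTree_fm]

lemma size_gTree (hD : 1 ≤ D) (v : GV D M) : (gTree v).fm.size + 2 ≤ 48 * D ^ 2 := by
  rw [gTree_fm]
  unfold gparity parity
  have h1 := size_xorList 1 le_rfl (Nat.clog 2 ((gstar v).map Fm.var).length)
    ((gstar v).map Fm.var) (by
      intro φ hφ
      obtain ⟨p, _, rfl⟩ := List.mem_map.mp hφ
      simp [Fm.size])
  refine h1.trans ?_
  rw [List.length_map]
  have hlen : (gstar v).length ≤ 2 * D := by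
    unfold gstar
    rw [Finset.length_toList]
    exact upperG_star_card v
  have h2 : 2 ^ Nat.clog 2 (gstar v).length ≤ 2 * (2 * D) := by
    rcases Nat.eq_zero_or_pos (gstar v).length with h | h
    · rw [h]
      simp
      omega
    · exact (two_pow_clog_le h).trans (by omega)
  rw [LineSize.four_pow]
  have h4 := Nat.pow_le_pow_left h2 2
  nlinarith

/-- The constraints have bounded size. -/
lemma size_gridAx (hD : 1 ≤ D) (v : GV D M) : (gridAx v).size ≤ 64 * D ^ 2 := by
  rw [gridAx_eq]
  have h := size_gTree hD v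
  have hD2 : 1 ≤ D ^ 2 := Nat.one_le_pow _ _ hD
  unfold litF
  split_ifs
  · omega
  · simp only [Fm.size]
    omega

lemma lsize_gridAxioms (hD : 2 ≤ D) (hM : 2 ≤ M) :
    lsize (gridAxioms D M) ≤ 64 * D ^ 2 * Fintype.card (GE D M) := by
  unfold lsize gridAxioms
  rw [List.map_map]
  have h1 := List.sum_le_card_nsmul
    ((Finset.univ : Finset (GV D M)).toList.map (Fm.size ∘ gridAx)) (64 * D ^ 2) (by
      intro y hy
      obtain ⟨v, _, rfl⟩ := List.mem_map.mp hy
      exact size_gridAx (by omega) v)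
  refine h1.trans ?_
  rw [List.length_map, Finset.length_toList, Finset.card_univ, card_GV, smul_eq_mul, mul_comm]
  exact Nat.mul_le_mul_left _ (le_card_GE hM hD)

/-- The tree of all constraints. -/
noncomputable def gBig (D M : ℕ) : XT (GE D M) :=
  XT.ofList (Nat.clog 2 (M ^ D)) ((Finset.univ : Finset (GV D M)).toList.map gTree)

lemma size_gBig (hD : 2 ≤ D) (hM : 2 ≤ M) :
    (gBig D M).fm.size ≤ 200 * (D ^ 2 * Fintype.card (GE D M) ^ 2) := by
  unfold gBig
  rw [XT.fm_ofList]
  have hD2 : 1 ≤ D ^ 2 := Nat.one_le_pow _ _ (by omega)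
  have h1 := size_xorList (48 * D ^ 2) (by omega) (Nat.clog 2 (M ^ D))
    (((Finset.univ : Finset (GV D M)).toList.map gTree).map XT.fm) (by
      intro φ hφ
      obtain ⟨T, hT, rfl⟩ := List.mem_map.mp hφ
      obtain ⟨u, _, rfl⟩ := List.mem_map.mp hT
      have := size_gTree (by omega) u
      omega)
  have h0 : 1 ≤ M ^ D := Nat.one_le_pow _ _ (by omega)
  have h2 := two_pow_clog_le h0
  have h3 := le_card_GE hM hD
  set n := Fintype.card (GE D M) with hn
  have h4 : 2 ^ Nat.clog 2 (M ^ D) ≤ 2 * n := h2.trans (Nat.mul_le_mul_left _ h3)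
  have h5 := Nat.pow_le_pow_left h4 2
  rw [← LineSize.four_pow] at h5
  have h6 : 4 ^ Nat.clog 2 (M ^ D) * (48 * D ^ 2 + 2) ≤ (2 * n) ^ 2 * (50 * D ^ 2) :=
    Nat.mul_le_mul h5 (by omega)
  have h7 : (2 * n) ^ 2 * (50 * D ^ 2) = 200 * (D ^ 2 * n ^ 2) := by ring
  omega

lemma sv_gBig (x : GE D M → Bool) : sv x (gBig D M).fm = 1 := by
  unfold gBig
  rw [XT.fm_ofList, sv_xorList x (Nat.clog 2 (M ^ D)) _ (by
    simp only [List.length_map, Finset.length_toList, Finset.card_univ, card_GV]
    exact Nat.le_pow_clog (by norm_num) _), List.map_map, List.map_map]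
  have h1 : (sv x ∘ XT.fm) ∘ gTree = fun v : GV D M =>
      (∏ e ∈ (univ : Finset (GE D M)).filter (fun e => gsrc e = v), sg (x e)) *
      ∏ e ∈ (univ : Finset (GE D M)).filter (fun e => gtgt e = v), sg (x e) := by
    funext v
    simp only [Function.comp]
    rw [gTree_fm, upperG_sv, upperG_bd, chi, Finset.filter_or, Finset.prod_union]
    rw [Finset.disjoint_filter]
    intro e _ h2 h3
    exact upperG_src_ne_tgt e (h2.trans h3.symm)
  rw [h1, Finset.prod_map_toList, Finset.prod_mul_distrib]
  rw [Finset.prod_fiberwise (univ : Finset (GE D M)) gsrc (fun e => sg (x e)),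
    Finset.prod_fiberwise (univ : Finset (GE D M)) gtgt (fun e => sg (x e)),
    ← Finset.prod_mul_distrib]
  exact Finset.prod_eq_one fun e _ => sg_mul_self _

lemma par_gBig (e : GE D M) : (gBig D M).par e = false := by
  have h := XT.sv_flip (fun _ : GE D M => false) e (gBig D M)
  rw [sv_gBig, sv_gBig] at h
  by_contra hcon
  have hcon' : (gBig D M).par e = true := by simpa using hcon
  rw [hcon'] at h
  norm_num at h

/-- Short refutations with lines of quadratic size. -/
theorem upperG (F : FregeSystem) (D : ℕ) (hD : 2 ≤ D) : ∃ c : ℕ, ∀ M : ℕ, 2 ≤ M →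
    ∃ L : List (Fm (GE D M)), IsDeriv F.rules (gridAxioms D M) L ∧ Fm.bot ∈ L ∧
      L.length ≤ c * Fintype.card (GE D M) ^ 3 ∧
      ∀ φ ∈ L, φ.size ≤ c * Fintype.card (GE D M) ^ 2 := by
  classical
  refine ⟨1000 * (F.K * D ^ 2), fun M hM => ?_⟩
  set n := Fintype.card (GE D M) with hn
  have hK := F.K_pos
  have hMD : M ^ D ≤ n := le_card_GE hM hD
  have h0 : 1 ≤ M ^ D := Nat.one_le_pow _ _ (by omega)
  have hn1 : 1 ≤ n := h0.trans hMD
  have hD2 : 1 ≤ D ^ 2 := Nat.one_le_pow _ _ (by omega)
  have hn2 : 1 ≤ n ^ 2 := Nat.one_le_pow _ _ hn1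
  set W := 200 * (D ^ 2 * n ^ 2) with hW
  have hDn : 1 ≤ D ^ 2 * n ^ 2 := Nat.mul_pos hD2 hn2
  have hW1 : 1 ≤ W := by omega
  have hbig : (gBig D M).fm.size ≤ W := size_gBig hD hM
  set us := (Finset.univ : Finset (GV D M)).toList with hus
  have huslen : us.length = M ^ D := by
    rw [hus, Finset.length_toList, Finset.card_univ, card_GV]
  have hax : gridAxioms D M = us.map fun u => litF (gcharge u) (gTree u).fm := by
    unfold gridAxioms
    exact List.map_congr_left fun u _ => gridAx_eq u
  -- the axioms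
  have hL0 : IsDeriv F.rules (gridAxioms D M) (gridAxioms D M) :=
    deriv_hyps _ _ _ fun _ h => h
  have hs0 : ∀ ψ ∈ gridAxioms D M, ψ.size ≤ F.K * W := by
    intro ψ hψ
    obtain ⟨u, _, rfl⟩ := List.mem_map.mp hψ
    have h1 := size_gridAx (D := D) (M := M) (by omega) u
    have h2 : D ^ 2 ≤ D ^ 2 * n ^ 2 := Nat.le_mul_of_pos_right _ hn2
    have h5 : W ≤ F.K * W := Nat.le_mul_of_pos_left _ hK
    omega
  -- the conjunction of the constraints
  have e1 := ext_ofList (F := F) (Γ := gridAxioms D M) hW1 (gTree (D := D) (M := M)) gcharge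
    (Nat.clog 2 (M ^ D)) us (by rw [huslen]; exact Nat.le_pow_clog (by norm_num) _) hbig
  rw [← hax] at e1
  obtain ⟨L1, a1, b1, c1, d1, f1⟩ := e1 _ hL0 hs0 fun _ h => h
  have hval : valB gcharge us = true := by
    have hz : (gcharge : GV D M → Bool) =
        fun u => decide (u = fun _ => (⟨0, by omega⟩ : Fin M)) := by
      funext u
      unfold gcharge
      congr 1
      rw [eq_iff_iff]
      constructor
      · intro h
        funext i
        exact Fin.ext (h i)
      · intro h i
        rw [h]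
    rw [hz, valB_eq _ us (Finset.nodup_toList _), decide_eq_true_iff]
    exact Finset.mem_toList.mpr (Finset.mem_univ _)
  rw [hval] at d1
  -- kill all the variables
  set xs := (Finset.univ : Finset (GE D M)).toList with hxs
  have hxslen : xs.length = n := by
    rw [hxs, Finset.length_toList, Finset.card_univ, hn]
  have e2 := ext_killAll (F := F) (Γ := gridAxioms D M) hW1 xs (gBig D M) hbig par_gBig
  obtain ⟨L2, a2, b2, c2, d2, f2⟩ := e2 L1 a1 b1 (by
    intro ψ hψ
    exact d1 ψ hψ)
  have hsz : (killAll xs (gBig D M)).fm.size ≤ W := by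
    have : ∀ (ys : List (GE D M)) (t : XT (GE D M)), (killAll ys t).fm.size = t.fm.size := by
      intro ys
      induction ys with
      | nil => exact fun t => rfl
      | cons y ys ih =>
        intro t
        have := ih (t.kill y)
        rw [XT.size_kill] at this
        exact this
    rw [this]
    exact hbig
  have e3 := ext_neg (F := F) (Γ := gridAxioms D M) hW1 (killAll xs (gBig D M)) hsz (by
    intro x hx
    exact occ_killAll xs (gBig D M) x hx (Finset.mem_toList.mpr (Finset.mem_univ _)))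
  obtain ⟨L3, a3, b3, c3, d3, f3⟩ := e3 L2 a2 b2 (by simp)
  have e4 := Ext.rule (F := F) (Γ := gridAxioms D M) hW1 [.var 0, .neg (.var 0)] .bot
    [(killAll xs (gBig D M)).fm] (by decide) (by
      intro v h
      simp only [List.mem_cons, List.not_mem_nil, or_false, forall_eq_or_imp, forall_eq,
        Fm.eval] at h
      exact absurd h.1 h.2) (by simpa using hsz)
  obtain ⟨L4, a4, b4, c4, d4, f4⟩ := e4 L3 a3 b3 (by
    intro ψ hψ
    simp only [List.map_cons, List.map_nil, List.mem_cons, List.not_mem_nil, or_false] at hψ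
    rcases hψ with rfl | rfl
    · exact c3 _ (d2 _ (by simp [sub, Fm.subst]))
    · exact d3 _ (by simp [sub, Fm.subst]))
  have kk : 1 ≤ F.K * D ^ 2 := Nat.mul_pos hK hD2
  refine ⟨L4, a4, d4 _ (by simp [Fm.subst]), ?_, ?_⟩
  · have hL0len : (gridAxioms D M).length = M ^ D := by
      unfold gridAxioms
      rw [List.length_map, Finset.length_toList, Finset.card_univ, card_GV]
    have hnodes := (XT.nodes_le (killAll xs (gBig D M))).trans hsz
    have g0 : 2 ^ (Nat.clog 2 (M ^ D) + 1) ≤ 4 * n := by
      rw [pow_succ]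
      have := two_pow_clog_le h0
      omega
    have g1 : F.K * (2 ^ (Nat.clog 2 (M ^ D) + 1) - 1) ≤ 4 * (F.K * n) := by
      calc F.K * (2 ^ (Nat.clog 2 (M ^ D) + 1) - 1) ≤ F.K * (4 * n) :=
            Nat.mul_le_mul_left _ (by omega)
        _ = 4 * (F.K * n) := by ring
    have g3 : F.K * (killAll xs (gBig D M)).nodes ≤ F.K * W := Nat.mul_le_mul_left _ hnodes
    rw [hxslen] at f2
    set T := F.K * D ^ 2 * n ^ 3 with hT
    have g2 : n * (2 * F.K * W + F.K) = 400 * T + F.K * n := by
      rw [hW, hT]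
      ring
    have n13 : n ≤ n ^ 3 := by
      calc n = n ^ 1 := (pow_one n).symm
        _ ≤ n ^ 3 := Nat.pow_le_pow_right hn1 (by norm_num)
    have n23 : n ^ 2 ≤ n ^ 3 := Nat.pow_le_pow_right hn1 (by norm_num)
    have g4 : F.K * W ≤ 200 * T := by
      rw [hW, hT]
      calc F.K * (200 * (D ^ 2 * n ^ 2)) = 200 * (F.K * D ^ 2 * n ^ 2) := by ring
        _ ≤ 200 * (F.K * D ^ 2 * n ^ 3) :=
            Nat.mul_le_mul_left _ (Nat.mul_le_mul_left _ n23)
    have k0 : F.K * n ≤ T := by
      rw [hT, mul_assoc]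
      refine Nat.mul_le_mul_left _ ?_
      calc n ≤ n ^ 3 := n13
        _ ≤ D ^ 2 * n ^ 3 := Nat.le_mul_of_pos_left _ hD2
    have k1 : F.K ≤ F.K * n := Nat.le_mul_of_pos_right _ hn1
    have k4 : n ≤ F.K * n := Nat.le_mul_of_pos_left _ hK
    have k5 : 1000 * (F.K * D ^ 2) * n ^ 3 = 1000 * T := by rw [hT]; ring
    rw [k5]
    omega
  · intro φ hφ
    have h1 := b4 φ hφ
    have h2 : F.K * W = 200 * (F.K * D ^ 2 * n ^ 2) := by
      rw [hW]
      ring
    have k5 : 1000 * (F.K * D ^ 2) * n ^ 2 = 1000 * (F.K * D ^ 2 * n ^ 2) := by ring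
    omega

end GridLine
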