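import Pool.Agent.Work.MP_c07f0d_lc.TL.GridDef

/-!
# The squares of the grid
-/

set_option linter.unusedSectionVars false

namespace GridLine

open Finset LineSize

variable {D M : ℕ}

/-- The indicator function of a set of edges, extended by zero. -/
def gridB_ind (A : Finset (GE D M)) (x : GV D M) (i : Fin D) : ZMod 2 :=
  if h : (x i).val + 1 < M then (if (⟨(x, i), h⟩ : GE D M) ∈ A then 1 else 0) else 0

lemma gridB_ind_of {A : Finset (GE D M)} {x : GV D M} {i : Fin D} (h : (x i).val + 1 < M) :
    gridB_ind A x i = if (⟨(x, i), h⟩ : GE D M) ∈ A then 1 else 0 := by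
  simp [gridB_ind, h]

lemma gridB_up_eq {x : GV D M} {i : Fin D} (h : (x i).val + 1 < M) :
    up x i = Function.update x i ⟨(x i).val + 1, h⟩ := by
  simp [up, h]

lemma gridB_up_self {x : GV D M} {i : Fin D} (h : ¬ (x i).val + 1 < M) : up x i = x := by
  simp [up, h]

lemma gridB_up_same {x : GV D M} {i : Fin D} (h : (x i).val + 1 < M) :
    ((up x i) i).val = (x i).val + 1 := by
  simp [gridB_up_eq h]

lemma gridB_up_other {x : GV D M} {i k : Fin D} (h : k ≠ i) : (up x i) k = x k := by
  unfold up
  split_ifs with h'
  · simp [Function.update_of_ne h]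
  · rfl

lemma gridB_up_comm {x : GV D M} {i j : Fin D} (h : i ≠ j) :
    up (up x i) j = up (up x j) i := by
  funext k
  by_cases hki : k = i
  · subst hki
    rw [gridB_up_other h]
    by_cases h1 : (x k).val + 1 < M
    · have h2 : ((up x j) k).val + 1 < M := by rw [gridB_up_other h]; exact h1
      apply Fin.ext
      rw [gridB_up_same h1, gridB_up_same h2, gridB_up_other h]
    · have h2 : ¬ ((up x j) k).val + 1 < M := by rw [gridB_up_other h]; exact h1
      rw [gridB_up_self h1, gridB_up_self h2, gridB_up_other h]
  · by_cases hkj : k = j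
    · subst hkj
      rw [gridB_up_other hki]
      by_cases h1 : (x k).val + 1 < M
      · have h2 : ((up x i) k).val + 1 < M := by rw [gridB_up_other hki]; exact h1
        apply Fin.ext
        rw [gridB_up_same h1, gridB_up_same h2, gridB_up_other hki]
      · have h2 : ¬ ((up x i) k).val + 1 < M := by rw [gridB_up_other hki]; exact h1
        rw [gridB_up_self h1, gridB_up_self h2, gridB_up_other hki]
    · rw [gridB_up_other hkj, gridB_up_other hki, gridB_up_other hki, gridB_up_other hkj]

lemma gridB_gtgt (e : GE D M) : gtgt e = up e.1.1 e.1.2 := by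
  rw [gridB_up_eq e.2]; rfl

lemma gridB_up_ne {x : GV D M} {i : Fin D} (h : (x i).val + 1 < M) : up x i ≠ x := by
  intro h'
  have := gridB_up_same h
  rw [h'] at this
  omega

lemma gridB_card (x : GV D M) (i j : Fin D) (hij : i ≠ j) (hi : (x i).val + 1 < M)
    (hj : (x j).val + 1 < M) (S : Finset (GE D M)) :
    (((gcyc (x, i, j) ∩ S).card : ℕ) : ZMod 2) =
      gridB_ind S x i + gridB_ind S x j + gridB_ind S (up x i) j + gridB_ind S (up x j) i := by
  have hij' : ((up x i) j).val + 1 < M := by rw [gridB_up_other hij.symm]; exact hj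
  have hji' : ((up x j) i).val + 1 < M := by rw [gridB_up_other hij]; exact hi
  set e1 : GE D M := ⟨(x, i), hi⟩ with he1
  set e2 : GE D M := ⟨(x, j), hj⟩ with he2
  set e3 : GE D M := ⟨(up x i, j), hij'⟩ with he3
  set e4 : GE D M := ⟨(up x j, i), hji'⟩ with he4
  have hc : gcyc (x, i, j) = {e1, e2, e3, e4} := by
    ext e
    simp only [gcyc]
    rw [if_pos ⟨hij, hi, hj⟩]
    simp only [mem_filter, mem_univ, true_and, mem_insert, mem_singleton, he1, he2, he3, he4,
      Subtype.ext_iff]
  have n12 : e1 ≠ e2 := by
    intro h; exact hij (congrArg (fun e : GE D M => e.1.2) h)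
  have n13 : e1 ≠ e3 := by
    intro h; exact hij (congrArg (fun e : GE D M => e.1.2) h)
  have n14 : e1 ≠ e4 := by
    intro h; exact gridB_up_ne hj (congrArg (fun e : GE D M => e.1.1) h).symm
  have n23 : e2 ≠ e3 := by
    intro h; exact gridB_up_ne hi (congrArg (fun e : GE D M => e.1.1) h).symm
  have n24 : e2 ≠ e4 := by
    intro h; exact hij.symm (congrArg (fun e : GE D M => e.1.2) h)
  have n34 : e3 ≠ e4 := by
    intro h; exact hij.symm (congrArg (fun e : GE D M => e.1.2) h)
  have hcard : (gcyc (x, i, j) ∩ S) = (gcyc (x, i, j)).filter (fun e => e ∈ S) := by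
    ext e; simp
  rw [hcard, hc, card_filter, sum_insert (by simp [n12, n13, n14]), sum_insert (by simp [n23, n24]),
    sum_insert (by simp [n34]), sum_singleton, gridB_ind_of hi, gridB_ind_of hj, gridB_ind_of hij',
    gridB_ind_of hji']
  push_cast
  ring

lemma gridB_even_iff (n : ℕ) : Even n ↔ ((n : ℕ) : ZMod 2) = 0 :=
  ZMod.natCast_eq_zero_iff_even.symm

/-- The indicator of a set of vertices. -/
def gridB_u (U : Finset (GV D M)) (x : GV D M) : ZMod 2 := if x ∈ U then 1 else 0

lemma gridB_ind_bd (U : Finset (GV D M)) (x : GV D M) (i : Fin D) :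
    gridB_ind (bd gsrc gtgt U) x i = gridB_u U x + gridB_u U (up x i) := by
  have two : ∀ a : ZMod 2, a + a = 0 := by decide
  by_cases h : (x i).val + 1 < M
  · rw [gridB_ind_of h]
    have hm : ((⟨(x, i), h⟩ : GE D M) ∈ bd gsrc gtgt U) ↔ ¬ (x ∈ U ↔ up x i ∈ U) := by
      simp only [bd, mem_filter, mem_univ, true_and, gridB_gtgt]
      rfl
    unfold gridB_u
    by_cases h1 : x ∈ U <;> by_cases h2 : up x i ∈ U <;> simp [hm, h1, h2]
    decide
  · rw [gridB_up_self h, two]
    simp [gridB_ind, h]

lemma gcyc_spec (q : GJ D M) (U : Finset (GV D M)) :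
    Even (gcyc q ∩ bd gsrc gtgt U).card := by
  obtain ⟨x, i, j⟩ := q
  by_cases h : i ≠ j ∧ (x i).val + 1 < M ∧ (x j).val + 1 < M
  · obtain ⟨hij, hi, hj⟩ := h
    rw [gridB_even_iff, gridB_card x i j hij hi hj, gridB_ind_bd, gridB_ind_bd, gridB_ind_bd,
      gridB_ind_bd, gridB_up_comm (x := x) hij]
    generalize gridB_u U x = a
    generalize gridB_u U (up x i) = b
    generalize gridB_u U (up x j) = c
    generalize gridB_u U (up (up x j) i) = d
    revert a b c d
    decide
  · have : gcyc (x, i, j) = ∅ := by
      simp only [gcyc]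
      rw [if_neg h]
    rw [this]
    simp

/-- closedness -/
def gridB_closed (a : GV D M → Fin D → ZMod 2) : Prop :=
  ∀ (x : GV D M) (i j : Fin D), i ≠ j → (x i).val + 1 < M → (x j).val + 1 < M →
    a x i + a x j + a (up x i) j + a (up x j) i = 0

/-- one more coordinate -/
def gridB_g (a : GV D M → Fin D → ZMod 2) (k : Fin D) (x : GV D M) : ZMod 2 :=
  ∑ t : Fin M, if t < x k then a (Function.update x k t) k else 0

lemma gridB_g_same (a : GV D M → Fin D → ZMod 2) (k : Fin D) (x : GV D M)
    (h : (x k).val + 1 < M) : gridB_g a k (up x k) = gridB_g a k x + a x k := by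
  classical
  unfold gridB_g
  have h1 : ∀ t : Fin M, Function.update (up x k) k t = Function.update x k t := by
    intro t
    rw [gridB_up_eq h, Function.update_idem]
  have h2 : ∀ t : Fin M, (if t < (up x k) k then a (Function.update (up x k) k t) k else 0) =
      (if t < x k then a (Function.update x k t) k else 0) +
        (if t = x k then a (Function.update x k t) k else 0) := by
    intro t
    rw [h1]
    have h3 : t < (up x k) k ↔ t < x k ∨ t = x k := by
      rw [Fin.lt_def, gridB_up_same h, Fin.lt_def, Fin.ext_iff]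
      omega
    by_cases h4 : t < x k
    · have h5 : ¬ t = x k := ne_of_lt h4
      simp [h3, h4, h5]
    · by_cases h5 : t = x k
      · rw [if_pos (h3.2 (Or.inr h5)), if_neg h4, if_pos h5, zero_add]
      · rw [if_neg (fun h' => (h3.1 h').elim h4 h5), if_neg h4, if_neg h5, zero_add]
  rw [sum_congr rfl (fun t _ => h2 t), sum_add_distrib]
  congr 1
  rw [sum_ite_eq' univ (x k)]
  simp

lemma gridB_g_other (a : GV D M → Fin D → ZMod 2) (ha : gridB_closed a) (k i : Fin D)
    (hik : i ≠ k) (h0 : ∀ x, a x i = 0) (x : GV D M) (h : (x i).val + 1 < M) :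
    gridB_g a k (up x i) = gridB_g a k x := by
  classical
  unfold gridB_g
  apply sum_congr rfl
  intro t _
  rw [gridB_up_other hik.symm]
  by_cases h1 : t < x k
  · rw [if_pos h1, if_pos h1]
    set y := Function.update x k t with hy
    have hyi : (y i).val + 1 < M := by rw [hy, Function.update_of_ne hik]; exact h
    have hyk : (y k).val + 1 < M := by
      rw [hy, Function.update_self]
      have := (x k).isLt
      rw [Fin.lt_def] at h1
      omega
    have h2 : Function.update (up x i) k t = up y i := by
      funext l
      by_cases hl : l = k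
      · subst hl
        rw [Function.update_self, gridB_up_other hik.symm, hy, Function.update_self]
      · rw [Function.update_of_ne hl]
        by_cases hl' : l = i
        · subst hl'
          apply Fin.ext
          rw [gridB_up_same h, gridB_up_same hyi, hy, Function.update_of_ne hl]
        · rw [gridB_up_other hl', gridB_up_other hl', hy, Function.update_of_ne hl]
    rw [h2]
    have h3 := ha y i k hik hyi hyk
    rw [h0, h0] at h3
    have two : ∀ u v : ZMod 2, 0 + u + v + 0 = 0 → v = u := by decide
    exact two _ _ h3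
  · rw [if_neg h1, if_neg h1]

lemma gridB_exact (a : GV D M → Fin D → ZMod 2) (ha : gridB_closed a)
    (hz : ∀ (x : GV D M) (i : Fin D), ¬ (x i).val + 1 < M → a x i = 0) :
    ∀ k : ℕ, k ≤ D → ∃ h : GV D M → ZMod 2, ∀ (i : Fin D), i.val < k → ∀ x : GV D M,
      h x + h (up x i) = a x i := by
  have two : ∀ a : ZMod 2, a + a = 0 := by decide
  intro k
  induction k with
  | zero => intro _; exact ⟨fun _ => 0, fun i hi => absurd hi (Nat.not_lt_zero _)⟩
  | succ k ih =>
    intro hk
    obtain ⟨h, hh⟩ := ih (by omega)
    set b : GV D M → Fin D → ZMod 2 := fun x i => a x i + (h x + h (up x i)) with hb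
    have hbc : gridB_closed b := by
      intro x i j hij hi hj
      have h1 := ha x i j hij hi hj
      simp only [hb]
      rw [gridB_up_comm (x := x) hij]
      revert h1
      generalize a x i = a1
      generalize a x j = a2
      generalize a (up x i) j = a3
      generalize a (up x j) i = a4
      generalize h x = h0
      generalize h (up x i) = h1
      generalize h (up x j) = h2
      generalize h (up (up x j) i) = h3
      revert a1 a2 a3 a4 h0 h1 h2 h3
      decide
    have hb0 : ∀ i : Fin D, i.val < k → ∀ x, b x i = 0 := by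
      intro i hi x
      simp only [hb]
      rw [hh i hi x]
      exact two _
    set kk : Fin D := ⟨k, by omega⟩ with hkk
    refine ⟨fun x => h x + gridB_g b kk x, ?_⟩
    intro i hi x
    by_cases hx : (x i).val + 1 < M
    · by_cases hik : i.val < k
      · have hne : i ≠ kk := by
          intro he
          rw [he] at hik
          simp [hkk] at hik
        have h1 := gridB_g_other b hbc kk i hne (hb0 i hik) x hx
        have h2 := hh i hik x
        show h x + gridB_g b kk x + (h (up x i) + gridB_g b kk (up x i)) = a x i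
        rw [h1, ← h2]
        generalize h x = u
        generalize h (up x i) = v
        generalize gridB_g b kk x = w
        revert u v w
        decide
      · have hie : i = kk := by
          apply Fin.ext
          simp only [hkk]
          omega
        rw [hie] at hx ⊢
        have h1 := gridB_g_same b kk x hx
        show h x + gridB_g b kk x + (h (up x kk) + gridB_g b kk (up x kk)) = a x kk
        rw [h1]
        simp only [hb]
        generalize h x = u
        generalize h (up x kk) = v
        generalize gridB_g _ kk x = w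
        generalize a x kk = z
        revert u v w z
        decide
    · rw [gridB_up_self hx, hz x i hx]
      exact two _

lemma gcyc_orth (A : Finset (GE D M)) (h : ∀ q : GJ D M, Even (gcyc q ∩ A).card) :
    ∃ U : Finset (GV D M), A = bd gsrc gtgt U := by
  classical
  have hc : gridB_closed (gridB_ind A) := by
    intro x i j hij hi hj
    have h1 := h (x, i, j)
    rw [gridB_even_iff, gridB_card x i j hij hi hj] at h1
    exact h1
  obtain ⟨f, hf⟩ := gridB_exact (gridB_ind A) hc
    (fun x i hx => by simp [gridB_ind, hx]) D le_rfl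
  refine ⟨univ.filter fun x => f x = 1, ?_⟩
  ext e
  obtain ⟨⟨x, i⟩, hx⟩ := e
  have h1 := hf i i.isLt x
  rw [gridB_ind_of hx] at h1
  simp only [bd, mem_filter, mem_univ, true_and, gridB_gtgt]
  show _ ↔ ¬ (f x = 1 ↔ f (up x i) = 1)
  have key : ∀ u v : ZMod 2, (u + v = 1 ↔ ¬ (u = 1 ↔ v = 1)) := by decide
  rw [← key, h1]
  by_cases hA : (⟨(x, i), hx⟩ : GE D M) ∈ A
  · simp [hA]
  · simp [hA]

end GridLine
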