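import Pool.Agent.Work.MP_c07f0d_lc.TL.GridDef

/-!
# Counting in the grid
-/

set_option linter.unusedSectionVars false

namespace GridLine

open Finset LineSize

variable {D M : ℕ}

/-- the lower neighbour -/
def gridC_dn (y : GV D M) (i : Fin D) : GV D M :=
  Function.update y i ⟨(y i).val - 1, lt_of_le_of_lt (Nat.sub_le _ _) (y i).isLt⟩

lemma gridC_dn_up (x : GV D M) (i : Fin D) (h : (x i).val + 1 < M) : gridC_dn (up x i) i = x := by
  have h1 : up x i = Function.update x i ⟨(x i).val + 1, h⟩ := by
    unfold up
    rw [dif_pos h]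
  rw [h1]
  unfold gridC_dn
  funext j
  by_cases hj : j = i
  · subst hj
    simp
  · simp [Function.update_of_ne hj]

lemma gcyc_le (e : GE D M) : (univ.filter fun q : GJ D M => e ∈ gcyc q).card ≤ 4 * D := by
  classical
  have hsub : (univ.filter fun q : GJ D M => e ∈ gcyc q) ⊆
      ((univ.image fun j : Fin D => ((e.1.1, e.1.2, j) : GJ D M)) ∪
        (univ.image fun j : Fin D => ((e.1.1, j, e.1.2) : GJ D M))) ∪
      ((univ.image fun i : Fin D => ((gridC_dn e.1.1 i, i, e.1.2) : GJ D M)) ∪
        (univ.image fun i : Fin D => ((gridC_dn e.1.1 i, e.1.2, i) : GJ D M))) := by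
    rintro ⟨x, i, j⟩ hq
    rw [Finset.mem_filter] at hq
    have hq := hq.2
    unfold gcyc at hq
    by_cases hc : i ≠ j ∧ (x i).val + 1 < M ∧ (x j).val + 1 < M
    · rw [if_pos hc, Finset.mem_filter] at hq
      obtain ⟨-, h | h | h | h⟩ := hq
      · simp only at h
        apply Finset.mem_union_left
        apply Finset.mem_union_left
        rw [Finset.mem_image]
        exact ⟨j, Finset.mem_univ _, by rw [h]⟩
      · simp only at h
        apply Finset.mem_union_left
        apply Finset.mem_union_right
        rw [Finset.mem_image]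
        exact ⟨i, Finset.mem_univ _, by rw [h]⟩
      · simp only at h
        apply Finset.mem_union_right
        apply Finset.mem_union_left
        rw [Finset.mem_image]
        exact ⟨i, Finset.mem_univ _, by rw [h]; simp only; rw [gridC_dn_up x i hc.2.1]⟩
      · simp only at h
        apply Finset.mem_union_right
        apply Finset.mem_union_right
        rw [Finset.mem_image]
        exact ⟨j, Finset.mem_univ _, by rw [h]; simp only; rw [gridC_dn_up x j hc.2.2]⟩
    · rw [if_neg hc] at hq
      exact absurd hq (Finset.notMem_empty _)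
  have him : ∀ f : Fin D → GJ D M, (univ.image f).card ≤ D := fun f =>
    Finset.card_image_le.trans (by simp)
  refine (Finset.card_le_card hsub).trans ?_
  refine (Finset.card_union_le _ _).trans ?_
  have h1 := Finset.card_union_le (univ.image fun j : Fin D => ((e.1.1, e.1.2, j) : GJ D M))
    (univ.image fun j : Fin D => ((e.1.1, j, e.1.2) : GJ D M))
  have h2 := Finset.card_union_le (univ.image fun i : Fin D => ((gridC_dn e.1.1 i, i, e.1.2) : GJ D M))
    (univ.image fun i : Fin D => ((gridC_dn e.1.1 i, e.1.2, i) : GJ D M))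
  have h3 := him fun j => (e.1.1, e.1.2, j)
  have h4 := him fun j => (e.1.1, j, e.1.2)
  have h5 := him fun i => (gridC_dn e.1.1 i, i, e.1.2)
  have h6 := him fun i => (gridC_dn e.1.1 i, e.1.2, i)
  omega

lemma gout_le (v : GV D M) : (univ.filter fun e : GE D M => gsrc e = v).card ≤ D := by
  classical
  have h : (univ.filter fun e : GE D M => gsrc e = v).card ≤ (univ : Finset (Fin D)).card := by
    apply Finset.card_le_card_of_injOn (fun e => e.1.2) (fun _ _ => Finset.mem_coe.2 (Finset.mem_univ _))
    intro e he e' he' h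
    simp only [Finset.coe_filter, Finset.mem_univ, true_and, Set.mem_ofPred_eq] at he he'
    apply Subtype.ext
    exact Prod.ext (show gsrc e = gsrc e' by rw [he, he']) h
  simpa using h

lemma gin_le (v : GV D M) : (univ.filter fun e : GE D M => gtgt e = v).card ≤ D := by
  classical
  have h : (univ.filter fun e : GE D M => gtgt e = v).card ≤ (univ : Finset (Fin D)).card := by
    apply Finset.card_le_card_of_injOn (fun e => e.1.2) (fun _ _ => Finset.mem_coe.2 (Finset.mem_univ _))
    intro e he e' he' h
    simp only [Finset.coe_filter, Finset.mem_univ, true_and, Set.mem_ofPred_eq] at he he'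
    have h0 : gtgt e = gtgt e' := by rw [he, he']
    obtain ⟨⟨x, i⟩, hx⟩ := e
    obtain ⟨⟨x', i'⟩, hx'⟩ := e'
    simp only at h
    subst h
    apply Subtype.ext
    refine Prod.ext ?_ rfl
    simp only
    funext j
    have h1 := congrFun h0 j
    unfold gtgt at h1
    simp only at h1
    by_cases hj : j = i
    · subst hj
      rw [Function.update_self, Function.update_self, Fin.mk.injEq] at h1
      exact Fin.ext (by omega)
    · rw [Function.update_of_ne hj, Function.update_of_ne hj] at h1
      exact h1
  simpa using h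

lemma oddCharge_gcharge (hM : 1 ≤ M) : Net.OddCharge (gcharge (D := D) (M := M)) := by
  classical
  unfold Net.OddCharge
  unfold chi
  rw [Finset.prod_eq_single (fun _ => (⟨0, hM⟩ : Fin M))]
  · simp [gcharge, sg]
  · intro v _ hv
    have h1 : gcharge v = false := by
      unfold gcharge
      rw [decide_eq_false_iff_not]
      intro h
      apply hv
      funext i
      exact Fin.ext (h i)
    rw [h1]
    simp [sg]
  · intro h
    exact absurd (Finset.mem_univ _) h

lemma card_GV : Fintype.card (GV D M) = M ^ D := by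
  simp [GV]

lemma card_GE_le : Fintype.card (GE D M) ≤ D * M ^ D := by
  have h := Fintype.card_subtype_le fun e : GV D M × Fin D => (e.1 e.2).val + 1 < M
  refine h.trans (le_of_eq ?_)
  rw [Fintype.card_prod, card_GV, Fintype.card_fin, Nat.mul_comm]

lemma le_card_GE (hM : 2 ≤ M) (hD : 2 ≤ D) : M ^ D ≤ Fintype.card (GE D M) := by
  classical
  rw [← card_GV (D := D) (M := M)]
  let i0 : Fin D := ⟨0, by omega⟩
  let i1 : Fin D := ⟨1, by omega⟩
  have h01 : i0 ≠ i1 := by
    intro h
    have := congrArg Fin.val h
    simp [i0, i1] at this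
  let z : Fin M := ⟨0, by omega⟩
  let w : GV D M → GV D M := fun x => Function.update (Function.update x i0 z) i1 z
  have hw0 : ∀ x, w x i0 = z := by
    intro x
    simp only [w]
    rw [Function.update_of_ne h01, Function.update_self]
  have hw1 : ∀ x, w x i1 = z := by
    intro x
    simp only [w]
    rw [Function.update_self]
  have hwo : ∀ x j, j ≠ i0 → j ≠ i1 → w x j = x j := by
    intro x j h0 h1
    simp only [w]
    rw [Function.update_of_ne h1, Function.update_of_ne h0]
  have hwM : ∀ x, (w x i1).val + 1 < M := by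
    intro x
    rw [hw1]
    simp [z]
    omega
  let f : GV D M → GE D M := fun x =>
    if h0 : (x i0).val + 1 < M then ⟨(x, i0), h0⟩
    else if h1 : (x i1).val + 1 < M then ⟨(x, i1), h1⟩ else ⟨(w x, i1), hwM x⟩
  apply Fintype.card_le_of_injective f
  intro x x' h
  have hf : ∀ x : GV D M, ((x i0).val + 1 < M ∧ (f x).1 = (x, i0)) ∨
      (¬ (x i0).val + 1 < M ∧ (x i1).val + 1 < M ∧ (f x).1 = (x, i1)) ∨
      (¬ (x i0).val + 1 < M ∧ ¬ (x i1).val + 1 < M ∧ (f x).1 = (w x, i1)) := by
    intro x
    by_cases h0 : (x i0).val + 1 < M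
    · left
      refine ⟨h0, ?_⟩
      simp only [f]
      rw [dif_pos h0]
    · by_cases h1 : (x i1).val + 1 < M
      · right; left
        refine ⟨h0, h1, ?_⟩
        simp only [f]
        rw [dif_neg h0, dif_pos h1]
      · right; right
        refine ⟨h0, h1, ?_⟩
        simp only [f]
        rw [dif_neg h0, dif_neg h1]
  have hz : z.val + 1 < M := by simp [z]; omega
  rcases hf x with ⟨a1, a2⟩ | ⟨a1, a2, a3⟩ | ⟨a1, a2, a3⟩ <;>
    rcases hf x' with ⟨b1, b2⟩ | ⟨b1, b2, b3⟩ | ⟨b1, b2, b3⟩
  · rw [h, b2] at a2
    exact (Prod.mk.inj a2).1.symm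
  · rw [h, b3] at a2
    exact absurd (Prod.mk.inj a2).2.symm h01
  · rw [h, b3] at a2
    exact absurd (Prod.mk.inj a2).2.symm h01
  · rw [h, b2] at a3
    exact absurd (Prod.mk.inj a3).2 h01
  · rw [h, b3] at a3
    exact (Prod.mk.inj a3).1.symm
  · rw [h, b3] at a3
    exfalso
    apply a1
    rw [← (Prod.mk.inj a3).1, hw0]
    exact hz
  · rw [h, b2] at a3
    exact absurd (Prod.mk.inj a3).2 h01
  · rw [h, b3] at a3
    exfalso
    apply b1
    rw [(Prod.mk.inj a3).1, hw0]
    exact hz
  · rw [h, b3] at a3
    have hww := (Prod.mk.inj a3).1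
    funext j
    by_cases h0 : j = i0
    · subst h0
      apply Fin.ext
      have := (x i0).isLt
      have := (x' i0).isLt
      omega
    by_cases h1 : j = i1
    · subst h1
      apply Fin.ext
      have := (x i1).isLt
      have := (x' i1).isLt
      omega
    rw [← hwo x j h0 h1, ← hwo x' j h0 h1, hww]

end GridLine
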