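import Pool.Agent.Work.MP_c07f0d_lc.TL.GridA
import Pool.Agent.Work.MP_c07f0d_lc.TL.GridB
import Pool.Agent.Work.MP_c07f0d_lc.TL.GridC

/-!
# The grid as a net
-/

set_option linter.unusedSectionVars false

namespace GridLine

open Finset LineSize

variable {D M : ℕ}

/-- The grid as a net. -/
def gridNet (D M : ℕ) (hM : 1 ≤ M) : Net (GV D M) (GE D M) (GJ D M) where
  src := gsrc
  tgt := gtgt
  path := gpath
  cyc := gcyc
  lam := M
  deg := D
  B := 4 * D
  lam_pos := hM
  path_spec := gpath_spec
  cyc_spec := gcyc_spec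
  orth := gcyc_orth
  cong := gpath_cong
  out_le := gout_le
  in_le := gin_le
  cyc_le := gcyc_le

end GridLine
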