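import Pool.Agent.Work.MP_c07f0d_lc.TL.StB
import Pool.Agent.Work.MP_c07f0d_lc.TL.Grid

/-!
# One stage on grids
-/

set_option linter.unusedSectionVars false

namespace GridLine

open Finset LineSize

/-- The constant which `θ` has to exceed. -/
noncomputable def thF (D s : ℕ) (A : ℝ) : ℝ :=
  Real.exp 1 * ((9 ^ (4 * D * (s + 2)) * 2) ^ 2 ^ (s + 2) * (36 * A ^ 2 * 2 ^ (s + 1)) ^ 2 * 2)

lemma thF_one_le {D s : ℕ} {A : ℝ} (hA : 1 ≤ A) : 1 ≤ thF D s A := by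
  unfold thF
  have h1 : (1 : ℝ) ≤ Real.exp 1 := by
    have := Real.add_one_le_exp (1 : ℝ)
    linarith
  have h2 : (1 : ℝ) ≤ (9 ^ (4 * D * (s + 2)) * 2) ^ 2 ^ (s + 2) := by
    refine one_le_pow₀ ?_
    have : (1 : ℝ) ≤ 9 ^ (4 * D * (s + 2)) := one_le_pow₀ (by norm_num)
    linarith
  have h3 : (1 : ℝ) ≤ (36 * A ^ 2 * 2 ^ (s + 1)) ^ 2 := by
    refine one_le_pow₀ ?_
    have e1 : (1 : ℝ) ≤ A ^ 2 := one_le_pow₀ hA
    have e2 : (1 : ℝ) ≤ 2 ^ (s + 1) := one_le_pow₀ (by norm_num)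
    nlinarith
  have h4 : (1 : ℝ) ≤ (9 ^ (4 * D * (s + 2)) * 2) ^ 2 ^ (s + 2) * (36 * A ^ 2 * 2 ^ (s + 1)) ^ 2 :=
    one_le_mul_of_one_le_of_one_le h2 h3
  have h5 : (1 : ℝ) ≤ (9 ^ (4 * D * (s + 2)) * 2) ^ 2 ^ (s + 2) * (36 * A ^ 2 * 2 ^ (s + 1)) ^ 2 * 2 := by
    linarith
  exact one_le_mul_of_one_le_of_one_le h1 h5

/-- The truncation errors are small. -/
lemma om_small {D s x k : ℕ} {Q θ A : ℝ} (hk : 1 ≤ k) (hQ : 1 ≤ Q) (hx : 1 ≤ x) (hA : 1 ≤ A)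
    (hxQ : 6 * x * Q ≤ 2 ^ k) (hθ : thF D s A ≤ θ) :
    3 * om x k Q θ + 2 * Real.sqrt (2 * Real.sqrt (YY x (4 * D) k s Q) * om x k Q θ)
        ≤ (1 / A) ^ k ∧
      2 ^ (s + 1) * Real.sqrt (YY x (4 * D) k s Q) * om x k Q θ ≤ 1 := by
  have hx' : (1 : ℝ) ≤ x := by exact_mod_cast hx
  have hθ1 : 1 ≤ θ := (thF_one_le hA).trans hθ
  have hθ0 : 0 < θ := by linarith
  have hA0 : 0 < A := by linarith
  set W : ℝ := (9 ^ (4 * D * (s + 2)) * 2) ^ 2 ^ (s + 2) with hW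
  set c : ℝ := 36 * A ^ 2 * 2 ^ (s + 1) with hc
  have hW1 : 1 ≤ W := by
    refine one_le_pow₀ ?_
    have : (1 : ℝ) ≤ 9 ^ (4 * D * (s + 2)) := one_le_pow₀ (by norm_num)
    linarith
  have hA2 : (1 : ℝ) ≤ A ^ 2 := one_le_pow₀ hA
  have h2s : (2 : ℝ) ≤ 2 ^ (s + 1) := by
    calc (2 : ℝ) = 2 ^ 1 := by norm_num
      _ ≤ 2 ^ (s + 1) := pow_le_pow_right₀ (by norm_num) (by omega)
  have hc72 : 72 * A ^ 2 ≤ c := by
    rw [hc]
    nlinarith
  have hc1 : 1 ≤ c := by nlinarith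
  have hc0 : 0 < c := by linarith
  have hYY1 : 1 ≤ YY x (4 * D) k s Q := by
    unfold YY
    refine one_le_pow₀ ?_
    have e1 : (1 : ℝ) ≤ 9 ^ (4 * D * k * (s + 2)) := one_le_pow₀ (by norm_num)
    have e2 : (1 : ℝ) ≤ 3 * x * Q := by nlinarith
    exact one_le_mul_of_one_le_of_one_le e1 e2
  have hYYle : YY x (4 * D) k s Q ≤ W ^ k := by
    have e1 : (9 : ℝ) ^ (4 * D * k * (s + 2)) * (3 * x * Q) ≤ (9 ^ (4 * D * (s + 2)) * 2) ^ k := by
      rw [mul_pow, ← pow_mul]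
      have e2 : 4 * D * k * (s + 2) = 4 * D * (s + 2) * k := by ring
      rw [e2]
      refine mul_le_mul_of_nonneg_left ?_ (by positivity)
      have : 3 * (x : ℝ) * Q ≤ 6 * x * Q := by nlinarith
      exact this.trans hxQ
    unfold YY
    calc ((9 : ℝ) ^ (4 * D * k * (s + 2)) * (3 * x * Q)) ^ 2 ^ (s + 2)
        ≤ ((9 ^ (4 * D * (s + 2)) * 2) ^ k) ^ 2 ^ (s + 2) :=
          pow_le_pow_left₀ (by positivity) e1 _
      _ = W ^ k := by
          rw [hW, ← pow_mul, ← pow_mul, mul_comm k]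
  have homsq : 6 * (x : ℝ) * (Q * (Real.exp 1 / θ) ^ k) ≤ (2 * (Real.exp 1 / θ)) ^ k := by
    rw [mul_pow]
    have e1 : 0 ≤ (Real.exp 1 / θ) ^ k := by positivity
    nlinarith
  have hkey : Real.sqrt (YY x (4 * D) k s Q) * om x k Q θ ≤ (1 / c) ^ k := by
    unfold om
    rw [← Real.sqrt_mul (by linarith)]
    have e1 : YY x (4 * D) k s Q * (6 * x * (Q * (Real.exp 1 / θ) ^ k)) ≤ ((1 / c) ^ k) ^ 2 := by
      calc YY x (4 * D) k s Q * (6 * x * (Q * (Real.exp 1 / θ) ^ k))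
          ≤ W ^ k * (2 * (Real.exp 1 / θ)) ^ k :=
            mul_le_mul hYYle homsq (by positivity) (by positivity)
        _ = (W * (2 * (Real.exp 1 / θ))) ^ k := by rw [← mul_pow]
        _ ≤ ((1 / c) ^ 2) ^ k := by
            refine pow_le_pow_left₀ (by positivity) ?_ _
            have e2 : W * (2 * (Real.exp 1 / θ)) = (W * 2 * Real.exp 1) / θ := by ring
            rw [e2, div_le_iff₀ hθ0]
            have e3 : (1 / c) ^ 2 * θ ≥ (1 / c) ^ 2 * (Real.exp 1 * (W * c ^ 2 * 2)) :=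
              mul_le_mul_of_nonneg_left hθ (by positivity)
            have e4 : (1 / c) ^ 2 * (Real.exp 1 * (W * c ^ 2 * 2)) = W * 2 * Real.exp 1 := by
              field_simp
            linarith
        _ = ((1 / c) ^ k) ^ 2 := by
            rw [← pow_mul, ← pow_mul, mul_comm]
    exact Real.sqrt_le_iff.mpr ⟨by positivity, e1⟩
  have hsY : 1 ≤ Real.sqrt (YY x (4 * D) k s Q) := by
    rw [show (1 : ℝ) = Real.sqrt 1 by simp]
    exact Real.sqrt_le_sqrt hYY1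
  have hom0 : 0 ≤ om x k Q θ := Real.sqrt_nonneg _
  have hom : om x k Q θ ≤ (1 / c) ^ k := by nlinarith
  have hck : (1 / c) ^ k ≤ (1 / (72 * A ^ 2)) ^ k := by
    refine pow_le_pow_left₀ (by positivity) ?_ _
    exact one_div_le_one_div_of_le (by positivity) hc72
  have hAk : 0 < (1 / A) ^ k := by positivity
  have h72 : (1 / (72 * A ^ 2)) ^ k ≤ (1 / 72) * ((1 / A) ^ k) ^ 2 := by
    have e1 : (1 / (72 * A ^ 2)) ^ k = (1 / 72) ^ k * ((1 / A) ^ k) ^ 2 := by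
      rw [← pow_mul, mul_comm k 2, pow_mul, ← mul_pow]
      congr 1
      field_simp
    rw [e1]
    refine mul_le_mul_of_nonneg_right ?_ (by positivity)
    calc (1 / 72 : ℝ) ^ k ≤ (1 / 72) ^ 1 := pow_le_pow_of_le_one (by norm_num) (by norm_num) hk
      _ = 1 / 72 := by norm_num
  have hAk1 : (1 / A) ^ k ≤ 1 := by
    refine pow_le_one₀ (by positivity) ?_
    rw [div_le_one hA0]
    exact hA
  refine ⟨?_, ?_⟩
  · have e1 : Real.sqrt (2 * Real.sqrt (YY x (4 * D) k s Q) * om x k Q θ) ≤ (1 / 6) * (1 / A) ^ k := by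
      refine Real.sqrt_le_iff.mpr ⟨by positivity, ?_⟩
      have : 2 * Real.sqrt (YY x (4 * D) k s Q) * om x k Q θ
          = 2 * (Real.sqrt (YY x (4 * D) k s Q) * om x k Q θ) := by ring
      rw [this]
      nlinarith
    nlinarith
  · have e1 : (1 / c) ^ k ≤ 1 / c := by
      calc (1 / c) ^ k ≤ (1 / c) ^ 1 := by
            refine pow_le_pow_of_le_one (by positivity) ?_ hk
            rw [div_le_one hc0]
            exact hc1
        _ = 1 / c := by rw [pow_one]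
    have e2 : 2 ^ (s + 1) * (1 / c) ≤ 1 := by
      rw [mul_one_div, div_le_one hc0, hc]
      nlinarith
    calc 2 ^ (s + 1) * Real.sqrt (YY x (4 * D) k s Q) * om x k Q θ
        = 2 ^ (s + 1) * (Real.sqrt (YY x (4 * D) k s Q) * om x k Q θ) := by ring
      _ ≤ 2 ^ (s + 1) * (1 / c) := by
          refine mul_le_mul_of_nonneg_left (hkey.trans e1) (by positivity)
      _ ≤ 1 := e2

/-- The grid of side `u ^ v`. -/
def gN (D u v : ℕ) (hu : 1 ≤ u) : Net (GV D (u ^ v)) (GE D (u ^ v)) (GJ D (u ^ v)) :=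
  gridNet D (u ^ v) (Nat.one_le_pow _ _ hu)

/-- One stage on grids. -/
theorem grid_stage {D v κ κ' s x u : ℕ} {Q η θ A : ℝ} {I R : Type} [Fintype I] [Fintype R]
    (rel : R → Rl I) (hu : 1 ≤ u) (hx : 1 ≤ x) (hI : Fintype.card I ≤ x)
    (hR : Fintype.card R ≤ x) (hQ : 1 ≤ Q) (hη : 0 < η) (hA : 1 ≤ A)
    (hv : 1 ≤ v) (hD : v + 2 ≤ D) (h1 : κ + v + 3 ≤ v * D) (h2 : κ + v + 2 ≤ κ' + D)
    (h3 : κ' ≤ κ + 1) (hu1 : 2 ^ (s + 10) ≤ u) (hu2 : 2 * 3 ^ (2 * D) ≤ u)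
    (hu3 : 2 * (1 + θ) ^ (2 * D) ≤ u) (hu4 : 32 * (1 + D) * u ^ ((v + 1) * D) ≤ 2 ^ u)
    (hθ : thF D s A ≤ θ) (hxQ : 6 * x * Q ≤ 2 ^ (u ^ κ')) (hηA : (1 / A) ^ (u ^ κ') ≤ η)
    {p : I → (GE D (u ^ (v + 1)) → Bool) → ℝ}
    (hp : Fam (gN D u (v + 1) hu) gcharge rel (u ^ κ) (s + 2) Q η p) :
    ∃ q, Fam (gN D u v hu) gcharge rel (u ^ κ') s (6 * x * Q) (4 * x * η) q := by
  have hθ1 : 1 ≤ θ := (thF_one_le hA).trans hθ
  have hk1 : 1 ≤ u ^ κ' := Nat.one_le_pow _ _ hu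
  have hom := om_small (D := D) (s := s) (x := x) (k := u ^ κ') (Q := Q) (θ := θ) (A := A) hk1 hQ
    hx hA hxQ hθ
  have hc : ∀ w, Fintype.card (GV D (u ^ w)) = u ^ (w * D) := by
    intro w
    rw [card_GV, ← pow_mul]
  have hpow : ∀ {a b : ℕ}, a ≤ b → u ^ a ≤ u ^ b := fun h => Nat.pow_le_pow_right hu h
  have h2s : 2 ^ (s + 10) = 1024 * 2 ^ s := by
    rw [pow_add]
    norm_num
    ring
  have hlam : ∀ w, (gN D u w hu).lam = u ^ w := fun w => rfl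
  refine stage (gN D u (v + 1) hu) (gN D u v hu) (oddCharge_gcharge (Nat.one_le_pow _ _ hu))
    (oddCharge_gcharge (Nat.one_le_pow _ _ hu)) rel (u := u) (θ := θ) hx hI hR hQ hη hθ1 ?_ ?_ ?_
    ?_ ?_ ?_ ?_ ?_ ?_ hp
  · -- k ≤ u * K
    calc u ^ κ' ≤ u ^ (κ + 1) := hpow h3
      _ = u * u ^ κ := by rw [pow_succ, mul_comm]
  · -- Ok₀
    refine ⟨?_, ?_⟩
    · rw [hc, hlam]
      have e : 128 * u ^ (v + 1) * (2 ^ (s + 3) * u ^ κ) = 2 ^ (s + 10) * u ^ (κ + v + 1) := by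
        rw [show s + 10 = s + 3 + 7 by ring, pow_add 2 (s + 3) 7, show κ + v + 1 = κ + (v + 1) by ring,
          pow_add u κ (v + 1)]
        norm_num
        ring
      rw [e]
      calc 2 ^ (s + 10) * u ^ (κ + v + 1) ≤ u * u ^ (κ + v + 1) := Nat.mul_le_mul_right _ hu1
        _ = u ^ (κ + v + 2) := by rw [← pow_succ']
        _ ≤ u ^ ((v + 1) * D) := hpow (by nlinarith)
    · rw [hc]
      exact Nat.pow_pos hu
  · -- Ok₁
    refine ⟨?_, ?_⟩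
    · rw [hc, hlam]
      have e : 128 * u ^ v * (2 ^ (s + 3) * (u * u ^ κ)) = 2 ^ (s + 10) * u ^ (κ + v + 1) := by
        rw [show s + 10 = s + 3 + 7 by ring, pow_add 2 (s + 3) 7, show κ + v + 1 = κ + (v + 1) by ring,
          pow_add u κ (v + 1), pow_succ]
        norm_num
        ring
      rw [e]
      calc 2 ^ (s + 10) * u ^ (κ + v + 1) ≤ u * u ^ (κ + v + 1) := Nat.mul_le_mul_right _ hu1
        _ = u ^ (κ + v + 2) := by rw [← pow_succ']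
        _ ≤ u ^ (v * D) := hpow (by omega)
    · rw [hc]
      exact Nat.pow_pos hu
  · -- tower
    rw [hc, hlam]
    have e : 8 * u * u ^ (v + 1) * (2 ^ (s + 3) * u ^ κ) = 2 ^ (s + 6) * u ^ (κ + v + 2) := by
      rw [show s + 6 = s + 3 + 3 by ring, pow_add 2 (s + 3) 3, show κ + v + 2 = κ + (v + 1) + 1 by ring,
        pow_succ u (κ + (v + 1)), pow_add u κ (v + 1)]
      norm_num
      ring
    rw [e]
    have e2 : 2 ^ (s + 6) ≤ u := (Nat.pow_le_pow_right (by norm_num) (by omega)).trans hu1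
    calc 2 ^ (s + 6) * u ^ (κ + v + 2) ≤ u * u ^ (κ + v + 2) := Nat.mul_le_mul_right _ e2
      _ = u ^ (κ + v + 3) := by rw [← pow_succ']
      _ ≤ u ^ (v * D) := hpow h1
  · -- route
    rw [hc, hc, hlam]
    have e : 2 * 3 ^ (2 * (gN D u v hu).deg) * u ^ (v + 1) * u ^ (v * D)
        = 2 * 3 ^ (2 * D) * u ^ (v + 1 + v * D) := by
      rw [pow_add u (v + 1)]
      show 2 * 3 ^ (2 * D) * u ^ (v + 1) * u ^ (v * D) = _
      ring
    rw [e]
    calc 2 * 3 ^ (2 * D) * u ^ (v + 1 + v * D) ≤ u * u ^ (v + 1 + v * D) :=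
          Nat.mul_le_mul_right _ hu2
      _ = u ^ (v + 1 + v * D + 1) := by rw [← pow_succ']
      _ ≤ u ^ ((v + 1) * D) := hpow (by nlinarith)
  · -- u
    have e1 : Fintype.card (GE D (u ^ (v + 1))) ≤ D * u ^ ((v + 1) * D) := by
      have := card_GE_le (D := D) (M := u ^ (v + 1))
      rwa [← pow_mul] at this
    rw [hc]
    calc 32 * (u ^ ((v + 1) * D) + Fintype.card (GE D (u ^ (v + 1))))
        ≤ 32 * (u ^ ((v + 1) * D) + D * u ^ ((v + 1) * D)) := by omega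
      _ = 32 * (1 + D) * u ^ ((v + 1) * D) := by ring
      _ ≤ 2 ^ u := hu4
  · -- tail
    rw [hc, hc, hlam]
    have hu0 : (0 : ℝ) < u := by exact_mod_cast hu
    have hu1' : (1 : ℝ) ≤ u := by exact_mod_cast hu
    push_cast
    have e : 2 * (1 + θ) ^ (2 * (gN D u v hu).deg) * (u : ℝ) ^ (v + 1) * (u : ℝ) ^ κ * (u : ℝ) ^ (v * D)
        = (2 * (1 + θ) ^ (2 * D)) * (u : ℝ) ^ (κ + v + 1 + v * D) := by
      rw [pow_add (u : ℝ) (κ + v + 1), show κ + v + 1 = κ + (v + 1) by ring, pow_add (u : ℝ) κ]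
      show 2 * (1 + θ) ^ (2 * D) * (u : ℝ) ^ (v + 1) * (u : ℝ) ^ κ * (u : ℝ) ^ (v * D) = _
      ring
    rw [e]
    calc (2 * (1 + θ) ^ (2 * D)) * (u : ℝ) ^ (κ + v + 1 + v * D)
        ≤ u * (u : ℝ) ^ (κ + v + 1 + v * D) := mul_le_mul_of_nonneg_right hu3 (by positivity)
      _ = (u : ℝ) ^ (κ + v + 1 + v * D + 1) := by rw [← pow_succ']
      _ ≤ (u : ℝ) ^ (κ' + (v + 1) * D) := by
          refine pow_le_pow_right₀ hu1' ?_
          nlinarith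
      _ = (u : ℝ) ^ κ' * (u : ℝ) ^ ((v + 1) * D) := by rw [pow_add]
  · exact hom.1.trans hηA
  · exact hom.2

end GridLine
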