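import Pool.Agent.Work.MP_c07f0d_lc.TL.MleX
import Pool.Agent.Work.MP_c07f0d_lc.Defs

/-!
# Interpretations: definitions
-/

set_option linter.unusedSectionVars false

namespace GridLine

open Finset LineSize FregeEF

/-- A set of formulas closed under subformulas. -/
structure Closed {α : Type} (In : Fm α → Prop) : Prop where
  neg : ∀ φ, In (.neg φ) → In φ
  and : ∀ φ ψ, In (.and φ ψ) → In φ ∧ In ψ
  or : ∀ φ ψ, In (.or φ ψ) → In φ ∧ In ψ
  imp : ∀ φ ψ, In (.imp φ ψ) → In φ ∧ In ψ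

/-- A family of functions which interprets the formulas of a set up to the error `η`. -/
structure Interp {ι : Type} [Fintype ι] [DecidableEq ι] (P : PE ι) {α : Type} (In : Fm α → Prop)
    (k : ℕ) (η : ℝ) (p : Fm α → (ι → Bool) → ℝ) : Prop where
  deg : ∀ φ, In φ → LowDeg k (p φ)
  idem : ∀ φ, In φ → P.N (fun x => p φ x - p φ x * p φ x) ≤ η
  bot : In .bot → P.N (p .bot) ≤ η
  neg : ∀ φ, In (.neg φ) → P.N (fun x => p (.neg φ) x - (1 - p φ x)) ≤ η
  and : ∀ φ ψ, In (.and φ ψ) → P.N (fun x => p (.and φ ψ) x - p φ x * p ψ x) ≤ η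
  or : ∀ φ ψ, In (.or φ ψ) →
    P.N (fun x => p (.or φ ψ) x - (p φ x + p ψ x - p φ x * p ψ x)) ≤ η
  imp : ∀ φ ψ, In (.imp φ ψ) →
    P.N (fun x => p (.imp φ ψ) x - (1 - p φ x + p φ x * p ψ x)) ≤ η

section

variable {ι : Type} [Fintype ι] [DecidableEq ι] {P : PE ι}

/-- Hypercontractivity of a positive functional. -/
def HC (P : PE ι) (B : ℕ) : Prop :=
  ∀ (t : ℕ) (f : (ι → Bool) → ℝ), 4 * t ≤ P.cap → LowDeg t f →
    P.E (fun x => f x ^ 4) ≤ 9 ^ (B * t) * P.E (fun x => f x ^ 2) ^ 2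

/-- The Boolean function of a formula in the first `n` variables. -/
noncomputable def fmB (n : ℕ) (A : Fm ℕ) (v : Fin n → Bool) : ℝ := by
  classical
  exact if A.eval (fun j => if h : j < n then v ⟨j, h⟩ = true else False) then 1 else 0

end

end GridLine
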