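import Pool.Agent.Work.MP_c07f0d_lc.LS.Tree

/-!
# Linear functionals which are positive on squares of low degree
-/

set_option linter.unusedSectionVars false

namespace GridLine

open Finset LineSize

/-- A linear functional on the functions on a cube which is nonnegative on the squares of the
functions of degree at most `cap`. -/
structure PE (ι : Type) [Fintype ι] [DecidableEq ι] where
  /-- the functional -/
  E : ((ι → Bool) → ℝ) → ℝ
  /-- the degree up to which it is positive -/
  cap : ℕ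
  add' : ∀ f g, E (fun x => f x + g x) = E f + E g
  smul' : ∀ (a : ℝ) f, E (fun x => a * f x) = a * E f
  psd : ∀ f, LowDeg cap f → 0 ≤ E (fun x => f x ^ 2)

namespace PE

variable {ι : Type} [Fintype ι] [DecidableEq ι] (P : PE ι)

/-- The seminorm. -/
noncomputable def N (f : (ι → Bool) → ℝ) : ℝ := Real.sqrt (P.E fun x => f x ^ 2)

/-- `f` acts by multiplication on the functions of degree at most `t` as an operator of norm at
most `c`. -/
def Bd (t : ℕ) (f : (ι → Bool) → ℝ) (c : ℝ) : Prop :=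
  ∀ u, LowDeg t u → P.N (fun x => f x * u x) ≤ c * P.N u

variable {P}

lemma E_zero : P.E (fun _ => 0) = 0 := by
  have h := P.smul' 0 (fun _ => 0)
  simpa using h

lemma E_sub (f g : (ι → Bool) → ℝ) : P.E (fun x => f x - g x) = P.E f - P.E g := by
  have h1 := P.add' f (fun x => (-1) * g x)
  have h2 := P.smul' (-1) g
  have h3 : (fun x => f x - g x) = fun x => f x + (-1) * g x := by funext x; ring
  rw [h3, h1, h2]; ring

lemma E_sum {κ : Type*} (s : Finset κ) (f : κ → (ι → Bool) → ℝ) :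
    P.E (fun x => ∑ k ∈ s, f k x) = ∑ k ∈ s, P.E (f k) := by
  classical
  induction s using Finset.induction_on with
  | empty => simpa using E_zero
  | insert k s hk ih =>
    simp only [sum_insert hk]
    rw [P.add', ih]

lemma N_nonneg (f : (ι → Bool) → ℝ) : 0 ≤ P.N f := Real.sqrt_nonneg _

lemma N_sq {f : (ι → Bool) → ℝ} (hf : LowDeg P.cap f) : P.N f ^ 2 = P.E fun x => f x ^ 2 :=
  Real.sq_sqrt (P.psd f hf)

/-- Cauchy–Schwarz. -/
lemma cs {f g : (ι → Bool) → ℝ} (hf : LowDeg P.cap f) (hg : LowDeg P.cap g) :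
    |P.E fun x => f x * g x| ≤ P.N f * P.N g := by
  have h1 : ∀ s : ℝ, 0 ≤ (P.E fun x => g x ^ 2) * (s * s) + (2 * P.E fun x => f x * g x) * s +
      P.E fun x => f x ^ 2 := by
    intro s
    have h2 := P.psd (fun x => f x + s * g x) (hf.add (hg.const_mul s))
    have h3 : (fun x => (f x + s * g x) ^ 2) =
        fun x => (s * s) * g x ^ 2 + ((2 * s) * (f x * g x) + f x ^ 2) := by
      funext x; ring
    rw [h3, P.add' (fun x => (s * s) * g x ^ 2) (fun x => (2 * s) * (f x * g x) + f x ^ 2),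
      P.add' (fun x => (2 * s) * (f x * g x)) (fun x => f x ^ 2),
      P.smul' (s * s) (fun x => g x ^ 2), P.smul' (2 * s) (fun x => f x * g x)] at h2
    linarith
  have h4 := discrim_le_zero h1
  unfold discrim at h4
  have h5 : (P.E fun x => f x * g x) ^ 2 ≤ (P.E fun x => f x ^ 2) * P.E fun x => g x ^ 2 := by
    nlinarith
  unfold N
  rw [← Real.sqrt_mul (P.psd f hf), ← Real.sqrt_sq_eq_abs]
  exact Real.sqrt_le_sqrt h5

/-- Cauchy–Schwarz, squared. -/
lemma cs' {f g : (ι → Bool) → ℝ} (hf : LowDeg P.cap f) (hg : LowDeg P.cap g) :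
    (P.E fun x => f x * g x) ^ 2 ≤ (P.E fun x => f x ^ 2) * P.E fun x => g x ^ 2 := by
  have h1 := cs hf hg
  rw [← N_sq hf, ← N_sq hg, ← mul_pow, ← sq_abs]
  exact pow_le_pow_left₀ (abs_nonneg _) h1 2

lemma N_add_le {f g : (ι → Bool) → ℝ} (hf : LowDeg P.cap f) (hg : LowDeg P.cap g) :
    P.N (fun x => f x + g x) ≤ P.N f + P.N g := by
  have h1 := cs hf hg
  have h2 := N_sq hf
  have h3 := N_sq hg
  have h4 := N_sq (hf.add hg)
  have h5 : (fun x => (f x + g x) ^ 2) =
      fun x => f x ^ 2 + (2 * (f x * g x) + g x ^ 2) := by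
    funext x; ring
  rw [h5, P.add' (fun x => f x ^ 2) (fun x => 2 * (f x * g x) + g x ^ 2),
    P.add' (fun x => 2 * (f x * g x)) (fun x => g x ^ 2),
    P.smul' 2 (fun x => f x * g x)] at h4
  have h6 := (abs_le.1 h1).2
  have h7 := P.N_nonneg f
  have h8 := P.N_nonneg g
  rw [← pow_le_pow_iff_left₀ (P.N_nonneg _) (add_nonneg h7 h8) two_ne_zero, h4]
  nlinarith

lemma N_neg (f : (ι → Bool) → ℝ) : P.N (fun x => - f x) = P.N f := by
  unfold N
  congr 1
  congr 1
  funext x
  ring

lemma N_sub_le {f g : (ι → Bool) → ℝ} (hf : LowDeg P.cap f) (hg : LowDeg P.cap g) :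
    P.N (fun x => f x - g x) ≤ P.N f + P.N g := by
  have h1 : LowDeg P.cap (fun x => - g x) := by
    have := hg.const_mul (-1)
    simpa using this
  have h2 := N_add_le hf h1
  rw [N_neg] at h2
  simpa [sub_eq_add_neg] using h2

lemma N_zero : P.N (fun _ => 0) = 0 := by
  unfold N
  have : (fun _ : ι → Bool => (0 : ℝ) ^ 2) = fun _ => 0 := by funext x; ring
  rw [this, E_zero, Real.sqrt_zero]

lemma N_sum_le {κ : Type*} (s : Finset κ) (f : κ → (ι → Bool) → ℝ)
    (hf : ∀ k ∈ s, LowDeg P.cap (f k)) : P.N (fun x => ∑ k ∈ s, f k x) ≤ ∑ k ∈ s, P.N (f k) := by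
  classical
  induction s using Finset.induction_on with
  | empty => simpa using N_zero.le
  | insert k s hk ih =>
    simp only [sum_insert hk]
    refine (N_add_le (hf k (mem_insert_self _ _))
      (LowDeg.sum fun j hj => hf j (mem_insert_of_mem hj))).trans ?_
    exact add_le_add le_rfl (ih fun j hj => hf j (mem_insert_of_mem hj))

lemma N_const_mul (a : ℝ) (f : (ι → Bool) → ℝ) : P.N (fun x => a * f x) = |a| * P.N f := by
  unfold N
  have h1 : (fun x => (a * f x) ^ 2) = fun x => a ^ 2 * f x ^ 2 := by funext x; ring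
  rw [h1, P.smul' (a ^ 2) (fun x => f x ^ 2), Real.sqrt_mul (sq_nonneg a), Real.sqrt_sq_eq_abs]

lemma N_sub_comm (f g : (ι → Bool) → ℝ) : P.N (fun x => f x - g x) = P.N (fun x => g x - f x) := by
  rw [← N_neg]
  congr 1
  funext x
  ring

namespace Bd

variable {t t' d : ℕ} {f g z : (ι → Bool) → ℝ} {c c' ε : ℝ}

lemma mono (h : P.Bd t f c) (ht : t' ≤ t) (hc : c ≤ c') : P.Bd t' f c' := by
  intro u hu
  exact (h u (hu.mono ht)).trans (mul_le_mul_of_nonneg_right hc (P.N_nonneg u))

lemma congr' (h : P.Bd t f c) (hfg : ∀ x, f x = g x) : P.Bd t g c := by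
  have : f = g := funext hfg
  rwa [← this]

lemma zero (t : ℕ) : P.Bd t (fun _ => 0) 0 := by
  intro u _
  simp only [zero_mul]
  exact N_zero.le

lemma const (t : ℕ) (a : ℝ) : P.Bd t (fun _ => a) |a| := by
  intro u _
  exact (N_const_mul a u).le

lemma const_mul (a : ℝ) (h : P.Bd t f c) : P.Bd t (fun x => a * f x) (|a| * c) := by
  intro u hu
  have h1 : (fun x => a * f x * u x) = fun x => a * (f x * u x) := by funext x; ring
  rw [h1, N_const_mul a (fun x => f x * u x), mul_assoc]
  exact mul_le_mul_of_nonneg_left (h u hu) (abs_nonneg a)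

/-- The product of `f` (bounded on the larger space) and `g` of degree at most `d`. -/
lemma mul (hf : P.Bd (t + d) f c) (hg : P.Bd t g c') (hgd : LowDeg d g) (hc : 0 ≤ c) :
    P.Bd t (fun x => f x * g x) (c * c') := by
  intro u hu
  have h1 : (fun x => f x * g x * u x) = fun x => f x * (g x * u x) := by funext x; ring
  rw [h1, mul_assoc]
  refine (hf (fun x => g x * u x) ((hgd.mul hu).mono (by omega))).trans ?_
  exact mul_le_mul_of_nonneg_left (hg u hu) hc

lemma add (hf : P.Bd t f c) (hg : P.Bd t g c') (hfd : LowDeg d f) (hgd : LowDeg d g)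
    (hcap : t + d ≤ P.cap) : P.Bd t (fun x => f x + g x) (c + c') := by
  intro u hu
  have h1 : (fun x => (f x + g x) * u x) = fun x => f x * u x + g x * u x := by funext x; ring
  rw [h1, add_mul]
  refine (N_add_le ((hfd.mul hu).mono (by omega)) ((hgd.mul hu).mono (by omega))).trans ?_
  exact add_le_add (hf u hu) (hg u hu)

lemma sub (hf : P.Bd t f c) (hg : P.Bd t g c') (hfd : LowDeg d f) (hgd : LowDeg d g)
    (hcap : t + d ≤ P.cap) : P.Bd t (fun x => f x - g x) (c + c') := by
  intro u hu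
  have h1 : (fun x => (f x - g x) * u x) = fun x => f x * u x - g x * u x := by funext x; ring
  rw [h1, add_mul]
  refine (N_sub_le ((hfd.mul hu).mono (by omega)) ((hgd.mul hu).mono (by omega))).trans ?_
  exact add_le_add (hf u hu) (hg u hu)

lemma pse_sq_sub (hz : LowDeg d z) : LowDeg (2 * d) (fun x => z x ^ 2 - z x) :=
  (hz.pow 2).sub (hz.mono (by omega))

/-- Approximate idempotents have norm at most `1 + ε`. -/
lemma idem (hz : LowDeg d z) (h : P.Bd t (fun x => z x ^ 2 - z x) ε) (hε : 0 ≤ ε)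
    (hcap : t + 2 * d ≤ P.cap) : P.Bd t z (1 + ε) := by
  intro u hu
  have hzu : LowDeg P.cap (fun x => z x * u x) := (hz.mul hu).mono (by omega)
  have hu' : LowDeg P.cap u := hu.mono (by omega)
  have hq : LowDeg P.cap (fun x => (z x ^ 2 - z x) * u x) :=
    ((pse_sq_sub hz).mul hu).mono (by omega)
  have h1 := N_sq hzu
  have h2 : (fun x => (z x * u x) ^ 2) =
      fun x => u x * (z x * u x) + ((z x ^ 2 - z x) * u x) * u x := by funext x; ring
  rw [h2, P.add' (fun x => u x * (z x * u x)) (fun x => ((z x ^ 2 - z x) * u x) * u x)] at h1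
  have h3 := (abs_le.1 (cs hu' hzu)).2
  have h4 := (abs_le.1 (cs hq hu')).2
  have h5 := h u hu
  have h6 := P.N_nonneg u
  have h7 := P.N_nonneg (fun x => z x * u x)
  by_contra hcon
  rw [not_le] at hcon
  have h8 : P.N (fun x => (z x ^ 2 - z x) * u x) * P.N u ≤ ε * P.N u * P.N u :=
    mul_le_mul_of_nonneg_right h5 h6
  set X := P.N (fun x => z x * u x) with hX
  set Y := P.N u with hY
  have h9 : X ^ 2 ≤ Y * X + ε * Y * Y := by linarith
  have h10 : 0 ≤ ε * Y := mul_nonneg hε h6
  have h11 : Y ≤ X := by nlinarith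
  have h12 : 0 < X := lt_of_le_of_lt (by positivity) hcon
  have h13 : ε * Y * Y ≤ ε * Y * X := mul_le_mul_of_nonneg_left h11 h10
  have h14 : (1 + ε) * Y * X < X * X := mul_lt_mul_of_pos_right hcon h12
  nlinarith

lemma one_sub_idem (hz : LowDeg d z) (h : P.Bd t (fun x => z x ^ 2 - z x) ε) (hε : 0 ≤ ε)
    (hcap : t + 2 * d ≤ P.cap) : P.Bd t (fun x => 1 - z x) (1 + ε) := by
  refine idem (d := d) ((LowDeg.const d 1).sub hz) ?_ hε hcap
  exact h.congr' fun x => by ring

/-- The mixture of two operators of norm at most `c` by an approximate idempotent. -/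
lemma mix {D : ℕ} (hz : LowDeg d z) (h : P.Bd (t + D) (fun x => z x ^ 2 - z x) ε) (hε : 0 ≤ ε)
    (hc : 0 ≤ c) (hfD : LowDeg D f) (hgD : LowDeg D g)
    (hf : P.Bd (t + d) f c) (hg : P.Bd (t + d) g c) (hcap : t + D + 2 * d ≤ P.cap) :
    P.Bd t (fun x => z x * f x + (1 - z x) * g x) (c * (1 + 2 * ε)) := by
  intro u hu
  have hz1 : LowDeg d (fun x => 1 - z x) := (LowDeg.const d 1).sub hz
  have hzu : LowDeg (t + d) (fun x => z x * u x) := (hz.mul hu).mono (by omega)
  have hz1u : LowDeg (t + d) (fun x => (1 - z x) * u x) := (hz1.mul hu).mono (by omega)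
  have hA : LowDeg P.cap (fun x => f x * (z x * u x)) := (hfD.mul hzu).mono (by omega)
  have hB : LowDeg P.cap (fun x => g x * ((1 - z x) * u x)) := (hgD.mul hz1u).mono (by omega)
  have hfu : LowDeg (t + D) (fun x => f x * u x) := (hfD.mul hu).mono (by omega)
  have hgu : LowDeg (t + D) (fun x => g x * u x) := (hgD.mul hu).mono (by omega)
  have hu' : LowDeg P.cap u := hu.mono (by omega)
  have hqf : LowDeg P.cap (fun x => (z x ^ 2 - z x) * (f x * u x)) :=
    ((pse_sq_sub hz).mul hfu).mono (by omega)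
  have hqu : LowDeg P.cap (fun x => (z x ^ 2 - z x) * u x) :=
    ((pse_sq_sub hz).mul hu).mono (by omega)
  have hrw : (fun x => (z x * f x + (1 - z x) * g x) * u x) =
      fun x => f x * (z x * u x) + g x * ((1 - z x) * u x) := by funext x; ring
  rw [hrw]
  have e0 := N_sq (hA.add hB)
  have e1 : (fun x => (f x * (z x * u x) + g x * ((1 - z x) * u x)) ^ 2) =
      fun x => (f x * (z x * u x)) ^ 2 + ((g x * ((1 - z x) * u x)) ^ 2 +
        (-2) * (((z x ^ 2 - z x) * (f x * u x)) * (g x * u x))) := by funext x; ring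
  rw [e1, P.add' (fun x => (f x * (z x * u x)) ^ 2) (fun x => (g x * ((1 - z x) * u x)) ^ 2 +
      (-2) * (((z x ^ 2 - z x) * (f x * u x)) * (g x * u x))),
    P.add' (fun x => (g x * ((1 - z x) * u x)) ^ 2)
      (fun x => (-2) * (((z x ^ 2 - z x) * (f x * u x)) * (g x * u x))),
    P.smul' (-2) (fun x => ((z x ^ 2 - z x) * (f x * u x)) * (g x * u x))] at e0
  have nA := hf (fun x => z x * u x) hzu
  have nB := hg (fun x => (1 - z x) * u x) hz1u
  have sA := N_sq hA
  have sB := N_sq hB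
  have sz := N_sq (hzu.mono (show t + d ≤ P.cap by omega))
  have sz1 := N_sq (hz1u.mono (show t + d ≤ P.cap by omega))
  have cAB := (abs_le.1 (cs hqf (hgu.mono (show t + D ≤ P.cap by omega)))).1
  have nq := h (fun x => f x * u x) hfu
  have nf := hf u (hu.mono (by omega))
  have ng := hg u (hu.mono (by omega))
  have nqu := h u (hu.mono (by omega))
  have cqu := (abs_le.1 (cs hqu hu')).2
  have su := N_sq hu'
  have e2 : (P.E fun x => (z x * u x) ^ 2) + (P.E fun x => ((1 - z x) * u x) ^ 2) =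
      (P.E fun x => u x ^ 2) + 2 * P.E fun x => ((z x ^ 2 - z x) * u x) * u x := by
    have h1 : (fun x => (z x * u x) ^ 2 + ((1 - z x) * u x) ^ 2) =
        fun x => u x ^ 2 + 2 * (((z x ^ 2 - z x) * u x) * u x) := by funext x; ring
    have h2 := P.add' (fun x => (z x * u x) ^ 2) (fun x => ((1 - z x) * u x) ^ 2)
    rw [h1, P.add' (fun x => u x ^ 2) (fun x => 2 * (((z x ^ 2 - z x) * u x) * u x)),
      P.smul' 2 (fun x => ((z x ^ 2 - z x) * u x) * u x)] at h2
    linarith
  have p0 := P.N_nonneg u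
  have p1 := P.N_nonneg (fun x => f x * (z x * u x))
  have p2 := P.N_nonneg (fun x => g x * ((1 - z x) * u x))
  have p3 := P.N_nonneg (fun x => z x * u x)
  have p4 := P.N_nonneg (fun x => (1 - z x) * u x)
  have p5 := P.N_nonneg (fun x => f x * u x)
  have p6 := P.N_nonneg (fun x => g x * u x)
  have p7 := P.N_nonneg (fun x => (z x ^ 2 - z x) * (f x * u x))
  have p8 := P.N_nonneg (fun x => (z x ^ 2 - z x) * u x)
  set Y := P.N u with hY
  -- squares
  have q1 : P.N (fun x => f x * (z x * u x)) ^ 2 ≤ c ^ 2 * P.N (fun x => z x * u x) ^ 2 := by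
    rw [← mul_pow]; exact pow_le_pow_left₀ p1 nA 2
  have q2 : P.N (fun x => g x * ((1 - z x) * u x)) ^ 2 ≤
      c ^ 2 * P.N (fun x => (1 - z x) * u x) ^ 2 := by
    rw [← mul_pow]; exact pow_le_pow_left₀ p2 nB 2
  have q3 : P.N (fun x => (z x ^ 2 - z x) * (f x * u x)) * P.N (fun x => g x * u x) ≤
      (ε * (c * Y)) * (c * Y) := by
    apply mul_le_mul (nq.trans (mul_le_mul_of_nonneg_left nf hε)) ng p6
    positivity
  have q4 : P.N (fun x => (z x ^ 2 - z x) * u x) * Y ≤ (ε * Y) * Y :=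
    mul_le_mul_of_nonneg_right nqu p0
  have hc2 : 0 ≤ c ^ 2 := sq_nonneg c
  have q5 : c ^ 2 * (P.N (fun x => z x * u x) ^ 2 + P.N (fun x => (1 - z x) * u x) ^ 2) ≤
      c ^ 2 * (Y ^ 2 + 2 * ((ε * Y) * Y)) := by
    apply mul_le_mul_of_nonneg_left _ hc2
    rw [sz, sz1, su]
    linarith
  rw [← pow_le_pow_iff_left₀ (P.N_nonneg _) (by positivity) two_ne_zero, e0, ← sA, ← sB]
  have q6 : 0 ≤ c ^ 2 * ε ^ 2 * Y ^ 2 := by positivity
  nlinarith

end Bd

end PE

end GridLine
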