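import Pool.Agent.Work.MP_c07f0d_lc.TL.RlDef
import Pool.Agent.Work.MP_c07f0d_lc.TL.FinDef
import Pool.Agent.Work.MP_c07f0d_lc.TL.Pse

/-!
# The relations between the members of a set of formulas
-/

set_option linter.unusedSectionVars false

namespace GridLine

open Finset LineSize FregeEF

variable {α : Type}

/-- The trivial relation. -/
noncomputable def trivRl {I : Type} (a : I) : Rl I :=
  ⟨a, a, a, 0, 1, 0, 0, by simp, by simp, by simp⟩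

/-- The relation of idempotence. -/
noncomputable def idemRl {I : Type} (a : I) : Rl I :=
  ⟨a, a, a, 0, 0, 0, 1, by simp, by simp, by simp⟩

/-- The relation `p a = 1`. -/
noncomputable def oneRl {I : Type} (a : I) : Rl I :=
  ⟨a, a, a, 1, 0, 0, 0, by simp, by simp, by simp⟩

/-- The structural relation. -/
noncomputable def strRl (S : Finset (Fm α)) (hS : Closed (· ∈ S)) : {φ : Fm α // φ ∈ S} →
    Rl {φ : Fm α // φ ∈ S}
  | ⟨.var x, h⟩ => trivRl ⟨.var x, h⟩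
  | ⟨.bot, h⟩ => ⟨⟨.bot, h⟩, ⟨.bot, h⟩, ⟨.bot, h⟩, 0, 0, 0, 0, by simp, by simp, by simp⟩
  | ⟨.neg φ, h⟩ => ⟨⟨.neg φ, h⟩, ⟨φ, hS.neg φ h⟩, ⟨φ, hS.neg φ h⟩, 1, -1, 0, 0, by simp, by simp,
      by simp⟩
  | ⟨.and φ ψ, h⟩ => ⟨⟨.and φ ψ, h⟩, ⟨φ, (hS.and φ ψ h).1⟩, ⟨ψ, (hS.and φ ψ h).2⟩, 0, 0, 0, 1,
      by simp, by simp, by simp⟩
  | ⟨.or φ ψ, h⟩ => ⟨⟨.or φ ψ, h⟩, ⟨φ, (hS.or φ ψ h).1⟩, ⟨ψ, (hS.or φ ψ h).2⟩, 0, 1, 1, -1,
      by simp, by simp, by simp⟩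
  | ⟨.imp φ ψ, h⟩ => ⟨⟨.imp φ ψ, h⟩, ⟨φ, (hS.imp φ ψ h).1⟩, ⟨ψ, (hS.imp φ ψ h).2⟩, 1, -1, 0, 1,
      by simp, by simp, by simp⟩

open Classical in
/-- All relations. -/
noncomputable def relOf (S : Finset (Fm α)) (hS : Closed (· ∈ S)) (Γ : List (Fm α)) :
    {φ : Fm α // φ ∈ S} × Fin 3 → Rl {φ : Fm α // φ ∈ S}
  | (φ, 0) => idemRl φ
  | (φ, 1) => strRl S hS φ
  | (φ, 2) => if φ.1 ∈ Γ then oneRl φ else trivRl φ

section

variable {ι : Type} [Fintype ι] [DecidableEq ι] {P : PE ι}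

/-- From an interpretation to the relations. -/
lemma rels_of {S : Finset (Fm α)} (hS : Closed (· ∈ S)) {Γ : List (Fm α)} {η : ℝ}
    (hη : 0 ≤ η) {p : Fm α → (ι → Bool) → ℝ}
    (idem : ∀ φ ∈ S, P.N (fun x => p φ x - p φ x * p φ x) ≤ η)
    (bot : P.N (p .bot) ≤ η)
    (neg : ∀ φ, Fm.neg φ ∈ S → P.N (fun x => p (.neg φ) x - (1 - p φ x)) ≤ η)
    (and : ∀ φ ψ, Fm.and φ ψ ∈ S → P.N (fun x => p (.and φ ψ) x - p φ x * p ψ x) ≤ η)
    (or : ∀ φ ψ, Fm.or φ ψ ∈ S →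
      P.N (fun x => p (.or φ ψ) x - (p φ x + p ψ x - p φ x * p ψ x)) ≤ η)
    (imp : ∀ φ ψ, Fm.imp φ ψ ∈ S →
      P.N (fun x => p (.imp φ ψ) x - (1 - p φ x + p φ x * p ψ x)) ≤ η)
    (ax : ∀ φ ∈ Γ, P.N (fun x => p φ x - 1) ≤ η) (r : {φ : Fm α // φ ∈ S} × Fin 3) :
    P.N ((relOf S hS Γ r).val fun φ => p φ.1) ≤ η := by
  have hN0 : ∀ f : (ι → Bool) → ℝ, (∀ x, f x = 0) → P.N f ≤ η := by
    intro f hf
    have : f = fun _ => 0 := funext hf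
    rw [this, PE.N_zero]
    exact hη
  have hcongr : ∀ f g : (ι → Bool) → ℝ, (∀ x, f x = g x) → P.N g ≤ η → P.N f ≤ η := by
    intro f g hfg hg
    rwa [funext hfg]
  obtain ⟨⟨φ, h⟩, i⟩ := r
  match i with
  | 0 =>
    refine hcongr _ _ ?_ (idem φ h)
    intro x
    simp [relOf, idemRl, Rl.val]
  | 1 =>
    match φ, h with
    | .var x, h =>
      refine hN0 _ ?_
      intro x
      simp [relOf, strRl, trivRl, Rl.val]
    | .bot, h =>
      refine hcongr _ _ ?_ bot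
      intro x
      simp [relOf, strRl, Rl.val]
    | .neg φ, h =>
      refine hcongr _ _ ?_ (neg φ h)
      intro x
      simp [relOf, strRl, Rl.val]
      ring
    | .and φ ψ, h =>
      refine hcongr _ _ ?_ (and φ ψ h)
      intro x
      simp [relOf, strRl, Rl.val]
    | .or φ ψ, h =>
      refine hcongr _ _ ?_ (or φ ψ h)
      intro x
      simp [relOf, strRl, Rl.val]
      ring
    | .imp φ ψ, h =>
      refine hcongr _ _ ?_ (imp φ ψ h)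
      intro x
      simp [relOf, strRl, Rl.val]
      ring
  | 2 =>
    by_cases hφ : φ ∈ Γ
    · refine hcongr _ _ ?_ (ax φ hφ)
      intro x
      simp [relOf, hφ, oneRl, Rl.val]
    · refine hN0 _ ?_
      intro x
      simp [relOf, hφ, trivRl, Rl.val]

/-- The extension of a family by zero. -/
noncomputable def ext0 [DecidableEq α] (S : Finset (Fm α)) (q : {φ : Fm α // φ ∈ S} → (ι → Bool) → ℝ)
    (φ : Fm α) : (ι → Bool) → ℝ := if h : φ ∈ S then q ⟨φ, h⟩ else fun _ => 0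

lemma ext0_of [DecidableEq α] {S : Finset (Fm α)} (q : {φ : Fm α // φ ∈ S} → (ι → Bool) → ℝ)
    {φ : Fm α} (h : φ ∈ S) : ext0 S q φ = q ⟨φ, h⟩ := by
  unfold ext0
  rw [dif_pos h]

/-- From the relations to an interpretation. -/
lemma interp_of [DecidableEq α] {S : Finset (Fm α)} (hS : Closed (· ∈ S)) {Γ : List (Fm α)} {η : ℝ}
    {k : ℕ} {q : {φ : Fm α // φ ∈ S} → (ι → Bool) → ℝ} (hdeg : ∀ a, LowDeg k (q a))
    (hr : ∀ r, P.N ((relOf S hS Γ r).val q) ≤ η) :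
    Interp P (· ∈ S) k η (ext0 S q) ∧
      ∀ φ ∈ Γ, φ ∈ S → P.N (fun x => 1 - ext0 S q φ x) ≤ η := by
  have hcongr : ∀ f g : (ι → Bool) → ℝ, (∀ x, g x = f x) → P.N f ≤ η → P.N g ≤ η := by
    intro f g hfg hg
    rwa [funext hfg]
  refine ⟨⟨?_, ?_, ?_, ?_, ?_, ?_, ?_⟩, ?_⟩
  · intro φ h
    rw [ext0_of q h]
    exact hdeg _
  · intro φ h
    refine hcongr _ _ ?_ (hr (⟨φ, h⟩, 0))
    intro x
    rw [ext0_of q h]
    simp [relOf, idemRl, Rl.val]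
  · intro h
    refine hcongr _ _ ?_ (hr (⟨.bot, h⟩, 1))
    intro x
    rw [ext0_of q h]
    simp [relOf, strRl, Rl.val]
  · intro φ h
    refine hcongr _ _ ?_ (hr (⟨.neg φ, h⟩, 1))
    intro x
    rw [ext0_of q h, ext0_of q (hS.neg φ h)]
    simp [relOf, strRl, Rl.val]
    ring
  · intro φ ψ h
    refine hcongr _ _ ?_ (hr (⟨.and φ ψ, h⟩, 1))
    intro x
    rw [ext0_of q h, ext0_of q (hS.and φ ψ h).1, ext0_of q (hS.and φ ψ h).2]
    simp [relOf, strRl, Rl.val]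
  · intro φ ψ h
    refine hcongr _ _ ?_ (hr (⟨.or φ ψ, h⟩, 1))
    intro x
    rw [ext0_of q h, ext0_of q (hS.or φ ψ h).1, ext0_of q (hS.or φ ψ h).2]
    simp [relOf, strRl, Rl.val]
    ring
  · intro φ ψ h
    refine hcongr _ _ ?_ (hr (⟨.imp φ ψ, h⟩, 1))
    intro x
    rw [ext0_of q h, ext0_of q (hS.imp φ ψ h).1, ext0_of q (hS.imp φ ψ h).2]
    simp [relOf, strRl, Rl.val]
    ring
  · intro φ hφ h
    rw [PE.N_sub_comm]
    refine hcongr _ _ ?_ (hr (⟨φ, h⟩, 2))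
    intro x
    rw [ext0_of q h]
    simp [relOf, hφ, oneRl, Rl.val]

end

end GridLine
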