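import Pool.Agent.Work.MP_c07f0d_lc.TL.Net

/-!
# Canonical representatives, positivity and projections
-/

set_option linter.unusedSectionVars false

namespace GridLine

open Finset LineSize

namespace Net

variable {V E J : Type} [Fintype V] [DecidableEq V] [Fintype E] [DecidableEq E] [Fintype J]
  [DecidableEq J] (G : Net V E J)

/-- Equivalence of edge sets. -/
def Eqv (A B : Finset E) : Prop := G.Cut (symmDiff A B)

lemma worldA_refl (A : Finset E) : G.Eqv A A := by
  unfold Eqv
  rw [symmDiff_self]
  exact cut_empty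

lemma worldA_symm {A B : Finset E} (h : G.Eqv A B) : G.Eqv B A := by
  unfold Eqv at h ⊢
  rwa [symmDiff_comm]

lemma worldA_trans {A B C : Finset E} (h : G.Eqv A B) (h' : G.Eqv B C) : G.Eqv A C := by
  unfold Eqv at h h' ⊢
  have h1 := cut_symmDiff h h'
  have h2 : symmDiff (symmDiff A B) (symmDiff B C) = symmDiff A C := by
    rw [symmDiff_comm B C]
    exact symmDiff_cancel A B C
  rwa [h2] at h1

/-- There is a choice of representatives of minimal cardinality. -/
theorem exists_rp : ∃ rp : Finset E → Finset E, (∀ A, G.Eqv A (rp A)) ∧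
    (∀ A B, G.Eqv A B → rp A = rp B) ∧ (∀ A, (rp A).card ≤ A.card) := by
  classical
  let cls : Finset E → Finset (Finset E) := fun A => univ.filter fun B => G.Eqv A B
  have hne : ∀ A, (cls A).Nonempty := fun A =>
    ⟨A, Finset.mem_filter.2 ⟨Finset.mem_univ _, G.worldA_refl A⟩⟩
  let m : Finset (Finset E) → Finset E := fun C =>
    if h : C.Nonempty then (Finset.exists_min_image C Finset.card h).choose else ∅
  have hm : ∀ C (h : C.Nonempty), m C ∈ C ∧ ∀ B ∈ C, (m C).card ≤ B.card := by
    intro C h
    have h1 := (Finset.exists_min_image C Finset.card h).choose_spec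
    simp only [m, dif_pos h]
    exact h1
  refine ⟨fun A => m (cls A), fun A => ?_, fun A B h => ?_, fun A => ?_⟩
  · exact (Finset.mem_filter.1 (hm (cls A) (hne A)).1).2
  · have : cls A = cls B := by
      ext C
      simp only [cls, Finset.mem_filter, Finset.mem_univ, true_and]
      exact ⟨fun h' => G.worldA_trans (G.worldA_symm h) h', fun h' => G.worldA_trans h h'⟩
    simp only [this]
  · exact (hm (cls A) (hne A)).2 A (Finset.mem_filter.2 ⟨Finset.mem_univ _, G.worldA_refl A⟩)

/-- The representative of minimal cardinality. -/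
noncomputable def rp : Finset E → Finset E := Classical.choose G.exists_rp

variable {G}

lemma rp_eqv (A : Finset E) : G.Eqv A (G.rp A) := (Classical.choose_spec G.exists_rp).1 A

lemma rp_congr {A B : Finset E} (h : G.Eqv A B) : G.rp A = G.rp B :=
  (Classical.choose_spec G.exists_rp).2.1 A B h

lemma rp_card (A : Finset E) : (G.rp A).card ≤ A.card :=
  (Classical.choose_spec G.exists_rp).2.2 A

lemma Eqv.refl (A : Finset E) : G.Eqv A A := G.worldA_refl A

lemma Eqv.symm {A B : Finset E} (h : G.Eqv A B) : G.Eqv B A := G.worldA_symm h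

lemma Eqv.trans {A B C : Finset E} (h : G.Eqv A B) (h' : G.Eqv B C) : G.Eqv A C :=
  G.worldA_trans h h'

lemma rp_rp (A : Finset E) : G.rp (G.rp A) = G.rp A := (rp_congr (rp_eqv A)).symm

lemma eqv_iff_rp {A B : Finset E} : G.Eqv A B ↔ G.rp A = G.rp B := by
  refine ⟨rp_congr, fun h => ?_⟩
  have h1 := rp_eqv (G := G) A
  rw [h] at h1
  exact h1.trans (rp_eqv B).symm

lemma phi_inj {A B : Finset E} (hA : G.rp A = A) (hB : G.rp B = B) (h : G.phi A = G.phi B) :
    A = B := by
  have h1 : G.Eqv A B := by
    unfold Eqv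
    rw [← phi_eq_empty_iff, phi_symmDiff, h, symmDiff_self]
    rfl
  rw [← hA, ← hB]
  exact rp_congr h1

variable (G)

/-- The representatives with at most `t` elements. -/
noncomputable def Reps (t : ℕ) : Finset (Finset E) :=
  univ.filter fun C => G.rp C = C ∧ C.card ≤ t

/-- The coefficient of `f` at the class of `C`. -/
noncomputable def cc (c : V → Bool) (f : (E → Bool) → ℝ) (C : Finset E) : ℝ :=
  G.Ex c fun x => f x * chi C x

/-- The projection to the functions of degree at most `t`. -/
noncomputable def proj (c : V → Bool) (t : ℕ) (f : (E → Bool) → ℝ) : (E → Bool) → ℝ :=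
  fun x => ∑ C ∈ G.Reps t, G.cc c f C * chi C x

/-- Canonical functions. -/
def Canon (f : (E → Bool) → ℝ) : Prop := ∀ C, fc f C ≠ 0 → G.rp C = C

variable {G} {c : V → Bool} {T : ℕ}

/-- The standing assumption on the degree `T` in a world. -/
abbrev Ok (G : Net V E J) (T : ℕ) : Prop := 128 * G.lam * T ≤ Fintype.card V ∧ 0 < Fintype.card V

lemma Ok.mono {k : ℕ} (h : G.Ok T) (hk : k ≤ T) : G.Ok k :=
  ⟨(Nat.mul_le_mul_left _ hk).trans h.1, h.2⟩

/-- the pairing of two characters -/
lemma worldA_pair (h : G.Ok T) {A B : Finset E} (hA : A.card ≤ T) (hB : B.card ≤ T) :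
    G.Ex c (chi (symmDiff A B)) =
      ∑ C ∈ G.Reps T, G.Ex c (chi (symmDiff A C)) * G.Ex c (chi (symmDiff B C)) := by
  have hR : G.rp A ∈ G.Reps T := by
    unfold Reps
    rw [Finset.mem_filter]
    exact ⟨Finset.mem_univ _, rp_rp A, (rp_card A).trans hA⟩
  have h1 : ∀ C ∈ G.Reps T, C ≠ G.rp A →
      G.Ex c (chi (symmDiff A C)) * G.Ex c (chi (symmDiff B C)) = 0 := by
    intro C hC hne
    have hC' := (Finset.mem_filter.1 hC).2.1
    have : ¬ G.Cut (symmDiff A C) := by
      intro hcut
      have h2 : G.rp A = G.rp C := rp_congr hcut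
      rw [hC'] at h2
      exact hne h2.symm
    rw [Ex_chi_of_not_cut c this, zero_mul]
  rw [Finset.sum_eq_single_of_mem _ hR h1]
  by_cases hAB : G.Eqv A B
  · have hBr : G.Eqv B (G.rp A) := hAB.symm.trans (rp_eqv A)
    have h2 : symmDiff A B = symmDiff (symmDiff A (G.rp A)) (symmDiff B (G.rp A)) :=
      (symmDiff_cancel A (G.rp A) B).symm
    have hc1 : (symmDiff A (G.rp A)).card ≤ 2 * T :=
      (card_symmDiff_le _ _).trans (by have := rp_card (G := G) A; omega)
    have hc2 : (symmDiff B (G.rp A)).card ≤ 2 * T :=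
      (card_symmDiff_le _ _).trans (by have := rp_card (G := G) A; omega)
    have h3 := Ex_chi_mul (G := G) c (t := 2 * T) (by
      calc 64 * G.lam * (2 * T) = 128 * G.lam * T := by ring
        _ ≤ _ := h.1) h.2 (rp_eqv A) hBr hc1 hc2
    rw [← h2] at h3
    exact h3
  · have h2 : ¬ G.Cut (symmDiff B (G.rp A)) := by
      intro hcut
      exact hAB ((rp_eqv A).trans (Eqv.symm hcut))
    rw [Ex_chi_of_not_cut c hAB, Ex_chi_of_not_cut c h2, mul_zero]

lemma worldA_cc (f : (E → Bool) → ℝ) (C : Finset E) :
    G.cc c f C = ∑ A : Finset E, fc f A * G.Ex c (chi (symmDiff A C)) := by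
  unfold cc
  have h1 : (fun x => f x * chi C x) = fun x => ∑ A : Finset E, fc f A * chi (symmDiff A C) x := by
    funext x
    rw [← walsh f x, Finset.sum_mul]
    refine Finset.sum_congr rfl fun A _ => ?_
    rw [mul_assoc, chi_mul]
  rw [h1]
  unfold Ex
  rw [Et_sum]
  refine Finset.sum_congr rfl fun A _ => ?_
  rw [Et_const_mul]

/-- The inner product is the sum over the classes. -/
theorem Ex_mul (h : G.Ok T) {f g : (E → Bool) → ℝ} (hf : LowDeg T f) (hg : LowDeg T g) :
    G.Ex c (fun x => f x * g x) = ∑ C ∈ G.Reps T, G.cc c f C * G.cc c g C := by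
  have h1 : (fun x => f x * g x) = fun x => ∑ A : Finset E, ∑ B : Finset E,
      (fc f A * fc g B) * chi (symmDiff A B) x := by
    funext x
    rw [← walsh f x, ← walsh g x, Finset.sum_mul_sum]
    refine Finset.sum_congr rfl fun A _ => Finset.sum_congr rfl fun B _ => ?_
    rw [← chi_mul]
    ring
  have h2 : G.Ex c (fun x => f x * g x) = ∑ A : Finset E, ∑ B : Finset E,
      (fc f A * fc g B) * G.Ex c (chi (symmDiff A B)) := by
    rw [h1]
    unfold Ex
    rw [Et_sum]
    refine Finset.sum_congr rfl fun A _ => ?_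
    rw [Et_sum]
    refine Finset.sum_congr rfl fun B _ => ?_
    rw [Et_const_mul]
  have h3 : ∀ A B : Finset E, (fc f A * fc g B) * G.Ex c (chi (symmDiff A B)) =
      ∑ C ∈ G.Reps T, (fc f A * G.Ex c (chi (symmDiff A C))) *
        (fc g B * G.Ex c (chi (symmDiff B C))) := by
    intro A B
    by_cases hA : A.card ≤ T
    · by_cases hB : B.card ≤ T
      · rw [worldA_pair h hA hB, Finset.mul_sum]
        refine Finset.sum_congr rfl fun C _ => ?_
        ring
      · rw [hg B (by omega)]
        simp
    · rw [hf A (by omega)]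
      simp
  rw [h2]
  simp only [h3]
  have h4 : ∀ A : Finset E, ∑ B : Finset E, ∑ C ∈ G.Reps T,
      (fc f A * G.Ex c (chi (symmDiff A C))) * (fc g B * G.Ex c (chi (symmDiff B C))) =
      ∑ C ∈ G.Reps T, (fc f A * G.Ex c (chi (symmDiff A C))) * G.cc c g C := by
    intro A
    rw [Finset.sum_comm]
    refine Finset.sum_congr rfl fun C _ => ?_
    rw [← Finset.mul_sum, worldA_cc g C]
  simp only [h4]
  rw [Finset.sum_comm]
  refine Finset.sum_congr rfl fun C _ => ?_
  rw [← Finset.sum_mul, ← worldA_cc f C]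

/-- The world as a positive functional. -/
noncomputable def pe (G : Net V E J) (c : V → Bool) (T : ℕ) (h : G.Ok T) : PE E where
  E := G.Ex c
  cap := T
  add' := fun f g => Et_add f g
  smul' := fun a f => Et_const_mul a f
  psd := by
    intro f hf
    have h1 : (fun x => f x ^ 2) = fun x => f x * f x := by
      funext x
      rw [sq]
    rw [h1, Ex_mul h hf hf]
    exact Finset.sum_nonneg fun C _ => mul_self_nonneg _

lemma pe_one (h : G.Ok T) : (G.pe c T h).E (fun _ => 1) = 1 := by
  show G.Ex c (fun _ => 1) = 1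
  have h1 : G.bdG ∅ = ∅ := by
    ext e
    simp [bd]
  have h2 := Ex_chi_bdG (G := G) c (U := ∅) (by simpa using h.2)
  rw [h1] at h2
  have h3 : chi (∅ : Finset E) = fun _ => (1 : ℝ) := by
    funext x
    exact chi_empty x
  rw [h3, chi_empty] at h2
  exact h2

end Net

end GridLine
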