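import Pool.Agent.Work.MP_c07f0d_lc.TL.WorldA

/-!
# Projections
-/

set_option linter.unusedSectionVars false

namespace GridLine

open Finset LineSize

namespace Net

variable {V E J : Type} [Fintype V] [DecidableEq V] [Fintype E] [DecidableEq E] [Fintype J]
  [DecidableEq J] {G : Net V E J} {c : V → Bool} {T : ℕ}

lemma worldB_ex_empty (h : 0 < Fintype.card V) : G.Ex c (chi (∅ : Finset E)) = 1 := by
  have h1 : G.bdG ∅ = ∅ := by
    ext e
    simp [bd]
  have h2 := Ex_chi_bdG (G := G) c (U := ∅) (by simpa using h)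
  rw [h1] at h2
  rw [h2, chi_empty]

lemma worldB_ne {A C : Finset E} (hA : G.rp A ≠ G.rp C) :
    G.Ex c (chi (symmDiff A C)) = 0 :=
  Ex_chi_of_not_cut c fun hcut => hA (rp_congr hcut)

lemma worldB_pair (h : 0 < Fintype.card V) {A C : Finset E} (hA : G.rp A = A) (hC : G.rp C = C) :
    G.Ex c (chi (symmDiff A C)) = if A = C then 1 else 0 := by
  by_cases hAC : A = C
  · subst hAC
    rw [if_pos rfl, symmDiff_self]
    exact worldB_ex_empty h
  · rw [if_neg hAC]
    refine worldB_ne ?_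
    rwa [hA, hC]

lemma worldB_mem {t : ℕ} {C : Finset E} : C ∈ G.Reps t ↔ G.rp C = C ∧ C.card ≤ t := by
  unfold Reps
  rw [Finset.mem_filter]
  simp

lemma cc_eq_zero (h : G.Ok T) {k : ℕ} {f : (E → Bool) → ℝ} (hf : LowDeg k f) {C : Finset E}
    (hC : G.rp C = C) (hk : k < C.card) (hCT : C.card ≤ T) : G.cc c f C = 0 := by
  rw [worldA_cc]
  refine Finset.sum_eq_zero fun A _ => ?_
  by_cases hA : G.rp A = G.rp C
  · have h1 := rp_card (G := G) A
    rw [hA, hC] at h1
    rw [hf A (by omega), zero_mul]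
  · rw [worldB_ne hA, mul_zero]

lemma worldB_cc_sum (s : Finset (Finset E)) (a : Finset E → ℝ) (C : Finset E) :
    G.cc c (fun x => ∑ D ∈ s, a D * chi D x) C = ∑ D ∈ s, a D * G.Ex c (chi (symmDiff D C)) := by
  unfold cc
  have h1 : (fun x => (∑ D ∈ s, a D * chi D x) * chi C x) =
      fun x => ∑ D ∈ s, a D * chi (symmDiff D C) x := by
    funext x
    rw [Finset.sum_mul]
    refine Finset.sum_congr rfl fun A _ => ?_
    rw [mul_assoc, chi_mul]
  rw [h1]
  unfold Ex
  rw [Et_sum]
  refine Finset.sum_congr rfl fun A _ => ?_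
  rw [Et_const_mul]

lemma cc_proj (h : G.Ok T) {k : ℕ} (hk : k ≤ T) (f : (E → Bool) → ℝ) {C : Finset E}
    (hC : C ∈ G.Reps T) : G.cc c (G.proj c k f) C = if C.card ≤ k then G.cc c f C else 0 := by
  have hC' := (worldB_mem.1 hC).1
  unfold proj
  rw [worldB_cc_sum]
  have h1 : ∀ D ∈ G.Reps k, G.cc c f D * G.Ex c (chi (symmDiff D C)) =
      if D = C then G.cc c f D else 0 := by
    intro D hD
    rw [worldB_pair h.2 (worldB_mem.1 hD).1 hC']
    by_cases hDC : D = C
    · rw [if_pos hDC, if_pos hDC, mul_one]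
    · rw [if_neg hDC, if_neg hDC, mul_zero]
  rw [Finset.sum_congr rfl h1, Finset.sum_ite_eq']
  by_cases hck : C.card ≤ k
  · rw [if_pos hck, if_pos (worldB_mem.2 ⟨hC', hck⟩)]
  · rw [if_neg hck, if_neg fun h' => hck (worldB_mem.1 h').2]

lemma lowDeg_proj (k : ℕ) (f : (E → Bool) → ℝ) : LowDeg k (G.proj c k f) := by
  unfold proj
  refine LowDeg.sum fun D hD => ?_
  exact LowDeg.const_mul _ ((LowDeg.chi D).mono (worldB_mem.1 hD).2)

lemma canon_proj (k : ℕ) (f : (E → Bool) → ℝ) : G.Canon (G.proj c k f) := by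
  intro C hC
  by_contra hne
  apply hC
  unfold proj
  rw [fc_sum]
  refine Finset.sum_eq_zero fun D hD => ?_
  rw [fc_const_mul, fc_chi, if_neg, mul_zero]
  rintro rfl
  exact hne (worldB_mem.1 hD).1

/-- Replacing a function of degree at most `k` by its projection. -/
lemma Ex_proj_mul (h : G.Ok T) {k : ℕ} (hk : k ≤ T) {f g : (E → Bool) → ℝ} (hf : LowDeg k f)
    (hg : LowDeg T g) : G.Ex c (fun x => G.proj c k f x * g x) = G.Ex c (fun x => f x * g x) := by
  rw [Ex_mul h ((lowDeg_proj k f).mono hk) hg, Ex_mul h (hf.mono hk) hg]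
  refine Finset.sum_congr rfl fun C hC => ?_
  rw [cc_proj h hk f hC]
  by_cases hck : C.card ≤ k
  · rw [if_pos hck]
  · rw [if_neg hck, cc_eq_zero h hf (worldB_mem.1 hC).1 (by omega) (worldB_mem.1 hC).2]

lemma worldB_cc_sub (f g : (E → Bool) → ℝ) (C : Finset E) :
    G.cc c (fun x => f x - g x) C = G.cc c f C - G.cc c g C := by
  rw [worldA_cc, worldA_cc, worldA_cc, ← Finset.sum_sub_distrib]
  refine Finset.sum_congr rfl fun A _ => ?_
  rw [fc_sub]
  ring

/-- The error of the projection. -/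
lemma Ex_sub_proj_sq (h : G.Ok T) {k : ℕ} (hk : k ≤ T) {f : (E → Bool) → ℝ} (hf : LowDeg T f) :
    G.Ex c (fun x => (f x - G.proj c k f x) ^ 2)
      = ∑ C ∈ (G.Reps T).filter (fun C => k < C.card), G.cc c f C ^ 2 := by
  have h1 : (fun x => (f x - G.proj c k f x) ^ 2) =
      fun x => (f x - G.proj c k f x) * (f x - G.proj c k f x) := by
    funext x
    rw [sq]
  have hd : LowDeg T (fun x => f x - G.proj c k f x) := hf.sub ((lowDeg_proj k f).mono hk)
  rw [h1, Ex_mul h hd hd, Finset.sum_filter]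
  refine Finset.sum_congr rfl fun C hC => ?_
  rw [worldB_cc_sub, cc_proj h hk f hC]
  by_cases hck : C.card ≤ k
  · rw [if_pos hck, if_neg (by omega), sub_self, mul_zero]
  · rw [if_neg hck, if_pos (by omega), sub_zero, sq]

lemma Ex_proj_sq_le (h : G.Ok T) {k : ℕ} (hk : k ≤ T) {f : (E → Bool) → ℝ} (hf : LowDeg T f) :
    G.Ex c (fun x => G.proj c k f x ^ 2) ≤ G.Ex c (fun x => f x ^ 2) := by
  have hd : LowDeg T (G.proj c k f) := (lowDeg_proj k f).mono hk
  have h1 : (fun x => G.proj c k f x ^ 2) = fun x => G.proj c k f x * G.proj c k f x := by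
    funext x
    rw [sq]
  have h2 : (fun x => f x ^ 2) = fun x => f x * f x := by
    funext x
    rw [sq]
  rw [h1, h2, Ex_mul h hd hd, Ex_mul h hf hf]
  refine Finset.sum_le_sum fun C hC => ?_
  rw [cc_proj h hk f hC]
  by_cases hck : C.card ≤ k
  · rw [if_pos hck]
  · rw [if_neg hck, mul_zero]
    exact mul_self_nonneg _

/-- The square of a canonical function. -/
lemma Ex_sq_canon (h : G.Ok T) {f : (E → Bool) → ℝ} (hf : LowDeg T f) (hc : G.Canon f) :
    G.Ex c (fun x => f x ^ 2) = ∑ A : Finset E, fc f A ^ 2 := by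
  have h2 : (fun x => f x ^ 2) = fun x => f x * f x := by
    funext x
    rw [sq]
  have h3 : ∀ C ∈ G.Reps T, G.cc c f C = fc f C := by
    intro C hC
    have hC' := (worldB_mem.1 hC).1
    rw [worldA_cc, Finset.sum_eq_single C]
    · rw [worldB_pair h.2 hC' hC', if_pos rfl, mul_one]
    · intro A _ hA
      by_cases h0 : fc f A = 0
      · rw [h0, zero_mul]
      · rw [worldB_pair h.2 (hc A h0) hC', if_neg hA, mul_zero]
    · intro h'
      exact absurd (Finset.mem_univ _) h'
  rw [h2, Ex_mul h hf hf]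
  have h4 : ∑ A : Finset E, fc f A ^ 2 = ∑ A ∈ G.Reps T, fc f A ^ 2 := by
    symm
    refine Finset.sum_subset (Finset.subset_univ _) fun A _ hA => ?_
    by_cases h0 : fc f A = 0
    · rw [h0]
      ring
    · exfalso
      apply hA
      refine worldB_mem.2 ⟨hc A h0, ?_⟩
      by_contra hcard
      exact h0 (hf A (by omega))
  rw [h4]
  refine Finset.sum_congr rfl fun C hC => ?_
  rw [h3 C hC, sq]

end Net

end GridLine
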