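import Pool.Agent.Work.MP_c07f0d_lc.TL.FinA

/-!
# There is no refutation in a world in which the approximants have small degree
-/

set_option linter.unusedSectionVars false

namespace GridLine

open Finset LineSize FregeEF

section

variable {ι : Type} [Fintype ι] [DecidableEq ι] {P : PE ι}

lemma finR_N_one (h1 : P.E (fun _ => 1) = 1) : P.N (fun _ => 1) = 1 := by
  unfold PE.N
  have e : (fun _ : ι → Bool => (1 : ℝ) ^ 2) = fun _ => 1 := by
    funext x
    norm_num
  rw [e, h1, Real.sqrt_one]

lemma finR_size_pos {α : Type} (φ : Fm α) : 1 ≤ φ.size := by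
  cases φ <;> simp [Fm.size]

/-- A small operator is small. -/
lemma finR_Bd_N (h1 : P.E (fun _ => 1) = 1) {f : (ι → Bool) → ℝ} {c : ℝ} (h : P.Bd 0 f c) :
    P.N f ≤ c := by
  have h2 := h (fun _ => 1) (LowDeg.const 0 1)
  rw [finR_N_one h1, mul_one] at h2
  have e : (fun x => f x * 1) = f := by
    funext x
    ring
  rwa [e] at h2

/-- Removing premises. -/
lemma finR_list {n k : ℕ} {ε δ : ℝ} (h1 : P.E (fun _ => 1) = 1) (hε : 0 ≤ ε)
    (hnε : 100 * (n + 1) * ε ≤ 1)
    (hcap : 3 * (n + 2) * (k + 1) ≤ P.cap) (z : Fin n → (ι → Bool) → ℝ)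
    (hz : ∀ j, LowDeg k (z j))
    (hzi : ∀ j, P.Bd (3 * (n + 1) * (k + 1)) (fun x => z j x ^ 2 - z j x) ε) :
    ∀ (l : List (Fm ℕ)) (H : (Fin n → Bool) → ℝ), (∀ v, |H v| ≤ 1) →
      (∀ A ∈ l, P.N (fun x => 1 - mle (fmB n A) z x) ≤ δ) →
      P.N (mle H z) ≤ P.N (mle (fun v => H v * (l.map fun A => fmB n A v).prod) z) +
        l.length * (21 / 20 * δ + 21 / 5 * n * ε) := by
  have hk1 : 3 * (n + 2) * (k + 1) = 3 * (n + 1) * (k + 1) + 3 * (k + 1) := by ring
  have hk2 : 3 * (n + 1) * (k + 1) = 3 * (n * k) + 3 * n + 3 * k + 3 := by ring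
  have hcard : Fintype.card (Fin n) = n := Fintype.card_fin n
  have hmd : ∀ g : (Fin n → Bool) → ℝ, LowDeg (n * k) (mle g z) := by
    intro g
    have := mle_lowDeg' g hz
    rwa [hcard] at this
  have hn1 := finA_pow_le hε hnε
  have hn2 := finA_pow_le' hε hnε
  intro l
  induction l with
  | nil =>
    intro H _ _
    simp
  | cons A l ih =>
    intro H hH hA
    have hHA : ∀ v, |H v * fmB n A v| ≤ 1 := by
      intro v
      rw [abs_mul]
      have h2 := finA_fmB_abs n A v
      have h3 := hH v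
      have h4 := abs_nonneg (H v)
      have h5 := abs_nonneg (fmB n A v)
      nlinarith
    have ih' := ih (fun v => H v * fmB n A v) hHA fun A' hA' => hA A' (List.mem_cons_of_mem _ hA')
    have e1 : (fun v => H v * fmB n A v * (l.map fun A => fmB n A v).prod)
        = fun v => H v * (((A :: l).map fun A => fmB n A v)).prod := by
      funext v
      rw [List.map_cons, List.prod_cons, mul_assoc]
    rw [e1] at ih'
    -- the step
    have hstep : P.N (mle H z) ≤ P.N (mle (fun v => H v * fmB n A v) z) +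
        (21 / 20 * δ + 21 / 5 * n * ε) := by
      have hone : ∀ v, |1 - fmB n A v| ≤ 1 := by
        intro v
        unfold fmB
        split_ifs <;> norm_num
      have hG : mle H z = fun x => mle (fun v => H v * fmB n A v) z x +
          mle (fun v => H v * (1 - fmB n A v)) z x := by
        funext x
        rw [← mle_add]
        congr 1
        funext v
        ring
      have t1 : P.N (mle H z) ≤ P.N (mle (fun v => H v * fmB n A v) z) +
          P.N (mle (fun v => H v * (1 - fmB n A v)) z) := by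
        rw [hG]
        exact PE.N_add_le ((hmd _).mono (by omega)) ((hmd _).mono (by omega))
      have t2 : P.N (mle (fun v => H v * (1 - fmB n A v)) z) ≤
          P.N (fun x => mle H z x * mle (fun v => 1 - fmB n A v) z x) + 21 / 5 * n * ε := by
        have hdef := mle_mul (P := P) (d := k) (t := 0) (T := 3 * (n + 1) * (k + 1)) (ε := ε)
          (M := 1) (M' := 1) H (fun v => 1 - fmB n A v) z hz hzi hε (by rw [hcard]; omega)
          (by omega) hH hone
        rw [hcard] at hdef
        have h3 := finR_Bd_N h1 hdef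
        have h4 : (4 * 1 * 1 * ε * n * (1 + 2 * ε) ^ (2 * n) : ℝ) ≤ 21 / 5 * n * ε := by
          have : 0 ≤ ε * n := by positivity
          nlinarith
        have e : mle (fun v => H v * (1 - fmB n A v)) z = fun x =>
            mle H z x * mle (fun v => 1 - fmB n A v) z x -
            (mle H z x * mle (fun v => 1 - fmB n A v) z x -
              mle (fun v => H v * (1 - fmB n A v)) z x) := by
          funext x
          ring
        have h5 : P.N (mle (fun v => H v * (1 - fmB n A v)) z) ≤
            P.N (fun x => mle H z x * mle (fun v => 1 - fmB n A v) z x) +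
            P.N (fun x => mle H z x * mle (fun v => 1 - fmB n A v) z x -
              mle (fun v => H v * (1 - fmB n A v)) z x) := by
          conv_lhs => rw [e]
          refine PE.N_sub_le (((hmd _).mul (hmd _)).mono (by omega))
            ((((hmd _).mul (hmd _)).mono (show n * k + n * k ≤ P.cap by omega)).sub
              ((hmd _).mono (by omega)))
        linarith
      have t3 : P.N (fun x => mle H z x * mle (fun v => 1 - fmB n A v) z x) ≤ 21 / 20 * δ := by
        have hb := mle_norm (P := P) (d := k) (t := n * k)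
          (T := 3 * (n + 1) * (k + 1)) (ε := ε) (M := 1) H z hz hzi hε
          (by rw [hcard]; omega) (by omega) hH
        rw [hcard] at hb
        have h3 := hb (mle (fun v => 1 - fmB n A v) z) (hmd _)
        have e : mle (fun v => 1 - fmB n A v) z = fun x => 1 - mle (fmB n A) z x := by
          funext x
          rw [mle_sub, mle_const]
        have h4 := hA A (List.mem_cons_self)
        rw [← e] at h4
        have h5 := PE.N_nonneg (P := P) (mle (fun v => 1 - fmB n A v) z)
        refine h3.trans ?_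
        have h6 : (1 : ℝ) * (1 + 2 * ε) ^ n ≤ 21 / 20 := by linarith
        exact mul_le_mul h6 h4 h5 (by norm_num)
      linarith
    rw [List.length_cons]
    push_cast
    linarith

/-- One application of a sound rule. -/
lemma Interp.rule {B : ℕ} (hHC : HC P B) {α : Type} {In : Fm α → Prop} (hIn : Closed In)
    {k n m : ℕ} {η : ℝ} {p : Fm α → (ι → Bool) → ℝ} (hp : Interp P In k η p) (hη : 0 ≤ η)
    (h1 : P.E (fun _ => 1) = 1)
    (r : Rule) (hr : ∀ v : ℕ → Prop, (∀ A ∈ r.prem, A.eval v) → r.concl.eval v)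
    (hn : ∀ A ∈ r.concl :: r.prem, ∀ j, A.Occurs j → j < n)
    (hm : ∀ A ∈ r.concl :: r.prem, A.size ≤ m) (hlen : r.prem.length ≤ m) (σ : ℕ → Fm α)
    (hI : ∀ A ∈ r.concl :: r.prem, In (A.subst σ))
    (hprem : ∀ A ∈ r.prem, P.N (fun x => 1 - p (A.subst σ) x) ≤ 2 * η)
    (hcap : 4 * (10 * (m + n + 2) * (m + n + 2) * (k + 1)) ≤ P.cap)
    (hsmall : 1000 ^ (2 * m + 2) * (n + 1) *
      (3 ^ (B * (10 * (m + n + 2) * (m + n + 2) * (k + 1))) * η) ≤ 1) :
    P.N (fun x => 1 - p (r.concl.subst σ) x) ≤
      1000 ^ (2 * m + 1) * (n + 1) *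
        (3 ^ (B * (10 * (m + n + 2) * (m + n + 2) * (k + 1))) * η) := by
  classical
  set Q := 10 * (m + n + 2) * (m + n + 2) * (k + 1) with hQ
  set ε : ℝ := 3 ^ (B * Q) * η with hεdef
  have hε : 0 ≤ ε := by positivity
  have hk1 : 3 * (n + 2) * (k + 1) = 3 * (n + 1) * (k + 1) + 3 * (k + 1) := by ring
  have hk2 : 3 * (n + 1) * (k + 1) = 3 * (n * k) + 3 * n + 3 * k + 3 := by ring
  have hQ1 : 3 * (n + 2) * (k + 1) ≤ Q := by
    rw [hQ]
    refine Nat.mul_le_mul_right _ ?_
    nlinarith
  have hcard : Fintype.card (Fin n) = n := Fintype.card_fin n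
  have hn0 : (0 : ℝ) ≤ n := Nat.cast_nonneg _
  have hbig : (1000 : ℝ) ≤ 1000 ^ (2 * m + 2) := by
    calc (1000 : ℝ) = 1000 ^ 1 := (pow_one _).symm
      _ ≤ 1000 ^ (2 * m + 2) := pow_le_pow_right₀ (by norm_num) (by omega)
  have hX0 : 0 ≤ ((n : ℝ) + 1) * ε := by positivity
  have hnε : 100 * ((n : ℝ) + 1) * ε ≤ 1 := by
    have : 100 * ((n : ℝ) + 1) * ε ≤ 1000 ^ (2 * m + 2) * (n + 1) * ε := by
      rw [mul_assoc, mul_assoc]
      exact mul_le_mul_of_nonneg_right (by linarith) hX0
    linarith
  set ε' : ℝ := 3 ^ (B * (0 + 3 * (n + 2) * (k + 1))) * η with hε'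
  have hε'0 : 0 ≤ ε' := by positivity
  have hε'ε : ε' ≤ ε := by
    refine mul_le_mul_of_nonneg_right ?_ hη
    exact pow_le_pow_right₀ (by norm_num) (Nat.mul_le_mul_left _ (by omega))
  have hηε : η ≤ ε := by
    have : (1 : ℝ) ≤ 3 ^ (B * Q) := one_le_pow₀ (by norm_num)
    rw [hεdef]
    nlinarith
  -- the values of the variables
  set z : Fin n → (ι → Bool) → ℝ := fun j => if In (σ j) then p (σ j) else fun _ => 0 with hzdef
  have hz : ∀ j, LowDeg k (z j) := by
    intro j
    rw [hzdef]
    simp only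
    split_ifs with h
    · exact hp.deg _ h
    · exact LowDeg.const k 0
  have hzi : ∀ j, P.N (fun x => z j x - z j x * z j x) ≤ η := by
    intro j
    rw [hzdef]
    simp only
    split_ifs with h
    · exact hp.idem _ h
    · have e : (fun _ : ι → Bool => (0 : ℝ) - 0 * 0) = fun _ => 0 := by
        funext x
        ring
      rw [e, PE.N_zero]
      exact hη
  have hzσ : ∀ j : Fin n, In (σ j) → z j = p (σ j) := by
    intro j h
    rw [hzdef]
    simp only
    rw [if_pos h]
  have hziB : ∀ j, P.Bd (3 * (n + 1) * (k + 1)) (fun x => z j x ^ 2 - z j x) ε := by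
    intro j
    have hd : LowDeg (2 * k) (fun x => z j x - z j x * z j x) :=
      ((hz j).mono (by omega)).sub (((hz j).mul (hz j)).mono (by omega))
    have h2 := hHC.bd (t := 3 * (n + 1) * (k + 1)) hd (by omega) (hzi j)
    have h3 := h2.const_mul (-1)
    refine (h3.congr' ?_).mono le_rfl ?_
    · intro x
      ring
    · rw [abs_neg, abs_one, one_mul]
      refine mul_le_mul_of_nonneg_right ?_ hη
      exact pow_le_pow_right₀ (by norm_num) (Nat.mul_le_mul_left _ (by omega))
  -- substitution
  have hsub : ∀ A ∈ r.concl :: r.prem,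
      P.N (fun x => p (A.subst σ) x - mle (fmB n A) z x) ≤ 100 ^ m * ((n + 1) * ε) := by
    intro A hA
    have h2 := Interp.subst hHC hIn hp hη z σ A hz hzi hzσ (hn A hA) (hI A hA) (t := 0)
      (by omega) (by
        refine le_trans ?_ hnε
        refine mul_le_mul_of_nonneg_left hε'ε (by positivity))
    refine (finR_Bd_N h1 h2).trans ?_
    have h3 : (100 : ℝ) ^ A.size ≤ 100 ^ m := pow_le_pow_right₀ (by norm_num) (hm A hA)
    calc (100 : ℝ) ^ A.size * (n + 1) * ε' ≤ 100 ^ m * (n + 1) * ε := by gcongr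
      _ = 100 ^ m * ((n + 1) * ε) := by ring
  have hmd : ∀ g : (Fin n → Bool) → ℝ, LowDeg (n * k) (mle g z) := by
    intro g
    have := mle_lowDeg' g hz
    rwa [hcard] at this
  set X : ℝ := (n + 1) * ε with hX
  have hεX : ε ≤ X := by
    rw [hX]
    nlinarith
  have hnX : (n : ℝ) * ε ≤ X := by
    rw [hX]
    nlinarith
  have hpremM : ∀ A ∈ r.prem, P.N (fun x => 1 - mle (fmB n A) z x) ≤ 2 * X + 100 ^ m * X := by
    intro A hA
    have hAI := hI A (List.mem_cons_of_mem _ hA)
    have e : (fun x => 1 - mle (fmB n A) z x) = fun x =>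
        (1 - p (A.subst σ) x) + (p (A.subst σ) x - mle (fmB n A) z x) := by
      funext x
      ring
    rw [e]
    have hd1 : LowDeg P.cap (fun x => 1 - p (A.subst σ) x) :=
      ((LowDeg.const k 1).sub (hp.deg _ hAI)).mono (by omega)
    have hd2 : LowDeg P.cap (fun x => p (A.subst σ) x - mle (fmB n A) z x) :=
      ((hp.deg _ hAI).mono (by omega)).sub ((hmd _).mono (by omega))
    refine (PE.N_add_le hd1 hd2).trans (add_le_add ?_ (hsub A (List.mem_cons_of_mem _ hA)))
    refine (hprem A hA).trans ?_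
    linarith
  -- the premises are removed
  have hlist := finR_list (P := P) (δ := 2 * X + 100 ^ m * X) h1 hε hnε (k := k) (by omega) z hz
    hziB r.prem (fun v => 1 - fmB n r.concl v) (fun v => by
      unfold fmB
      split_ifs <;> norm_num) hpremM
  have hzero : (fun v : Fin n → Bool => (1 - fmB n r.concl v) *
      (r.prem.map fun A => fmB n A v).prod) = fun _ => (0 : ℝ) := by
    funext v
    by_cases hall : ∀ A ∈ r.prem, A.eval (fun j => if h : j < n then v ⟨j, h⟩ = true else False)
    · have hc := hr _ hall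
      have : fmB n r.concl v = 1 := by
        unfold fmB
        rw [if_pos hc]
      rw [this]
      ring
    · push Not at hall
      obtain ⟨A, hA, hAe⟩ := hall
      have h0 : fmB n A v = 0 := by
        unfold fmB
        rw [if_neg hAe]
      have : (r.prem.map fun A => fmB n A v).prod = 0 := by
        apply List.prod_eq_zero
        rw [← h0]
        exact List.mem_map.mpr ⟨A, hA, rfl⟩
      rw [this, mul_zero]
  rw [hzero] at hlist
  have hm0 : mle (fun _ : Fin n → Bool => (0 : ℝ)) z = fun _ => 0 := by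
    funext x
    rw [mle_const]
  rw [hm0, PE.N_zero, zero_add] at hlist
  have hconc : P.N (fun x => 1 - p (r.concl.subst σ) x) ≤
      P.N (mle (fun v => 1 - fmB n r.concl v) z) + 100 ^ m * X := by
    have hcI := hI r.concl (List.mem_cons_self)
    have e : (fun x => 1 - p (r.concl.subst σ) x) = fun x =>
        mle (fun v => 1 - fmB n r.concl v) z x -
          (p (r.concl.subst σ) x - mle (fmB n r.concl) z x) := by
      funext x
      rw [mle_sub, mle_const]
      ring
    rw [e]
    have hd2 : LowDeg P.cap (fun x => p (r.concl.subst σ) x - mle (fmB n r.concl) z x) :=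
      ((hp.deg _ hcI).mono (by omega)).sub ((hmd _).mono (by omega))
    exact (PE.N_sub_le ((hmd _).mono (by omega)) hd2).trans
      (add_le_add le_rfl (hsub _ (List.mem_cons_self)))
  have hm1 : 1 ≤ m := (finR_size_pos r.concl).trans (hm _ (List.mem_cons_self))
  have hlenR : (r.prem.length : ℝ) ≤ m := by exact_mod_cast hlen
  have hY : 0 ≤ 21 / 20 * (2 * X + 100 ^ m * X) + 21 / 5 * n * ε := by positivity
  have hfin : P.N (fun x => 1 - p (r.concl.subst σ) x) ≤
      m * (21 / 20 * (2 * X + 100 ^ m * X) + 21 / 5 * X) + 100 ^ m * X := by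
    have h2 : (r.prem.length : ℝ) * (21 / 20 * (2 * X + 100 ^ m * X) + 21 / 5 * n * ε) ≤
        m * (21 / 20 * (2 * X + 100 ^ m * X) + 21 / 5 * X) := by
      refine mul_le_mul hlenR ?_ hY (Nat.cast_nonneg _)
      nlinarith
    linarith
  refine hfin.trans ?_
  have h100 : (1 : ℝ) ≤ 100 ^ m := one_le_pow₀ (by norm_num)
  have hm10 : (m : ℝ) ≤ 10 ^ m := by
    have : m < 10 ^ m := Nat.lt_pow_self (by norm_num)
    exact_mod_cast this.le
  have h10 : (1 : ℝ) ≤ 10 ^ m := one_le_pow₀ (by norm_num)
  have h1000 : (1000 : ℝ) ^ (2 * m + 1) = 1000 * 1000 ^ m * 1000 ^ m := by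
    rw [pow_succ, two_mul, pow_add]
    ring
  have h1000' : (1000 : ℝ) ^ m = 10 ^ m * 100 ^ m := by
    rw [← mul_pow]
    norm_num
  have hmm : (1 : ℝ) ≤ 1000 ^ m := one_le_pow₀ (by norm_num)
  have hfinal : (m : ℝ) * (21 / 20 * (2 * X + 100 ^ m * X) + 21 / 5 * X) + 100 ^ m * X ≤
      10 * (1000 ^ m) * X := by
    have a1 : 21 / 20 * (2 * X + 100 ^ m * X) + 21 / 5 * X ≤ 8 * (100 ^ m * X) := by
      nlinarith
    have a2 : (m : ℝ) * (21 / 20 * (2 * X + 100 ^ m * X) + 21 / 5 * X) ≤
        10 ^ m * (8 * (100 ^ m * X)) := by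
      refine mul_le_mul hm10 a1 (by positivity) (by positivity)
    have a3 : 100 ^ m * X ≤ 10 ^ m * (100 ^ m * X) := by
      have : 0 ≤ 100 ^ m * X := by positivity
      nlinarith
    rw [h1000']
    nlinarith
  refine hfinal.trans ?_
  rw [h1000, mul_assoc (1000 * 1000 ^ m * 1000 ^ m : ℝ) ((n : ℝ) + 1) ε, ← hX]
  refine mul_le_mul_of_nonneg_right ?_ hX0
  nlinarith

end

theorem finB_vars (A : Fm ℕ) : ∃ n : ℕ, ∀ j, A.Occurs j → j < n := by
  induction A with
  | var x => exact ⟨x + 1, fun j hj => by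
      have : x = j := hj
      omega⟩
  | bot => exact ⟨0, fun j hj => hj.elim⟩
  | neg φ ih => exact ih
  | and φ ψ h1 h2 =>
    obtain ⟨a, ha⟩ := h1
    obtain ⟨b, hb⟩ := h2
    exact ⟨a + b, fun j hj => by
      rcases hj with h | h
      · have := ha j h; omega
      · have := hb j h; omega⟩
  | or φ ψ h1 h2 =>
    obtain ⟨a, ha⟩ := h1
    obtain ⟨b, hb⟩ := h2
    exact ⟨a + b, fun j hj => by
      rcases hj with h | h
      · have := ha j h; omega
      · have := hb j h; omega⟩
  | imp φ ψ h1 h2 =>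
    obtain ⟨a, ha⟩ := h1
    obtain ⟨b, hb⟩ := h2
    exact ⟨a + b, fun j hj => by
      rcases hj with h | h
      · have := ha j h; omega
      · have := hb j h; omega⟩

/-- a common bound for the formulas of a list -/
theorem finB_list (l : List (Fm ℕ)) :
    ∃ n : ℕ, ∀ A ∈ l, (∀ j, A.Occurs j → j < n) ∧ A.size ≤ n := by
  induction l with
  | nil => exact ⟨0, fun A hA => by simp at hA⟩
  | cons A l ih =>
    obtain ⟨n, hn⟩ := ih
    obtain ⟨a, ha⟩ := finB_vars A
    refine ⟨n + a + A.size, fun B hB => ?_⟩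
    rcases List.mem_cons.1 hB with rfl | hB
    · exact ⟨fun j hj => by have := ha j hj; omega, by omega⟩
    · exact ⟨fun j hj => by have := (hn B hB).1 j hj; omega, by have := (hn B hB).2; omega⟩

/-- a common bound for the rules of a system -/
theorem finB_rules (l : List Rule) : ∃ n : ℕ, ∀ r ∈ l, r.prem.length ≤ n ∧
    ∀ A ∈ r.concl :: r.prem, (∀ j, A.Occurs j → j < n) ∧ A.size ≤ n := by
  induction l with
  | nil => exact ⟨0, fun r hr => by simp at hr⟩
  | cons r l ih =>
    obtain ⟨n, hn⟩ := ih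
    obtain ⟨a, ha⟩ := finB_list (r.concl :: r.prem)
    refine ⟨n + a + r.prem.length, fun r' hr' => ?_⟩
    rcases List.mem_cons.1 hr' with rfl | hr'
    · exact ⟨by omega, fun A hA => ⟨fun j hj => by have := (ha A hA).1 j hj; omega,
        by have := (ha A hA).2; omega⟩⟩
    · exact ⟨by have := (hn r' hr').1; omega, fun A hA =>
        ⟨fun j hj => by have := ((hn r' hr').2 A hA).1 j hj; omega,
        by have := ((hn r' hr').2 A hA).2; omega⟩⟩

/-- No refutation: the constant `C` depends on the Frege system only. -/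
theorem finale (F : FregeSystem) : ∃ C : ℕ, ∀ (ι : Type) [Fintype ι] [DecidableEq ι] (P : PE ι)
    (B k : ℕ) (η : ℝ) (α : Type) (Γ L : List (Fm α)) (In : Fm α → Prop)
    (p : Fm α → (ι → Bool) → ℝ), HC P B → P.E (fun _ => 1) = 1 → 0 ≤ η → C * (k + 1) ≤ P.cap →
    C * 3 ^ (C * (B + 1) * (k + 1)) * η ≤ 1 → Closed In → (∀ φ ∈ L, In φ) →
    Interp P In k η p → IsDeriv F.rules Γ L →
    (∀ φ ∈ Γ, In φ → P.N (fun x => 1 - p φ x) ≤ 2 * η) → Fm.bot ∉ L := by
  obtain ⟨M, hM⟩ := finB_rules F.rules
  set C₁ : ℕ := 1000 ^ (2 * M + 2) * (M + 1) with hC₁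
  set D : ℕ := 10 * (M + M + 2) * (M + M + 2) with hD
  refine ⟨C₁ + 4 * D + 4, ?_⟩
  intro ι _ _ P B k η α Γ L In p hHC h1 hη hcap hsmall hIn hL hp hder hΓ
  -- the exponents
  have hexp : ∀ e : ℕ, e ≤ (C₁ + 4 * D + 4) * (B + 1) * (k + 1) → ∀ c : ℝ, 0 ≤ c →
      c ≤ C₁ → c * (3 ^ e * η) ≤ 1 := by
    intro e he c hc0 hc
    refine le_trans ?_ hsmall
    have h3 : (3 : ℝ) ^ e ≤ 3 ^ ((C₁ + 4 * D + 4) * (B + 1) * (k + 1)) :=
      pow_le_pow_right₀ (by norm_num) he
    rw [← mul_assoc]
    refine mul_le_mul_of_nonneg_right ?_ hη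
    refine mul_le_mul ?_ h3 (by positivity) (by positivity)
    push_cast
    have : (0 : ℝ) ≤ D := by positivity
    linarith
  have hDk : 4 * (D * (k + 1)) ≤ P.cap := by
    refine le_trans ?_ hcap
    nlinarith
  have hBD : B * (D * (k + 1)) ≤ (C₁ + 4 * D + 4) * (B + 1) * (k + 1) := by
    calc B * (D * (k + 1)) = D * B * (k + 1) := by ring
      _ ≤ (C₁ + 4 * D + 4) * (B + 1) * (k + 1) :=
        Nat.mul_le_mul_right _ (Nat.mul_le_mul (by omega) (by omega))
  have key : ∀ φ ∈ L, P.N (fun x => 1 - p φ x) ≤ 2 * η := by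
    clear hsmall
    induction hder with
    | nil => intro φ hφ; simp at hφ
    | @hyp L φ hd hφ ih =>
      intro ψ hψ
      rcases List.mem_cons.1 hψ with rfl | hψ
      · exact hΓ _ hφ (hL _ hψ)
      · exact ih (fun χ hχ => hL χ (List.mem_cons_of_mem _ hχ)) ψ hψ
    | @step L φ hd hinf ih =>
      have ih' := ih (fun χ hχ => hL χ (List.mem_cons_of_mem _ hχ))
      intro ψ hψ
      rcases List.mem_cons.1 hψ with rfl | hψ
      swap
      · exact ih' ψ hψ
      obtain ⟨r, hr, σ, hprem, hconcl⟩ := hinf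
      obtain ⟨hlen, hb⟩ := hM r hr
      have hInψ : In ψ := hL ψ hψ
      have hrule := Interp.rule (n := M) (m := M) hHC hIn hp hη h1 r (F.sound r hr)
        (fun A hA => (hb A hA).1) (fun A hA => (hb A hA).2) hlen σ (by
          intro A hA
          rcases List.mem_cons.1 hA with rfl | hA
          · rw [hconcl]; exact hInψ
          · exact hL _ (List.mem_cons_of_mem _ (hprem A hA)))
        (fun A hA => ih' _ (hprem A hA)) hDk (by
          have := hexp _ hBD C₁ (by positivity) le_rfl
          rw [hC₁] at this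
          push_cast at this
          exact this)
      rw [hconcl] at hrule
      have hdeg : LowDeg k (fun x => 1 - p ψ x) :=
        (LowDeg.const k 1).sub (hp.deg ψ hInψ)
      refine hHC.gap hdeg ?_ ?_ ?_
      · refine le_trans ?_ hcap
        nlinarith
      · have e : (fun x => (1 - p ψ x) - (1 - p ψ x) * (1 - p ψ x))
            = fun x => p ψ x - p ψ x * p ψ x := by
          ext x; ring
        rw [e]
        exact hp.idem ψ hInψ
      · calc 2 * 3 ^ (B * k) * P.N (fun x => 1 - p ψ x)
            ≤ 2 * 3 ^ (B * k) * (1000 ^ (2 * M + 1) * (M + 1) *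
              (3 ^ (B * (10 * (M + M + 2) * (M + M + 2) * (k + 1))) * η)) := by
              gcongr
          _ = (2 * (1000 ^ (2 * M + 1) * (M + 1))) *
              (3 ^ (B * k + B * (D * (k + 1))) * η) := by
              rw [pow_add]
              ring
          _ ≤ 1 := by
              refine hexp _ ?_ _ (by positivity) ?_
              · calc B * k + B * (D * (k + 1)) ≤ B * (k + 1) + B * (D * (k + 1)) := by
                      have : B * k ≤ B * (k + 1) := Nat.mul_le_mul_left _ (by omega)
                      omega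
                  _ = (1 + D) * B * (k + 1) := by ring
                  _ ≤ (C₁ + 4 * D + 4) * (B + 1) * (k + 1) :=
                    Nat.mul_le_mul_right _ (Nat.mul_le_mul (by omega) (by omega))
              · rw [hC₁]
                push_cast
                rw [show 2 * M + 2 = (2 * M + 1) + 1 by ring, pow_succ (1000 : ℝ) (2 * M + 1)]
                have : (0 : ℝ) ≤ 1000 ^ (2 * M + 1) * (M + 1) := by positivity
                nlinarith
  intro hbot
  have hInb := hL _ hbot
  have hb1 := key _ hbot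
  have hb2 := hp.bot hInb
  have hη4 : 4 * η ≤ 1 := by
    have h4 : (4 : ℝ) ≤ C₁ := by
      rw [hC₁]
      have : 4 ≤ 1000 ^ (2 * M + 2) * (M + 1) := by
        calc 4 ≤ 1000 ^ (2 * M + 2) := by
              calc 4 ≤ 1000 ^ 1 := by norm_num
                _ ≤ 1000 ^ (2 * M + 2) := Nat.pow_le_pow_right (by norm_num) (by omega)
          _ ≤ _ := Nat.le_mul_of_pos_right _ (by omega)
      exact_mod_cast this
    have := hexp 0 (Nat.zero_le _) 4 (by norm_num) h4
    simpa using this
  have hN1 : P.N (fun _ => 1) = 1 := by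
    unfold PE.N
    rw [show (fun _ : ι → Bool => (1 : ℝ) ^ 2) = fun _ => 1 by ext; ring, h1, Real.sqrt_one]
  have hcapk : k ≤ P.cap := by
    refine le_trans ?_ hcap
    nlinarith
  have hd1 : LowDeg P.cap (fun x => 1 - p Fm.bot x) :=
    (LowDeg.const _ 1).sub ((hp.deg _ hInb).mono hcapk)
  have hadd := PE.N_add_le (P := P) hd1 ((hp.deg _ hInb).mono hcapk)
  have e : (fun x => (1 - p Fm.bot x) + p Fm.bot x) = fun _ => (1 : ℝ) := by
    ext x; ring
  rw [e, hN1] at hadd
  linarith

end GridLine
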