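import Pool.Agent.Work.MP_c07f0d_lc.TL.GStage

/-!
# Iterating the stages
-/

set_option linter.unusedSectionVars false

namespace GridLine

open Finset LineSize

/-- The conditions on the parameters: the dimension is `D = w + 4 + e`, the degrees are
`u ^ ((i + 1) * e)` on the grid of side `u ^ (i + 2)`, for `i ≤ w`, and `u ^ 2` on the grid of
side `u`. -/
structure Par (D w e u x : ℕ) (θ A : ℝ) : Prop where
  hu : 1 ≤ u
  hx : 1 ≤ x
  hA : 1 ≤ A
  he : 2 ≤ e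
  hD : D = w + 4 + e
  hu1 : 2 ^ (2 * (w + 1) + 10) ≤ u
  hu2 : 2 * 3 ^ (2 * D) ≤ u
  hu3 : 2 * (1 + θ) ^ (2 * D) ≤ u
  hu4 : 32 * (1 + D) * u ^ ((w + 3) * D) ≤ 2 ^ u
  hθ : ∀ s ≤ 2 * (w + 1), thF D s A ≤ θ

theorem iter {D w e u x : ℕ} {θ A : ℝ} (hP : Par D w e u x θ A) {I R : Type} [Fintype I]
    [Fintype R] (rel : R → Rl I) (hI : Fintype.card I ≤ x) (hR : Fintype.card R ≤ x) :
    ∀ i ≤ w, ∀ Q η : ℝ, 1 ≤ Q → (6 * x) ^ (i + 1) * Q ≤ 2 ^ (u ^ 2) → (1 / A) ^ (u ^ 2) ≤ η →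
      (∃ p, Fam (gN D u (i + 2) hP.hu) gcharge rel (u ^ ((i + 1) * e)) (2 * (i + 1)) Q η p) →
      ∃ Q' q, Fam (gN D u 1 hP.hu) gcharge rel (u ^ 2) 0 Q' ((4 * x) ^ (i + 1) * η) q := by
  have hA0 : 0 < A := lt_of_lt_of_le one_pos hP.hA
  have hx' : (1 : ℝ) ≤ x := by exact_mod_cast hP.hx
  have hAinv : (1 / A) ≤ 1 := by
    rw [div_le_one hA0]
    exact hP.hA
  have hAk : ∀ κ : ℕ, 2 ≤ κ → (1 / A) ^ (u ^ κ) ≤ (1 / A) ^ (u ^ 2) := by
    intro κ hκ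
    exact pow_le_pow_of_le_one (by positivity) hAinv (Nat.pow_le_pow_right hP.hu hκ)
  have h2k : ∀ κ : ℕ, 2 ≤ κ → (2 : ℝ) ^ (u ^ 2) ≤ 2 ^ (u ^ κ) := by
    intro κ hκ
    exact pow_le_pow_right₀ (by norm_num) (Nat.pow_le_pow_right hP.hu hκ)
  have hu4 : ∀ v ≤ w + 2, 32 * (1 + D) * u ^ ((v + 1) * D) ≤ 2 ^ u := by
    intro v hv
    refine le_trans (Nat.mul_le_mul_left _ (Nat.pow_le_pow_right hP.hu ?_)) hP.hu4
    exact Nat.mul_le_mul_right _ (by omega)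
  intro i
  induction i with
  | zero =>
    intro _ Q η hQ hxQ hη hp
    obtain ⟨p, hp⟩ := hp
    have hη0 : 0 < η := lt_of_lt_of_le (by positivity) hη
    have h := grid_stage (D := D) (v := 1) (κ := (0 + 1) * e) (κ' := 2) (s := 0) (x := x) (u := u)
      (Q := Q) (η := η) (θ := θ) (A := A) rel hP.hu hP.hx hI hR hQ hη0 hP.hA le_rfl
      (by have := hP.hD; omega) (by have := hP.hD; omega) (by have := hP.hD; omega)
      (by have := hP.he; omega)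
      ((Nat.pow_le_pow_right (by norm_num) (by omega)).trans hP.hu1) hP.hu2 hP.hu3
      (hu4 1 (by omega)) (hP.hθ 0 (by omega)) (by simpa using hxQ) hη hp
    obtain ⟨q, hq⟩ := h
    refine ⟨6 * x * Q, q, ?_⟩
    have e1 : (4 * (x : ℝ)) ^ (0 + 1) * η = 4 * x * η := by ring
    rw [e1]
    exact hq
  | succ i ih =>
    intro hi Q η hQ hxQ hη hp
    obtain ⟨p, hp⟩ := hp
    have hη0 : 0 < η := lt_of_lt_of_le (by positivity) hη
    have hxQ1 : 6 * (x : ℝ) * Q ≤ 2 ^ (u ^ 2) := by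
      refine le_trans ?_ hxQ
      have e1 : (1 : ℝ) ≤ (6 * x) ^ (i + 1) := one_le_pow₀ (by linarith)
      have e2 : (6 * (x : ℝ)) ^ (i + 1 + 1) * Q = (6 * x) ^ (i + 1) * (6 * x * Q) := by ring
      rw [e2]
      have e3 : 0 ≤ 6 * (x : ℝ) * Q := by positivity
      nlinarith
    have hκ : 2 ≤ (i + 1) * e := by
      have := hP.he
      nlinarith
    have h := grid_stage (D := D) (v := i + 2) (κ := (i + 1 + 1) * e) (κ' := (i + 1) * e)
      (s := 2 * (i + 1)) (x := x) (u := u)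
      (Q := Q) (η := η) (θ := θ) (A := A) rel hP.hu hP.hx hI hR hQ hη0 hP.hA (by omega)
      (by have := hP.hD; omega) (by have := hP.hD; rw [this]; nlinarith)
      (by have := hP.hD; rw [this]; nlinarith) (by nlinarith)
      ((Nat.pow_le_pow_right (by norm_num) (by omega)).trans hP.hu1) hP.hu2 hP.hu3
      (hu4 (i + 2) (by omega)) (hP.hθ _ (by omega)) (hxQ1.trans (h2k _ hκ))
      ((hAk _ hκ).trans hη) hp
    have hQ' : 1 ≤ 6 * (x : ℝ) * Q := by nlinarith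
    have hη' : (1 / A) ^ (u ^ 2) ≤ 4 * x * η := by
      refine hη.trans ?_
      nlinarith
    obtain ⟨Q', q, hq⟩ := ih (by omega) (6 * x * Q) (4 * x * η) hQ' (by
      refine le_trans (le_of_eq ?_) hxQ
      ring) hη' h
    refine ⟨Q', q, ?_⟩
    have e1 : (4 * (x : ℝ)) ^ (i + 1) * (4 * x * η) = (4 * x) ^ (i + 1 + 1) * η := by ring
    rw [← e1]
    exact hq

end GridLine
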