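import Pool.Agent.Work.MP_c07f0d_lc.TL.FinDef

/-!
# The set of subformulas
-/

set_option linter.unusedSectionVars false

namespace GridLine

open Finset FregeEF

variable {α : Type} [DecidableEq α]

/-- The subformulas of a formula. -/
def subf : Fm α → Finset (Fm α)
  | .var x => {.var x}
  | .bot => {.bot}
  | .neg φ => insert (.neg φ) (subf φ)
  | .and φ ψ => insert (.and φ ψ) (subf φ ∪ subf ψ)
  | .or φ ψ => insert (.or φ ψ) (subf φ ∪ subf ψ)
  | .imp φ ψ => insert (.imp φ ψ) (subf φ ∪ subf ψ)

lemma self_mem_subf (φ : Fm α) : φ ∈ subf φ := by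
  cases φ <;> simp [subf]

lemma card_subf (φ : Fm α) : (subf φ).card ≤ φ.size := by
  induction φ with
  | var x => simp [subf, Fm.size]
  | bot => simp [subf, Fm.size]
  | neg φ ih =>
    simp only [subf, Fm.size]
    exact (Finset.card_insert_le _ _).trans (by omega)
  | and φ ψ ih1 ih2 =>
    simp only [subf, Fm.size]
    have := Finset.card_union_le (subf φ) (subf ψ)
    exact (Finset.card_insert_le _ _).trans (by omega)
  | or φ ψ ih1 ih2 =>
    simp only [subf, Fm.size]
    have := Finset.card_union_le (subf φ) (subf ψ)
    exact (Finset.card_insert_le _ _).trans (by omega)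
  | imp φ ψ ih1 ih2 =>
    simp only [subf, Fm.size]
    have := Finset.card_union_le (subf φ) (subf ψ)
    exact (Finset.card_insert_le _ _).trans (by omega)

lemma subf_trans {φ χ : Fm α} (h : χ ∈ subf φ) : subf χ ⊆ subf φ := by
  induction φ with
  | var x =>
    simp only [subf, Finset.mem_singleton] at h
    rw [h]
  | bot =>
    simp only [subf, Finset.mem_singleton] at h
    rw [h]
  | neg φ ih =>
    rcases Finset.mem_insert.mp h with rfl | h
    · exact subset_rfl
    · exact (ih h).trans (Finset.subset_insert _ _)
  | and φ ψ ih1 ih2 =>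
    rcases Finset.mem_insert.mp h with rfl | h
    · exact subset_rfl
    · rcases Finset.mem_union.mp h with h | h
      · exact (ih1 h).trans (Finset.subset_union_left.trans (Finset.subset_insert _ _))
      · exact (ih2 h).trans (Finset.subset_union_right.trans (Finset.subset_insert _ _))
  | or φ ψ ih1 ih2 =>
    rcases Finset.mem_insert.mp h with rfl | h
    · exact subset_rfl
    · rcases Finset.mem_union.mp h with h | h
      · exact (ih1 h).trans (Finset.subset_union_left.trans (Finset.subset_insert _ _))
      · exact (ih2 h).trans (Finset.subset_union_right.trans (Finset.subset_insert _ _))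
  | imp φ ψ ih1 ih2 =>
    rcases Finset.mem_insert.mp h with rfl | h
    · exact subset_rfl
    · rcases Finset.mem_union.mp h with h | h
      · exact (ih1 h).trans (Finset.subset_union_left.trans (Finset.subset_insert _ _))
      · exact (ih2 h).trans (Finset.subset_union_right.trans (Finset.subset_insert _ _))

lemma size_subf {φ χ : Fm α} (h : χ ∈ subf φ) : χ.size ≤ φ.size := by
  induction φ with
  | var x =>
    simp only [subf, Finset.mem_singleton] at h
    rw [h]
  | bot =>
    simp only [subf, Finset.mem_singleton] at h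
    rw [h]
  | neg φ ih =>
    rcases Finset.mem_insert.mp h with rfl | h
    · exact le_rfl
    · simp only [Fm.size]
      have := ih h
      omega
  | and φ ψ ih1 ih2 =>
    rcases Finset.mem_insert.mp h with rfl | h
    · exact le_rfl
    · simp only [Fm.size]
      rcases Finset.mem_union.mp h with h | h
      · have := ih1 h
        omega
      · have := ih2 h
        omega
  | or φ ψ ih1 ih2 =>
    rcases Finset.mem_insert.mp h with rfl | h
    · exact le_rfl
    · simp only [Fm.size]
      rcases Finset.mem_union.mp h with h | h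
      · have := ih1 h
        omega
      · have := ih2 h
        omega
  | imp φ ψ ih1 ih2 =>
    rcases Finset.mem_insert.mp h with rfl | h
    · exact le_rfl
    · simp only [Fm.size]
      rcases Finset.mem_union.mp h with h | h
      · have := ih1 h
        omega
      · have := ih2 h
        omega

/-- The subformulas of the formulas of a list. -/
def subL (L : List (Fm α)) : Finset (Fm α) := L.toFinset.biUnion subf

lemma mem_subL {L : List (Fm α)} {φ : Fm α} (h : φ ∈ L) : φ ∈ subL L :=
  Finset.mem_biUnion.mpr ⟨φ, List.mem_toFinset.mpr h, self_mem_subf φ⟩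

lemma size_subL {L : List (Fm α)} {s : ℕ} (h : ∀ φ ∈ L, φ.size ≤ s) {χ : Fm α}
    (hχ : χ ∈ subL L) : χ.size ≤ s := by
  obtain ⟨φ, hφ, h2⟩ := Finset.mem_biUnion.mp hχ
  exact (size_subf h2).trans (h φ (List.mem_toFinset.mp hφ))

lemma card_subL {L : List (Fm α)} {s : ℕ} (h : ∀ φ ∈ L, φ.size ≤ s) :
    (subL L).card ≤ L.length * s := by
  unfold subL
  calc (L.toFinset.biUnion subf).card ≤ L.toFinset.card * s := by
        refine Finset.card_biUnion_le_card_mul _ _ _ ?_
        intro φ hφ
        exact (card_subf φ).trans (h φ (List.mem_toFinset.mp hφ))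
    _ ≤ L.length * s := Nat.mul_le_mul_right _ (List.toFinset_card_le L)

lemma closed_subL (L : List (Fm α)) : Closed (· ∈ subL L) := by
  have key : ∀ χ χ' : Fm α, χ ∈ subL L → χ' ∈ subf χ → χ' ∈ subL L := by
    intro χ χ' h h'
    obtain ⟨φ, hφ, h2⟩ := Finset.mem_biUnion.mp h
    exact Finset.mem_biUnion.mpr ⟨φ, hφ, subf_trans h2 h'⟩
  refine ⟨?_, ?_, ?_, ?_⟩
  · intro φ h
    exact key _ _ h (Finset.mem_insert_of_mem (self_mem_subf φ))
  · intro φ ψ h
    exact ⟨key _ _ h (Finset.mem_insert_of_mem (Finset.mem_union_left _ (self_mem_subf φ))),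
      key _ _ h (Finset.mem_insert_of_mem (Finset.mem_union_right _ (self_mem_subf ψ)))⟩
  · intro φ ψ h
    exact ⟨key _ _ h (Finset.mem_insert_of_mem (Finset.mem_union_left _ (self_mem_subf φ))),
      key _ _ h (Finset.mem_insert_of_mem (Finset.mem_union_right _ (self_mem_subf ψ)))⟩
  · intro φ ψ h
    exact ⟨key _ _ h (Finset.mem_insert_of_mem (Finset.mem_union_left _ (self_mem_subf φ))),
      key _ _ h (Finset.mem_insert_of_mem (Finset.mem_union_right _ (self_mem_subf ψ)))⟩

end GridLine
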