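import Pool.Agent.Work.MP_c07f0d_lc.TL.World0
import Pool.Agent.Work.MP_c07f0d_lc.TL.Iter
import Pool.Agent.Work.MP_c07f0d_lc.TL.SubF
import Pool.Agent.Work.MP_c07f0d_lc.TL.FinB

/-!
# The lower bound in terms of the parameters
-/

set_option linter.unusedSectionVars false

namespace GridLine

open Finset LineSize FregeEF

/-- The property of the constant of the final argument. -/
def FinC (F : FregeSystem) (C : ℕ) : Prop :=
  ∀ (ι : Type) [Fintype ι] [DecidableEq ι] (P : PE ι)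
    (B k : ℕ) (η : ℝ) (α : Type) (Γ L : List (Fm α)) (In : Fm α → Prop)
    (p : Fm α → (ι → Bool) → ℝ), HC P B → P.E (fun _ => 1) = 1 → 0 ≤ η → C * (k + 1) ≤ P.cap →
    C * 3 ^ (C * (B + 1) * (k + 1)) * η ≤ 1 → Closed In → (∀ φ ∈ L, In φ) →
    Interp P In k η p → IsDeriv F.rules Γ L →
    (∀ φ ∈ Γ, In φ → P.N (fun x => 1 - p φ x) ≤ 2 * η) → Fm.bot ∉ L

lemma exists_finC (F : FregeSystem) : ∃ C : ℕ, FinC F C := finale F

/-- The lower bound in terms of the parameters. -/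
theorem core_lower {D w e u ν J x C : ℕ} {θ A : ℝ} (F : FregeSystem) (hC : FinC F C)
    (h0 : Par0 D w e u ν J A) (h1 : Par D w e u x θ A)
    (hcapF : C * (u ^ 2 + 1) ≤ u ^ (D - 2))
    (hfin : C * 3 ^ (C * (4 * D + 1) * (u ^ 2 + 1)) * ((4 * x) ^ (w + 1) * (1 / A) ^ (u ^ 2)) ≤ 1)
    (hQ : (6 * (x : ℝ)) ^ (w + 1) * 2 ≤ 2 ^ (u ^ 2))
    (L : List (Fm (GE D (u ^ (w + 2))))) (hL : IsDeriv F.rules (gridAxioms D (u ^ (w + 2))) L)
    (hsize : ∀ φ ∈ L, φ.size ≤ (u ^ (2 * ν)) ^ (J + 1))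
    (hx3 : 3 * (subL L).card ≤ x) : Fm.bot ∉ L := by
  classical
  have hA0 : 0 < A := lt_of_lt_of_le one_pos h1.hA
  have hcard : Fintype.card {φ // φ ∈ subL L} = (subL L).card := Fintype.card_coe _
  have hI : Fintype.card {φ // φ ∈ subL L} ≤ x := by
    rw [hcard]
    omega
  have hR : Fintype.card ({φ // φ ∈ subL L} × Fin 3) ≤ x := by
    rw [Fintype.card_prod, hcard, Fintype.card_fin]
    omega
  have hcl := closed_subL L
  have hw0 := world0 h0 (subL L) hcl fun φ hφ => size_subL hsize hφ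
  obtain ⟨Q', q, hq⟩ := iter h1 (relOf (subL L) hcl (gridAxioms D (u ^ (w + 2)))) hI hR w le_rfl 2
    ((1 / A) ^ (u ^ 2)) (by norm_num) hQ le_rfl hw0
  set η : ℝ := (4 * x) ^ (w + 1) * (1 / A) ^ (u ^ 2) with hη
  have hη0 : 0 ≤ η := by
    rw [hη]
    positivity
  have hOk : (gN D u 1 h1.hu).Ok (u ^ (D - 2)) := by
    have hc : Fintype.card (GV D (u ^ 1)) = u ^ D := by
      rw [card_GV, pow_one]
    refine ⟨?_, ?_⟩
    · rw [hc]
      show 128 * u ^ 1 * u ^ (D - 2) ≤ u ^ D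
      have hD2 : D = D - 2 + 2 := by
        have := h1.hD
        omega
      calc 128 * u ^ 1 * u ^ (D - 2) ≤ u * u ^ 1 * u ^ (D - 2) :=
            Nat.mul_le_mul_right _ (Nat.mul_le_mul_right _ h0.hu128)
        _ = u ^ (D - 2 + 2) := by
            rw [pow_add]
            ring
        _ = u ^ D := by rw [← hD2]
    · rw [hc]
      exact Nat.pow_pos h1.hu
  set P := (gN D u 1 h1.hu).pe gcharge (u ^ (D - 2)) hOk with hP
  have hHC : HC P (4 * D) := by
    intro t f ht hf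
    exact Net.hyper hOk ht hf
  have hr : ∀ r, P.N ((relOf (subL L) hcl (gridAxioms D (u ^ (w + 2))) r).val q) ≤ η := by
    intro r
    exact Real.sqrt_le_iff.mpr ⟨hη0, hq.rels r⟩
  obtain ⟨hint, hax⟩ := interp_of (P := P) hcl (k := u ^ 2) hq.deg hr
  refine hC (GE D (u ^ 1)) P (4 * D) (u ^ 2) η _ (gridAxioms D (u ^ (w + 2))) L _ _ hHC
    (Net.pe_one hOk) hη0 hcapF hfin hcl (fun φ hφ => mem_subL hφ) hint hL ?_
  intro φ hφ hIn
  have := hax φ hφ hIn
  linarith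

end GridLine
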