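import Pool.Agent.Work.MP_c07f0d_lc.LS.Walsh

/-!
# Hypercontractivity on the cube (fourth moments)
-/

set_option linter.unusedSectionVars false

namespace GridLine

open Finset LineSize

section

variable {κ : Type} [Fintype κ] [DecidableEq κ]

/-- flip the coordinate `i` -/
def cube4_flip (i : κ) (x : κ → Bool) : κ → Bool := Function.update x i (!x i)

lemma cube4_flip_self (i : κ) (x : κ → Bool) : cube4_flip i x i = !x i := by
  simp [cube4_flip]

lemma cube4_flip_ne {i j : κ} (h : j ≠ i) (x : κ → Bool) : cube4_flip i x j = x j := by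
  simp [cube4_flip, h]

lemma cube4_flip_flip (i : κ) (x : κ → Bool) : cube4_flip i (cube4_flip i x) = x := by
  funext j
  by_cases h : j = i
  · subst h
    rw [cube4_flip_self, cube4_flip_self, Bool.not_not]
  · rw [cube4_flip_ne h, cube4_flip_ne h]

lemma cube4_sum_flip (i : κ) (F : (κ → Bool) → ℝ) : ∑ x, F (cube4_flip i x) = ∑ x, F x :=
  Equiv.sum_comp (Function.Involutive.toPerm (cube4_flip i) (cube4_flip_flip i)) F

lemma cube4_sg_not (b : Bool) : sg (!b) = -sg b := by
  cases b <;> simp [sg]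

lemma cube4_chi_flip (i : κ) (S : Finset κ) (x : κ → Bool) :
    chi S (cube4_flip i x) = (if i ∈ S then -1 else 1) * chi S x := by
  unfold chi
  by_cases h : i ∈ S
  · rw [if_pos h, ← Finset.mul_prod_erase S _ h, ← Finset.mul_prod_erase S _ h,
      cube4_flip_self, cube4_sg_not]
    have : ∏ j ∈ S.erase i, sg (cube4_flip i x j) = ∏ j ∈ S.erase i, sg (x j) :=
      Finset.prod_congr rfl fun j hj => by rw [cube4_flip_ne (Finset.ne_of_mem_erase hj)]
    rw [this]
    ring
  · rw [if_neg h, one_mul]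
    refine Finset.prod_congr rfl fun j hj => ?_
    have hji : j ≠ i := by
      rintro rfl
      exact h hj
    rw [cube4_flip_ne hji]

lemma cube4_fc_flip (i : κ) (f : (κ → Bool) → ℝ) (S : Finset κ) :
    fc (fun x => f (cube4_flip i x)) S = (if i ∈ S then -1 else 1) * fc f S := by
  unfold fc
  rw [← cube4_sum_flip i (fun x => f (cube4_flip i x) * chi S x), mul_div_assoc', Finset.mul_sum]
  congr 1
  refine Finset.sum_congr rfl fun x _ => ?_
  rw [cube4_flip_flip, cube4_chi_flip]
  ring

/-- the part without `i` -/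
noncomputable def cube4_g (i : κ) (f : (κ → Bool) → ℝ) (x : κ → Bool) : ℝ :=
  (1 / 2) * (f x + f (cube4_flip i x))

/-- the part with `i` -/
noncomputable def cube4_h (i : κ) (f : (κ → Bool) → ℝ) (x : κ → Bool) : ℝ :=
  (1 / 2) * (f x - f (cube4_flip i x)) * chi {i} x

lemma cube4_fc_g (i : κ) (f : (κ → Bool) → ℝ) (S : Finset κ) :
    fc (cube4_g i f) S = if i ∈ S then 0 else fc f S := by
  have : cube4_g i f = fun x => (1 / 2) * (f x + f (cube4_flip i x)) := rfl
  rw [this, fc_const_mul, fc_add, cube4_fc_flip]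
  split_ifs <;> ring

lemma cube4_fc_h (i : κ) (f : (κ → Bool) → ℝ) (S : Finset κ) :
    fc (cube4_h i f) S = if i ∈ S then 0 else fc f (insert i S) := by
  have : cube4_h i f = fun x => ((1 / 2) * (f x - f (cube4_flip i x))) * chi {i} x := rfl
  rw [this, fc_mul_chi, fc_const_mul, fc_sub, cube4_fc_flip]
  by_cases h : i ∈ S
  · have h1 : i ∉ symmDiff S {i} := by simp [Finset.mem_symmDiff, h]
    rw [if_neg h1, if_pos h]
    ring
  · have h1 : i ∈ symmDiff S {i} := by simp [Finset.mem_symmDiff, h]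
    have h2 : symmDiff S {i} = insert i S := by
      ext j
      by_cases hj : j = i
      · subst hj
        simp [Finset.mem_symmDiff, h]
      · simp [Finset.mem_symmDiff, hj]
    rw [if_pos h1, if_neg h, h2]
    ring

lemma cube4_f_eq (i : κ) (f : (κ → Bool) → ℝ) (x : κ → Bool) :
    f x = cube4_g i f x + chi {i} x * cube4_h i f x := by
  have := chi_sq {i} x
  unfold cube4_g cube4_h
  linear_combination (-(1 / 2) * (f x - f (cube4_flip i x))) * this

lemma cube4_flip_eq (i : κ) (f : (κ → Bool) → ℝ) (x : κ → Bool) :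
    f (cube4_flip i x) = cube4_g i f x - chi {i} x * cube4_h i f x := by
  have := chi_sq {i} x
  unfold cube4_g cube4_h
  linear_combination ((1 / 2) * (f x - f (cube4_flip i x))) * this

lemma cube4_sum_sq (i : κ) (f : (κ → Bool) → ℝ) :
    ∑ x, f x ^ 2 = ∑ x, cube4_g i f x ^ 2 + ∑ x, cube4_h i f x ^ 2 := by
  have h1 := cube4_sum_flip i (fun x => f x ^ 2)
  have h2 : ∑ x, f x ^ 2 + ∑ x, f (cube4_flip i x) ^ 2 =
      2 * (∑ x, cube4_g i f x ^ 2 + ∑ x, cube4_h i f x ^ 2) := by
    rw [← Finset.sum_add_distrib, ← Finset.sum_add_distrib, Finset.mul_sum]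
    refine Finset.sum_congr rfl fun x _ => ?_
    have h3 := chi_sq {i} x
    rw [cube4_flip_eq i f x, cube4_f_eq i f x]
    linear_combination (2 * cube4_h i f x ^ 2) * h3
  linarith

lemma cube4_sum_four (i : κ) (f : (κ → Bool) → ℝ) :
    ∑ x, f x ^ 4 = ∑ x, cube4_g i f x ^ 4 + 6 * ∑ x, cube4_g i f x ^ 2 * cube4_h i f x ^ 2 +
      ∑ x, cube4_h i f x ^ 4 := by
  have h1 := cube4_sum_flip i (fun x => f x ^ 4)
  have h2 : ∑ x, f x ^ 4 + ∑ x, f (cube4_flip i x) ^ 4 =
      2 * (∑ x, cube4_g i f x ^ 4 + 6 * ∑ x, cube4_g i f x ^ 2 * cube4_h i f x ^ 2 +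
      ∑ x, cube4_h i f x ^ 4) := by
    rw [Finset.mul_sum, ← Finset.sum_add_distrib, ← Finset.sum_add_distrib,
      ← Finset.sum_add_distrib, Finset.mul_sum]
    refine Finset.sum_congr rfl fun x _ => ?_
    have h3 := chi_sq {i} x
    have h4 : chi {i} x ^ 2 = 1 := by rw [pow_two]; exact h3
    have h5 : chi {i} x ^ 4 = 1 := by
      have : chi {i} x ^ 4 = (chi {i} x ^ 2) ^ 2 := by ring
      rw [this, h4, one_pow]
    rw [cube4_flip_eq i f x, cube4_f_eq i f x]
    linear_combination (12 * cube4_g i f x ^ 2 * cube4_h i f x ^ 2) * h4 +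
      (2 * cube4_h i f x ^ 4) * h5
  linarith

lemma cube4_aux (A : Finset κ) : ∀ (f : (κ → Bool) → ℝ) (d : ℕ), LowDeg d f →
    (∀ S, ¬ S ⊆ A → fc f S = 0) →
    (∑ x, f x ^ 4) * 2 ^ Fintype.card κ ≤ 9 ^ d * (∑ x, f x ^ 2) ^ 2 := by
  induction A using Finset.induction_on with
  | empty =>
    intro f d hd hA
    have hc : ∀ x, f x = fc f ∅ := by
      intro x
      rw [← walsh f x, Finset.sum_eq_single ∅]
      · simp
      · intro S _ hS
        rw [hA S (fun h => hS (Finset.subset_empty.1 h)), zero_mul]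
      · intro h
        exact absurd (Finset.mem_univ _) h
    have h4 : ∑ x, f x ^ 4 = 2 ^ Fintype.card κ * fc f ∅ ^ 4 := by
      rw [Finset.sum_congr rfl fun x _ => by rw [hc x]]
      simp
    have h2 : ∑ x, f x ^ 2 = 2 ^ Fintype.card κ * fc f ∅ ^ 2 := by
      rw [Finset.sum_congr rfl fun x _ => by rw [hc x]]
      simp
    rw [h4, h2]
    have h9 : (1 : ℝ) ≤ 9 ^ d := one_le_pow₀ (by norm_num)
    have h0 : (0 : ℝ) ≤ (2 ^ Fintype.card κ * fc f ∅ ^ 2) ^ 2 := by positivity
    nlinarith [mul_le_mul_of_nonneg_right h9 h0]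
  | insert i A hi ih =>
    intro f d hd hA
    have hg1 : LowDeg d (cube4_g i f) := by
      intro S hS
      rw [cube4_fc_g]
      split_ifs
      · rfl
      · exact hd S hS
    have hg2 : ∀ S, ¬ S ⊆ A → fc (cube4_g i f) S = 0 := by
      intro S hS
      rw [cube4_fc_g]
      split_ifs with h
      · rfl
      · refine hA S fun h' => hS fun j hj => ?_
        rcases Finset.mem_insert.1 (h' hj) with h'' | h''
        · exact absurd (h'' ▸ hj) h
        · exact h''
    have hh2 : ∀ S, ¬ S ⊆ A → fc (cube4_h i f) S = 0 := by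
      intro S hS
      rw [cube4_fc_h]
      split_ifs with h
      · rfl
      · refine hA _ fun h' => hS fun j hj => ?_
        rcases Finset.mem_insert.1 (h' (Finset.mem_insert_of_mem hj)) with h'' | h''
        · exact absurd (h'' ▸ hj) h
        · exact h''
    have Ig := ih _ d hg1 hg2
    rw [cube4_sum_sq i f, cube4_sum_four i f]
    set G := ∑ x, cube4_g i f x ^ 2 with hG
    set H := ∑ x, cube4_h i f x ^ 2 with hH
    have hG0 : 0 ≤ G := Finset.sum_nonneg fun x _ => sq_nonneg _
    have hH0 : 0 ≤ H := Finset.sum_nonneg fun x _ => sq_nonneg _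
    rcases Nat.eq_zero_or_pos d with h0 | h0
    · subst h0
      have hz : ∀ x, cube4_h i f x = 0 := by
        intro x
        rw [← walsh (cube4_h i f) x]
        refine Finset.sum_eq_zero fun S _ => ?_
        rw [cube4_fc_h]
        split_ifs with h
        · rw [zero_mul]
        · rw [hd _ (by simp [Finset.card_insert_of_notMem h]), zero_mul]
      have e1 : ∑ x, cube4_g i f x ^ 2 * cube4_h i f x ^ 2 = 0 :=
        Finset.sum_eq_zero fun x _ => by rw [hz x]; ring
      have e2 : ∑ x, cube4_h i f x ^ 4 = 0 :=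
        Finset.sum_eq_zero fun x _ => by rw [hz x]; ring
      have e3 : H = 0 := Finset.sum_eq_zero fun x _ => by rw [hz x]; ring
      rw [e1, e2, e3]
      simpa using Ig
    · obtain ⟨d, rfl⟩ := Nat.exists_eq_add_of_le' h0
      have hh1 : LowDeg d (cube4_h i f) := by
        intro S hS
        rw [cube4_fc_h]
        split_ifs with h
        · rfl
        · exact hd _ (by rw [Finset.card_insert_of_notMem h]; omega)
      have Ih := ih _ d hh1 hh2
      rw [← hH] at Ih
      set N : ℝ := 2 ^ Fintype.card κ with hN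
      have hN0 : 0 < N := by positivity
      set P := ∑ x, cube4_g i f x ^ 4 with hP
      set R := ∑ x, cube4_h i f x ^ 4 with hR
      set X := ∑ x, cube4_g i f x ^ 2 * cube4_h i f x ^ 2 with hX
      have hX0 : 0 ≤ X := Finset.sum_nonneg fun x _ => by positivity
      have hP0 : 0 ≤ P := Finset.sum_nonneg fun x _ => by positivity
      have hR0 : 0 ≤ R := Finset.sum_nonneg fun x _ => by positivity
      have hcs : X ^ 2 ≤ P * R := by
        have := Finset.sum_mul_sq_le_sq_mul_sq Finset.univ (fun x => cube4_g i f x ^ 2)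
          (fun x => cube4_h i f x ^ 2)
        have e1 : ∀ y : ℝ, (y ^ 2) ^ 2 = y ^ 4 := fun y => by ring
        simpa only [e1] using this
      have hXb : X * N ≤ 3 * 9 ^ d * (G * H) := by
        refine abs_le_of_sq_le_sq' ?_ (by positivity) |>.2
        calc (X * N) ^ 2 = X ^ 2 * N ^ 2 := by ring
          _ ≤ (P * R) * N ^ 2 := mul_le_mul_of_nonneg_right hcs (by positivity)
          _ = (P * N) * (R * N) := by ring
          _ ≤ (9 ^ (d + 1) * G ^ 2) * (9 ^ d * H ^ 2) :=
              mul_le_mul Ig Ih (by positivity) (by positivity)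
          _ = (3 * 9 ^ d * (G * H)) ^ 2 := by ring
      have h9 : (0 : ℝ) < 9 ^ d := by positivity
      calc (P + 6 * X + R) * N = P * N + 6 * (X * N) + R * N := by ring
        _ ≤ 9 ^ (d + 1) * G ^ 2 + 6 * (3 * 9 ^ d * (G * H)) + 9 ^ d * H ^ 2 := by linarith
        _ ≤ 9 ^ (d + 1) * (G + H) ^ 2 := by
            have : 9 ^ (d + 1) * (G + H) ^ 2 - (9 ^ (d + 1) * G ^ 2 + 6 * (3 * 9 ^ d * (G * H)) +
              9 ^ d * H ^ 2) = 8 * 9 ^ d * H ^ 2 := by ring
            have h2 : 0 ≤ 8 * 9 ^ d * H ^ 2 := by positivity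
            linarith

end

/-- The fourth moment of a function of degree at most `d` (Bonami). -/
theorem bonami {κ : Type} [Fintype κ] [DecidableEq κ] {f : (κ → Bool) → ℝ} {d : ℕ}
    (hf : LowDeg d f) :
    (∑ x, f x ^ 4) * 2 ^ Fintype.card κ ≤ 9 ^ d * (∑ x, f x ^ 2) ^ 2 :=
  cube4_aux Finset.univ f d hf fun S hS => absurd (Finset.subset_univ S) hS

end GridLine
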