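import Pool.Agent.Work.MP_c07f0d_lc.TL.MleX

/-!
# Multilinear evaluation at approximate idempotents: bounds
-/

set_option linter.unusedSectionVars false

namespace GridLine

open Finset LineSize

variable {ι : Type} [Fintype ι] [DecidableEq ι]

section Bounds

variable {κ : Type} [Fintype κ] [DecidableEq κ] {P : PE ι}

/-- Reindexing. -/
lemma mle_reindex {n : ℕ} (e : κ ≃ Fin n) (g : (κ → Bool) → ℝ) (z : κ → (ι → Bool) → ℝ)
    (x : ι → Bool) :
    mle g z x = mle (fun w : Fin n → Bool => g (fun j => w (e j))) (fun i => z (e.symm i)) x := by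
  unfold mle
  refine Fintype.sum_equiv (Equiv.arrowCongr e (Equiv.refl Bool)) _ _ fun v => ?_
  congr 1
  · congr 1
    funext j
    simp [Equiv.arrowCongr]
  · refine Fintype.prod_equiv e _ _ fun j => ?_
    simp [Equiv.arrowCongr]

/-- Pull out the first variable. -/
lemma mle_succ {n : ℕ} (g : (Fin (n + 1) → Bool) → ℝ) (z : Fin (n + 1) → (ι → Bool) → ℝ)
    (x : ι → Bool) :
    mle g z x = z 0 x * mle (fun v : Fin n → Bool => g (Fin.cons true v)) (fun j => z j.succ) x +
      (1 - z 0 x) * mle (fun v : Fin n → Bool => g (Fin.cons false v)) (fun j => z j.succ) x := by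
  unfold mle
  rw [← (Fin.consEquiv (fun _ : Fin (n + 1) => Bool)).sum_comp, Fintype.sum_prod_type,
    Fintype.sum_bool, Finset.mul_sum, Finset.mul_sum]
  congr 1
  · refine Finset.sum_congr rfl fun v _ => ?_
    rw [Fin.prod_univ_succ]
    simp only [Fin.consEquiv, Equiv.coe_fn_mk, Fin.cons_zero, Fin.cons_succ, if_true]
    ring
  · refine Finset.sum_congr rfl fun v _ => ?_
    rw [Fin.prod_univ_succ]
    simp only [Fin.consEquiv, Equiv.coe_fn_mk, Fin.cons_zero, Fin.cons_succ, Bool.false_eq_true,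
      if_false]
    ring

lemma mle_zero (g : (Fin 0 → Bool) → ℝ) (z : Fin 0 → (ι → Bool) → ℝ)
    (x : ι → Bool) : mle g z x = g default := by
  unfold mle
  simp only [Finset.univ_unique, Finset.sum_singleton, Finset.univ_eq_empty, Finset.prod_empty,
    mul_one]
  exact congrArg g (Subsingleton.elim _ _)

lemma mle_norm_fin {d T : ℕ} {ε M : ℝ} (hε : 0 ≤ ε) (hcap : T + 2 * d ≤ P.cap) (n : ℕ) :
    ∀ (t : ℕ) (g : (Fin n → Bool) → ℝ) (z : Fin n → (ι → Bool) → ℝ),
    (∀ j, LowDeg d (z j)) → (∀ j, P.Bd T (fun x => z j x ^ 2 - z j x) ε) →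
    t + n * d ≤ T → (∀ v, |g v| ≤ M) → P.Bd t (mle g z) (M * (1 + 2 * ε) ^ n) := by
  induction n with
  | zero =>
    intro t g z _ _ _ hM
    refine ((PE.Bd.const (P := P) t (g default)).congr' fun x => (mle_zero g z x).symm).mono
      le_rfl ?_
    simpa using hM default
  | succ n ih =>
    intro t g z hz hi ht hM
    have hM0 : 0 ≤ M := (abs_nonneg _).trans (hM fun _ => true)
    rw [Nat.succ_mul] at ht
    have hD1 : LowDeg (n * d) (mle (fun v : Fin n → Bool => g (Fin.cons true v))
        (fun j => z j.succ)) := by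
      have := mle_lowDeg' (fun v : Fin n → Bool => g (Fin.cons true v)) (fun j : Fin n => hz j.succ)
      rwa [Fintype.card_fin] at this
    have hD0 : LowDeg (n * d) (mle (fun v : Fin n → Bool => g (Fin.cons false v))
        (fun j => z j.succ)) := by
      have := mle_lowDeg' (fun v : Fin n → Bool => g (Fin.cons false v)) (fun j : Fin n => hz j.succ)
      rwa [Fintype.card_fin] at this
    have h1 := ih (t + d) (fun v : Fin n → Bool => g (Fin.cons true v)) (fun j => z j.succ)
      (fun j => hz j.succ) (fun j => hi j.succ) (by omega) (fun v => hM _)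
    have h0 := ih (t + d) (fun v : Fin n → Bool => g (Fin.cons false v)) (fun j => z j.succ)
      (fun j => hz j.succ) (fun j => hi j.succ) (by omega) (fun v => hM _)
    have h2 := PE.Bd.mix (t := t) (hz 0) ((hi 0).mono (by omega) le_rfl) hε (by positivity)
      hD1 hD0 h1 h0 (by omega)
    refine (h2.congr' fun x => (mle_succ g z x).symm).mono le_rfl (le_of_eq ?_)
    rw [pow_succ]
    ring

/-- The norm of the multilinear extension. -/
lemma mle_norm {d t T : ℕ} {ε M : ℝ} (g : (κ → Bool) → ℝ) (z : κ → (ι → Bool) → ℝ)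
    (hz : ∀ j, LowDeg d (z j)) (hi : ∀ j, P.Bd T (fun x => z j x ^ 2 - z j x) ε) (hε : 0 ≤ ε)
    (ht : t + Fintype.card κ * d ≤ T) (hcap : T + 2 * d ≤ P.cap) (hM : ∀ v, |g v| ≤ M) :
    P.Bd t (mle g z) (M * (1 + 2 * ε) ^ Fintype.card κ) := by
  have e := Fintype.equivFin κ
  exact (mle_norm_fin hε hcap (Fintype.card κ) t (fun w => g (fun j => w (e j)))
    (fun i => z (e.symm i)) (fun j => hz _) (fun j => hi _) ht (fun v => hM _)).congr'
    fun x => (mle_reindex e g z x).symm

lemma mle_mul_fin {d T : ℕ} {ε M M' : ℝ} (hε : 0 ≤ ε) (hcap : T + 2 * d ≤ P.cap) (n : ℕ) :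
    ∀ (t : ℕ) (g h : (Fin n → Bool) → ℝ) (z : Fin n → (ι → Bool) → ℝ),
    (∀ j, LowDeg d (z j)) → (∀ j, P.Bd T (fun x => z j x ^ 2 - z j x) ε) →
    t + 2 * (n * d) ≤ T → (∀ v, |g v| ≤ M) → (∀ v, |h v| ≤ M') →
    P.Bd t (fun x => mle g z x * mle h z x - mle (fun v => g v * h v) z x)
      (4 * M * M' * ε * n * (1 + 2 * ε) ^ (2 * n)) := by
  induction n with
  | zero =>
    intro t g h z _ _ _ hM hM'
    refine ((PE.Bd.zero (P := P) t).congr' fun x => ?_).mono le_rfl ?_
    · rw [mle_zero, mle_zero, mle_zero]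
      ring
    · simp
  | succ n ih =>
    intro t g h z hz hi ht hM hM'
    have hM0 : 0 ≤ M := (abs_nonneg _).trans (hM fun _ => true)
    have hM0' : 0 ≤ M' := (abs_nonneg _).trans (hM' fun _ => true)
    rw [Nat.succ_mul n d, Nat.mul_add] at ht
    have hD : ∀ f : (Fin n → Bool) → ℝ, LowDeg (n * d) (mle f (fun j : Fin n => z j.succ)) := by
      intro f
      have := mle_lowDeg' f (fun j : Fin n => hz j.succ)
      rwa [Fintype.card_fin] at this
    set g1 : (Fin n → Bool) → ℝ := fun v => g (Fin.cons true v) with hg1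
    set g0 : (Fin n → Bool) → ℝ := fun v => g (Fin.cons false v) with hg0
    set h1 : (Fin n → Bool) → ℝ := fun v => h (Fin.cons true v) with hh1
    set h0 : (Fin n → Bool) → ℝ := fun v => h (Fin.cons false v) with hh0
    set w : Fin n → (ι → Bool) → ℝ := fun j => z j.succ with hw
    have hδD : ∀ a b : (Fin n → Bool) → ℝ,
        LowDeg (2 * (n * d)) (fun x => mle a w x * mle b w x - mle (fun v => a v * b v) w x) := by
      intro a b
      have := (hD a).mul (hD b)
      rw [← two_mul] at this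
      exact this.sub ((hD _).mono (by omega))
    have i1 := ih (t + d) g1 h1 w (fun j => hz j.succ) (fun j => hi j.succ) (by omega)
      (fun v => hM _) (fun v => hM' _)
    have i0 := ih (t + d) g0 h0 w (fun j => hz j.succ) (fun j => hi j.succ) (by omega)
      (fun v => hM _) (fun v => hM' _)
    have hc : 0 ≤ 4 * M * M' * ε * n * (1 + 2 * ε) ^ (2 * n) := by positivity
    have A := PE.Bd.mix (t := t) (hz 0) ((hi 0).mono (by omega) le_rfl) hε hc
      (hδD g1 h1) (hδD g0 h0) i1 i0 (by omega)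
    have B1 : P.Bd (t + n * d) (fun x => mle g1 w x - mle g0 w x) (2 * M * (1 + 2 * ε) ^ n) := by
      refine (mle_norm_fin hε hcap n (t + n * d) (fun v => g1 v - g0 v) w (fun j => hz j.succ)
        (fun j => hi j.succ) (by omega) (M := 2 * M) fun v => ?_).congr'
        fun x => mle_sub g1 g0 w x
      calc |g1 v - g0 v| ≤ |g1 v| + |g0 v| := abs_sub _ _
        _ ≤ M + M := add_le_add (hM _) (hM _)
        _ = 2 * M := by ring
    have B0 : P.Bd t (fun x => mle h1 w x - mle h0 w x) (2 * M' * (1 + 2 * ε) ^ n) := by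
      refine (mle_norm_fin hε hcap n t (fun v => h1 v - h0 v) w (fun j => hz j.succ)
        (fun j => hi j.succ) (by omega) (M := 2 * M') fun v => ?_).congr'
        fun x => mle_sub h1 h0 w x
      calc |h1 v - h0 v| ≤ |h1 v| + |h0 v| := abs_sub _ _
        _ ≤ M' + M' := add_le_add (hM' _) (hM' _)
        _ = 2 * M' := by ring
    have dG := (hD g1).sub (hD g0)
    have dH := (hD h1).sub (hD h0)
    have B := B1.mul B0 dH (by positivity)
    have dGH : LowDeg (2 * (n * d))
        (fun x => (mle g1 w x - mle g0 w x) * (mle h1 w x - mle h0 w x)) := by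
      have := dG.mul dH
      rwa [← two_mul] at this
    have C := PE.Bd.mul ((hi 0).mono (t' := t + 2 * (n * d)) (by omega) le_rfl) B dGH hε
    have dz2 : LowDeg (2 * d) (fun x => z 0 x ^ 2 - z 0 x) :=
      ((hz 0).pow 2).sub ((hz 0).mono (by omega))
    have dC := dz2.mul dGH
    have dA1 := (hz 0).mul (hδD g1 h1)
    have dA0 := ((LowDeg.const d 1).sub (hz 0)).mul (hδD g0 h0)
    have dA := dA1.add dA0
    have S := A.add C (dA.mono (by omega)) dC (by omega)
    refine (S.congr' fun x => ?_).mono le_rfl ?_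
    · rw [mle_succ g z x, mle_succ h z x, mle_succ (fun v => g v * h v) z x]
      simp only [← hg1, ← hg0, ← hh1, ← hh0, ← hw]
      ring
    · have h1' : (1 : ℝ) ≤ 1 + 2 * ε := by linarith
      have hp : (0 : ℝ) < (1 + 2 * ε) ^ (2 * n) := by positivity
      have p1 : (1 + 2 * ε) ^ (2 * n) ≤ (1 + 2 * ε) ^ (2 * (n + 1)) :=
        pow_le_pow_right₀ h1' (by omega)
      have p2 : (1 + 2 * ε) ^ (2 * n) * (1 + 2 * ε) ≤ (1 + 2 * ε) ^ (2 * (n + 1)) := by
        rw [← pow_succ]
        exact pow_le_pow_right₀ h1' (by omega)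
      have hK : 0 ≤ 4 * M * M' * ε := by positivity
      have q1 := mul_le_mul_of_nonneg_left p1 hK
      have q2 := mul_le_mul_of_nonneg_left p2
        (mul_nonneg hK (Nat.cast_nonneg n))
      push_cast
      have e1 : ε * (2 * M * (1 + 2 * ε) ^ n * (2 * M' * (1 + 2 * ε) ^ n)) =
          4 * M * M' * ε * (1 + 2 * ε) ^ (2 * n) := by
        rw [two_mul n, pow_add]
        ring
      rw [e1]
      nlinarith

/-- The multilinear extension is approximately multiplicative. -/
lemma mle_mul {d t T : ℕ} {ε M M' : ℝ} (g h : (κ → Bool) → ℝ) (z : κ → (ι → Bool) → ℝ)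
    (hz : ∀ j, LowDeg d (z j)) (hi : ∀ j, P.Bd T (fun x => z j x ^ 2 - z j x) ε) (hε : 0 ≤ ε)
    (ht : t + 2 * (Fintype.card κ * d) ≤ T) (hcap : T + 2 * d ≤ P.cap)
    (hM : ∀ v, |g v| ≤ M) (hM' : ∀ v, |h v| ≤ M') :
    P.Bd t (fun x => mle g z x * mle h z x - mle (fun v => g v * h v) z x)
      (4 * M * M' * ε * Fintype.card κ * (1 + 2 * ε) ^ (2 * Fintype.card κ)) := by
  have e := Fintype.equivFin κ
  exact (mle_mul_fin hε hcap (Fintype.card κ) t (fun w => g (fun j => w (e j)))
    (fun w => h (fun j => w (e j))) (fun i => z (e.symm i)) (fun j => hz _) (fun j => hi _) ht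
    (fun v => hM _) (fun v => hM' _)).congr' fun x => by
      rw [mle_reindex e g z x, mle_reindex e h z x, mle_reindex e (fun v => g v * h v) z x]

end Bounds

end GridLine
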