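import Pool.Agent.Work.MP_c07f0d_lc.TL.FinDef
import Pool.Agent.Work.MP_c07f0d_lc.TL.MleB

/-!
# Interpretations: the gap lemma and substitution
-/

set_option linter.unusedSectionVars false

namespace GridLine

open Finset LineSize FregeEF

section

variable {ι : Type} [Fintype ι] [DecidableEq ι] {P : PE ι}

lemma finA_lowDeg_sq {d : ℕ} {f : (ι → Bool) → ℝ} (hf : LowDeg d f) :
    LowDeg (2 * d) (fun x => f x ^ 2) := by
  have h := hf.mul hf
  have e : (fun x => f x ^ 2) = fun x => f x * f x := by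
    funext x
    ring
  rw [e, two_mul]
  exact h

/-- Small functions of low degree are small operators. -/
lemma HC.bd {B : ℕ} (h : HC P B) {t d : ℕ} {f : (ι → Bool) → ℝ} {η : ℝ} (hf : LowDeg d f)
    (hcap : 4 * (t + d) ≤ P.cap) (hη : P.N f ≤ η) : P.Bd t f (3 ^ (B * (t + d)) * η) := by
  intro u hu
  have hη0 : 0 ≤ η := le_trans (PE.N_nonneg f) hη
  have hf4 := h d f (by omega) hf
  have hu4 := h t u (by omega) hu
  have hfs : P.N f ^ 2 = P.E fun x => f x ^ 2 := PE.N_sq (hf.mono (by omega))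
  have hus : P.N u ^ 2 = P.E fun x => u x ^ 2 := PE.N_sq (hu.mono (by omega))
  have hcs := PE.cs' (P := P) (f := fun x => f x ^ 2) (g := fun x => u x ^ 2)
    ((finA_lowDeg_sq hf).mono (by omega)) ((finA_lowDeg_sq hu).mono (by omega))
  have e1 : (fun x => (f x ^ 2) ^ 2) = fun x => f x ^ 4 := by
    funext x
    ring
  have e2 : (fun x => (u x ^ 2) ^ 2) = fun x => u x ^ 4 := by
    funext x
    ring
  have e3 : (fun x => f x ^ 2 * u x ^ 2) = fun x => (f x * u x) ^ 2 := by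
    funext x
    ring
  rw [e1, e2, e3] at hcs
  have hfu : LowDeg P.cap (fun x => f x * u x) := (hf.mul hu).mono (by omega)
  have hNfu : P.N (fun x => f x * u x) ^ 2 = P.E fun x => (f x * u x) ^ 2 := PE.N_sq hfu
  rw [← hfs] at hf4
  rw [← hus] at hu4
  rw [← hNfu] at hcs
  have hE4u : 0 ≤ P.E fun x => u x ^ 4 := by
    rw [← e2]
    exact P.psd _ ((finA_lowDeg_sq hu).mono (by omega))
  have hb : (P.N (fun x => f x * u x) ^ 2) ^ 2
      ≤ (3 ^ (B * (t + d)) * (P.N f ^ 2 * P.N u ^ 2)) ^ 2 := by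
    refine hcs.trans ?_
    refine (mul_le_mul hf4 hu4 hE4u (by positivity)).trans (le_of_eq ?_)
    have e9 : ∀ m : ℕ, (9 : ℝ) ^ m = (3 ^ m) ^ 2 := by
      intro m
      rw [← pow_mul, mul_comm m 2, pow_mul]
      norm_num
    rw [e9, e9, Nat.mul_add, pow_add]
    ring
  have hb2 : P.N (fun x => f x * u x) ^ 2 ≤ 3 ^ (B * (t + d)) * (P.N f ^ 2 * P.N u ^ 2) :=
    (pow_le_pow_iff_left₀ (by positivity) (by positivity) two_ne_zero).mp hb
  have hX : (1 : ℝ) ≤ 3 ^ (B * (t + d)) := one_le_pow₀ (by norm_num)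
  have hNf := PE.N_nonneg (P := P) f
  have hNu := PE.N_nonneg (P := P) u
  refine (pow_le_pow_iff_left₀ (PE.N_nonneg _) (by positivity) two_ne_zero).mp ?_
  refine hb2.trans ?_
  have h1 : P.N f ^ 2 ≤ η ^ 2 := pow_le_pow_left₀ hNf hη 2
  have h2 : (3 : ℝ) ^ (B * (t + d)) ≤ (3 ^ (B * (t + d))) ^ 2 := by nlinarith
  calc 3 ^ (B * (t + d)) * (P.N f ^ 2 * P.N u ^ 2)
      ≤ (3 ^ (B * (t + d))) ^ 2 * (η ^ 2 * P.N u ^ 2) := by gcongr
    _ = (3 ^ (B * (t + d)) * η * P.N u) ^ 2 := by ring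

/-- The gap lemma. -/
lemma HC.gap {B : ℕ} (h : HC P B) {k : ℕ} {f : (ι → Bool) → ℝ} {η : ℝ} (hf : LowDeg k f)
    (hcap : 4 * k ≤ P.cap) (hη : P.N (fun x => f x - f x * f x) ≤ η)
    (hsmall : 2 * 3 ^ (B * k) * P.N f ≤ 1) : P.N f ≤ 2 * η := by
  have hff : LowDeg (k + k) (fun x => f x * f x) := hf.mul hf
  have hfs : P.N f ^ 2 = P.E fun x => f x ^ 2 := PE.N_sq (hf.mono (by omega))
  have hf4 := h k f (by omega) hf
  rw [← hfs] at hf4
  have hN2 : P.N (fun x => f x * f x) ^ 2 = P.E fun x => f x ^ 4 := by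
    rw [PE.N_sq (hff.mono (by omega))]
    congr 1
    funext x
    ring
  have hNf := PE.N_nonneg (P := P) f
  have h3 : P.N (fun x => f x * f x) ≤ 3 ^ (B * k) * P.N f ^ 2 := by
    refine (pow_le_pow_iff_left₀ (PE.N_nonneg _) (by positivity) two_ne_zero).mp ?_
    rw [hN2]
    refine hf4.trans (le_of_eq ?_)
    have e9 : ∀ m : ℕ, (9 : ℝ) ^ m = (3 ^ m) ^ 2 := by
      intro m
      rw [← pow_mul, mul_comm m 2, pow_mul]
      norm_num
    rw [e9]
    ring
  have h4 : P.N f ≤ P.N (fun x => f x - f x * f x) + P.N (fun x => f x * f x) := by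
    have h5 := PE.N_add_le (P := P) (f := fun x => f x - f x * f x) (g := fun x => f x * f x)
      ((hf.mono (by omega)).sub (hff.mono (by omega))) (hff.mono (by omega))
    have e : (fun x => f x - f x * f x + f x * f x) = f := by
      funext x
      ring
    rwa [e] at h5
  nlinarith

section Subst

variable {B k n t : ℕ} {η ε : ℝ}

lemma finA_fmB_abs (n : ℕ) (A : Fm ℕ) (v : Fin n → Bool) : |fmB n A v| ≤ 1 := by
  unfold fmB
  split_ifs <;> norm_num

lemma finA_fmB_bot (n : ℕ) : fmB n .bot = fun _ => (0 : ℝ) := by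
  funext v
  unfold fmB
  rw [if_neg]
  intro h
  exact h

lemma finA_fmB_var (n j : ℕ) (h : j < n) : fmB n (.var j) = fun v => bv (v ⟨j, h⟩) := by
  funext v
  unfold fmB
  simp only [Fm.eval, h, dite_true]
  cases v ⟨j, h⟩ <;> simp [bv]

lemma finA_fmB_neg (n : ℕ) (φ : Fm ℕ) : fmB n (.neg φ) = fun v => 1 - fmB n φ v := by
  funext v
  unfold fmB
  simp only [Fm.eval]
  split_ifs <;> first | (norm_num; done) | (exfalso; tauto)

lemma finA_fmB_and (n : ℕ) (φ ψ : Fm ℕ) :
    fmB n (.and φ ψ) = fun v => fmB n φ v * fmB n ψ v := by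
  funext v
  unfold fmB
  simp only [Fm.eval]
  split_ifs <;> first | (norm_num; done) | (exfalso; tauto)

lemma finA_fmB_or (n : ℕ) (φ ψ : Fm ℕ) :
    fmB n (.or φ ψ) = fun v => fmB n φ v + fmB n ψ v - fmB n φ v * fmB n ψ v := by
  funext v
  unfold fmB
  simp only [Fm.eval]
  split_ifs <;> first | (norm_num; done) | (exfalso; tauto)

lemma finA_fmB_imp (n : ℕ) (φ ψ : Fm ℕ) :
    fmB n (.imp φ ψ) = fun v => 1 - fmB n φ v + fmB n φ v * fmB n ψ v := by
  funext v
  unfold fmB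
  simp only [Fm.eval]
  split_ifs <;> first | (norm_num; done) | (exfalso; tauto)

lemma finA_pow_le {ε : ℝ} (hε : 0 ≤ ε) {n : ℕ} (h : 100 * (n + 1) * ε ≤ 1) :
    (1 + 2 * ε) ^ (2 * n) ≤ 21 / 20 := by
  have h1 : (1 + 2 * ε) ≤ Real.exp (2 * ε) := by
    have := Real.add_one_le_exp (2 * ε)
    linarith
  have h2 : (1 + 2 * ε) ^ (2 * n) ≤ Real.exp (1 / 25) := by
    calc (1 + 2 * ε) ^ (2 * n) ≤ Real.exp (2 * ε) ^ (2 * n) :=
          pow_le_pow_left₀ (by positivity) h1 _
      _ = Real.exp ((2 * n : ℕ) * (2 * ε)) := (Real.exp_nat_mul _ _).symm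
      _ ≤ Real.exp (1 / 25) := by
          apply Real.exp_le_exp.mpr
          push_cast
          nlinarith
  refine h2.trans ?_
  have h3 := Real.exp_bound' (x := 1 / 25) (by norm_num) (by norm_num) (n := 2) (by norm_num)
  refine h3.trans ?_
  norm_num [Finset.sum_range_succ, Nat.factorial]

lemma finA_pow_le' {ε : ℝ} (hε : 0 ≤ ε) {n : ℕ} (h : 100 * (n + 1) * ε ≤ 1) :
    (1 + 2 * ε) ^ n ≤ 21 / 20 := by
  refine le_trans ?_ (finA_pow_le hε h)
  exact pow_le_pow_right₀ (by linarith) (by omega)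

/-- The error of a product of two approximations. -/
lemma finA_prod (hε : 0 ≤ ε) (hnε : 100 * (n + 1) * ε ≤ 1) {z : Fin n → (ι → Bool) → ℝ}
    {f g : (ι → Bool) → ℝ} {F G : (Fin n → Bool) → ℝ} {a b : ℝ}
    (hcap : t + 3 * (n + 2) * (k + 1) ≤ P.cap)
    (hz : ∀ j, LowDeg k (z j)) (hf : LowDeg k f) (hg : LowDeg k g)
    (hzi : ∀ j, P.Bd (t + 3 * (n + 1) * (k + 1)) (fun x => z j x ^ 2 - z j x) ε)
    (hfi : P.Bd (t + 3 * (n + 1) * (k + 1)) (fun x => f x ^ 2 - f x) ε)
    (hF : ∀ v, |F v| ≤ 1) (hG : ∀ v, |G v| ≤ 1)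
    (ha : P.Bd t (fun x => f x - mle F z x) a) (hb : P.Bd t (fun x => g x - mle G z x) b) :
    P.Bd t (fun x => f x * g x - mle (fun v => F v * G v) z x)
      (21 / 20 * a + 21 / 20 * b + 21 / 5 * n * ε) := by
  have hk1 : 3 * (n + 2) * (k + 1) = 3 * (n + 1) * (k + 1) + 3 * (k + 1) := by ring
  have hk2 : 3 * (n + 1) * (k + 1) = 3 * (n * k) + 3 * n + 3 * k + 3 := by ring
  have hcard : Fintype.card (Fin n) = n := Fintype.card_fin n
  have hmF : LowDeg (n * k) (mle F z) := by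
    have := mle_lowDeg' F hz
    rwa [hcard] at this
  have hmG : LowDeg (n * k) (mle G z) := by
    have := mle_lowDeg' G hz
    rwa [hcard] at this
  have hmFG : LowDeg (n * k) (mle (fun v => F v * G v) z) := by
    have := mle_lowDeg' (fun v => F v * G v) hz
    rwa [hcard] at this
  have hn1 := finA_pow_le hε hnε
  have hn2 := finA_pow_le' hε hnε
  have hε1 : 1 + ε ≤ 21 / 20 := by
    have : 0 ≤ (n : ℝ) * ε := by positivity
    nlinarith
  -- first term
  have h1 : P.Bd t (fun x => f x * (g x - mle G z x)) (21 / 20 * b) := by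
    have hfb : P.Bd (t + (n * k + k)) f (21 / 20) :=
      ((PE.Bd.idem hf hfi hε (by omega)).mono (by omega) hε1)
    exact PE.Bd.mul hfb hb ((hg.mono (by omega)).sub (hmG.mono (by omega))) (by norm_num)
  have h2 : P.Bd t (fun x => mle G z x * (f x - mle F z x)) (21 / 20 * a) := by
    have hgb : P.Bd (t + (n * k + k)) (mle G z) (21 / 20) := by
      have := mle_norm (P := P) (d := k) (t := t + (n * k + k))
        (T := t + 3 * (n + 1) * (k + 1)) (ε := ε) (M := 1) G z hz hzi hε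
        (by rw [hcard]; omega) (by omega) hG
      rw [hcard] at this
      exact this.mono le_rfl (by linarith)
    exact PE.Bd.mul hgb ha ((hf.mono (by omega)).sub (hmF.mono (by omega))) (by norm_num)
  have h3 : P.Bd t (fun x => mle F z x * mle G z x - mle (fun v => F v * G v) z x)
      (21 / 5 * n * ε) := by
    have := mle_mul (P := P) (d := k) (t := t) (T := t + 3 * (n + 1) * (k + 1)) (ε := ε)
      (M := 1) (M' := 1) F G z hz hzi hε (by rw [hcard]; omega) (by omega) hF hG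
    rw [hcard] at this
    refine this.mono le_rfl ?_
    have : 0 ≤ ε * n := by positivity
    nlinarith
  have d1 : LowDeg (3 * (n + 1) * (k + 1)) (fun x => f x * (g x - mle G z x)) :=
    (hf.mul ((hg.mono (show k ≤ n * k + k by omega)).sub
      (hmG.mono (show n * k ≤ n * k + k by omega)))).mono (by omega)
  have d2 : LowDeg (3 * (n + 1) * (k + 1)) (fun x => mle G z x * (f x - mle F z x)) :=
    (hmG.mul ((hf.mono (show k ≤ n * k + k by omega)).sub
      (hmF.mono (show n * k ≤ n * k + k by omega)))).mono (by omega)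
  have d3 : LowDeg (3 * (n + 1) * (k + 1))
      (fun x => mle F z x * mle G z x - mle (fun v => F v * G v) z x) :=
    ((hmF.mul hmG).mono (by omega)).sub (hmFG.mono (by omega))
  have h12 := PE.Bd.add h1 h2 d1 d2 (by omega)
  have h123 := PE.Bd.add h12 h3 (d1.add d2) d3 (by omega)
  refine (h123.congr' ?_).mono le_rfl (by linarith)
  intro x
  ring

end Subst

/-- The interpretation of an instance of a schematic formula. -/
lemma Interp.subst {B : ℕ} (hHC : HC P B) {α : Type} {In : Fm α → Prop} (hIn : Closed In)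
    {k n : ℕ} {η : ℝ} {p : Fm α → (ι → Bool) → ℝ} (hp : Interp P In k η p) (hη : 0 ≤ η)
    (z : Fin n → (ι → Bool) → ℝ) (σ : ℕ → Fm α) (A : Fm ℕ)
    (hz : ∀ j : Fin n, LowDeg k (z j))
    (hzi : ∀ j : Fin n, P.N (fun x => z j x - z j x * z j x) ≤ η)
    (hzσ : ∀ j : Fin n, In (σ j) → z j = p (σ j))
    (hA : ∀ j, A.Occurs j → j < n) (hIA : In (A.subst σ)) {t : ℕ}
    (hcap : 4 * (t + 3 * (n + 2) * (k + 1)) ≤ P.cap)
    (hsmall : 100 * (n + 1) * (3 ^ (B * (t + 3 * (n + 2) * (k + 1))) * η) ≤ 1) :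
    P.Bd t (fun x => p (A.subst σ) x - mle (fmB n A) z x)
      (100 ^ A.size * (n + 1) * (3 ^ (B * (t + 3 * (n + 2) * (k + 1))) * η)) := by
  set T := t + 3 * (n + 2) * (k + 1) with hT
  set ε : ℝ := 3 ^ (B * T) * η with hεdef
  have hε : 0 ≤ ε := by positivity
  have hk1 : 3 * (n + 2) * (k + 1) = 3 * (n + 1) * (k + 1) + 3 * (k + 1) := by ring
  have hk2 : 3 * (n + 1) * (k + 1) = 3 * (n * k) + 3 * n + 3 * k + 3 := by ring
  have hcard : Fintype.card (Fin n) = n := Fintype.card_fin n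
  -- small functions are small operators
  have small : ∀ (f : (ι → Bool) → ℝ) (d t' : ℕ), LowDeg d f → t' + d ≤ T → P.N f ≤ η →
      P.Bd t' f ε := by
    intro f d t' hf htd hNf
    refine (hHC.bd hf (by omega) hNf).mono le_rfl ?_
    have : (3 : ℝ) ^ (B * (t' + d)) ≤ 3 ^ (B * T) :=
      pow_le_pow_right₀ (by norm_num) (Nat.mul_le_mul_left _ htd)
    exact mul_le_mul_of_nonneg_right this hη
  have idemB : ∀ f : (ι → Bool) → ℝ, LowDeg k f → P.N (fun x => f x - f x * f x) ≤ η →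
      P.Bd (t + 3 * (n + 1) * (k + 1)) (fun x => f x ^ 2 - f x) ε := by
    intro f hf hN
    have hd : LowDeg (2 * k) (fun x => f x - f x * f x) :=
      (hf.mono (by omega)).sub ((hf.mul hf).mono (by omega))
    have h1 := small _ (2 * k) (t + 3 * (n + 1) * (k + 1)) hd (by omega) hN
    have h2 := h1.const_mul (-1)
    refine (h2.congr' ?_).mono le_rfl ?_
    · intro x
      ring
    · rw [abs_neg, abs_one, one_mul]
  have hziB : ∀ j, P.Bd (t + 3 * (n + 1) * (k + 1)) (fun x => z j x ^ 2 - z j x) ε :=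
    fun j => idemB _ (hz j) (hzi j)
  have hmd : ∀ g : (Fin n → Bool) → ℝ, LowDeg (n * k) (mle g z) := by
    intro g
    have := mle_lowDeg' g hz
    rwa [hcard] at this
  have hsm : 100 * ((n : ℝ) + 1) * ε ≤ 1 := by
    refine le_trans (le_of_eq ?_) hsmall
    rw [hεdef]
  have hnε : (n : ℝ) * ε ≤ (n + 1) * ε := by nlinarith
  have hεn : ε ≤ (n + 1) * ε := by
    have : 0 ≤ (n : ℝ) * ε := by positivity
    linarith
  set X : ℝ := (n + 1) * ε with hX
  have hX0 : 0 ≤ X := by positivity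
  have goal_eq : ∀ s : ℕ, (100 : ℝ) ^ s * (n + 1) * ε = 100 ^ s * X := by
    intro s
    rw [hX]
    ring
  rw [goal_eq]
  induction A with
  | var j =>
    have hj : j < n := hA j rfl
    have h1 : z ⟨j, hj⟩ = p (σ j) := hzσ ⟨j, hj⟩ hIA
    rw [finA_fmB_var n j hj]
    refine ((PE.Bd.zero t).congr' ?_).mono le_rfl (by positivity)
    intro x
    rw [mle_coord, h1]
    simp [Fm.subst]
  | bot =>
    rw [finA_fmB_bot]
    have h1 := small (p .bot) k t (hp.deg _ hIA) (by omega) (hp.bot hIA)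
    refine (h1.congr' ?_).mono le_rfl ?_
    · intro x
      rw [mle_const]
      simp [Fm.subst]
    · simp only [Fm.size]
      linarith
  | neg φ ih =>
    have hIφ : In (φ.subst σ) := hIn.neg _ hIA
    have ih' := ih (fun j hj => hA j hj) hIφ
    have hdφ := hp.deg _ hIφ
    have hdn := hp.deg _ hIA
    have h1 := small (fun x => p (Fm.neg (φ.subst σ)) x - (1 - p (φ.subst σ) x)) k t
      (hdn.sub ((LowDeg.const k 1).sub hdφ)) (by omega) (hp.neg _ hIA)
    have h2 : P.Bd t (fun x => (-1) * (p (φ.subst σ) x - mle (fmB n φ) z x))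
        (|(-1 : ℝ)| * (100 ^ φ.size * X)) := ih'.const_mul (-1)
    have d1 : LowDeg (n * k + k) (fun x => p (Fm.neg (φ.subst σ)) x - (1 - p (φ.subst σ) x)) :=
      (hdn.sub ((LowDeg.const k 1).sub hdφ)).mono (by omega)
    have d2 : LowDeg (n * k + k) (fun x => (-1) * (p (φ.subst σ) x - mle (fmB n φ) z x)) :=
      LowDeg.const_mul (-1) ((hdφ.mono (by omega)).sub ((hmd _).mono (by omega)))
    have h3 := PE.Bd.add h1 h2 d1 d2 (by omega)
    rw [finA_fmB_neg]
    refine (h3.congr' ?_).mono le_rfl ?_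
    · intro x
      rw [mle_sub, mle_const]
      simp only [Fm.subst]
      ring
    · rw [abs_neg, abs_one, one_mul]
      simp only [Fm.size, pow_succ]
      have : (1 : ℝ) ≤ 100 ^ φ.size := one_le_pow₀ (by norm_num)
      nlinarith
  | and φ ψ ih1 ih2 =>
    obtain ⟨hIφ, hIψ⟩ := hIn.and _ _ hIA
    have ih1' := ih1 (fun j hj => hA j (Or.inl hj)) hIφ
    have ih2' := ih2 (fun j hj => hA j (Or.inr hj)) hIψ
    have hdφ := hp.deg _ hIφ
    have hdψ := hp.deg _ hIψ
    have hdn := hp.deg _ hIA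
    have h0 := finA_prod (P := P) (t := t) (k := k) hε hsm (by omega) hz hdφ hdψ hziB
      (idemB _ hdφ (hp.idem _ hIφ)) (finA_fmB_abs n φ) (finA_fmB_abs n ψ) ih1' ih2'
    have d0 : LowDeg (2 * k)
        (fun x => p (Fm.and (φ.subst σ) (ψ.subst σ)) x - p (φ.subst σ) x * p (ψ.subst σ) x) :=
      LowDeg.sub (hdn.mono (by omega)) ((hdφ.mul hdψ).mono (by omega))
    have h1 := small _ (2 * k) t d0 (by omega) (hp.and _ _ hIA)
    have d2 : LowDeg (n * k + 2 * k)
        (fun x => p (φ.subst σ) x * p (ψ.subst σ) x - mle (fun v => fmB n φ v * fmB n ψ v) z x) :=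
      ((hdφ.mul hdψ).mono (by omega)).sub ((hmd _).mono (by omega))
    have h3 := PE.Bd.add h1 h0 (d0.mono (show 2 * k ≤ n * k + 2 * k by omega)) d2 (by omega)
    rw [finA_fmB_and]
    refine (h3.congr' ?_).mono le_rfl ?_
    · intro x
      simp only [Fm.subst]
      ring
    · simp only [Fm.size, pow_succ, pow_add]
      have e1 : (1 : ℝ) ≤ 100 ^ φ.size := one_le_pow₀ (by norm_num)
      have e2 : (1 : ℝ) ≤ 100 ^ ψ.size := one_le_pow₀ (by norm_num)
      have e3 : (100 : ℝ) ^ φ.size ≤ 100 ^ φ.size * 100 ^ ψ.size := by nlinarith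
      have e4 : (100 : ℝ) ^ ψ.size ≤ 100 ^ φ.size * 100 ^ ψ.size := by nlinarith
      have e5 : (100 : ℝ) ^ φ.size * X ≤ 100 ^ φ.size * 100 ^ ψ.size * X :=
        mul_le_mul_of_nonneg_right e3 hX0
      have e6 : (100 : ℝ) ^ ψ.size * X ≤ 100 ^ φ.size * 100 ^ ψ.size * X :=
        mul_le_mul_of_nonneg_right e4 hX0
      have e7 : X ≤ 100 ^ φ.size * 100 ^ ψ.size * X := by nlinarith
      nlinarith
  | or φ ψ ih1 ih2 =>
    obtain ⟨hIφ, hIψ⟩ := hIn.or _ _ hIA
    have ih1' := ih1 (fun j hj => hA j (Or.inl hj)) hIφ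
    have ih2' := ih2 (fun j hj => hA j (Or.inr hj)) hIψ
    have hdφ := hp.deg _ hIφ
    have hdψ := hp.deg _ hIψ
    have hdn := hp.deg _ hIA
    have h0 := finA_prod (P := P) (t := t) (k := k) hε hsm (by omega) hz hdφ hdψ hziB
      (idemB _ hdφ (hp.idem _ hIφ)) (finA_fmB_abs n φ) (finA_fmB_abs n ψ) ih1' ih2'
    have d0 : LowDeg (2 * k)
        (fun x => p (Fm.or (φ.subst σ) (ψ.subst σ)) x
          - (p (φ.subst σ) x + p (ψ.subst σ) x - p (φ.subst σ) x * p (ψ.subst σ) x)) :=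
      LowDeg.sub (hdn.mono (by omega))
        (((hdφ.add hdψ).mono (by omega)).sub ((hdφ.mul hdψ).mono (by omega)))
    have h1 := small _ (2 * k) t d0 (by omega) (hp.or _ _ hIA)
    have dφ : LowDeg (n * k + 2 * k) (fun x => p (φ.subst σ) x - mle (fmB n φ) z x) :=
      (hdφ.mono (by omega)).sub ((hmd _).mono (by omega))
    have dψ : LowDeg (n * k + 2 * k) (fun x => p (ψ.subst σ) x - mle (fmB n ψ) z x) :=
      (hdψ.mono (by omega)).sub ((hmd _).mono (by omega))
    have d2 : LowDeg (n * k + 2 * k)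
        (fun x => p (φ.subst σ) x * p (ψ.subst σ) x - mle (fun v => fmB n φ v * fmB n ψ v) z x) :=
      ((hdφ.mul hdψ).mono (by omega)).sub ((hmd _).mono (by omega))
    have d1 := d0.mono (show 2 * k ≤ n * k + 2 * k by omega)
    have h4 := PE.Bd.add ih1' ih2' dφ dψ (by omega)
    have h5 := PE.Bd.sub h4 h0 (dφ.add dψ) d2 (by omega)
    have h3 := PE.Bd.add h1 h5 d1 ((dφ.add dψ).sub d2) (by omega)
    rw [finA_fmB_or]
    refine (h3.congr' ?_).mono le_rfl ?_
    · intro x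
      rw [mle_sub, mle_add]
      simp only [Fm.subst]
      ring
    · simp only [Fm.size, pow_succ, pow_add]
      have e1 : (1 : ℝ) ≤ 100 ^ φ.size := one_le_pow₀ (by norm_num)
      have e2 : (1 : ℝ) ≤ 100 ^ ψ.size := one_le_pow₀ (by norm_num)
      have e3 : (100 : ℝ) ^ φ.size ≤ 100 ^ φ.size * 100 ^ ψ.size := by nlinarith
      have e4 : (100 : ℝ) ^ ψ.size ≤ 100 ^ φ.size * 100 ^ ψ.size := by nlinarith
      have e5 : (100 : ℝ) ^ φ.size * X ≤ 100 ^ φ.size * 100 ^ ψ.size * X :=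
        mul_le_mul_of_nonneg_right e3 hX0
      have e6 : (100 : ℝ) ^ ψ.size * X ≤ 100 ^ φ.size * 100 ^ ψ.size * X :=
        mul_le_mul_of_nonneg_right e4 hX0
      have e7 : X ≤ 100 ^ φ.size * 100 ^ ψ.size * X := by nlinarith
      nlinarith
  | imp φ ψ ih1 ih2 =>
    obtain ⟨hIφ, hIψ⟩ := hIn.imp _ _ hIA
    have ih1' := ih1 (fun j hj => hA j (Or.inl hj)) hIφ
    have ih2' := ih2 (fun j hj => hA j (Or.inr hj)) hIψ
    have hdφ := hp.deg _ hIφ
    have hdψ := hp.deg _ hIψ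
    have hdn := hp.deg _ hIA
    have h0 := finA_prod (P := P) (t := t) (k := k) hε hsm (by omega) hz hdφ hdψ hziB
      (idemB _ hdφ (hp.idem _ hIφ)) (finA_fmB_abs n φ) (finA_fmB_abs n ψ) ih1' ih2'
    have d0 : LowDeg (2 * k)
        (fun x => p (Fm.imp (φ.subst σ) (ψ.subst σ)) x
          - (1 - p (φ.subst σ) x + p (φ.subst σ) x * p (ψ.subst σ) x)) :=
      LowDeg.sub (hdn.mono (by omega))
        ((((LowDeg.const k 1).sub hdφ).mono (by omega)).add ((hdφ.mul hdψ).mono (by omega)))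
    have h1 := small _ (2 * k) t d0 (by omega) (hp.imp _ _ hIA)
    have dφ : LowDeg (n * k + 2 * k) (fun x => p (φ.subst σ) x - mle (fmB n φ) z x) :=
      (hdφ.mono (by omega)).sub ((hmd _).mono (by omega))
    have d2 : LowDeg (n * k + 2 * k)
        (fun x => p (φ.subst σ) x * p (ψ.subst σ) x - mle (fun v => fmB n φ v * fmB n ψ v) z x) :=
      ((hdφ.mul hdψ).mono (by omega)).sub ((hmd _).mono (by omega))
    have d1 := d0.mono (show 2 * k ≤ n * k + 2 * k by omega)
    have h5 := PE.Bd.sub h0 ih1' d2 dφ (by omega)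
    have h3 := PE.Bd.add h1 h5 d1 (d2.sub dφ) (by omega)
    rw [finA_fmB_imp]
    refine (h3.congr' ?_).mono le_rfl ?_
    · intro x
      rw [mle_add, mle_sub, mle_const]
      simp only [Fm.subst]
      ring
    · simp only [Fm.size, pow_succ, pow_add]
      have e1 : (1 : ℝ) ≤ 100 ^ φ.size := one_le_pow₀ (by norm_num)
      have e2 : (1 : ℝ) ≤ 100 ^ ψ.size := one_le_pow₀ (by norm_num)
      have e3 : (100 : ℝ) ^ φ.size ≤ 100 ^ φ.size * 100 ^ ψ.size := by nlinarith
      have e4 : (100 : ℝ) ^ ψ.size ≤ 100 ^ φ.size * 100 ^ ψ.size := by nlinarith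
      have e5 : (100 : ℝ) ^ φ.size * X ≤ 100 ^ φ.size * 100 ^ ψ.size * X :=
        mul_le_mul_of_nonneg_right e3 hX0
      have e6 : (100 : ℝ) ^ ψ.size * X ≤ 100 ^ φ.size * 100 ^ ψ.size * X :=
        mul_le_mul_of_nonneg_right e4 hX0
      have e7 : X ≤ 100 ^ φ.size * 100 ^ ψ.size * X := by nlinarith
      nlinarith

end

end GridLine
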