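import Pool.Agent.Work.MP_c07f0d_lc.LS.LSDefs
import Mathlib.Data.Fintype.Card

/-!
# The parity (Tseitin) contradictions on grids

The vertices of the `D`-dimensional grid of side `M` are the functions `Fin D → Fin M`.  The edge
`(x, i)`, for a vertex `x` with `x i + 1 < M`, joins `x` to the vertex obtained from `x` by adding
`1` to the `i`-th coordinate.  There is one propositional variable for every edge.  The constraint
of a vertex `v` says that the sum modulo 2 of the (at most `2 D`) variables on the edges at `v`
is `1` if `v` is the zero vertex, and `0` otherwise.  As every variable occurs in exactly two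
constraints, the constraints are contradictory.
-/

namespace GridLine

open FregeEF LineSize

/-- The vertices of the grid. -/
abbrev GV (D M : ℕ) : Type := Fin D → Fin M

/-- The edges of the grid, which are also the propositional variables. -/
abbrev GE (D M : ℕ) : Type := {e : GV D M × Fin D // (e.1 e.2).val + 1 < M}

/-- The lower end of an edge. -/
def gsrc {D M : ℕ} (e : GE D M) : GV D M := e.1.1

/-- The upper end of an edge. -/
def gtgt {D M : ℕ} (e : GE D M) : GV D M :=
  Function.update e.1.1 e.1.2 ⟨(e.1.1 e.1.2).val + 1, e.2⟩

/-- The charge of a vertex: `true` exactly for the zero vertex. -/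
def gcharge {D M : ℕ} (v : GV D M) : Bool := decide (∀ i, (v i).val = 0)

/-- The parity of the variables on the edges at `v` (exactly one end of which is `v`), in some
fixed order. -/
noncomputable def gparity {D M : ℕ} (v : GV D M) : Fm (GE D M) :=
  parity (((Finset.univ : Finset (GE D M)).filter fun e => gsrc e = v ∨ gtgt e = v).toList.map
    Fm.var)

/-- The constraint of the vertex `v`. -/
noncomputable def gridAx {D M : ℕ} (v : GV D M) : Fm (GE D M) :=
  if gcharge v = true then gparity v else .neg (gparity v)

/-- The contradictory list of all constraints. -/
noncomputable def gridAxioms (D M : ℕ) : List (Fm (GE D M)) :=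
  (Finset.univ : Finset (GV D M)).toList.map gridAx

end GridLine
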