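import Pool.Agent.Work.MP_c07f0d_lc.TL.GMain

/-!
# The main theorem
-/

set_option linter.unusedSectionVars false

namespace GridLine

open Finset LineSize FregeEF

/-- The exponents. -/
lemma exists_exponents {ε : ℝ} (h0 : 0 < ε) (h1 : ε < 1) :
    ∃ w e ν J D : ℕ, D = w + 4 + e ∧ 2 * ν + 2 ≤ e ∧ 1 ≤ ν ∧
      2 * ν + (4 + ν) * J ≤ (w + 1) * e ∧
      ((w + 2) * D : ℕ) * (2 - ε) + 1 ≤ ((2 * ν) * (J + 1) : ℕ) := by
  obtain ⟨w, hw⟩ := exists_nat_ge (6 / ε)
  have hw' : 6 ≤ w * ε := by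
    rw [div_le_iff₀ h0] at hw
    exact hw
  set e := (w + 20) ^ 2 with he
  set ν := 8 * (w + 4) with hν
  set D := w + 4 + e with hD
  set T : ℕ := (w + 2) * D with hT
  have hx0 : (0 : ℝ) ≤ ((T : ℝ) * (2 - ε) + 1) / (2 * ν : ℕ) := by
    have : (0 : ℝ) ≤ T * (2 - ε) := mul_nonneg (Nat.cast_nonneg _) (by linarith)
    positivity
  refine ⟨w, e, ν, ⌊((T : ℝ) * (2 - ε) + 1) / (2 * ν : ℕ)⌋₊, D, rfl, ?_, by omega, ?_, ?_⟩
  · rw [hν, he]
    nlinarith
  · set J := ⌊((T : ℝ) * (2 - ε) + 1) / (2 * ν : ℕ)⌋₊ with hJ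
    have hν0 : (0 : ℝ) < (2 * ν : ℕ) := by
      rw [hν]
      positivity
    have hfl : (J : ℝ) * (2 * ν : ℕ) ≤ T * (2 - ε) + 1 := by
      have := Nat.floor_le hx0
      rw [← hJ, le_div_iff₀ hν0] at this
      exact this
    have hwr : (0 : ℝ) ≤ w := Nat.cast_nonneg _
    have hTr : (T : ℝ) = (w + 2) * D := by
      rw [hT]
      push_cast
      ring
    have hDr : (D : ℝ) = w + 4 + (w + 20) ^ 2 := by
      rw [hD, he]
      push_cast
      ring
    have hνr : (ν : ℝ) = 8 * (w + 4) := by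
      rw [hν]
      push_cast
      ring
    have her : (e : ℝ) = (w + 20) ^ 2 := by
      rw [he]
      push_cast
      ring
    push_cast at hfl
    have hD0 : (0 : ℝ) < D := by
      rw [hDr]
      positivity
    -- ν J ≤ (w - 1) D + 1/2
    have h2 : (ν : ℝ) * J ≤ (w - 1) * D + 1 / 2 := by
      have e1 : (T : ℝ) * ε ≥ 6 * D := by
        rw [hTr]
        nlinarith
      nlinarith
    -- 4 J ≤ D / 2 + 1
    have h3 : 4 * (J : ℝ) ≤ D / 2 + 1 := by
      have e1 : (J : ℝ) * (2 * ν) ≤ 2 * T + 1 := by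
        have : (T : ℝ) * (2 - ε) ≤ T * 2 := by
          refine mul_le_mul_of_nonneg_left (by linarith) (Nat.cast_nonneg _)
        linarith
      rw [hTr, hνr] at e1
      have e2 : (J : ℝ) * (16 * (w + 4)) ≤ 2 * (w + 4) * D + (w + 4) := by nlinarith
      have e3 : (J : ℝ) * 16 ≤ 2 * D + 1 := by
        have h4 : (0 : ℝ) < w + 4 := by linarith
        have e4 : (w + 4 : ℝ) * (J * 16) ≤ (w + 4) * (2 * D + 1) := by nlinarith
        exact le_of_mul_le_mul_left e4 h4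
      linarith
    have h4 : (2 * (ν : ℝ) + (4 + ν) * J) ≤ (w + 1) * e := by
      have e1 : (2 * (ν : ℝ) + (4 + ν) * J) ≤ 2 * ν + (w - 1) * D + 1 / 2 + D / 2 + 1 := by
        nlinarith
      refine e1.trans ?_
      rw [hνr, hDr, her]
      nlinarith [mul_nonneg hwr hwr, mul_nonneg (mul_nonneg hwr hwr) hwr]
    exact_mod_cast h4
  · set J := ⌊((T : ℝ) * (2 - ε) + 1) / (2 * ν : ℕ)⌋₊ with hJ
    have hν0 : (0 : ℝ) < (2 * ν : ℕ) := by
      rw [hν]
      positivity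
    have := Nat.lt_floor_add_one (((T : ℝ) * (2 - ε) + 1) / (2 * ν : ℕ))
    rw [← hJ, div_lt_iff₀ hν0] at this
    have h5 : ((2 * ν * (J + 1) : ℕ) : ℝ) = ((J : ℝ) + 1) * (2 * ν : ℕ) := by
      push_cast
      ring
    rw [h5]
    exact this.le

/-- The main theorem. -/
theorem main (ε : ℝ) (h0 : 0 < ε) (h1 : ε < 1) :
    ∃ (D v : ℕ) (δ : ℝ), 0 < δ ∧ ∀ F : FregeSystem, ∃ c u₀ : ℕ, ∀ u : ℕ, u₀ ≤ u →
      (∀ φ ∈ gridAxioms D (u ^ v), φ.size ≤ c) ∧
      lsize (gridAxioms D (u ^ v)) ≤ c * Fintype.card (GE D (u ^ v)) ∧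
      (∃ L, IsDeriv F.rules (gridAxioms D (u ^ v)) L ∧ Fm.bot ∈ L ∧
        L.length ≤ c * Fintype.card (GE D (u ^ v)) ^ 3 ∧
        ∀ φ ∈ L, φ.size ≤ c * Fintype.card (GE D (u ^ v)) ^ 2) ∧
      (∀ L, IsDeriv F.rules (gridAxioms D (u ^ v)) L → Fm.bot ∈ L →
        (∀ φ ∈ L, (φ.size : ℝ) ≤ (Fintype.card (GE D (u ^ v)) : ℝ) ^ (2 - ε)) →
        (2 : ℝ) ^ ((Fintype.card (GE D (u ^ v)) : ℝ) ^ δ) < L.length) := by
  obtain ⟨w, e, ν, J, D, hD, hν, hν1, hJ, hT⟩ := exists_exponents h0 h1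
  set T : ℕ := (w + 2) * D with hTdef
  refine ⟨D, w + 2, 1 / ((T : ℝ) + 1), by positivity, fun F => ?_⟩
  obtain ⟨C, hC⟩ := exists_finC F
  obtain ⟨c₁, hc₁⟩ := upperG F D (by omega)
  -- the constants
  set a : ℕ := 4 * C * (4 * D + 1) + 1 with ha
  set A : ℝ := 2 ^ a with hAdef
  have hA : 1 ≤ A := one_le_pow₀ (by norm_num)
  set θ : ℝ := ∑ s ∈ Finset.range (2 * (w + 1) + 1), thF D s A with hθdef
  have hθ : ∀ s ≤ 2 * (w + 1), thF D s A ≤ θ := by
    intro s hs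
    refine Finset.single_le_sum (f := fun s => thF D s A) (fun i _ => ?_)
      (Finset.mem_range.mpr (by omega))
    exact zero_le_one.trans (thF_one_le hA)
  obtain ⟨u₁, hu₁⟩ := exists_par0 (a := a) hD hν hν1 hJ
  obtain ⟨u₂, hu₂⟩ := exists_par (e := e) hD (by omega) hA hθ
  obtain ⟨u₃, hu₃⟩ := ev_pow 3 (2 * ν * (J + 1))
  refine ⟨64 * D ^ 2 + c₁, 2 + u₁ + u₂ + u₃ + D ^ 2 + 2 * C + (C + 4 * (w + 1))
    + (3 * (w + 1) + 1 + 2 * (w + 1)), fun u hu => ?_⟩
  have hu1 : 2 ≤ u := by omega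
  have hp0 := hu₁ u (by omega)
  have hp := hu₂ u (by omega)
  have hDD : D ≤ D ^ 2 := Nat.le_self_pow (by norm_num) D
  have hM2 : 2 ≤ u ^ (w + 2) := by
    calc 2 ≤ u := hu1
      _ = u ^ 1 := (pow_one u).symm
      _ ≤ u ^ (w + 2) := Nat.pow_le_pow_right (by omega) (by omega)
  -- the number of edges
  set n := Fintype.card (GE D (u ^ (w + 2))) with hn
  have hnle : n ≤ D * u ^ T := by
    have := card_GE_le (D := D) (M := u ^ (w + 2))
    rwa [← pow_mul] at this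
  have hn1 : 1 ≤ n := by
    have := le_card_GE (D := D) (M := u ^ (w + 2)) hM2 (by omega)
    have h2 : 1 ≤ (u ^ (w + 2)) ^ D := Nat.one_le_pow _ _ (by omega)
    omega
  have hu0 : (0 : ℝ) < u := by
    have : (2 : ℝ) ≤ u := by exact_mod_cast hu1
    linarith
  have hu1r : (1 : ℝ) ≤ u := by
    have : (2 : ℝ) ≤ u := by exact_mod_cast hu1
    linarith
  refine ⟨?_, ?_, ?_, ?_⟩
  · intro φ hφ
    obtain ⟨v, _, rfl⟩ := List.mem_map.mp hφ
    exact (size_gridAx (by omega) v).trans (by omega)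
  · refine (lsize_gridAxioms (by omega) hM2).trans ?_
    exact Nat.mul_le_mul_right _ (by omega)
  · obtain ⟨L, hL, hbot, hlen, hsz⟩ := hc₁ (u ^ (w + 2)) hM2
    refine ⟨L, hL, hbot, hlen.trans (Nat.mul_le_mul_right _ (by omega)), fun φ hφ => ?_⟩
    exact (hsz φ hφ).trans (Nat.mul_le_mul_right _ (by omega))
  · intro L hL hbot hsize
    by_contra hcon
    push Not at hcon
    -- the length
    have hlen : L.length ≤ 2 ^ u := by
      have h2 : (n : ℝ) ^ (1 / ((T : ℝ) + 1)) ≤ u := by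
        have h3 : (n : ℝ) ≤ (u : ℝ) ^ ((T : ℝ) + 1) := by
          have h4 : n ≤ u ^ (T + 1) := by
            calc n ≤ D * u ^ T := hnle
              _ ≤ u * u ^ T := Nat.mul_le_mul_right _ (by omega)
              _ = u ^ (T + 1) := by rw [pow_succ]; ring
          have h5 : (u : ℝ) ^ ((T : ℝ) + 1) = ((u ^ (T + 1) : ℕ) : ℝ) := by
            push_cast
            rw [← Real.rpow_natCast]
            push_cast
            rfl
          rw [h5]
          exact_mod_cast h4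
        calc (n : ℝ) ^ (1 / ((T : ℝ) + 1)) ≤ ((u : ℝ) ^ ((T : ℝ) + 1)) ^ (1 / ((T : ℝ) + 1)) :=
              Real.rpow_le_rpow (by positivity) h3 (by positivity)
          _ = u := by
              rw [← Real.rpow_mul hu0.le, mul_one_div_cancel (by positivity), Real.rpow_one]
      have h3 : (L.length : ℝ) ≤ (2 : ℝ) ^ (u : ℝ) :=
        hcon.trans (Real.rpow_le_rpow_of_exponent_le (by norm_num) h2)
      rw [Real.rpow_natCast] at h3
      exact_mod_cast h3
    -- the size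
    have hsz : ∀ φ ∈ L, φ.size ≤ (u ^ (2 * ν)) ^ (J + 1) := by
      intro φ hφ
      have h2 := hsize φ hφ
      have h3 : (n : ℝ) ^ (2 - ε) ≤ (((u ^ (2 * ν)) ^ (J + 1) : ℕ) : ℝ) := by
        have e1 : (n : ℝ) ≤ D * (u : ℝ) ^ (T : ℝ) := by
          rw [Real.rpow_natCast]
          exact_mod_cast hnle
        have hD1 : (1 : ℝ) ≤ D := by
          have : 1 ≤ D := by omega
          exact_mod_cast this
        calc (n : ℝ) ^ (2 - ε) ≤ (D * (u : ℝ) ^ (T : ℝ)) ^ (2 - ε) :=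
              Real.rpow_le_rpow (by positivity) e1 (by linarith)
          _ = (D : ℝ) ^ (2 - ε) * (u : ℝ) ^ ((T : ℝ) * (2 - ε)) := by
              rw [Real.mul_rpow (by positivity) (by positivity), ← Real.rpow_mul hu0.le]
          _ ≤ (D : ℝ) ^ (2 : ℝ) * (u : ℝ) ^ ((T : ℝ) * (2 - ε)) := by
              refine mul_le_mul_of_nonneg_right ?_ (by positivity)
              exact Real.rpow_le_rpow_of_exponent_le hD1 (by linarith)
          _ ≤ u * (u : ℝ) ^ ((T : ℝ) * (2 - ε)) := by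
              refine mul_le_mul_of_nonneg_right ?_ (by positivity)
              have : D ^ 2 ≤ u := by omega
              have h4 : ((D ^ 2 : ℕ) : ℝ) ≤ u := by exact_mod_cast this
              calc (D : ℝ) ^ (2 : ℝ) = (D : ℝ) ^ 2 := by
                    rw [← Real.rpow_natCast]
                    norm_num
                _ = ((D ^ 2 : ℕ) : ℝ) := by push_cast; rfl
                _ ≤ u := h4
          _ = (u : ℝ) ^ ((T : ℝ) * (2 - ε) + 1) := by
              rw [Real.rpow_add hu0, Real.rpow_one, mul_comm]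
          _ ≤ (u : ℝ) ^ (((2 * ν) * (J + 1) : ℕ) : ℝ) :=
              Real.rpow_le_rpow_of_exponent_le hu1r hT
          _ = (((u ^ (2 * ν)) ^ (J + 1) : ℕ) : ℝ) := by
              rw [Real.rpow_natCast, ← pow_mul]
              push_cast
              rfl
      exact_mod_cast h2.trans h3
    -- the number of subformulas
    have hx3 : 3 * (subL L).card ≤ 2 ^ (2 * u) := by
      have h2 := card_subL hsz
      have h3 := hu₃ u (by omega)
      calc 3 * (subL L).card ≤ 3 * (L.length * (u ^ (2 * ν)) ^ (J + 1)) :=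
            Nat.mul_le_mul_left _ h2
        _ ≤ 3 * (2 ^ u * (u ^ (2 * ν)) ^ (J + 1)) :=
            Nat.mul_le_mul_left _ (Nat.mul_le_mul_right _ hlen)
        _ = 2 ^ u * (3 * u ^ (2 * ν * (J + 1))) := by
            rw [← pow_mul]
            ring
        _ ≤ 2 ^ u * 2 ^ u := Nat.mul_le_mul_left _ h3
        _ = 2 ^ (2 * u) := by rw [← pow_add, two_mul]
    refine core_lower F hC hp0 hp ?_ ?_ ?_ L hL hsz hx3 hbot
    · have h2 : 1 ≤ u ^ 2 := Nat.one_le_pow _ _ (by omega)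
      calc C * (u ^ 2 + 1) ≤ C * (2 * u ^ 2) := Nat.mul_le_mul_left _ (by omega)
        _ = (2 * C) * u ^ 2 := by ring
        _ ≤ u * u ^ 2 := Nat.mul_le_mul_right _ (by omega)
        _ = u ^ 3 := by ring
        _ ≤ u ^ (D - 2) := Nat.pow_le_pow_right (by omega) (by omega)
    · -- the final smallness
      have hx4 : (4 * ((2 ^ (2 * u) : ℕ) : ℝ)) ^ (w + 1) = 2 ^ ((2 + 2 * u) * (w + 1)) := by
        push_cast
        rw [show (4 : ℝ) = 2 ^ 2 by norm_num, ← pow_add, ← pow_mul]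
      have h3 : (3 : ℝ) ^ (C * (4 * D + 1) * (u ^ 2 + 1)) ≤ 2 ^ (2 * (C * (4 * D + 1) * (u ^ 2 + 1))) := by
        rw [pow_mul 2 2]
        exact pow_le_pow_left₀ (by norm_num) (by norm_num) _
      have hCC : (C : ℝ) ≤ 2 ^ C := by exact_mod_cast Nat.lt_two_pow_self.le
      have hAinv : (1 / A) ^ (u ^ 2) = (1 / 2) ^ (a * u ^ 2) := by
        rw [hAdef, one_div, one_div, inv_pow, inv_pow, ← pow_mul]
      rw [hx4, hAinv]
      have hexp : C + 2 * (C * (4 * D + 1) * (u ^ 2 + 1)) + (2 + 2 * u) * (w + 1) ≤ a * u ^ 2 := by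
        have h2 : 1 ≤ u ^ 2 := Nat.one_le_pow _ _ (by omega)
        have h4 : C + (2 + 2 * u) * (w + 1) ≤ u ^ 2 := by
          have := poly_bound2 (c₀ := C + 2 * (w + 1)) (c₁ := 2 * (w + 1)) (u := u) (by omega)
            (by omega)
          nlinarith
        have h5 : 2 * (C * (4 * D + 1) * (u ^ 2 + 1)) ≤ 4 * C * (4 * D + 1) * u ^ 2 := by
          calc 2 * (C * (4 * D + 1) * (u ^ 2 + 1)) ≤ 2 * (C * (4 * D + 1) * (2 * u ^ 2)) :=
                Nat.mul_le_mul_left _ (Nat.mul_le_mul_left _ (by omega))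
            _ = 4 * C * (4 * D + 1) * u ^ 2 := by ring
        have h6 : (4 * C * (4 * D + 1) + 1) * u ^ 2 = 4 * C * (4 * D + 1) * u ^ 2 + u ^ 2 := by ring
        rw [ha, h6]
        omega
      calc (C : ℝ) * 3 ^ (C * (4 * D + 1) * (u ^ 2 + 1))
            * (2 ^ ((2 + 2 * u) * (w + 1)) * (1 / 2) ^ (a * u ^ 2))
          ≤ 2 ^ C * 2 ^ (2 * (C * (4 * D + 1) * (u ^ 2 + 1)))
            * (2 ^ ((2 + 2 * u) * (w + 1)) * (1 / 2) ^ (a * u ^ 2)) := by
            refine mul_le_mul_of_nonneg_right ?_ (by positivity)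
            exact mul_le_mul hCC h3 (by positivity) (by positivity)
        _ = 2 ^ (C + 2 * (C * (4 * D + 1) * (u ^ 2 + 1)) + (2 + 2 * u) * (w + 1))
            * (1 / 2) ^ (a * u ^ 2) := by
            rw [pow_add, pow_add]
            ring
        _ ≤ 1 := two_pow_half hexp
    · -- Q
      have hx6 : (6 * ((2 ^ (2 * u) : ℕ) : ℝ)) ^ (w + 1) * 2 ≤ 2 ^ ((3 + 2 * u) * (w + 1) + 1) := by
        rw [pow_succ (2 : ℝ) ((3 + 2 * u) * (w + 1)), pow_mul (2 : ℝ) (3 + 2 * u) (w + 1)]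
        refine mul_le_mul_of_nonneg_right ?_ (by norm_num : (0 : ℝ) ≤ 2)
        refine pow_le_pow_left₀ (a := 6 * ((2 ^ (2 * u) : ℕ) : ℝ)) (by positivity) ?_ _
        push_cast
        have h8 : (2 : ℝ) ^ (3 + 2 * u) = 8 * 2 ^ (2 * u) := by
          rw [pow_add]
          norm_num
        rw [h8]
        have h9 : (0 : ℝ) < 2 ^ (2 * u) := by positivity
        linarith
      refine hx6.trans (pow_le_pow_right₀ (by norm_num) ?_)
      have := poly_bound2 (c₀ := 3 * (w + 1) + 1) (c₁ := 2 * (w + 1)) (u := u) (by omega) (by omega)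
      nlinarith

end GridLine
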