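import Pool.Agent.Work.MP_c07f0d_lc.TL.Core2

/-!
# The main theorem
-/

set_option linter.unusedSectionVars false

namespace GridLine

open Finset LineSize FregeEF

lemma ev_pow (c k : ℕ) : ∃ u₀ : ℕ, ∀ u : ℕ, u₀ ≤ u → c * u ^ k ≤ 2 ^ u := by
  have h := tendsto_pow_const_div_const_pow_of_one_lt k (one_lt_two : (1 : ℝ) < 2)
  have hc : (0 : ℝ) < 1 / (c + 1) := by positivity
  have h2 := (h.eventually (gt_mem_nhds hc))
  obtain ⟨u₀, hu₀⟩ := Filter.eventually_atTop.mp h2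
  refine ⟨u₀, fun u hu => ?_⟩
  have h3 := hu₀ u hu
  rw [div_lt_div_iff₀ (by positivity) (by positivity)] at h3
  have h4 : ((c * u ^ k : ℕ) : ℝ) ≤ ((2 ^ u : ℕ) : ℝ) := by
    push_cast
    have h5 : (0 : ℝ) ≤ (u : ℝ) ^ k := by positivity
    nlinarith
  exact_mod_cast h4

lemma nat_le_two_pow (u : ℕ) : (u : ℝ) ≤ 2 ^ u := by
  exact_mod_cast Nat.lt_two_pow_self.le

/-- The decay of the error. -/
lemma err_decay (u : ℕ) : (3 / 5 : ℝ) ^ (2 * u ^ 3 + 1) ≤ (1 / 2) ^ (u ^ 3) := by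
  calc (3 / 5 : ℝ) ^ (2 * u ^ 3 + 1) ≤ (3 / 5) ^ (2 * u ^ 3) :=
        pow_le_pow_of_le_one (by norm_num) (by norm_num) (by omega)
    _ = (9 / 25) ^ (u ^ 3) := by
        rw [pow_mul]
        norm_num
    _ ≤ (1 / 2) ^ (u ^ 3) := pow_le_pow_left₀ (by norm_num) (by norm_num) _

lemma eJ_le (u ν J : ℕ) : eJ (u ^ (2 * ν)) (u ^ 3) J
    ≤ 2 ^ (9 * J + 2 * ν * J * u) * (1 / 2) ^ (u ^ 3) := by
  unfold eJ
  refine mul_le_mul ?_ (err_decay u) (by positivity) (by positivity)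
  have h1 : (400 : ℝ) * ((u ^ (2 * ν) : ℕ) : ℝ) ≤ 2 ^ (9 + 2 * ν * u) := by
    rw [pow_add]
    refine mul_le_mul (by norm_num) ?_ (by positivity) (by positivity)
    push_cast
    calc (u : ℝ) ^ (2 * ν) ≤ (2 ^ u) ^ (2 * ν) :=
          pow_le_pow_left₀ (by positivity) (nat_le_two_pow u) _
      _ = 2 ^ (2 * ν * u) := by rw [← pow_mul, mul_comm]
  calc ((400 : ℝ) * ((u ^ (2 * ν) : ℕ) : ℝ)) ^ J ≤ (2 ^ (9 + 2 * ν * u)) ^ J :=
        pow_le_pow_left₀ (by positivity) h1 _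
    _ = 2 ^ (9 * J + 2 * ν * J * u) := by
        rw [← pow_mul]
        congr 1
        ring

/-- Powers of two. -/
lemma two_pow_half {a b : ℕ} (h : a ≤ b) : (2 : ℝ) ^ a * (1 / 2) ^ b ≤ 1 := by
  obtain ⟨c, rfl⟩ := Nat.exists_eq_add_of_le h
  rw [pow_add, ← mul_assoc, ← mul_pow]
  norm_num
  exact pow_le_one₀ (by norm_num) (by norm_num)

lemma poly_bound {c₀ c₁ c₂ u : ℕ} (hu : c₀ + c₁ + c₂ ≤ u) (hu1 : 1 ≤ u) :
    c₀ + c₁ * u + c₂ * u ^ 2 ≤ u ^ 3 := by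
  have h1 : c₀ ≤ c₀ * u ^ 2 := Nat.le_mul_of_pos_right _ (by positivity)
  have h2 : c₁ * u ≤ c₁ * u ^ 2 := Nat.mul_le_mul_left _ (by nlinarith)
  calc c₀ + c₁ * u + c₂ * u ^ 2 ≤ (c₀ + c₁ + c₂) * u ^ 2 := by nlinarith
    _ ≤ u * u ^ 2 := Nat.mul_le_mul_right _ hu
    _ = u ^ 3 := by ring

lemma poly_bound2 {c₀ c₁ u : ℕ} (hu : c₀ + c₁ ≤ u) (hu1 : 1 ≤ u) :
    c₀ + c₁ * u ≤ u ^ 2 := by
  have h1 : c₀ ≤ c₀ * u := Nat.le_mul_of_pos_right _ (by positivity)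
  calc c₀ + c₁ * u ≤ (c₀ + c₁) * u := by nlinarith
    _ ≤ u * u := Nat.mul_le_mul_right _ hu
    _ = u ^ 2 := by ring

/-- The parameters of the first world. -/
lemma exists_par0 {D w e ν J a : ℕ} (hD : D = w + 4 + e) (hν : 2 * ν + 2 ≤ e) (hν1 : 1 ≤ ν)
    (hJ : 2 * ν + (4 + ν) * J ≤ (w + 1) * e) :
    ∃ u₀ : ℕ, ∀ u : ℕ, u₀ ≤ u → Par0 D w e u ν J (2 ^ a) := by
  obtain ⟨a1, ha1⟩ : ∃ a1 : ℕ, a1 = 2 ^ (2 * (w + 1)) := ⟨_, rfl⟩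
  obtain ⟨a2, ha2⟩ : ∃ a2 : ℕ, a2 = 2 ^ (2 * (w + 1) + 10) := ⟨_, rfl⟩
  refine ⟨128 + (a1 + 4 + 18 * (J + 1)) + a2
    + (64 * D ^ 2 + 1) + ((9 + 2 * (w + 1) + 9 * J) + (2 * ν * (J + 2) + 2 * ν * J) + 0)
    + ((4 + 9 * J) + (2 * ν * (J + 1) + 2 * ν * J) + a), fun u hu => ?_⟩
  have hu1 : 1 ≤ u := by omega
  have hup : ∀ k : ℕ, ((u ^ (2 * ν) : ℕ) : ℝ) ^ k ≤ 2 ^ (2 * ν * k * u) := by
    intro k
    push_cast
    rw [← pow_mul]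
    calc (u : ℝ) ^ (2 * ν * k) ≤ (2 ^ u) ^ (2 * ν * k) :=
          pow_le_pow_left₀ (by positivity) (nat_le_two_pow u) _
      _ = 2 ^ (2 * ν * k * u) := by rw [← pow_mul, mul_comm]
  refine ⟨hu1, hD, hν, hν1, hJ, by omega, by rw [← ha1]; omega, by rw [← ha2]; omega, ?_, ?_, ?_⟩
  · have h1 := eJ_le u ν J
    have h2 := hup (J + 2)
    have hb := poly_bound (c₀ := 9 + 2 * (w + 1) + 9 * J) (c₁ := 2 * ν * (J + 2) + 2 * ν * J)
      (c₂ := 0) (u := u) (by omega) hu1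
    calc 400 * ((u ^ (2 * ν) : ℕ) : ℝ) ^ (J + 2) * ((2 ^ (2 * (w + 1)) : ℕ) : ℝ)
          * eJ (u ^ (2 * ν)) (u ^ 3) J
        ≤ (2 ^ 9 * 2 ^ (2 * ν * (J + 2) * u) * 2 ^ (2 * (w + 1)))
          * (2 ^ (9 * J + 2 * ν * J * u) * (1 / 2) ^ (u ^ 3)) := by
          refine mul_le_mul ?_ h1 (by unfold eJ; positivity) (by positivity)
          refine mul_le_mul ?_ (by push_cast; exact le_rfl) (by positivity) (by positivity)
          exact mul_le_mul (by norm_num) h2 (by positivity) (by positivity)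
      _ = 2 ^ (9 + 2 * ν * (J + 2) * u + 2 * (w + 1) + (9 * J + 2 * ν * J * u))
          * (1 / 2) ^ (u ^ 3) := by
          rw [pow_add 2 _ (9 * J + 2 * ν * J * u), pow_add 2 _ (2 * (w + 1)), pow_add 2 9]
          ring
      _ ≤ 1 := by
          refine two_pow_half (le_trans (le_of_eq ?_) hb)
          ring
  · have h1 := eJ_le u ν J
    have h2 := hup (J + 1)
    have hb := poly_bound (c₀ := 4 + 9 * J) (c₁ := 2 * ν * (J + 1) + 2 * ν * J)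
      (c₂ := a) (u := u) (by omega) hu1
    have h3 : 10 * ((u ^ (2 * ν) : ℕ) : ℝ) ^ (J + 1) * eJ (u ^ (2 * ν)) (u ^ 3) J
        * (2 ^ a) ^ (u ^ 2) ≤ 1 := by
      calc 10 * ((u ^ (2 * ν) : ℕ) : ℝ) ^ (J + 1) * eJ (u ^ (2 * ν)) (u ^ 3) J * (2 ^ a) ^ (u ^ 2)
          ≤ (2 ^ 4 * 2 ^ (2 * ν * (J + 1) * u))
            * (2 ^ (9 * J + 2 * ν * J * u) * (1 / 2) ^ (u ^ 3)) * (2 ^ a) ^ (u ^ 2) := by
            refine mul_le_mul_of_nonneg_right ?_ (by positivity)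
            refine mul_le_mul ?_ h1 (by unfold eJ; positivity) (by positivity)
            exact mul_le_mul (by norm_num) h2 (by positivity) (by positivity)
        _ = 2 ^ (4 + 2 * ν * (J + 1) * u + (9 * J + 2 * ν * J * u) + a * u ^ 2)
            * (1 / 2) ^ (u ^ 3) := by
            rw [pow_add 2 _ (a * u ^ 2), pow_add 2 _ (9 * J + 2 * ν * J * u), pow_add 2 4,
              pow_mul 2 a]
            ring
        _ ≤ 1 := by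
            refine two_pow_half (le_trans (le_of_eq ?_) hb)
            ring
    rw [one_div, inv_pow, ← one_div, le_div_iff₀ (by positivity)]
    exact h3
  · calc 64 * D ^ 2 < u := by omega
      _ = u ^ 1 := (pow_one u).symm
      _ ≤ u ^ (2 * ν) := Nat.pow_le_pow_right hu1 (by omega)

/-- The parameters of the later worlds. -/
lemma exists_par {D w e : ℕ} {θ A : ℝ} (hD : D = w + 4 + e) (he : 2 ≤ e) (hA : 1 ≤ A)
    (hθ : ∀ s ≤ 2 * (w + 1), thF D s A ≤ θ) :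
    ∃ u₀ : ℕ, ∀ u : ℕ, u₀ ≤ u → Par D w e u (2 ^ (2 * u)) θ A := by
  obtain ⟨u₁, hu₁⟩ := ev_pow (32 * (1 + D)) ((w + 3) * D)
  obtain ⟨u₂, hu₂⟩ := exists_nat_ge (2 * (1 + θ) ^ (2 * D))
  obtain ⟨a1, ha1⟩ : ∃ a1 : ℕ, a1 = 3 ^ (2 * D) := ⟨_, rfl⟩
  obtain ⟨a2, ha2⟩ : ∃ a2 : ℕ, a2 = 2 ^ (2 * (w + 1) + 10) := ⟨_, rfl⟩
  refine ⟨1 + u₁ + u₂ + a2 + 2 * a1, fun u hu => ?_⟩
  refine ⟨by omega, Nat.one_le_two_pow, hA, he, hD, by rw [← ha2]; omega, by rw [← ha1]; omega,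
    ?_, ?_, hθ⟩
  · refine hu₂.trans ?_
    exact_mod_cast (by omega : u₂ ≤ u)
  · exact hu₁ u (by omega)

end GridLine
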