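import Pool.Agent.Work.MP_c07f0d_lc.TL.GridDef

/-!
# The paths of the grid
-/

set_option linter.unusedSectionVars false

namespace GridLine

open Finset LineSize

variable {D M : ℕ}

/-- the corner number `k` of the path from `a` to `b` -/
def gridA_w (a b : GV D M) (k : ℕ) : GV D M := fun i => if i.val < k then b i else a i

/-- indicator of a vertex set -/
def gridA_u (U : Finset (GV D M)) (x : GV D M) : ZMod 2 := if x ∈ U then 1 else 0

lemma gridA_w_a (a b : GV D M) (k : Fin D) :
    Function.update (gridA_w a b k.val) k (a k) = gridA_w a b k.val := by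
  funext i
  by_cases h : i = k
  · subst h
    simp [gridA_w]
  · rw [Function.update_of_ne h]

lemma gridA_w_b (a b : GV D M) (k : Fin D) :
    Function.update (gridA_w a b k.val) k (b k) = gridA_w a b (k.val + 1) := by
  funext i
  by_cases h : i = k
  · subst h
    simp [gridA_w]
  · rw [Function.update_of_ne h]
    have h1 : i.val ≠ k.val := fun h' => h (Fin.ext h')
    simp only [gridA_w]
    by_cases h2 : i.val < k.val
    · rw [if_pos h2, if_pos (by omega)]
    · rw [if_neg h2, if_neg (by omega)]

lemma gridA_tele (V : ℕ → ZMod 2) {m m' : ℕ} (h : m ≤ m') :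
    ∑ n ∈ Ico m m', (V n + V (n + 1)) = V m + V m' := by
  have two : ∀ a : ZMod 2, a + a = 0 := by decide
  induction m', h using Nat.le_induction with
  | base => simp [two]
  | succ n hn ih =>
    rw [sum_Ico_succ_top hn, ih]
    have key : ∀ a b c : ZMod 2, a + b + (b + c) = a + c := by decide
    exact key _ _ _

/-- the part of the path in direction `k` -/
def gridA_seg (a b : GV D M) (U : Finset (GV D M)) (k : Fin D) (t : Fin M) : ZMod 2 :=
  if h : t.val + 1 < M then
    gridA_u U (Function.update (gridA_w a b k.val) k t) +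
      gridA_u U (Function.update (gridA_w a b k.val) k ⟨t.val + 1, h⟩)
  else 0

lemma gridA_inner (a b : GV D M) (U : Finset (GV D M)) (k : Fin D) :
    (∑ t : Fin M, if min (a k) (b k) ≤ t ∧ t < max (a k) (b k) then gridA_seg a b U k t else 0) =
      gridA_u U (gridA_w a b k.val) + gridA_u U (gridA_w a b (k.val + 1)) := by
  set V : ℕ → ZMod 2 := fun n => if h : n < M then
    gridA_u U (Function.update (gridA_w a b k.val) k ⟨n, h⟩) else 0 with hV
  have hVa : V (a k).val = gridA_u U (gridA_w a b k.val) := by
    simp only [hV]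
    rw [dif_pos (a k).isLt]
    congr 1
    exact gridA_w_a a b k
  have hVb : V (b k).val = gridA_u U (gridA_w a b (k.val + 1)) := by
    simp only [hV]
    rw [dif_pos (b k).isLt]
    congr 1
    exact gridA_w_b a b k
  have h1 : ∀ t : Fin M,
      (if min (a k) (b k) ≤ t ∧ t < max (a k) (b k) then gridA_seg a b U k t else 0) =
      (fun n : ℕ => if min (a k).val (b k).val ≤ n ∧ n < max (a k).val (b k).val then
        V n + V (n + 1) else 0) t.val := by
    intro t
    have hc : (min (a k) (b k) ≤ t ∧ t < max (a k) (b k)) ↔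
        (min (a k).val (b k).val ≤ t.val ∧ t.val < max (a k).val (b k).val) := by
      simp only [min_le_iff, lt_max_iff, Fin.le_def, Fin.lt_def]
    by_cases h : min (a k).val (b k).val ≤ t.val ∧ t.val < max (a k).val (b k).val
    · rw [if_pos (hc.2 h)]
      simp only [if_pos h]
      have h2 : t.val + 1 < M := by
        have := (a k).isLt
        have := (b k).isLt
        omega
      simp only [gridA_seg, dif_pos h2, hV]
      rw [dif_pos t.isLt]
    · rw [if_neg (fun h' => h (hc.1 h'))]
      simp only [if_neg h]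
  rw [sum_congr rfl (fun t _ => h1 t),
    Fin.sum_univ_eq_sum_range (fun n : ℕ => if min (a k).val (b k).val ≤ n ∧
      n < max (a k).val (b k).val then V n + V (n + 1) else 0) M, ← sum_filter]
  have h3 : (range M).filter (fun n => min (a k).val (b k).val ≤ n ∧
      n < max (a k).val (b k).val) = Ico (min (a k).val (b k).val) (max (a k).val (b k).val) := by
    ext n
    simp only [mem_filter, mem_range, mem_Ico]
    have := (a k).isLt
    have := (b k).isLt
    omega
  rw [h3, gridA_tele V (by omega)]
  rcases le_total (a k).val (b k).val with h4 | h4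
  · rw [min_eq_left h4, max_eq_right h4, hVa, hVb]
  · rw [min_eq_right h4, max_eq_left h4, hVa, hVb, add_comm]

lemma gridA_outer (a b : GV D M) (U : Finset (GV D M)) :
    (∑ k : Fin D, (gridA_u U (gridA_w a b k.val) + gridA_u U (gridA_w a b (k.val + 1)))) =
      gridA_u U a + gridA_u U b := by
  rw [Fin.sum_univ_eq_sum_range (fun k : ℕ => gridA_u U (gridA_w a b k) +
    gridA_u U (gridA_w a b (k + 1))) D, range_eq_Ico,
    gridA_tele (fun k => gridA_u U (gridA_w a b k)) (Nat.zero_le D)]
  have h0 : gridA_w a b 0 = a := by funext i; simp [gridA_w]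
  have h1 : gridA_w a b D = b := by funext i; simp [gridA_w]
  simp only [h0, h1]

/-- membership in the path, in terms of the corners -/
lemma gridA_mem (a b : GV D M) (e : GE D M) :
    e ∈ gpath a b ↔ (e.1.1 = Function.update (gridA_w a b e.1.2.val) e.1.2 (e.1.1 e.1.2)) ∧
      min (a e.1.2) (b e.1.2) ≤ e.1.1 e.1.2 ∧ e.1.1 e.1.2 < max (a e.1.2) (b e.1.2) := by
  simp only [gpath, mem_filter, mem_univ, true_and]
  constructor
  · rintro ⟨h1, h2, h3⟩
    refine ⟨?_, h3⟩
    funext i
    by_cases h : i = e.1.2
    · rw [h, Function.update_self]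
    · rw [Function.update_of_ne h]
      rcases lt_or_gt_of_ne h with h4 | h4
      · rw [h1 i h4]
        simp only [gridA_w]
        rw [if_pos (show i.val < e.1.2.val from h4)]
      · rw [h2 i h4]
        simp only [gridA_w]
        rw [if_neg (show ¬ i.val < e.1.2.val by rw [Fin.lt_def] at h4; omega)]
  · rintro ⟨h1, h3⟩
    refine ⟨?_, ?_, h3⟩
    · intro i hi
      rw [h1, Function.update_of_ne (ne_of_lt hi)]
      simp only [gridA_w]
      rw [if_pos (show i.val < e.1.2.val from hi)]
    · intro i hi
      rw [h1, Function.update_of_ne (ne_of_gt hi)]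
      simp only [gridA_w]
      rw [if_neg (show ¬ i.val < e.1.2.val by rw [Fin.lt_def] at hi; omega)]

lemma gridA_bd (U : Finset (GV D M)) (e : GE D M) :
    (if e ∈ bd gsrc gtgt U then (1 : ZMod 2) else 0) =
      gridA_u U e.1.1 + gridA_u U (gtgt e) := by
  unfold gridA_u bd
  simp only [mem_filter, mem_univ, true_and]
  by_cases h1 : e.1.1 ∈ U <;> by_cases h2 : gtgt e ∈ U <;> simp [gsrc, h1, h2]
  decide

lemma gridA_card (a b : GV D M) (U : Finset (GV D M)) :
    (((gpath a b ∩ bd gsrc gtgt U).card : ℕ) : ZMod 2) =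
      ∑ k : Fin D, ∑ t : Fin M,
        if min (a k) (b k) ≤ t ∧ t < max (a k) (b k) then gridA_seg a b U k t else 0 := by
  classical
  have h1 : gpath a b ∩ bd gsrc gtgt U = (gpath a b).filter fun e => e ∈ bd gsrc gtgt U := by
    ext e; simp
  rw [h1, card_filter]
  push_cast
  rw [← Fintype.sum_prod_type' (f := fun (k : Fin D) (t : Fin M) =>
    if min (a k) (b k) ≤ t ∧ t < max (a k) (b k) then gridA_seg a b U k t else 0)]
  have hR : (∑ p : Fin D × Fin M, if min (a p.1) (b p.1) ≤ p.2 ∧ p.2 < max (a p.1) (b p.1) then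
      gridA_seg a b U p.1 p.2 else 0) =
      ∑ p ∈ univ.filter (fun p : Fin D × Fin M => min (a p.1) (b p.1) ≤ p.2 ∧
        p.2 < max (a p.1) (b p.1)), gridA_seg a b U p.1 p.2 := (sum_filter _ _).symm
  rw [hR]
  refine sum_bij (fun e _ => (e.1.2, e.1.1 e.1.2)) ?_ ?_ ?_ ?_
  · intro e he
    simp only [mem_filter, mem_univ, true_and]
    exact ((gridA_mem a b e).1 he).2
  · intro e he e' he' hee
    have h2 := ((gridA_mem a b e).1 he).1
    have h3 := ((gridA_mem a b e').1 he').1
    simp only [Prod.mk.injEq] at hee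
    apply Subtype.ext
    apply Prod.ext
    · rw [h2, h3, hee.1]
      rw [hee.1] at hee
      rw [hee.2]
    · exact hee.1
  · intro p hp
    simp only [mem_filter, mem_univ, true_and] at hp
    obtain ⟨k, t⟩ := p
    have h2 : t.val + 1 < M := by
      have h4 := hp.2
      rw [lt_max_iff, Fin.lt_def, Fin.lt_def] at h4
      have := (a k).isLt
      have := (b k).isLt
      rcases h4 with h4 | h4 <;> simp only at h4 <;> omega
    refine ⟨⟨(Function.update (gridA_w a b k.val) k t, k), by simpa using h2⟩, ?_, ?_⟩
    · rw [gridA_mem]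
      simp only [Function.update_self, true_and]
      exact hp
    · simp
  · intro e he
    rw [gridA_bd]
    have h2 := ((gridA_mem a b e).1 he).1
    simp only [gridA_seg]
    rw [dif_pos e.2, ← h2]
    congr 1
    congr 1
    funext l
    by_cases hl : l = e.1.2
    · subst hl
      simp [gtgt]
    · rw [Function.update_of_ne hl]
      unfold gtgt
      rw [Function.update_of_ne hl]
      have h5 := congrFun h2 l
      rw [Function.update_of_ne hl] at h5
      exact h5

lemma gpath_spec (a b : GV D M) (U : Finset (GV D M)) :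
    Odd (gpath a b ∩ bd gsrc gtgt U).card ↔ ¬ (a ∈ U ↔ b ∈ U) := by
  rw [← Nat.not_even_iff_odd, ← ZMod.natCast_eq_zero_iff_even, gridA_card,
    sum_congr rfl (fun k _ => gridA_inner a b U k), gridA_outer]
  unfold gridA_u
  by_cases h1 : a ∈ U <;> by_cases h2 : b ∈ U <;> simp [h1, h2]
  decide

lemma gpath_cong (g : GE D M) :
    (univ.filter fun p : GV D M × GV D M => g ∈ gpath p.1 p.2).card
      ≤ M * Fintype.card (GV D M) := by
  classical
  have h1 : M * Fintype.card (GV D M) = (univ : Finset (Fin M × GV D M)).card := by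
    rw [card_univ, Fintype.card_prod, Fintype.card_fin]
  rw [h1]
  refine card_le_card_of_injOn
    (fun p => (p.2 g.1.2, fun i => if i ≤ g.1.2 then p.1 i else p.2 i)) (fun _ _ => mem_coe.2 (mem_univ _)) ?_
  intro p hp q hq hpq
  simp only [gpath, coe_filter, mem_filter, mem_univ, true_and, Set.mem_ofPred_eq] at hp hq
  simp only [Prod.mk.injEq] at hpq
  obtain ⟨h2, h3⟩ := hpq
  have h4 : ∀ i, (if i ≤ g.1.2 then p.1 i else p.2 i) = (if i ≤ g.1.2 then q.1 i else q.2 i) :=
    fun i => congrFun h3 i
  apply Prod.ext
  · funext i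
    by_cases h : i ≤ g.1.2
    · have := h4 i
      rwa [if_pos h, if_pos h] at this
    · have h5 : g.1.2 < i := not_le.1 h
      rw [← hp.2.1 i h5, ← hq.2.1 i h5]
  · funext i
    rcases lt_trichotomy i g.1.2 with h | h | h
    · rw [← hp.1 i h, ← hq.1 i h]
    · rw [h]; exact h2
    · have := h4 i
      rwa [if_neg (not_le.2 h), if_neg (not_le.2 h)] at this

end GridLine
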