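import Pool.Agent.Work.MP_c07f0d_lc.TL.Net
import Pool.Agent.Work.MP_c07f0d_lc.TL.GDefs

/-!
# The grid as a net
-/

set_option linter.unusedSectionVars false

namespace GridLine

open Finset LineSize

variable {D M : ℕ}

/-- The path from `a` to `b`: the coordinates are changed in their order. -/
def gpath (a b : GV D M) : Finset (GE D M) :=
  univ.filter fun e => (∀ i, i < e.1.2 → e.1.1 i = b i) ∧ (∀ i, e.1.2 < i → e.1.1 i = a i) ∧
    min (a e.1.2) (b e.1.2) ≤ e.1.1 e.1.2 ∧ e.1.1 e.1.2 < max (a e.1.2) (b e.1.2)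

/-- The index type of the elementary squares. -/
abbrev GJ (D M : ℕ) : Type := GV D M × Fin D × Fin D

/-- The upper neighbour of a vertex in direction `i` (the vertex itself at the border). -/
def up (x : GV D M) (i : Fin D) : GV D M :=
  if h : (x i).val + 1 < M then Function.update x i ⟨(x i).val + 1, h⟩ else x

/-- The elementary squares (for `i ≠ j`). -/
def gcyc (q : GJ D M) : Finset (GE D M) :=
  if q.2.1 ≠ q.2.2 ∧ (q.1 q.2.1).val + 1 < M ∧ (q.1 q.2.2).val + 1 < M then
    univ.filter fun e => e.1 = (q.1, q.2.1) ∨ e.1 = (q.1, q.2.2) ∨ e.1 = (up q.1 q.2.1, q.2.2) ∨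
      e.1 = (up q.1 q.2.2, q.2.1)
  else ∅

end GridLine
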