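import Pool.Agent.Work.MP_c07f0d_lc.TL.LevB

/-!
# The hierarchy of approximants
-/

set_option linter.unusedSectionVars false

namespace GridLine

open Finset LineSize

variable {ι : Type} [Fintype ι] [DecidableEq ι]

/-- The degree after `J` levels. -/
def dJ (m q J : ℕ) : ℕ := m * Sk.Dg q (6 * m) ^ J

/-- The error after `J` levels. -/
noncomputable def eJ (m q J : ℕ) : ℝ := (400 * (m : ℝ)) ^ J * (3 / 5) ^ (2 * q + 1)

/-- The exact family. -/
noncomputable def exactA (T : Tr ι) : (ι → Bool) → ℝ := fun x => bv (T.ev x)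

lemma lowDeg_exactA (T : Tr ι) : LowDeg T.leaves (exactA T) := by
  unfold exactA
  induction T with
  | leaf l => exact lowDeg_lit l
  | and a b iha ihb =>
    simp only [Tr.ev, bv_and]
    exact iha.mul ihb
  | or a b iha ihb =>
    have h : (fun x => bv (Tr.ev x (.or a b))) =
        fun x => 1 - (1 - bv (a.ev x)) * (1 - bv (b.ev x)) := by
      funext x
      simp only [Tr.ev]
      cases a.ev x <;> cases b.ev x <;> simp [bv]
    rw [h]
    exact (LowDeg.const _ 1).sub (((LowDeg.const _ 1).sub iha).mul ((LowDeg.const _ 1).sub ihb))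

lemma hierA_good_mono {P : PE ι} {A : Tr ι → (ι → Bool) → ℝ} {S d t : ℕ} {ε ε' : ℝ}
    (h : Good P A S d t ε) (he : ε ≤ ε') : Good P A S d t ε' where
  deg := h.deg
  idem := fun T hT => (h.idem T hT).mono le_rfl he
  and' := fun a b hab => (h.and' a b hab).mono le_rfl he
  or' := fun a b hab => (h.or' a b hab).mono le_rfl he
  leaf := h.leaf

lemma good_exact (P : PE ι) (m t : ℕ) : Good P (exactA (ι := ι)) m m t 0 where
  deg := fun T hT => (lowDeg_exactA T).mono hT
  idem := fun T _ => (PE.Bd.zero t).congr' fun x => by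
    unfold exactA
    cases T.ev x <;> simp [bv]
  and' := fun a b _ => (PE.Bd.zero t).congr' fun x => by
    simp only [exactA, Tr.ev]
    cases a.ev x <;> cases b.ev x <;> simp [bv]
  or' := fun a b _ => (PE.Bd.zero t).congr' fun x => by
    simp only [exactA, Tr.ev]
    cases a.ev x <;> cases b.ev x <;> simp [bv]
  leaf := fun _ _ => rfl

lemma hierA_Dg (q l : ℕ) : 1 ≤ Sk.Dg q l := by
  unfold Sk.Dg
  exact Nat.mul_pos (by omega) (by omega)

/-- The hierarchy of approximants. -/
theorem hier (P : PE ι) {m q J t : ℕ} (hm : 2 ≤ m) (hq : 400 * (m : ℝ) * eJ m q J ≤ 1)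
    (hcap : t + (J + 1) * (18 * m * dJ m q J) ≤ P.cap) :
    ∃ A : Tr ι → (ι → Bool) → ℝ, Good P A (m ^ (J + 1)) (dJ m q J) t (eJ m q J) ∧
      ∀ T : Tr ι, T.leaves < m → A T = exactA T := by
  have hm1 : (2 : ℝ) ≤ m := by exact_mod_cast hm
  have hδ : (0 : ℝ) < (3 / 5) ^ (2 * q + 1) := by positivity
  induction J generalizing t with
  | zero =>
    refine ⟨exactA, ?_, fun T _ => rfl⟩
    have h := hierA_good_mono (good_exact P m t) (ε' := eJ m q 0) (by unfold eJ; positivity)
    simpa [dJ] using h
  | succ J ih =>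
    have hD := hierA_Dg q (6 * m)
    have hd : dJ m q (J + 1) = Sk.Dg q (6 * m) * dJ m q J := by
      unfold dJ
      rw [pow_succ]
      ring
    have hdle : dJ m q J ≤ dJ m q (J + 1) := by
      rw [hd]
      exact Nat.le_mul_of_pos_left _ hD
    have he : eJ m q (J + 1) = 400 * m * eJ m q J := by
      unfold eJ
      rw [pow_succ]
      ring
    have he0 : 0 < eJ m q J := by
      unfold eJ
      positivity
    have heδ : (3 / 5 : ℝ) ^ (2 * q + 1) ≤ eJ m q J := by
      unfold eJ
      refine le_mul_of_one_le_left hδ.le (one_le_pow₀ ?_)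
      linarith
    have hle : eJ m q J ≤ eJ m q (J + 1) := by
      rw [he]
      nlinarith
    have hq' : 400 * (m : ℝ) * eJ m q J ≤ 1 :=
      (mul_le_mul_of_nonneg_left hle (by positivity)).trans hq
    have hmul : m * dJ m q J ≤ m * dJ m q (J + 1) := Nat.mul_le_mul_left _ hdle
    have hmd : dJ m q J ≤ m * dJ m q J := Nat.le_mul_of_pos_left _ (by omega)
    have hcap1 : t + (J + 2) * (18 * (m * dJ m q J)) ≤ P.cap := by
      refine le_trans ?_ hcap
      have : (J + 2) * (18 * (m * dJ m q J)) ≤ (J + 1 + 1) * (18 * m * dJ m q (J + 1)) := by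
        rw [mul_assoc 18 m]
        exact Nat.mul_le_mul_left _ (Nat.mul_le_mul_left _ hmul)
      omega
    obtain ⟨A, hA, hA'⟩ := ih (t := t + 16 * m * dJ m q J) hq' (by
      refine le_trans ?_ hcap1
      rw [mul_assoc 16 m, mul_assoc 18 m, show J + 2 = J + 1 + 1 by ring, add_mul (J + 1) 1]
      omega)
    have hlev : LevelHyp P A (m ^ (J + 1)) (dJ m q J) (t + 16 * m * dJ m q J) m (eJ m q J) := by
      refine ⟨hA, ?_, by omega, he0.le, ?_, ?_⟩
      · calc 2 ≤ m := hm
          _ = m ^ 1 := (pow_one m).symm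
          _ ≤ m ^ (J + 1) := Nat.pow_le_pow_right (by omega) (by omega)
      · have : 0 ≤ (m : ℝ) * eJ m q J := by positivity
        linarith
      · refine le_trans ?_ hcap1
        rw [mul_assoc 16 m, add_mul J 2]
        omega
    have hstep := level_step hlev (t' := t) le_rfl q
    refine ⟨nextA (m ^ (J + 1)) q A, ?_, ?_⟩
    · have hg := hierA_good_mono hstep (ε' := eJ m q (J + 1)) (by
        rw [he]
        have : (3 / 5 : ℝ) ^ (2 * q + 1) ≤ m * eJ m q J := by
          nlinarith
        linarith)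
      rw [hd, pow_succ m (J + 1), mul_comm (m ^ (J + 1)) m]
      exact hg
    · intro T hT
      unfold nextA
      rw [if_pos, hA' T hT]
      calc T.leaves < m := hT
        _ = m ^ 1 := (pow_one m).symm
        _ ≤ m ^ (J + 1) := Nat.pow_le_pow_right (by omega) (by omega)

end GridLine
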