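import Pool.Agent.Work.MP_c07f0d_lc.TL.HierA
import Pool.Agent.Work.MP_c07f0d_lc.LS.Core

/-!
# Approximants of all formulas of bounded size
-/

set_option linter.unusedSectionVars false

namespace GridLine

open Finset LineSize FregeEF

variable {ι : Type} [Fintype ι] [DecidableEq ι]

/-- The defect of a family at a formula. -/
noncomputable def dfc (A : Tr ι → (ι → Bool) → ℝ) (φ : Fm ι) : (ι → Bool) → ℝ :=
  fun x => A (nf true φ) x + A (nf false φ) x - 1

lemma dfc_deg {P : PE ι} {A : Tr ι → (ι → Bool) → ℝ} {S d t : ℕ} {ε : ℝ}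
    (hA : Good P A S d t ε) {φ : Fm ι} (hφ : φ.size ≤ S) : LowDeg d (dfc A φ) :=
  ((hA.deg _ ((nf_leaves φ true).trans hφ)).add (hA.deg _ ((nf_leaves φ false).trans hφ))).sub
    (LowDeg.const d 1)

/-- The binary step of the bound for the defects. -/
lemma dfc_step {P : PE ι} {d t1 : ℕ} {ε c1 c2 : ℝ} (hε : 0 ≤ ε)
    {g1 g2 a b' D D' e1 e2 : (ι → Bool) → ℝ}
    (hcap : t1 + 2 * d ≤ P.cap)
    (he1 : P.Bd t1 e1 ε) (he2 : P.Bd t1 e2 ε) (hde1 : LowDeg (2 * d) e1)
    (hde2 : LowDeg (2 * d) e2)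
    (ha : P.Bd (t1 + d) a (1 + ε)) (hb' : P.Bd (t1 + d) (fun x => 1 - b' x) (1 + ε))
    (hda : LowDeg d a) (hdb' : LowDeg d b')
    (hD : P.Bd t1 D c1) (hD' : P.Bd t1 D' c2) (hdD : LowDeg d D) (hdD' : LowDeg d D')
    (h : ∀ x, g1 x + g2 x - 1 = (e1 x + e2 x) + (a x * D' x + (1 - b' x) * D x)) :
    P.Bd t1 (fun x => g1 x + g2 x - 1) (2 * ε + (1 + ε) * (c1 + c2)) := by
  have h1 : P.Bd t1 (fun x => e1 x + e2 x) (ε + ε) := he1.add he2 hde1 hde2 hcap
  have h2 : P.Bd t1 (fun x => a x * D' x) ((1 + ε) * c2) := ha.mul hD' hdD' (by linarith)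
  have h3 : P.Bd t1 (fun x => (1 - b' x) * D x) ((1 + ε) * c1) := hb'.mul hD hdD (by linarith)
  have d2 : LowDeg (2 * d) (fun x => a x * D' x) := by
    rw [two_mul]; exact hda.mul hdD'
  have d3 : LowDeg (2 * d) (fun x => (1 - b' x) * D x) := by
    rw [two_mul]; exact ((LowDeg.const d 1).sub hdb').mul hdD
  have h4 := h2.add h3 d2 d3 hcap
  have h5 := h1.add h4 (hde1.add hde2) (d2.add d3) hcap
  refine (h5.congr' (g := fun x => g1 x + g2 x - 1) fun x => (h x).symm).mono le_rfl ?_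
  nlinarith

/-- The arithmetic of the binary step. -/
lemma dfc_arith {ε : ℝ} (hε : 0 ≤ ε) (s1 s2 : ℕ) :
    2 * ε + (1 + ε) * (2 * ε * s1 * (1 + ε) ^ s1 + 2 * ε * s2 * (1 + ε) ^ s2)
      ≤ 2 * ε * (s1 + s2 + 1 : ℕ) * (1 + ε) ^ (s1 + s2 + 1) := by
  have h1 : (1 : ℝ) ≤ 1 + ε := by linarith
  have hp : (1 : ℝ) ≤ (1 + ε) ^ (s1 + s2 + 1) := one_le_pow₀ h1
  have p1 : (1 + ε) * (1 + ε) ^ s1 ≤ (1 + ε) ^ (s1 + s2 + 1) := by
    rw [← pow_succ']
    exact pow_le_pow_right₀ h1 (by omega)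
  have p2 : (1 + ε) * (1 + ε) ^ s2 ≤ (1 + ε) ^ (s1 + s2 + 1) := by
    rw [← pow_succ']
    exact pow_le_pow_right₀ h1 (by omega)
  have q1 : 2 * ε * s1 * ((1 + ε) * (1 + ε) ^ s1) ≤ 2 * ε * s1 * (1 + ε) ^ (s1 + s2 + 1) :=
    mul_le_mul_of_nonneg_left p1 (by positivity)
  have q2 : 2 * ε * s2 * ((1 + ε) * (1 + ε) ^ s2) ≤ 2 * ε * s2 * (1 + ε) ^ (s1 + s2 + 1) :=
    mul_le_mul_of_nonneg_left p2 (by positivity)
  have q3 : 2 * ε * 1 ≤ 2 * ε * (1 + ε) ^ (s1 + s2 + 1) :=
    mul_le_mul_of_nonneg_left hp (by positivity)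
  push_cast
  nlinarith

/-- The bound for the defects. -/
lemma dfc_bd {P : PE ι} {A : Tr ι → (ι → Bool) → ℝ} {S d t t1 : ℕ} {ε : ℝ}
    (hA : Good P A S d t ε) (hε : 0 ≤ ε) (ht : t1 + d ≤ t) (hcap : t + 2 * d ≤ P.cap) :
    ∀ φ : Fm ι, φ.size ≤ S →
      P.Bd t1 (dfc A φ) (2 * ε * φ.size * (1 + ε) ^ φ.size) := by
  have hbA : ∀ T : Tr ι, T.leaves ≤ S → P.Bd (t1 + d) (A T) (1 + ε) := fun T hT =>
    (PE.Bd.idem (hA.deg T hT) (hA.idem T hT) hε hcap).mono ht le_rfl
  have hbA' : ∀ T : Tr ι, T.leaves ≤ S → P.Bd (t1 + d) (fun x => 1 - A T x) (1 + ε) :=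
    fun T hT => (PE.Bd.one_sub_idem (hA.deg T hT) (hA.idem T hT) hε hcap).mono ht le_rfl
  have hcap1 : t1 + 2 * d ≤ P.cap := by omega
  have ht1 : t1 ≤ t := by omega
  have dand : ∀ a b : Tr ι, a.leaves + b.leaves ≤ S →
      LowDeg (2 * d) (fun x => A (.and a b) x - A a x * A b x) := fun a b hab =>
    ((hA.deg (.and a b) hab).mono (by omega)).sub (by
      rw [two_mul]
      exact (hA.deg a (by omega)).mul (hA.deg b (by omega)))
  have dor : ∀ a b : Tr ι, a.leaves + b.leaves ≤ S →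
      LowDeg (2 * d) (fun x => A (.or a b) x - (A a x + A b x - A a x * A b x)) :=
    fun a b hab =>
    ((hA.deg (.or a b) hab).mono (by omega)).sub
      ((((hA.deg a (by omega)).mono (by omega)).add ((hA.deg b (by omega)).mono (by omega))).sub (by
        rw [two_mul]
        exact (hA.deg a (by omega)).mul (hA.deg b (by omega))))
  intro φ
  induction φ with
  | var i =>
    intro _
    refine ((PE.Bd.zero t1).congr' fun x => ?_).mono le_rfl (by positivity)
    simp only [dfc, nf, hA.leaf, Lit.ev]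
    cases x i <;> simp [bv]
  | bot =>
    intro _
    refine ((PE.Bd.zero t1).congr' fun x => ?_).mono le_rfl (by positivity)
    simp only [dfc, nf, hA.leaf, Lit.ev]
    simp [bv]
  | neg φ ih =>
    intro hs
    simp only [Fm.size] at hs ⊢
    refine ((ih (by omega)).congr' fun x => ?_).mono le_rfl ?_
    · simp only [dfc, nf, Bool.not_true, Bool.not_false]
      ring
    · have h1 : (1 : ℝ) ≤ 1 + ε := by linarith
      have hp : (1 + ε) ^ φ.size ≤ (1 + ε) ^ (φ.size + 1) := pow_le_pow_right₀ h1 (by omega)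
      push_cast
      have h2 : 2 * ε * (φ.size : ℝ) ≤ 2 * ε * ((φ.size : ℝ) + 1) :=
        mul_le_mul_of_nonneg_left (by linarith) (by positivity)
      exact mul_le_mul h2 hp (by positivity) (by positivity)
  | and φ ψ ih1 ih2 =>
    intro hs
    simp only [Fm.size] at hs ⊢
    have h1 := ih1 (by omega)
    have h2 := ih2 (by omega)
    have l1 := nf_leaves φ true
    have l2 := nf_leaves ψ true
    have l3 := nf_leaves φ false
    have l4 := nf_leaves ψ false
    refine (dfc_step (g1 := A (.and (nf true φ) (nf true ψ)))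
      (g2 := A (.or (nf false φ) (nf false ψ))) hε hcap1
      ((hA.and' (nf true φ) (nf true ψ) (by omega)).mono ht1 le_rfl)
      ((hA.or' (nf false φ) (nf false ψ) (by omega)).mono ht1 le_rfl)
      (dand _ _ (by omega)) (dor _ _ (by omega))
      (hbA (nf true φ) (by omega)) (hbA' (nf false ψ) (by omega))
      (hA.deg _ (by omega)) (hA.deg _ (by omega)) h1 h2 (dfc_deg hA (by omega))
      (dfc_deg hA (by omega)) ?_).mono le_rfl (dfc_arith hε _ _)
    intro x
    simp only [dfc]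
    ring
  | or φ ψ ih1 ih2 =>
    intro hs
    simp only [Fm.size] at hs ⊢
    have h1 := ih1 (by omega)
    have h2 := ih2 (by omega)
    have l1 := nf_leaves φ true
    have l2 := nf_leaves ψ true
    have l3 := nf_leaves φ false
    have l4 := nf_leaves ψ false
    refine ((dfc_step (g1 := A (.and (nf false φ) (nf false ψ)))
      (g2 := A (.or (nf true φ) (nf true ψ))) hε hcap1
      ((hA.and' (nf false φ) (nf false ψ) (by omega)).mono ht1 le_rfl)
      ((hA.or' (nf true φ) (nf true ψ) (by omega)).mono ht1 le_rfl)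
      (dand _ _ (by omega)) (dor _ _ (by omega))
      (hbA (nf false φ) (by omega)) (hbA' (nf true ψ) (by omega))
      (hA.deg _ (by omega)) (hA.deg _ (by omega)) h1 h2 (dfc_deg hA (by omega))
      (dfc_deg hA (by omega)) ?_).mono le_rfl (dfc_arith hε _ _)).congr' ?_
    · intro x
      simp only [dfc]
      ring
    · intro x
      simp only [dfc, nf]
      ring
  | imp φ ψ ih1 ih2 =>
    intro hs
    simp only [Fm.size] at hs ⊢
    have h1 := ih1 (by omega)
    have h2 := ih2 (by omega)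
    have l1 := nf_leaves φ true
    have l2 := nf_leaves ψ true
    have l3 := nf_leaves φ false
    have l4 := nf_leaves ψ false
    refine ((dfc_step (g1 := A (.and (nf true φ) (nf false ψ)))
      (g2 := A (.or (nf false φ) (nf true ψ))) hε hcap1
      ((hA.and' (nf true φ) (nf false ψ) (by omega)).mono ht1 le_rfl)
      ((hA.or' (nf false φ) (nf true ψ) (by omega)).mono ht1 le_rfl)
      (dand _ _ (by omega)) (dor _ _ (by omega))
      (hbA (nf true φ) (by omega)) (hbA' (nf true ψ) (by omega))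
      (hA.deg _ (by omega)) (hA.deg _ (by omega)) h1 h2 (dfc_deg hA (by omega))
      (dfc_deg hA (by omega)) ?_).mono le_rfl (dfc_arith hε _ _)).congr' ?_
    · intro x
      simp only [dfc]
      ring
    · intro x
      simp only [dfc, nf]
      ring

/-- `(1 + ε) ^ k` is small when `k ε` is. -/
lemma one_add_pow_le {ε : ℝ} (hε : 0 ≤ ε) {k : ℕ} (h : (k : ℝ) * ε ≤ 1 / 100) :
    (1 + ε) ^ k ≤ 5 / 4 := by
  have h1 : (1 + ε) ^ k ≤ Real.exp (k * ε) := by
    have := Real.add_one_le_exp ε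
    calc (1 + ε) ^ k ≤ Real.exp ε ^ k := pow_le_pow_left₀ (by linarith) (by linarith) k
      _ = Real.exp (k * ε) := by rw [← Real.exp_nat_mul]
  have h2 : Real.exp (k * ε) ≤ Real.exp (1 / 100) := Real.exp_le_exp.mpr h
  have h3 : Real.exp (1 / 100) ≤ 5 / 4 := by
    have h4 := Real.one_sub_le_exp_neg (1 / 100 : ℝ)
    have h5 : Real.exp (1 / 100) * Real.exp (-(1 / 100)) = 1 := by
      rw [← Real.exp_add]
      simp
    have h6 := Real.exp_pos (1 / 100 : ℝ)
    nlinarith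
  linarith

/-- The family of approximants of the formulas of size at most `m ^ (J + 1)`. -/
theorem fm_family (P : PE ι) (h1 : P.E (fun _ => 1) = 1) {m q J n : ℕ} (hm : 2 ≤ m)
    (hq : 400 * (m : ℝ) ^ (J + 2) * n * eJ m q J ≤ 1) (hn : 1 ≤ n)
    (hcap : (n + 4) * dJ m q J + (J + 1) * (18 * m * dJ m q J) ≤ P.cap) :
    ∃ p : Fm ι → (ι → Bool) → ℝ,
      (∀ φ : Fm ι, φ.size ≤ m ^ (J + 1) → LowDeg (dJ m q J) (p φ)) ∧
      (∀ φ : Fm ι, φ.size ≤ m ^ (J + 1) →
        P.N (fun x => p φ x - p φ x * p φ x) ≤ 10 * m ^ (J + 1) * eJ m q J) ∧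
      (P.N (p .bot) ≤ 10 * m ^ (J + 1) * eJ m q J) ∧
      (∀ φ : Fm ι, (Fm.neg φ).size ≤ m ^ (J + 1) →
        P.N (fun x => p (.neg φ) x - (1 - p φ x)) ≤ 10 * m ^ (J + 1) * eJ m q J) ∧
      (∀ φ ψ : Fm ι, (Fm.and φ ψ).size ≤ m ^ (J + 1) →
        P.N (fun x => p (.and φ ψ) x - p φ x * p ψ x) ≤ 10 * m ^ (J + 1) * eJ m q J) ∧
      (∀ φ ψ : Fm ι, (Fm.or φ ψ).size ≤ m ^ (J + 1) →
        P.N (fun x => p (.or φ ψ) x - (p φ x + p ψ x - p φ x * p ψ x))
          ≤ 10 * m ^ (J + 1) * eJ m q J) ∧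
      (∀ φ ψ : Fm ι, (Fm.imp φ ψ).size ≤ m ^ (J + 1) →
        P.N (fun x => p (.imp φ ψ) x - (1 - p φ x + p φ x * p ψ x))
          ≤ 10 * m ^ (J + 1) * eJ m q J) ∧
      (∀ φ : Fm ι, φ.size ≤ m ^ (J + 1) → P.E (fun x => p φ x ^ (2 * n)) ≤ 2) ∧
      (∀ φ : Fm ι, φ.size < m → p φ = fun x => bv ((nf true φ).ev x)) := by
  set d := dJ m q J with hd
  set ε := eJ m q J with hεdef
  set S := m ^ (J + 1) with hS
  have hε : 0 ≤ ε := by
    rw [hεdef]
    unfold eJ
    positivity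
  have hmR : (2 : ℝ) ≤ m := by exact_mod_cast hm
  have hnR : (1 : ℝ) ≤ n := by exact_mod_cast hn
  have hSR : ((S : ℕ) : ℝ) = (m : ℝ) ^ (J + 1) := by rw [hS]; push_cast; ring
  have hS1 : (1 : ℝ) ≤ (m : ℝ) ^ (J + 1) := one_le_pow₀ (by linarith)
  have hq0 : 400 * (m : ℝ) * ((m : ℝ) ^ (J + 1)) * n * ε ≤ 1 := by
    have : 400 * (m : ℝ) ^ (J + 2) * n * ε = 400 * (m : ℝ) * ((m : ℝ) ^ (J + 1)) * n * ε := by
      rw [pow_succ]; ring
    rw [← this]
    exact hq
  have hSn : (1 : ℝ) ≤ (m : ℝ) ^ (J + 1) * n := by nlinarith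
  have hq1 : 400 * (m : ℝ) * ε ≤ 1 := by
    have : 400 * (m : ℝ) * ε * 1 ≤ 400 * (m : ℝ) * ε * ((m : ℝ) ^ (J + 1) * n) :=
      mul_le_mul_of_nonneg_left hSn (by positivity)
    nlinarith
  have hSε : 800 * ((m : ℝ) ^ (J + 1) * ε) ≤ 1 := by
    have h2 : ((m : ℝ) ^ (J + 1) * ε) * 1 ≤ ((m : ℝ) ^ (J + 1) * ε) * n :=
      mul_le_mul_of_nonneg_left hnR (by positivity)
    have h3 : ((m : ℝ) ^ (J + 1) * ε * n) * 2 ≤ ((m : ℝ) ^ (J + 1) * ε * n) * m :=
      mul_le_mul_of_nonneg_left hmR (by positivity)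
    nlinarith
  have hnε : 800 * (n * ε) ≤ 1 := by
    have h2 : (n * ε) * 1 ≤ (n * ε) * (m : ℝ) ^ (J + 1) :=
      mul_le_mul_of_nonneg_left hS1 (by positivity)
    have h3 : ((m : ℝ) ^ (J + 1) * ε * n) * 2 ≤ ((m : ℝ) ^ (J + 1) * ε * n) * m :=
      mul_le_mul_of_nonneg_left hmR (by positivity)
    nlinarith
  have hε1 : 800 * ε ≤ 1 := by nlinarith
  obtain ⟨A, hA, hAex⟩ := hier P (m := m) (q := q) (J := J) (t := (n + 4) * d) hm hq1 hcap
  have hcap2 : (n + 4) * d + 2 * d ≤ P.cap := by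
    refine le_trans ?_ hcap
    have : 2 * d ≤ (J + 1) * (18 * m * d) := by
      calc 2 * d ≤ m * d := Nat.mul_le_mul_right _ hm
        _ ≤ 18 * m * d := by rw [mul_assoc]; omega
        _ ≤ (J + 1) * (18 * m * d) := Nat.le_mul_of_pos_left _ (by omega)
    omega
  have hN1 : P.N (fun _ => 1) = 1 := by
    unfold PE.N
    simp [h1]
  have lt : ∀ φ : Fm ι, φ.size ≤ S → ∀ s, (nf s φ).leaves ≤ S := fun φ hφ s =>
    (nf_leaves φ s).trans hφ
  have hdef := dfc_bd (t1 := (n + 3) * d) hA hε (by ring_nf; omega) hcap2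
  have hbdN : ∀ {t : ℕ} {f : (ι → Bool) → ℝ} {c : ℝ}, P.Bd t f c → P.N f ≤ c := by
    intro t f c h
    have h2 := h (fun _ => 1) (LowDeg.const t 1)
    rw [hN1] at h2
    simpa using h2
  have hle1 : ε ≤ 10 * (m : ℝ) ^ (J + 1) * ε := by nlinarith
  have hpow : ∀ φ : Fm ι, φ.size ≤ S → (1 + ε) ^ φ.size ≤ 5 / 4 := by
    intro φ hφ
    apply one_add_pow_le hε
    have : (φ.size : ℝ) ≤ (m : ℝ) ^ (J + 1) := by
      rw [← hSR]; exact_mod_cast hφ
    nlinarith
  have hdef' : ∀ φ : Fm ι, φ.size ≤ S → P.Bd ((n + 3) * d) (dfc A φ) (5 / 2 * ((m : ℝ) ^ (J + 1) * ε)) := by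
    intro φ hφ
    refine (hdef φ hφ).mono le_rfl ?_
    have h2 : (φ.size : ℝ) ≤ (m : ℝ) ^ (J + 1) := by
      rw [← hSR]; exact_mod_cast hφ
    have h3 := hpow φ hφ
    calc 2 * ε * φ.size * (1 + ε) ^ φ.size ≤ 2 * ε * (m : ℝ) ^ (J + 1) * (5 / 4) :=
          mul_le_mul (mul_le_mul_of_nonneg_left h2 (by positivity)) h3 (by positivity)
            (by positivity)
      _ = _ := by ring
  refine ⟨fun φ => A (nf true φ), ?_, ?_, ?_, ?_, ?_, ?_, ?_, ?_, ?_⟩
  · intro φ hφ
    exact hA.deg _ (lt φ hφ _)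
  · intro φ hφ
    refine (le_of_eq ?_).trans ((hbdN (hA.idem _ (lt φ hφ true))).trans hle1)
    rw [PE.N_sub_comm]
    congr 1
    funext x
    ring
  · refine (le_of_eq ?_).trans ((le_refl (0 : ℝ)).trans (by positivity))
    have : (fun x => A (nf true (.bot : Fm ι)) x) = fun _ => 0 := by
      funext x
      simp only [nf, hA.leaf, Lit.ev]
      simp [bv]
    show P.N (fun x => A (nf true (.bot : Fm ι)) x) = 0
    rw [this, PE.N_zero]
  · intro φ hφ
    simp only [Fm.size] at hφ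
    have h2 := hbdN (hdef' φ (by omega))
    refine (le_of_eq ?_).trans (h2.trans ?_)
    · congr 1
      funext x
      simp only [dfc, nf, Bool.not_true]
      ring
    · nlinarith [mul_nonneg (zero_le_one.trans hS1) hε]
  · intro φ ψ hφ
    simp only [Fm.size] at hφ
    have l1 := nf_leaves φ true
    have l2 := nf_leaves ψ true
    exact (hbdN (hA.and' (nf true φ) (nf true ψ) (by omega))).trans hle1
  · intro φ ψ hφ
    simp only [Fm.size] at hφ
    have l1 := nf_leaves φ true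
    have l2 := nf_leaves ψ true
    exact (hbdN (hA.or' (nf true φ) (nf true ψ) (by omega))).trans hle1
  · intro φ ψ hφ
    simp only [Fm.size] at hφ
    have l1 := nf_leaves φ false
    have l2 := nf_leaves ψ true
    have l3 := nf_leaves φ true
    have e := hA.or' (nf false φ) (nf true ψ) (by omega)
    have de : LowDeg (2 * d) (fun x => A (.or (nf false φ) (nf true ψ)) x
        - (A (nf false φ) x + A (nf true ψ) x - A (nf false φ) x * A (nf true ψ) x)) :=
      ((hA.deg (.or (nf false φ) (nf true ψ))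
        (by simp only [Tr.leaves]; omega)).mono (by omega)).sub
        ((((hA.deg (nf false φ) (by omega)).mono (by omega)).add
          ((hA.deg (nf true ψ) (by omega)).mono (by omega))).sub (by
          rw [two_mul]
          exact (hA.deg _ (by omega)).mul (hA.deg _ (by omega))))
    have hD := hdef' φ (by omega)
    have hdD : LowDeg d (dfc A φ) := dfc_deg hA (by omega)
    have hg : P.Bd ((n + 3) * d + d) (fun x => 1 - A (nf true ψ) x) (1 + ε) :=
      (PE.Bd.one_sub_idem (hA.deg _ (by omega)) (hA.idem _ (by omega)) hε hcap2).mono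
        (by ring_nf; omega) le_rfl
    have h3 : P.Bd ((n + 3) * d) (fun x => (1 - A (nf true ψ) x) * dfc A φ x)
        ((1 + ε) * (5 / 2 * ((m : ℝ) ^ (J + 1) * ε))) := hg.mul hD hdD (by linarith)
    have d3 : LowDeg (2 * d) (fun x => (1 - A (nf true ψ) x) * dfc A φ x) := by
      rw [two_mul]
      exact ((LowDeg.const d 1).sub (hA.deg _ (by omega))).mul hdD
    have h4 := (e.mono (t' := (n + 3) * d) (by ring_nf; omega) le_rfl).add h3 de d3 (by
      refine le_trans ?_ hcap2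
      ring_nf
      omega)
    refine (le_of_eq ?_).trans ((hbdN h4).trans ?_)
    · congr 1
      funext x
      simp only [dfc, nf]
      ring
    · have : 0 ≤ (m : ℝ) ^ (J + 1) * ε := by positivity
      nlinarith
  · intro φ hφ
    have hdeg := hA.deg _ (lt φ hφ true)
    have hb : P.Bd ((n + 4) * d) (A (nf true φ)) (1 + ε) :=
      PE.Bd.idem hdeg (hA.idem _ (lt φ hφ true)) hε hcap2
    have hpk : ∀ k : ℕ, k ≤ n → P.N (fun x => A (nf true φ) x ^ k) ≤ (1 + ε) ^ k := by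
      intro k
      induction k with
      | zero =>
        intro _
        simp [hN1]
      | succ k ih =>
        intro hk
        have ih' := ih (by omega)
        have hlow : LowDeg ((n + 4) * d) (fun x => A (nf true φ) x ^ k) :=
          (hdeg.pow k).mono (Nat.mul_le_mul_right _ (by omega))
        have h2 := hb _ hlow
        calc P.N (fun x => A (nf true φ) x ^ (k + 1))
            = P.N (fun x => A (nf true φ) x * A (nf true φ) x ^ k) := by
              congr 1
              funext x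
              ring
          _ ≤ (1 + ε) * P.N (fun x => A (nf true φ) x ^ k) := h2
          _ ≤ (1 + ε) * (1 + ε) ^ k := mul_le_mul_of_nonneg_left ih' (by linarith)
          _ = (1 + ε) ^ (k + 1) := by ring
    have hlow : LowDeg P.cap (fun x => A (nf true φ) x ^ n) :=
      (hdeg.pow n).mono (by
        have h2 : n * d ≤ (n + 4) * d := Nat.mul_le_mul_right _ (by omega)
        exact h2.trans ((Nat.le_add_right _ _).trans hcap2))
    have h3 := PE.N_sq hlow
    have h4 : P.E (fun x => A (nf true φ) x ^ (2 * n)) = P.N (fun x => A (nf true φ) x ^ n) ^ 2 := by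
      rw [h3]
      congr 1
      funext x
      rw [← pow_mul, mul_comm]
    show P.E (fun x => A (nf true φ) x ^ (2 * n)) ≤ 2
    rw [h4]
    have h5 := hpk n le_rfl
    have h6 : (1 + ε) ^ n ≤ 5 / 4 := one_add_pow_le hε (by linarith)
    have h7 := PE.N_nonneg (P := P) (fun x => A (nf true φ) x ^ n)
    nlinarith
  · intro φ hφ
    show A (nf true φ) = _
    rw [hAex _ ((nf_leaves φ true).trans_lt hφ)]
    rfl

end GridLine
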