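import Pool.Agent.Work.MP_c07f0d_lc.TL.WorldB
import Pool.Agent.Work.MP_c07f0d_lc.TL.Cube4

/-!
# Hypercontractivity in a world
-/

set_option linter.unusedSectionVars false

namespace GridLine

open Finset LineSize

lemma hypNet_sq {S κ : Type} [Fintype S] [Fintype κ] [DecidableEq κ]
    (a : S → ℝ) (m : S → Finset κ) (y : κ → Bool) :
    (∑ A, a A * chi (m A) y) ^ 2
      = ∑ q : S × S, (a q.1 * a q.2) * chi (symmDiff (m q.1) (m q.2)) y := by
  rw [pow_two, Finset.sum_mul_sum, Fintype.sum_prod_type]
  refine Finset.sum_congr rfl fun A _ => Finset.sum_congr rfl fun B _ => ?_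
  rw [← chi_mul]
  ring

lemma hypNet_four {S κ : Type} [Fintype S] [Fintype κ] [DecidableEq κ]
    (a : S → ℝ) (m : S → Finset κ) (y : κ → Bool) :
    (∑ A, a A * chi (m A) y) ^ 4
      = ∑ q : (S × S) × (S × S), ((a q.1.1 * a q.1.2) * (a q.2.1 * a q.2.2))
          * chi (symmDiff (symmDiff (m q.1.1) (m q.1.2)) (symmDiff (m q.2.1) (m q.2.2))) y := by
  have h : (∑ A, a A * chi (m A) y) ^ 4 = ((∑ A, a A * chi (m A) y) ^ 2) ^ 2 := by ring
  rw [h, hypNet_sq, hypNet_sq (S := S × S) (fun q => a q.1 * a q.2)
    (fun q => symmDiff (m q.1) (m q.2)) y]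

namespace Net

variable {V E J : Type} [Fintype V] [DecidableEq V] [Fintype E] [DecidableEq E] [Fintype J]
  [DecidableEq J] {G : Net V E J} {c : V → Bool} {T : ℕ}

/-- The fourth moment of a canonical function. -/
lemma hypNet_canon (h : G.Ok T) {t : ℕ} (ht : t ≤ T) {p : (E → Bool) → ℝ} (hp : LowDeg t p)
    (hc : G.Canon p) :
    G.Ex c (fun x => p x ^ 4) ≤ 9 ^ (G.B * t) * G.Ex c (fun x => p x ^ 2) ^ 2 := by
  classical
  set a : Finset E → ℝ := fc p with ha
  set N : ℝ := 2 ^ Fintype.card J with hN
  have hNpos : 0 < N := by positivity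
  set F : (J → Bool) → ℝ := fun y => ∑ A, |a A| * chi (G.phi A) y with hF
  -- fourth moment
  have h1 : G.Ex c (fun x => p x ^ 4) * N ≤ ∑ y, F y ^ 4 := by
    have e1 : (fun x => p x ^ 4) = fun x =>
        ∑ q : (Finset E × Finset E) × (Finset E × Finset E),
          ((a q.1.1 * a q.1.2) * (a q.2.1 * a q.2.2))
          * chi (symmDiff (symmDiff (q.1.1) (q.1.2)) (symmDiff (q.2.1) (q.2.2))) x := by
      funext x
      rw [← hypNet_four a (fun A => A) x, walsh]
    have e2 : G.Ex c (fun x => p x ^ 4)
        = ∑ q : (Finset E × Finset E) × (Finset E × Finset E),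
          ((a q.1.1 * a q.1.2) * (a q.2.1 * a q.2.2))
          * G.Ex c (chi (symmDiff (symmDiff (q.1.1) (q.1.2)) (symmDiff (q.2.1) (q.2.2)))) := by
      rw [e1]
      change Et _ _ _ _ = _
      rw [Et_sum]
      exact Finset.sum_congr rfl fun q _ => Et_const_mul _ _
    have e3 : ∑ y, F y ^ 4
        = ∑ q : (Finset E × Finset E) × (Finset E × Finset E),
          ((|a q.1.1| * |a q.1.2|) * (|a q.2.1| * |a q.2.2|))
          * (if G.phi (symmDiff (symmDiff (q.1.1) (q.1.2)) (symmDiff (q.2.1) (q.2.2))) = ∅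
              then N else 0) := by
      have : ∀ y, F y ^ 4 = ∑ q : (Finset E × Finset E) × (Finset E × Finset E),
          ((|a q.1.1| * |a q.1.2|) * (|a q.2.1| * |a q.2.2|))
          * chi (G.phi (symmDiff (symmDiff (q.1.1) (q.1.2)) (symmDiff (q.2.1) (q.2.2)))) y := by
        intro y
        have := hypNet_four (fun A : Finset E => |a A|) (fun A => G.phi A) y
        simp only [← phi_symmDiff] at this
        exact this
      simp only [this]
      rw [Finset.sum_comm]
      refine Finset.sum_congr rfl fun q _ => ?_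
      rw [← Finset.mul_sum, sum_chi]
    rw [e2, e3, Finset.sum_mul]
    refine Finset.sum_le_sum fun q _ => ?_
    set D := symmDiff (symmDiff (q.1.1) (q.1.2)) (symmDiff (q.2.1) (q.2.2)) with hD
    by_cases hphi : G.phi D = ∅
    · rw [if_pos hphi]
      have hE := abs_Ex_chi_le (G := G) c D
      have : ((a q.1.1 * a q.1.2) * (a q.2.1 * a q.2.2)) * G.Ex c (chi D)
          ≤ (|a q.1.1| * |a q.1.2|) * (|a q.2.1| * |a q.2.2|) := by
        calc ((a q.1.1 * a q.1.2) * (a q.2.1 * a q.2.2)) * G.Ex c (chi D)
            ≤ |((a q.1.1 * a q.1.2) * (a q.2.1 * a q.2.2)) * G.Ex c (chi D)| := le_abs_self _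
          _ = ((|a q.1.1| * |a q.1.2|) * (|a q.2.1| * |a q.2.2|)) * |G.Ex c (chi D)| := by
              simp only [abs_mul]
          _ ≤ ((|a q.1.1| * |a q.1.2|) * (|a q.2.1| * |a q.2.2|)) * 1 :=
              mul_le_mul_of_nonneg_left hE (by positivity)
          _ = _ := mul_one _
      exact mul_le_mul_of_nonneg_right this hNpos.le
    · rw [if_neg hphi]
      have hcut : ¬ G.Cut D := fun hcut => hphi ((phi_eq_empty_iff D).mpr hcut)
      rw [Ex_chi_of_not_cut c hcut]
      simp
  -- the degree of `F`
  have hlow : LowDeg (G.B * t) F := by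
    refine LowDeg.sum (s := Finset.univ) (f := fun A y => |a A| * chi (G.phi A) y) fun A _ => ?_
    by_cases hA : a A = 0
    · intro S _
      have : (fun y : J → Bool => |a A| * chi (G.phi A) y) = fun _ => 0 := by
        funext y
        simp [hA]
      rw [this, fc_const]
      simp
    · have hcard : A.card ≤ t := by
        by_contra hlt
        exact hA (hp A (by omega))
      have h2 : (G.phi A).card ≤ G.B * t :=
        (card_phi_le A).trans (Nat.mul_le_mul_left _ hcard)
      exact ((LowDeg.chi (G.phi A)).mono h2).const_mul |a A|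
  -- second moment
  have h2 : ∑ y, F y ^ 2 = N * ∑ A : Finset E, a A ^ 2 := by
    have : ∀ y, F y ^ 2 = ∑ q : Finset E × Finset E,
        (|a q.1| * |a q.2|) * chi (G.phi (symmDiff q.1 q.2)) y := by
      intro y
      have := hypNet_sq (fun A : Finset E => |a A|) (fun A => G.phi A) y
      simp only [← phi_symmDiff] at this
      exact this
    simp only [this]
    rw [Finset.sum_comm]
    have e : ∀ q : Finset E × Finset E,
        ∑ y, (|a q.1| * |a q.2|) * chi (G.phi (symmDiff q.1 q.2)) y
          = if q.1 = q.2 then N * a q.1 ^ 2 else 0 := by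
      intro q
      rw [← Finset.mul_sum, sum_chi]
      by_cases hq : q.1 = q.2
      · rw [if_pos hq, hq]
        have : G.phi (symmDiff q.2 q.2) = ∅ := by
          rw [phi_symmDiff]
          simp
        rw [if_pos this, ← abs_mul, abs_mul_self]
        ring
      · rw [if_neg hq]
        by_cases h1 : a q.1 = 0
        · simp [h1]
        by_cases h2 : a q.2 = 0
        · simp [h2]
        have hne : G.phi (symmDiff q.1 q.2) ≠ ∅ := by
          intro h0
          rw [phi_symmDiff] at h0
          exact hq (phi_inj (hc _ h1) (hc _ h2) (symmDiff_eq_bot.mp h0))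
        rw [if_neg hne, mul_zero]
    simp only [e]
    rw [Fintype.sum_prod_type, Finset.mul_sum]
    refine Finset.sum_congr rfl fun A _ => ?_
    simp
  have h3 := bonami hlow
  have h4 := Ex_sq_canon (c := c) h (hp.mono ht) hc
  rw [h4]
  rw [h2] at h3
  have h5 : G.Ex c (fun x => p x ^ 4) * (N * N)
      ≤ 9 ^ (G.B * t) * (∑ A : Finset E, a A ^ 2) ^ 2 * (N * N) := by
    calc G.Ex c (fun x => p x ^ 4) * (N * N) = (G.Ex c (fun x => p x ^ 4) * N) * N := by ring
      _ ≤ (∑ y, F y ^ 4) * N := mul_le_mul_of_nonneg_right h1 hNpos.le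
      _ ≤ 9 ^ (G.B * t) * (N * ∑ A : Finset E, a A ^ 2) ^ 2 := h3
      _ = _ := by ring
  exact le_of_mul_le_mul_right h5 (by positivity)

/-- The fourth moment. -/
theorem hyper (h : G.Ok T) {t : ℕ} (ht : 4 * t ≤ T) {f : (E → Bool) → ℝ} (hf : LowDeg t f) :
    G.Ex c (fun x => f x ^ 4) ≤ 9 ^ (G.B * t) * G.Ex c (fun x => f x ^ 2) ^ 2 := by
  have htT : t ≤ T := by omega
  set p := G.proj c t f with hp
  have hpl : LowDeg t p := lowDeg_proj t f
  have hpc : G.Canon p := canon_proj t f
  have hf2 : LowDeg (t + t) (fun x => f x * f x) := hf.mul hf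
  -- second moments
  have s1 : G.Ex c (fun x => p x ^ 2) = G.Ex c (fun x => f x ^ 2) := by
    have a1 := Ex_proj_mul (c := c) h htT hf (hpl.mono htT)
    have a2 := Ex_proj_mul (c := c) h htT hf (hf.mono htT)
    have e1 : (fun x => p x ^ 2) = fun x => G.proj c t f x * p x := by funext x; rw [pow_two]
    have e2 : (fun x => f x * p x) = fun x => G.proj c t f x * f x := by
      funext x; rw [mul_comm]
    have e3 : (fun x => f x ^ 2) = fun x => f x * f x := by funext x; rw [pow_two]
    rw [e1, a1, e2, a2, e3]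
  -- fourth moments
  have s2 : G.Ex c (fun x => p x ^ 4) = G.Ex c (fun x => f x ^ 4) := by
    have l1 : LowDeg T (fun x => p x * (p x * p x)) :=
      (hpl.mul (hpl.mul hpl)).mono (by omega)
    have l2 : LowDeg T (fun x => f x * (p x * p x)) :=
      (hf.mul (hpl.mul hpl)).mono (by omega)
    have l3 : LowDeg T (fun x => f x * (f x * p x)) :=
      (hf.mul (hf.mul hpl)).mono (by omega)
    have l4 : LowDeg T (fun x => f x * (f x * f x)) :=
      (hf.mul (hf.mul hf)).mono (by omega)
    have a1 := Ex_proj_mul (c := c) h htT hf l1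
    have a2 := Ex_proj_mul (c := c) h htT hf l2
    have a3 := Ex_proj_mul (c := c) h htT hf l3
    have a4 := Ex_proj_mul (c := c) h htT hf l4
    have e1 : (fun x => p x ^ 4) = fun x => G.proj c t f x * (p x * (p x * p x)) := by
      funext x; change p x ^ 4 = p x * (p x * (p x * p x)); ring
    have e2 : (fun x => f x * (p x * (p x * p x)))
        = fun x => G.proj c t f x * (f x * (p x * p x)) := by
      funext x; change _ = p x * (f x * (p x * p x)); ring
    have e3 : (fun x => f x * (f x * (p x * p x)))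
        = fun x => G.proj c t f x * (f x * (f x * p x)) := by
      funext x; change _ = p x * (f x * (f x * p x)); ring
    have e4 : (fun x => f x * (f x * (f x * p x)))
        = fun x => G.proj c t f x * (f x * (f x * f x)) := by
      funext x; change _ = p x * (f x * (f x * f x)); ring
    have e5 : (fun x => f x ^ 4) = fun x => f x * (f x * (f x * f x)) := by
      funext x; ring
    rw [e1, a1, e2, a2, e3, a3, e4, a4, e5]
  rw [← s1, ← s2]
  exact hypNet_canon h htT hpl hpc

end Net

end GridLine
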