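import Pool.Agent.Work.MP_c07f0d_lc.TL.LevelDef
import Pool.Agent.Work.MP_c07f0d_lc.TL.MleB

/-!
# One level: approximants of skeletons
-/

set_option linter.unusedSectionVars false

namespace GridLine

open Finset LineSize

variable {ι : Type} [Fintype ι] [DecidableEq ι]

section Skeleton

variable {P : PE ι} {A : Tr ι → (ι → Bool) → ℝ} {s d t m q : ℕ} {ε : ℝ}

lemma levA_exp {y : ℝ} (hy : y < 1) : Real.exp y ≤ 1 / (1 - y) := by
  have h1 : 0 < 1 - y := by linarith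
  rw [le_div_iff₀ h1]
  have h2 : 1 - y ≤ Real.exp (-y) := by
    have := Real.add_one_le_exp (-y)
    linarith
  calc Real.exp y * (1 - y) ≤ Real.exp y * Real.exp (-y) :=
        mul_le_mul_of_nonneg_left h2 (Real.exp_pos _).le
    _ = 1 := by rw [← Real.exp_add]; simp

lemma levA_pow {k : ℕ} {ε x : ℝ} (hε : 0 ≤ ε) (h : 2 * ε * k ≤ x) (hx : x < 1) :
    (1 + 2 * ε) ^ k ≤ 1 / (1 - x) := by
  have h1 : 1 + 2 * ε ≤ Real.exp (2 * ε) := by
    have := Real.add_one_le_exp (2 * ε)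
    linarith
  calc (1 + 2 * ε) ^ k ≤ Real.exp (2 * ε) ^ k := pow_le_pow_left₀ (by linarith) h1 k
    _ = Real.exp (k * (2 * ε)) := (Real.exp_nat_mul _ _).symm
    _ ≤ Real.exp x := Real.exp_le_exp.mpr (by linarith)
    _ ≤ 1 / (1 - x) := levA_exp hx

lemma levA_six (h : LevelHyp P A s d t m ε) {k : ℕ} (hk : k ≤ 6 * m) :
    (1 + 2 * ε) ^ k ≤ 8 / 7 := by
  have hε := h.hε
  have hk' : (k : ℝ) ≤ 6 * m := by exact_mod_cast hk
  have h2 : 2 * ε * k ≤ 1 / 8 := by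
    have := h.hmε
    nlinarith [mul_le_mul_of_nonneg_left hk' hε]
  have := levA_pow hε h2 (by norm_num)
  norm_num at this ⊢
  exact this

lemma levA_twelve (h : LevelHyp P A s d t m ε) {k : ℕ} (hk : k ≤ 6 * m) :
    (1 + 2 * ε) ^ (2 * k) ≤ 4 / 3 := by
  have hε := h.hε
  have hk' : (k : ℝ) ≤ 6 * m := by exact_mod_cast hk
  have h2 : 2 * ε * ((2 * k : ℕ) : ℝ) ≤ 1 / 4 := by
    have := h.hmε
    push_cast
    nlinarith [mul_le_mul_of_nonneg_left hk' hε]
  have := levA_pow hε h2 (by norm_num)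
  norm_num at this ⊢
  exact this

lemma levA_card (S : Sk (Tr ι)) (hS : S.size ≤ 6 * m) : Fintype.card S.Pos ≤ 6 * m := by
  rw [Sk.card_pos]
  exact hS

lemma levA_deg (S : Sk (Tr ι)) (h : LevelHyp P A s d t m ε)
    (hl : ∀ T, S.Mem T → T.leaves ≤ s) (i : S.Pos) : LowDeg d (A (S.lab i)) :=
  h.good.deg _ (hl _ (S.mem_lab i))

lemma levA_idem (S : Sk (Tr ι)) (h : LevelHyp P A s d t m ε)
    (hl : ∀ T, S.Mem T → T.leaves ≤ s) (i : S.Pos) :
    P.Bd t (fun x => A (S.lab i) x ^ 2 - A (S.lab i) x) ε :=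
  h.good.idem _ (hl _ (S.mem_lab i))

lemma levA_G (S : Sk (Tr ι)) (q : ℕ) :
    LowDeg (Sk.Dg q S.size) (Classical.choose (S.exists_apx q)) ∧
    ∀ v, |Classical.choose (S.exists_apx q) v - bv (S.evb v)| ≤ (3 / 5) ^ (2 * q + 1) :=
  Classical.choose_spec (S.exists_apx q)

lemma levA_delta (q : ℕ) : (0 : ℝ) < (3 / 5) ^ (2 * q + 1) ∧ ((3 : ℝ) / 5) ^ (2 * q + 1) ≤ 3 / 5 := by
  refine ⟨by positivity, ?_⟩
  calc ((3 : ℝ) / 5) ^ (2 * q + 1) ≤ (3 / 5) ^ 1 :=
        pow_le_pow_of_le_one (by norm_num) (by norm_num) (by omega)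
    _ = 3 / 5 := pow_one _

lemma levA_bv (b : Bool) : 0 ≤ bv b ∧ bv b ≤ 1 ∧ bv b ^ 2 = bv b := by
  cases b <;> simp [bv]

lemma levA_G_le (S : Sk (Tr ι)) (q : ℕ) (v : S.Pos → Bool) :
    |Classical.choose (S.exists_apx q) v| ≤ 8 / 5 := by
  have h1 := (levA_G S q).2 v
  have h2 := (levA_delta q).2
  obtain ⟨h3, h4, -⟩ := levA_bv (S.evb v)
  rw [abs_le] at h1 ⊢
  constructor <;> linarith [h1.1, h1.2]

lemma levA_FE (S : Sk (Tr ι)) :
    Sk.FE A S = mle (fun v => bv (S.evb v)) (fun i => A (S.lab i)) := by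
  funext x
  exact Sk.FE_eq A S x

lemma apx_deg (S : Sk (Tr ι)) (h : LevelHyp P A s d t m ε) (hS : S.size ≤ 6 * m)
    (hl : ∀ T, S.Mem T → T.leaves ≤ s) : LowDeg (Sk.Dg q (6 * m) * d) (apx q A S) :=
  (mle_lowDeg (levA_G S q).1 (levA_deg S h hl)).mono (Nat.mul_le_mul_right d (Sk.Dg_mono hS))

lemma apx_deg' (S : Sk (Tr ι)) (h : LevelHyp P A s d t m ε) (hS : S.size ≤ 6 * m)
    (hl : ∀ T, S.Mem T → T.leaves ≤ s) : LowDeg (6 * m * d) (apx q A S) :=
  (mle_lowDeg' _ (levA_deg S h hl)).mono (Nat.mul_le_mul_right d (levA_card S hS))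

lemma FE_deg (S : Sk (Tr ι)) (h : LevelHyp P A s d t m ε) (hS : S.size ≤ 6 * m)
    (hl : ∀ T, S.Mem T → T.leaves ≤ s) : LowDeg (6 * m * d) (Sk.FE A S) := by
  rw [levA_FE]
  exact (mle_lowDeg' _ (levA_deg S h hl)).mono (Nat.mul_le_mul_right d (levA_card S hS))

lemma levA_norm (S : Sk (Tr ι)) (h : LevelHyp P A s d t m ε) (hS : S.size ≤ 6 * m)
    (hl : ∀ T, S.Mem T → T.leaves ≤ s) {t' : ℕ} (ht : t' + 6 * m * d ≤ t)
    (g : (S.Pos → Bool) → ℝ) {M : ℝ} (hM : ∀ v, |g v| ≤ M) :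
    P.Bd t' (mle g (fun i => A (S.lab i))) (M * (8 / 7)) := by
  have hM0 : 0 ≤ M := (abs_nonneg _).trans (hM fun _ => true)
  have hc := levA_card S hS
  refine (mle_norm g (fun i => A (S.lab i)) (levA_deg S h hl) (levA_idem S h hl) h.hε
    ?_ h.hcap hM).mono le_rfl ?_
  · have := Nat.mul_le_mul_right d hc
    omega
  · exact mul_le_mul_of_nonneg_left (levA_six h hc) hM0

lemma FE_norm (S : Sk (Tr ι)) (h : LevelHyp P A s d t m ε) (hS : S.size ≤ 6 * m)
    (hl : ∀ T, S.Mem T → T.leaves ≤ s) {t' : ℕ} (ht : t' + 6 * m * d ≤ t) :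
    P.Bd t' (Sk.FE A S) 2 := by
  rw [levA_FE]
  refine (levA_norm S h hS hl ht (fun v => bv (S.evb v)) (M := 1) fun v => ?_).mono le_rfl
    (by norm_num)
  obtain ⟨h3, h4, -⟩ := levA_bv (S.evb v)
  rw [abs_le]
  constructor <;> linarith

lemma apx_norm (S : Sk (Tr ι)) (h : LevelHyp P A s d t m ε) (hS : S.size ≤ 6 * m)
    (hl : ∀ T, S.Mem T → T.leaves ≤ s) {t' : ℕ} (ht : t' + 6 * m * d ≤ t) :
    P.Bd t' (apx q A S) 4 :=
  (levA_norm S h hS hl ht _ (levA_G_le S q)).mono le_rfl (by norm_num)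

lemma apx_FE (S : Sk (Tr ι)) (h : LevelHyp P A s d t m ε) (hS : S.size ≤ 6 * m)
    (hl : ∀ T, S.Mem T → T.leaves ≤ s) {t' : ℕ} (ht : t' + 6 * m * d ≤ t) :
    P.Bd t' (fun x => apx q A S x - Sk.FE A S x) (2 * (3 / 5) ^ (2 * q + 1)) := by
  have h1 := (levA_norm S h hS hl ht (fun v => Classical.choose (S.exists_apx q) v -
    bv (S.evb v)) (levA_G S q).2).congr' (g := fun x => apx q A S x - Sk.FE A S x) (fun x => by
      rw [mle_sub, Sk.FE_eq]
      rfl)
  refine h1.mono le_rfl ?_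
  have := (levA_delta q).1
  linarith

lemma apx_idem (S : Sk (Tr ι)) (h : LevelHyp P A s d t m ε) (hS : S.size ≤ 6 * m)
    (hl : ∀ T, S.Mem T → T.leaves ≤ s) {t' : ℕ} (ht : t' + 12 * m * d ≤ t) :
    P.Bd t' (fun x => apx q A S x ^ 2 - apx q A S x) (200 * (m * ε + (3 / 5) ^ (2 * q + 1))) := by
  have hc := levA_card S hS
  have hcd := Nat.mul_le_mul_right d hc
  have e12 : 12 * m * d = 2 * (6 * m * d) := by ring
  have hε := h.hε
  set G := Classical.choose (S.exists_apx q) with hG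
  obtain ⟨hd0, hd1⟩ := levA_delta q
  set δ : ℝ := (3 / 5) ^ (2 * q + 1) with hδ
  -- multiplicativity
  have h1 := mle_mul G G (fun i => A (S.lab i)) (levA_deg S h hl) (levA_idem S h hl) hε
    (t := t') (by omega) h.hcap (levA_G_le S q) (levA_G_le S q)
  -- the defect on the cube
  have h2 := levA_norm S h hS hl (t' := t') (by omega) (fun v => G v * G v - G v) (M := 8 / 5 * δ)
    (fun v => by
      have e1 := (levA_G S q).2 v
      rw [← hG, ← hδ] at e1
      obtain ⟨-, -, b3⟩ := levA_bv (S.evb v)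
      have b4 : bv (S.evb v) = 0 ∨ bv (S.evb v) = 1 := by
        cases S.evb v <;> simp [bv]
      set e := G v - bv (S.evb v) with he
      have e2 : G v * G v - G v = e * (2 * bv (S.evb v) - 1 + e) := by
        have : G v = bv (S.evb v) + e := by rw [he]; ring
        rw [this]
        linear_combination b3
      rw [e2, abs_mul]
      have e3 : |2 * bv (S.evb v) - 1 + e| ≤ 8 / 5 := by
        rw [abs_le] at e1 ⊢
        rcases b4 with b4 | b4 <;> rw [b4] <;> constructor <;> linarith [e1.1, e1.2]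
      calc |e| * |2 * bv (S.evb v) - 1 + e| ≤ δ * (8 / 5) :=
            mul_le_mul e1 e3 (abs_nonneg _) hd0.le
        _ = 8 / 5 * δ := by ring)
  have hGz : LowDeg (6 * m * d) (mle G (fun i => A (S.lab i))) :=
    (mle_lowDeg' _ (levA_deg S h hl)).mono hcd
  have hl1 : LowDeg (12 * m * d) (fun x => mle G (fun i => A (S.lab i)) x *
      mle G (fun i => A (S.lab i)) x - mle (fun v => G v * G v) (fun i => A (S.lab i)) x) := by
    refine LowDeg.sub ((hGz.mul hGz).mono (by omega)) ?_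
    exact (mle_lowDeg' _ (levA_deg S h hl)).mono (by omega)
  have hl2 : LowDeg (12 * m * d) (mle (fun v => G v * G v - G v) (fun i => A (S.lab i))) :=
    (mle_lowDeg' _ (levA_deg S h hl)).mono (by omega)
  have h3 := h1.add h2 hl1 hl2 (by have := h.hcap; omega)
  refine (h3.congr' (g := fun x => apx q A S x ^ 2 - apx q A S x) fun x => ?_).mono le_rfl ?_
  · rw [mle_sub (fun v => G v * G v) G]
    show _ = mle G (fun i => A (S.lab i)) x ^ 2 - mle G (fun i => A (S.lab i)) x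
    ring
  · have hp := levA_twelve h hc
    have hp0 : 0 ≤ (1 + 2 * ε) ^ (2 * Fintype.card S.Pos) := by positivity
    have hc' : (Fintype.card S.Pos : ℝ) ≤ 6 * m := by exact_mod_cast hc
    have hc0 : (0 : ℝ) ≤ Fintype.card S.Pos := Nat.cast_nonneg _
    have hm0 : (0 : ℝ) ≤ m := Nat.cast_nonneg _
    have h4 : 4 * (8 / 5 : ℝ) * (8 / 5) * ε * Fintype.card S.Pos *
        (1 + 2 * ε) ^ (2 * Fintype.card S.Pos) ≤ 4 * (8 / 5 : ℝ) * (8 / 5) * ε * (6 * m) * (4 / 3) := by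
      gcongr
    have h5 : 0 ≤ m * ε := by positivity
    linarith

end Skeleton

end GridLine
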