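import Pool.Agent.Work.MP_c07f0d_lc.TL.SkDef

/-!
# Skeletons: size and shape
-/

set_option linter.unusedSectionVars false

namespace GridLine

open Finset LineSize

section Rep

variable {ι : Type}

/-- The invariant of `rep`. -/
def skB_inv (s L : ℕ) : Sk (Tr ι) × Option (Tr ι × Tr ι) → Prop
  | (Z, none) => (∀ P, Z.Mem P → P.leaves ≤ s) ∧ s * Z.size + 4 * s ≤ 6 * L
  | (Z, some (w₀, w₁)) => (∀ P, Z.Mem P → P.leaves ≤ s) ∧ w₀.leaves = w₁.leaves ∧
      w₁.leaves ≤ s ∧ 1 ≤ w₁.leaves ∧ s * Z.size + 4 * s + 3 * w₁.leaves ≤ 6 * L + 3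

lemma skB_full {s L : ℕ} {r : Sk (Tr ι) × Option (Tr ι × Tr ι)} (h : skB_inv s L r) :
    (∀ P, (full r).Mem P → P.leaves ≤ s) ∧ s * (full r).size + 2 * s ≤ 6 * L := by
  rcases r with ⟨Z, _ | ⟨w₀, w₁⟩⟩
  · obtain ⟨h1, h2⟩ := h
    refine ⟨h1, ?_⟩
    show s * Z.size + 2 * s ≤ 6 * L
    omega
  · obtain ⟨h1, h2, h3, h4, h5⟩ := h
    refine ⟨?_, ?_⟩
    · intro P hP
      have hP' : (P = w₁ ∨ Z.Mem P) ∨ P = w₀ := hP
      rcases hP' with (rfl | hP') | rfl
      · exact h3
      · exact h1 P hP'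
      · omega
    · show s * ((1 + Z.size) + 1) + 2 * s ≤ 6 * L
      have e : s * ((1 + Z.size) + 1) = s * Z.size + 2 * s := by ring
      omega

lemma skB_add {s L : ℕ} (hs : 2 ≤ s) {r : Sk (Tr ι) × Option (Tr ι × Tr ι)}
    (h : skB_inv s L r) (o : Tr ι → Tr ι → Tr ι)
    (ho : ∀ x y, (o x y).leaves = x.leaves + y.leaves) (b : Tr ι) (hb : b.leaves < s) :
    skB_inv s (L + b.leaves) (addSmall s o r b) := by
  have hc : ∀ c : Bool, (Tr.leaf (.cst c) : Tr ι).leaves = 1 := fun _ => rfl
  rcases r with ⟨Z, _ | ⟨w₀, w₁⟩⟩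
  · obtain ⟨h1, h2⟩ := h
    refine ⟨h1, ?_, ?_, ?_, ?_⟩
    · rw [ho, ho]; rfl
    · rw [ho, hc]; omega
    · rw [ho, hc]; omega
    · rw [ho, hc]; omega
  · have hf := skB_full h
    obtain ⟨h1, h2, h3, h4, h5⟩ := h
    unfold addSmall
    by_cases hle : w₁.leaves + b.leaves ≤ s
    · simp only [if_pos hle]
      refine ⟨h1, ?_, ?_, ?_, ?_⟩
      · rw [ho, ho, h2]
      · rw [ho]; omega
      · rw [ho]; omega
      · rw [ho]; omega
    · simp only [if_neg hle]
      refine ⟨hf.1, ?_, ?_, ?_, ?_⟩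
      · rw [ho, ho]; rfl
      · rw [ho, hc]; omega
      · rw [ho, hc]; omega
      · rw [ho, hc]
        have e : s * (full (Z, some (w₀, w₁))).size = s * Z.size + 2 * s := by
          show s * ((1 + Z.size) + 1) = s * Z.size + 2 * s
          ring
        omega

lemma skB_and_leaves (a b : Tr ι) : (Tr.and a b).leaves = a.leaves + b.leaves := rfl

lemma skB_or_leaves (a b : Tr ι) : (Tr.or a b).leaves = a.leaves + b.leaves := rfl

lemma skB_rep {s : ℕ} (hs : 2 ≤ s) (T : Tr ι) (hT : s ≤ T.leaves) :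
    skB_inv s T.leaves (rep s T) := by
  induction T with
  | leaf l =>
    exfalso
    have : (Tr.leaf l : Tr ι).leaves = 1 := rfl
    omega
  | and a b iha ihb =>
    rw [skB_and_leaves] at hT ⊢
    unfold rep
    by_cases ha : s ≤ a.leaves
    · rw [if_pos ha]
      by_cases hb : s ≤ b.leaves
      · rw [if_pos hb]
        obtain ⟨a1, a2⟩ := skB_full (iha ha)
        obtain ⟨b1, b2⟩ := skB_full (ihb hb)
        refine ⟨?_, ?_⟩
        · rintro P (hP | hP)
          · exact a1 P hP
          · exact b1 P hP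
        · show s * ((full (rep s a)).size + (full (rep s b)).size) + 4 * s ≤ _
          rw [Nat.mul_add]
          omega
      · rw [if_neg hb]
        exact skB_add hs (iha ha) Tr.and skB_and_leaves b (by omega)
    · rw [if_neg ha]
      by_cases hb : s ≤ b.leaves
      · rw [if_pos hb, Nat.add_comm]
        exact skB_add hs (ihb hb) (fun x y => Tr.and y x)
          (fun x y => (skB_and_leaves y x).trans (Nat.add_comm _ _)) a (by omega)
      · rw [if_neg hb]
        refine ⟨?_, ?_⟩
        · intro P hP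
          have hP' : P = a ∨ P = b := hP
          rcases hP' with rfl | rfl <;> omega
        · show s * (1 + 1) + 4 * s ≤ _
          omega
  | or a b iha ihb =>
    rw [skB_or_leaves] at hT ⊢
    unfold rep
    by_cases ha : s ≤ a.leaves
    · rw [if_pos ha]
      by_cases hb : s ≤ b.leaves
      · rw [if_pos hb]
        obtain ⟨a1, a2⟩ := skB_full (iha ha)
        obtain ⟨b1, b2⟩ := skB_full (ihb hb)
        refine ⟨?_, ?_⟩
        · rintro P (hP | hP)
          · exact a1 P hP
          · exact b1 P hP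
        · show s * ((full (rep s a)).size + (full (rep s b)).size) + 4 * s ≤ _
          rw [Nat.mul_add]
          omega
      · rw [if_neg hb]
        exact skB_add hs (iha ha) Tr.or skB_or_leaves b (by omega)
    · rw [if_neg ha]
      by_cases hb : s ≤ b.leaves
      · rw [if_pos hb, Nat.add_comm]
        exact skB_add hs (ihb hb) (fun x y => Tr.or y x)
          (fun x y => (skB_or_leaves y x).trans (Nat.add_comm _ _)) a (by omega)
      · rw [if_neg hb]
        refine ⟨?_, ?_⟩
        · intro P hP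
          have hP' : P = a ∨ P = b := hP
          rcases hP' with rfl | rfl <;> omega
        · show s * (1 + 1) + 4 * s ≤ _
          omega

/-- The number of leaves of the skeleton. -/
theorem skel_size {s : ℕ} (hs : 2 ≤ s) (T : Tr ι) (hT : s ≤ T.leaves) :
    s * (skel s T).size ≤ 6 * T.leaves := by
  have h := (skB_full (skB_rep hs T hT)).2
  unfold skel
  omega

/-- The labels of the skeleton. -/
theorem skel_lab {s : ℕ} (hs : 2 ≤ s) (T : Tr ι) (hT : s ≤ T.leaves) (P : Tr ι)
    (hP : (skel s T).Mem P) : P.leaves ≤ s :=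
  (skB_full (skB_rep hs T hT)).1 P hP

/-- The shape of the skeleton of `o a b` when `a` is large and `b` is small: either the skeleton
of `a` is the subskeleton, or the top labels are extended. -/
theorem skel_add {s : ℕ} (hs : 2 ≤ s) (o : Tr ι → Tr ι → Tr ι)
    (ho : ∀ x y, (o x y).leaves = x.leaves + y.leaves) (a b T : Tr ι)
    (hT : rep s T = addSmall s o (rep s a) b) (ha : s ≤ a.leaves) (hb : b.leaves < s) :
    (skel s T = .or (.and (.leaf (o (.leaf (.cst true)) b)) (skel s a))
      (.leaf (o (.leaf (.cst false)) b))) ∨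
    ∃ (Z : Sk (Tr ι)) (w₀ w₁ : Tr ι), w₀.leaves + b.leaves ≤ s ∧ w₁.leaves + b.leaves ≤ s ∧
      skel s a = .or (.and (.leaf w₁) Z) (.leaf w₀) ∧
      skel s T = .or (.and (.leaf (o w₁ b)) Z) (.leaf (o w₀ b)) := by
  have hinv := skB_rep hs a ha
  unfold skel
  rw [hT]
  generalize rep s a = r at hinv
  rcases r with ⟨Z, _ | ⟨w₀, w₁⟩⟩
  · exact Or.inl rfl
  · obtain ⟨h1, h2, h3, h4, h5⟩ := hinv
    unfold addSmall
    by_cases hle : w₁.leaves + b.leaves ≤ s
    · simp only [if_pos hle]
      exact Or.inr ⟨Z, w₀, w₁, by omega, hle, rfl, rfl⟩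
    · simp only [if_neg hle]
      exact Or.inl rfl

end Rep

end GridLine
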