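import Pool.Agent.Work.MP_c07f0d_lc.TL.LevA
import Pool.Agent.Work.MP_c07f0d_lc.TL.SkB

/-!
# One level: the gates
-/

set_option linter.unusedSectionVars false

namespace GridLine

open Finset LineSize

variable {ι : Type} [Fintype ι] [DecidableEq ι]

section Calculus

variable {P : PE ι} {t t' : ℕ}

/-- A bounded function of degree at most `D`. -/
def levB_Nb (P : PE ι) (t : ℕ) (f : (ι → Bool) → ℝ) (D : ℕ) (c : ℝ) : Prop :=
  LowDeg D f ∧ 0 ≤ c ∧ ∀ t', t' + D ≤ t → P.Bd t' f c

lemma levB_Nb.mul {f g : (ι → Bool) → ℝ} {D D' : ℕ} {c c' : ℝ} (hf : levB_Nb P t f D c)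
    (hg : levB_Nb P t g D' c') : levB_Nb P t (fun x => f x * g x) (D + D') (c * c') := by
  refine ⟨hf.1.mul hg.1, mul_nonneg hf.2.1 hg.2.1, fun t' ht' => ?_⟩
  exact PE.Bd.mul (hf.2.2 (t' + D') (by omega)) (hg.2.2 t' (by omega)) hg.1 hf.2.1

lemma levB_Nb.mono {f : (ι → Bool) → ℝ} {D D' : ℕ} {c c' : ℝ} (hf : levB_Nb P t f D c)
    (hD : D ≤ D') (hc : c ≤ c') : levB_Nb P t f D' c' :=
  ⟨hf.1.mono hD, hf.2.1.trans hc, fun t' ht' => (hf.2.2 t' (by omega)).mono le_rfl hc⟩

lemma levB_Nb.sub {f g : (ι → Bool) → ℝ} {D : ℕ} {c c' : ℝ} (hcap : t ≤ P.cap)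
    (hf : levB_Nb P t f D c) (hg : levB_Nb P t g D c') :
    levB_Nb P t (fun x => f x - g x) D (c + c') :=
  ⟨hf.1.sub hg.1, add_nonneg hf.2.1 hg.2.1, fun t' ht' =>
    PE.Bd.sub (hf.2.2 t' ht') (hg.2.2 t' ht') hf.1 hg.1 (by omega)⟩

lemma levB_Nb.one (D : ℕ) : levB_Nb P t (fun _ => (1 : ℝ)) D 1 :=
  ⟨LowDeg.const _ _, zero_le_one, fun t' _ => by simpa using PE.Bd.const (P := P) t' 1⟩

/-- An error term. -/
def levB_Er (P : PE ι) (t' K : ℕ) (f : (ι → Bool) → ℝ) (c : ℝ) : Prop :=
  LowDeg K f ∧ P.Bd t' f c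

lemma levB_Er.add {K : ℕ} {f g : (ι → Bool) → ℝ} {c c' : ℝ} (hcap : t' + K ≤ P.cap)
    (hf : levB_Er P t' K f c) (hg : levB_Er P t' K g c') :
    levB_Er P t' K (fun x => f x + g x) (c + c') :=
  ⟨hf.1.add hg.1, PE.Bd.add hf.2 hg.2 hf.1 hg.1 hcap⟩

lemma levB_Er.sub {K : ℕ} {f g : (ι → Bool) → ℝ} {c c' : ℝ} (hcap : t' + K ≤ P.cap)
    (hf : levB_Er P t' K f c) (hg : levB_Er P t' K g c') :
    levB_Er P t' K (fun x => f x - g x) (c + c') :=
  ⟨hf.1.sub hg.1, PE.Bd.sub hf.2 hg.2 hf.1 hg.1 hcap⟩

lemma levB_Er.mono {K K' : ℕ} {f : (ι → Bool) → ℝ} {c c' : ℝ} (hf : levB_Er P t' K f c)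
    (hK : K ≤ K') (hc : c ≤ c') : levB_Er P t' K' f c' :=
  ⟨hf.1.mono hK, hf.2.mono le_rfl hc⟩

/-- An error times a bounded function. -/
lemma levB_Er.mul {K D : ℕ} {e g : (ι → Bool) → ℝ} {c c' : ℝ} (he : LowDeg K e)
    (heB : P.Bd t e c) (hc : 0 ≤ c) (hg : levB_Nb P t g D c') (ht : t' + D ≤ t) :
    levB_Er P t' (K + D) (fun x => e x * g x) (c * c') :=
  ⟨he.mul hg.1, PE.Bd.mul (heB.mono (by omega) le_rfl) (hg.2.2 t' ht) hg.1 hc⟩

end Calculus

section Skeleton

variable {P : PE ι} {A : Tr ι → (ι → Bool) → ℝ} {s d t m q : ℕ} {ε : ℝ}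

lemma levB_cst (h : LevelHyp P A s d t m ε) (b : Bool) (x : ι → Bool) :
    A (.leaf (.cst b)) x = bv b := by
  rw [h.good.leaf]
  rfl

lemma levB_eps (h : LevelHyp P A s d t m ε) : ε ≤ 1 / 100 := by
  have h1 := h.hmε
  have h2 : (1 : ℝ) ≤ m := by exact_mod_cast h.hm
  have h3 := h.hε
  nlinarith

lemma levB_lab (h : LevelHyp P A s d t m ε) {T : Tr ι} (hT : T.leaves ≤ s) :
    levB_Nb P t (A T) d (101 / 100) := by
  have h3 := h.hε
  have h4 := levB_eps h
  refine ⟨h.good.deg T hT, by norm_num, fun t' ht' => ?_⟩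
  refine (PE.Bd.idem (h.good.deg T hT) ((h.good.idem T hT).mono (le_refl t) le_rfl) h3
    h.hcap).mono (by omega) (by linarith)

lemma levB_lab' (h : LevelHyp P A s d t m ε) {T : Tr ι} (hT : T.leaves ≤ s) :
    levB_Nb P t (fun x => 1 - A T x) d (101 / 100) := by
  have h3 := h.hε
  have h4 := levB_eps h
  refine ⟨(LowDeg.const _ _).sub (h.good.deg T hT), by norm_num, fun t' ht' => ?_⟩
  refine (PE.Bd.one_sub_idem (h.good.deg T hT) ((h.good.idem T hT).mono (le_refl t) le_rfl) h3
    h.hcap).mono (by omega) (by linarith)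

lemma levB_FE (h : LevelHyp P A s d t m ε) (S : Sk (Tr ι)) (hS : S.size ≤ 6 * m)
    (hl : ∀ T, S.Mem T → T.leaves ≤ s) : levB_Nb P t (Sk.FE A S) (6 * m * d) 2 :=
  ⟨FE_deg S h hS hl, by norm_num, fun _ ht' => FE_norm S h hS hl ht'⟩

lemma levB_size (h : LevelHyp P A s d t m ε) {T : Tr ι} (hT : s ≤ T.leaves)
    (hm : T.leaves ≤ m * s) : (skel s T).size ≤ 6 * m := by
  have h1 := skel_size h.hs T hT
  have h2 : s * (skel s T).size ≤ s * (6 * m) := by
    calc s * (skel s T).size ≤ 6 * T.leaves := h1
      _ ≤ 6 * (m * s) := Nat.mul_le_mul_left _ hm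
      _ = s * (6 * m) := by ring
  exact Nat.le_of_mul_le_mul_left h2 (by have := h.hs; omega)

/-- The binary operation on functions which belongs to a gate. -/
def levB_op (o : Bool) (x y : ℝ) : ℝ := bif o then x + y - x * y else x * y

/-- The mixed case: `a` is large, `b` is small. -/
lemma levB_mixed (h : LevelHyp P A s d t m ε) (g : Bool) (o : Tr ι → Tr ι → Tr ι)
    (ho : ∀ x y, (o x y).leaves = x.leaves + y.leaves) (a b T : Tr ι)
    (hT : rep s T = addSmall s o (rep s a) b) (hTl : s ≤ T.leaves) (ha : s ≤ a.leaves)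
    (hb : b.leaves < s)
    (hm : a.leaves + b.leaves ≤ m * s)
    (hrel : ∀ x : Tr ι, x.leaves + b.leaves ≤ s →
      P.Bd t (fun y => A (o x b) y - levB_op g (A x y) (A b y)) ε)
    {t' : ℕ} (ht : t' + 16 * m * d ≤ t) :
    P.Bd t' (fun x => FA s A T x - levB_op g (FA s A a x) (FA s A b x)) (60 * ε) := by
  have hε := h.hε
  have hm1 := h.hm
  have hbs : b.leaves ≤ s := hb.le
  have hFT : FA s A T = Sk.FE A (skel s T) := by
    unfold FA; rw [if_neg (by omega)]
  have hFa : FA s A a = Sk.FE A (skel s a) := by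
    unfold FA; rw [if_neg (by omega)]
  have hFb : FA s A b = A b := by
    unfold FA; rw [if_pos hb]
  have hmd : d ≤ m * d := Nat.le_mul_of_pos_left _ hm1
  have hdeg : ∀ x : Tr ι, x.leaves + b.leaves ≤ s →
      LowDeg (2 * d) (fun y => A (o x b) y - levB_op g (A x y) (A b y)) := by
    intro x hx
    have h1 : LowDeg d (A (o x b)) := h.good.deg _ (by rw [ho]; exact hx)
    have h2 : LowDeg d (A x) := h.good.deg _ (by omega)
    have h3 : LowDeg d (A b) := h.good.deg _ (by omega)
    have h4 : LowDeg (2 * d) (fun y => A x y * A b y) := (h2.mul h3).mono (by omega)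
    refine (h1.mono (by omega)).sub ?_
    cases g with
    | false => exact h4
    | true => exact ((h2.mono (by omega)).add (h3.mono (by omega))).sub h4
  have hcap : t' + (6 * m * d + 5 * d) ≤ P.cap := by
    have := h.hcap
    have e : 16 * m * d = 6 * m * d + 10 * (m * d) := by ring
    omega
  have ht6 : t' + (6 * m * d + 3 * d) ≤ t := by
    have e : 16 * m * d = 6 * m * d + 10 * (m * d) := by ring
    omega
  have hsz := levB_size h ha (by omega : a.leaves ≤ m * s)
  have hlab := skel_lab h.hs a ha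
  have hNa := levB_FE h (skel s a) hsz hlab
  have hei : P.Bd t (fun x => A b x ^ 2 - A b x) ε := h.good.idem b hbs
  have heid : LowDeg (2 * d) (fun x => A b x ^ 2 - A b x) := by
    have h3 : LowDeg d (A b) := h.good.deg _ (by omega)
    have h4 : LowDeg (2 * d) (fun x => A b x ^ 2) := h3.pow 2
    exact h4.sub (h3.mono (by omega))
  have hb1 := levB_lab h hbs
  have hb2 := levB_lab' h hbs
  have htl : t ≤ P.cap := by have := h.hcap; omega
  rcases skel_add h.hs o ho a b T hT ha hb with hsk | ⟨Z, w₀, w₁, hw₀, hw₁, hska, hskT⟩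
  · -- new top labels
    set W₁ := A (o (.leaf (.cst true)) b) with hW₁
    set W₀ := A (o (.leaf (.cst false)) b) with hW₀
    have h1b : (Tr.leaf (.cst true) : Tr ι).leaves + b.leaves ≤ s := by
      show 1 + b.leaves ≤ s; omega
    have h0b : (Tr.leaf (.cst false) : Tr ι).leaves + b.leaves ≤ s := by
      show 1 + b.leaves ≤ s; omega
    have r1 := hrel (.leaf (.cst true)) h1b
    have r0 := hrel (.leaf (.cst false)) h0b
    have d1 := hdeg (.leaf (.cst true)) h1b
    have d0 := hdeg (.leaf (.cst false)) h0b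
    have nW₁ : levB_Nb P t W₁ d (101 / 100) := levB_lab h (by rw [ho]; exact h1b)
    have nW₀' : levB_Nb P t (fun x => 1 - W₀ x) d (101 / 100) :=
      levB_lab' h (by rw [ho]; exact h0b)
    have hF : ∀ x, FA s A T x = W₁ x * FA s A a x + W₀ x - W₁ x * FA s A a x * W₀ x := by
      intro x
      rw [hFT, hFa, hsk]
      rfl
    cases g with
    | false =>
      have E1 := levB_Er.mul (t' := t') d1 r1 hε hNa (by omega)
      have E0 := levB_Er.mul (t' := t') d0 r0 hε (levB_Nb.one (P := P) (t := t) 0) (by omega)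
      have E2 := levB_Er.mul (t' := t') d0 r0 hε (nW₁.mul hNa) (by omega)
      have S := ((E1.mono (K' := 6 * m * d + 5 * d) (by omega) le_rfl).add hcap
        (E0.mono (K' := 6 * m * d + 5 * d) (by omega) le_rfl)).sub hcap
        (E2.mono (K' := 6 * m * d + 5 * d) (by omega) le_rfl)
      refine (S.2.mono le_rfl ?_).congr' fun x => ?_
      · nlinarith
      · rw [hF x, hFa, hFb]
        simp only [levB_op, cond_false, levB_cst h, bv, if_true, Bool.false_eq_true, if_false,
          hW₁, hW₀]
        ring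
    | true =>
      have nFa1 : levB_Nb P t (fun x => 1 - Sk.FE A (skel s a) x) (6 * m * d) (1 + 2) :=
        (levB_Nb.one (6 * m * d)).sub htl hNa
      have E1 := levB_Er.mul (t' := t') d0 r0 hε nFa1 (by omega)
      have E2 := levB_Er.mul (t' := t') d1 r1 hε (hNa.mul nW₀') (by omega)
      have S := (E1.mono (K' := 6 * m * d + 5 * d) (by omega) le_rfl).add hcap
        (E2.mono (K' := 6 * m * d + 5 * d) (by omega) le_rfl)
      refine (S.2.mono le_rfl ?_).congr' fun x => ?_
      · nlinarith
      · rw [hF x, hFa, hFb]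
        simp only [levB_op, cond_true, levB_cst h, bv, if_true, Bool.false_eq_true, if_false,
          hW₁, hW₀]
        ring
  · -- extended top labels
    set W₁ := A (o w₁ b) with hW₁
    set W₀ := A (o w₀ b) with hW₀
    set V₁ := A w₁ with hV₁
    set V₀ := A w₀ with hV₀
    set Y := Sk.FE A Z with hY
    have r1 := hrel w₁ hw₁
    have r0 := hrel w₀ hw₀
    have d1 := hdeg w₁ hw₁
    have d0 := hdeg w₀ hw₀
    have nW₁ : levB_Nb P t W₁ d (101 / 100) := levB_lab h (by rw [ho]; exact hw₁)
    have nW₀ : levB_Nb P t W₀ d (101 / 100) := levB_lab h (by rw [ho]; exact hw₀)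
    have nV₁ : levB_Nb P t V₁ d (101 / 100) := levB_lab h (by omega)
    have nV₀ : levB_Nb P t V₀ d (101 / 100) := levB_lab h (by omega)
    have nV₁' : levB_Nb P t (fun x => 1 - V₁ x) d (101 / 100) := levB_lab' h (by omega)
    have nV₀' : levB_Nb P t (fun x => 1 - V₀ x) d (101 / 100) := levB_lab' h (by omega)
    have nY : levB_Nb P t Y (6 * m * d) 2 := by
      refine levB_FE h Z ?_ fun T hT' => hlab T ?_
      · rw [hska] at hsz
        simp only [Sk.size] at hsz
        omega
      · rw [hska]
        exact Or.inl (Or.inr hT')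
    have hF : ∀ x, FA s A T x = W₁ x * Y x + W₀ x - W₁ x * Y x * W₀ x := by
      intro x
      rw [hFT, hskT]
      rfl
    have hF' : ∀ x, FA s A a x = V₁ x * Y x + V₀ x - V₁ x * Y x * V₀ x := by
      intro x
      rw [hFa, hska]
      rfl
    cases g with
    | false =>
      have E1 := levB_Er.mul (t' := t') d1 r1 hε nY (by omega)
      have E2 := levB_Er.mul (t' := t') d0 r0 hε (levB_Nb.one (P := P) (t := t) 0) (by omega)
      have E3 := levB_Er.mul (t' := t') d1 r1 hε (nY.mul nW₀) (by omega)
      have E4 := levB_Er.mul (t' := t') d0 r0 hε ((nV₁.mul hb1).mul nY) (by omega)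
      have E5 := levB_Er.mul (t' := t') heid hei hε ((nV₁.mul nV₀).mul nY) (by omega)
      have S := (((((E1.mono (K' := 6 * m * d + 5 * d) (by omega) le_rfl).add hcap
        (E2.mono (K' := 6 * m * d + 5 * d) (by omega) le_rfl)).sub hcap
        (E3.mono (K' := 6 * m * d + 5 * d) (by omega) le_rfl)).sub hcap
        (E4.mono (K' := 6 * m * d + 5 * d) (by omega) le_rfl)).sub hcap
        (E5.mono (K' := 6 * m * d + 5 * d) (by omega) le_rfl))
      refine (S.2.mono le_rfl ?_).congr' fun x => ?_
      · nlinarith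
      · rw [hF x, hF' x, hFb]
        simp only [levB_op, cond_false]
        ring
    | true =>
      have n1 : levB_Nb P t (fun x => 1 - W₁ x * Y x) (d + 6 * m * d) (1 + 101 / 100 * 2) :=
        (levB_Nb.one _).sub htl (nW₁.mul nY)
      have E1 := levB_Er.mul (t' := t') heid hei hε ((nV₁'.mul nY).mul nV₀') (by omega)
      have E2 := levB_Er.mul (t' := t') d1 r1 hε ((nY.mul nV₀').mul hb2) (by omega)
      have E3 := levB_Er.mul (t' := t') d0 r0 hε n1 (by omega)
      have S := ((E2.mono (K' := 6 * m * d + 5 * d) (by omega) le_rfl).add hcap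
        (E3.mono (K' := 6 * m * d + 5 * d) (by omega) le_rfl)).sub hcap
        (E1.mono (K' := 6 * m * d + 5 * d) (by omega) le_rfl)
      refine (S.2.mono le_rfl ?_).congr' fun x => ?_
      · nlinarith
      · rw [hF x, hF' x, hFb]
        simp only [levB_op, cond_true]
        ring

/-- The gate relation for a large formula, before approximation (`∧`). -/
lemma FA_and (h : LevelHyp P A s d t m ε) (a b : Tr ι) (h1 : s ≤ a.leaves + b.leaves)
    (h2 : a.leaves + b.leaves ≤ m * s) {t' : ℕ} (ht : t' + 16 * m * d ≤ t) :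
    P.Bd t' (fun x => FA s A (.and a b) x - FA s A a x * FA s A b x) (60 * ε) := by
  have hε := h.hε
  have hT : FA s A (.and a b) = Sk.FE A (skel s (.and a b)) := by
    unfold FA; rw [if_neg]; show ¬ (a.leaves + b.leaves < s); omega
  by_cases ha : s ≤ a.leaves
  · by_cases hb : s ≤ b.leaves
    · have hA : FA s A a = Sk.FE A (skel s a) := by unfold FA; rw [if_neg (by omega)]
      have hB : FA s A b = Sk.FE A (skel s b) := by unfold FA; rw [if_neg (by omega)]
      have hs : skel s (.and a b) = .and (skel s a) (skel s b) := by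
        unfold skel
        rw [rep, if_pos ha, if_pos hb]
        rfl
      refine ((PE.Bd.zero t').mono le_rfl (by positivity)).congr' fun x => ?_
      rw [hT, hA, hB, hs]
      simp [Sk.FE]
    · refine (levB_mixed h false Tr.and (fun _ _ => rfl) a b (.and a b) ?_ h1 ha (by omega) h2
        (fun x hx => ?_) ht).congr' fun x => rfl
      · rw [rep, if_pos ha, if_neg hb]
      · exact h.good.and' x b hx
  · by_cases hb : s ≤ b.leaves
    · refine (levB_mixed h false (fun x y => Tr.and y x) (fun x y => by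
        show y.leaves + x.leaves = _; omega) b a (.and a b) ?_ h1 hb (by omega) (by omega)
        (fun x hx => ?_) ht).congr' fun x => ?_
      · rw [rep, if_neg ha, if_pos hb]
      · refine (h.good.and' a x (by omega)).congr' fun y => ?_
        simp only [levB_op, cond_false]
        ring
      · simp only [levB_op, cond_false]
        ring
    · have hA : FA s A a = A a := by unfold FA; rw [if_pos (by omega)]
      have hB : FA s A b = A b := by unfold FA; rw [if_pos (by omega)]
      have hs : skel s (.and a b) = .and (.leaf a) (.leaf b) := by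
        unfold skel
        rw [rep, if_neg ha, if_neg hb]
        rfl
      refine ((PE.Bd.zero t').mono le_rfl (by positivity)).congr' fun x => ?_
      rw [hT, hA, hB, hs]
      simp [Sk.FE]

/-- The gate relation for a large formula, before approximation (`∨`). -/
lemma FA_or (h : LevelHyp P A s d t m ε) (a b : Tr ι) (h1 : s ≤ a.leaves + b.leaves)
    (h2 : a.leaves + b.leaves ≤ m * s) {t' : ℕ} (ht : t' + 16 * m * d ≤ t) :
    P.Bd t' (fun x => FA s A (.or a b) x - (FA s A a x + FA s A b x - FA s A a x * FA s A b x))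
      (60 * ε) := by
  have hε := h.hε
  have hT : FA s A (.or a b) = Sk.FE A (skel s (.or a b)) := by
    unfold FA; rw [if_neg]; show ¬ (a.leaves + b.leaves < s); omega
  by_cases ha : s ≤ a.leaves
  · by_cases hb : s ≤ b.leaves
    · have hA : FA s A a = Sk.FE A (skel s a) := by unfold FA; rw [if_neg (by omega)]
      have hB : FA s A b = Sk.FE A (skel s b) := by unfold FA; rw [if_neg (by omega)]
      have hs : skel s (.or a b) = .or (skel s a) (skel s b) := by
        unfold skel
        rw [rep, if_pos ha, if_pos hb]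
        rfl
      refine ((PE.Bd.zero t').mono le_rfl (by positivity)).congr' fun x => ?_
      rw [hT, hA, hB, hs]
      simp [Sk.FE]
    · refine (levB_mixed h true Tr.or (fun _ _ => rfl) a b (.or a b) ?_ h1 ha (by omega) h2
        (fun x hx => ?_) ht).congr' fun x => rfl
      · rw [rep, if_pos ha, if_neg hb]
      · exact h.good.or' x b hx
  · by_cases hb : s ≤ b.leaves
    · refine (levB_mixed h true (fun x y => Tr.or y x) (fun x y => by
        show y.leaves + x.leaves = _; omega) b a (.or a b) ?_ h1 hb (by omega) (by omega)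
        (fun x hx => ?_) ht).congr' fun x => ?_
      · rw [rep, if_neg ha, if_pos hb]
      · refine (h.good.or' a x (by omega)).congr' fun y => ?_
        simp only [levB_op, cond_true]
        ring
      · simp only [levB_op, cond_true]
        ring
    · have hA : FA s A a = A a := by unfold FA; rw [if_pos (by omega)]
      have hB : FA s A b = A b := by unfold FA; rw [if_pos (by omega)]
      have hs : skel s (.or a b) = .or (.leaf a) (.leaf b) := by
        unfold skel
        rw [rep, if_neg ha, if_neg hb]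
        rfl
      refine ((PE.Bd.zero t').mono le_rfl (by positivity)).congr' fun x => ?_
      rw [hT, hA, hB, hs]
      simp [Sk.FE]

/-- The family of the next level is close to the structural evaluation. -/
lemma levB_next (h : LevelHyp P A s d t m ε) (q : ℕ)
    (T : Tr ι) (hm : T.leaves ≤ m * s) {t'' : ℕ} (ht'' : t'' + 6 * m * d ≤ t) :
    P.Bd t'' (fun x => nextA s q A T x - FA s A T x) (2 * (3 / 5) ^ (2 * q + 1)) ∧
      P.Bd t'' (FA s A T) 2 ∧ P.Bd t'' (nextA s q A T) 4 ∧
      LowDeg (6 * m * d) (FA s A T) ∧ LowDeg (6 * m * d) (nextA s q A T) := by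
  have hm1 := h.hm
  have hmd : d ≤ m * d := Nat.le_mul_of_pos_left _ hm1
  have e6 : 6 * m * d = 6 * (m * d) := by ring
  unfold nextA FA
  by_cases hT : T.leaves < s
  · rw [if_pos hT, if_pos hT]
    have h1 := levB_lab h (T := T) hT.le
    refine ⟨?_, ?_, ?_, h1.1.mono (by omega), h1.1.mono (by omega)⟩
    · refine ((PE.Bd.zero t'').mono le_rfl (by positivity)).congr' fun x => ?_
      ring
    · exact (h1.2.2 t'' (by omega)).mono le_rfl (by norm_num)
    · exact (h1.2.2 t'' (by omega)).mono le_rfl (by norm_num)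
  · rw [if_neg hT, if_neg hT]
    have hT' : s ≤ T.leaves := by omega
    have hsz := levB_size h hT' hm
    have hlab := skel_lab h.hs T hT'
    exact ⟨apx_FE _ h hsz hlab ht'', FE_norm _ h hsz hlab ht'', apx_norm _ h hsz hlab ht'',
      FE_deg _ h hsz hlab, apx_deg' _ h hsz hlab⟩

/-- One level. -/
theorem level_step (h : LevelHyp P A s d t m ε) {t' : ℕ} (ht : t' + 16 * m * d ≤ t) (q : ℕ) :
    Good P (nextA s q A) (m * s) (Sk.Dg q (6 * m) * d) t'
      (200 * (m * ε + (3 / 5) ^ (2 * q + 1))) := by
  have hm1 := h.hm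
  have hε := h.hε
  have hs2 := h.hs
  have hmr : (1 : ℝ) ≤ m := by exact_mod_cast hm1
  set δ : ℝ := (3 / 5) ^ (2 * q + 1) with hδ
  have hδ0 : 0 ≤ δ := by rw [hδ]; positivity
  have hmd : d ≤ m * d := Nat.le_mul_of_pos_left _ hm1
  have hεm : ε ≤ m * ε := le_mul_of_one_le_left hε hmr
  have hDg : 1 ≤ Sk.Dg q (6 * m) := by
    unfold Sk.Dg
    exact Nat.mul_pos (by omega) (by omega)
  have hcap := h.hcap
  have e16 : 16 * m * d = 16 * (m * d) := by ring
  have e12 : 12 * m * d = 12 * (m * d) := by ring
  have e6 : 6 * m * d = 6 * (m * d) := by ring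
  have hN := fun T hT => levB_next h q T hT (t'' := t') (by omega)
  have hN6 := fun T hT => levB_next h q T hT (t'' := t' + 6 * m * d) (by omega)
  refine ⟨?_, ?_, ?_, ?_, ?_⟩
  · intro T hT
    unfold nextA
    by_cases hTs : T.leaves < s
    · rw [if_pos hTs]
      exact (h.good.deg T hTs.le).mono (Nat.le_mul_of_pos_left _ hDg)
    · rw [if_neg hTs]
      exact apx_deg _ h (levB_size h (by omega) hT) (skel_lab hs2 T (by omega))
  · intro T hT
    unfold nextA
    by_cases hTs : T.leaves < s
    · rw [if_pos hTs]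
      exact (h.good.idem T hTs.le).mono (by omega) (by nlinarith)
    · rw [if_neg hTs]
      exact apx_idem _ h (levB_size h (by omega) hT) (skel_lab hs2 T (by omega)) (by omega)
  · intro a b hab
    by_cases hs : a.leaves + b.leaves < s
    · have e1 : nextA s q A (.and a b) = A (.and a b) := by
        unfold nextA; exact if_pos hs
      have e2 : nextA s q A a = A a := by unfold nextA; exact if_pos (by omega)
      have e3 : nextA s q A b = A b := by unfold nextA; exact if_pos (by omega)
      rw [e1, e2, e3]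
      exact (h.good.and' a b hs.le).mono (by omega) (by nlinarith)
    · have g := FA_and h a b (by omega) hab ht
      have ha : a.leaves ≤ m * s := by omega
      have hb : b.leaves ≤ m * s := by omega
      obtain ⟨t1, t2, t3, t4, t5⟩ := hN (.and a b) hab
      obtain ⟨a1, a2, a3, a4, a5⟩ := hN6 a ha
      obtain ⟨b1, b2, b3, b4, b5⟩ := hN b hb
      have m1 := PE.Bd.mul a2 (b1) (b5.sub b4) (by norm_num)
      have m2 := PE.Bd.mul a1 b3 b5 (by positivity)
      have dAB : LowDeg (12 * m * d) (fun x => FA s A a x * FA s A b x) :=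
        (a4.mul b4).mono (by omega)
      have dg : LowDeg (12 * m * d) (fun x => FA s A (.and a b) x - FA s A a x * FA s A b x) :=
        (t4.mono (by omega)).sub dAB
      have dt : LowDeg (12 * m * d) (fun x => nextA s q A (.and a b) x - FA s A (.and a b) x) :=
        (t5.sub t4).mono (by omega)
      have d1 : LowDeg (12 * m * d)
          (fun x => FA s A a x * (nextA s q A b x - FA s A b x)) :=
        (a4.mul (b5.sub b4)).mono (by omega)
      have d2 : LowDeg (12 * m * d)
          (fun x => (nextA s q A a x - FA s A a x) * nextA s q A b x) :=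
        ((a5.sub a4).mul b5).mono (by omega)
      have hc : t' + 12 * m * d ≤ P.cap := by omega
      have S1 := PE.Bd.add t1 g dt dg hc
      have S2 := PE.Bd.sub S1 m1 (dt.add dg) d1 hc
      have S3 := PE.Bd.sub S2 m2 ((dt.add dg).sub d1) d2 hc
      refine (S3.mono le_rfl ?_).congr' fun x => ?_
      · nlinarith
      · ring
  · intro a b hab
    by_cases hs : a.leaves + b.leaves < s
    · have e1 : nextA s q A (.or a b) = A (.or a b) := by
        unfold nextA; exact if_pos hs
      have e2 : nextA s q A a = A a := by unfold nextA; exact if_pos (by omega)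
      have e3 : nextA s q A b = A b := by unfold nextA; exact if_pos (by omega)
      rw [e1, e2, e3]
      exact (h.good.or' a b hs.le).mono (by omega) (by nlinarith)
    · have g := FA_or h a b (by omega) hab ht
      have ha : a.leaves ≤ m * s := by omega
      have hb : b.leaves ≤ m * s := by omega
      obtain ⟨t1, t2, t3, t4, t5⟩ := hN (.or a b) hab
      obtain ⟨a1, a2, a3, a4, a5⟩ := hN6 a ha
      obtain ⟨a1', -, -, -, -⟩ := hN a ha
      obtain ⟨b1, b2, b3, b4, b5⟩ := hN b hb
      have m1 := PE.Bd.mul a2 (b1) (b5.sub b4) (by norm_num)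
      have m2 := PE.Bd.mul a1 b3 b5 (by positivity)
      have dAB : LowDeg (12 * m * d) (fun x => FA s A a x * FA s A b x) :=
        (a4.mul b4).mono (by omega)
      have dg : LowDeg (12 * m * d) (fun x => FA s A (.or a b) x -
          (FA s A a x + FA s A b x - FA s A a x * FA s A b x)) :=
        (t4.mono (by omega)).sub (((a4.add b4).mono (by omega)).sub dAB)
      have dt : LowDeg (12 * m * d) (fun x => nextA s q A (.or a b) x - FA s A (.or a b) x) :=
        (t5.sub t4).mono (by omega)
      have d1 : LowDeg (12 * m * d)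
          (fun x => FA s A a x * (nextA s q A b x - FA s A b x)) :=
        (a4.mul (b5.sub b4)).mono (by omega)
      have d2 : LowDeg (12 * m * d)
          (fun x => (nextA s q A a x - FA s A a x) * nextA s q A b x) :=
        ((a5.sub a4).mul b5).mono (by omega)
      have da : LowDeg (12 * m * d) (fun x => nextA s q A a x - FA s A a x) :=
        (a5.sub a4).mono (by omega)
      have db : LowDeg (12 * m * d) (fun x => nextA s q A b x - FA s A b x) :=
        (b5.sub b4).mono (by omega)
      have hc : t' + 12 * m * d ≤ P.cap := by omega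
      have S1 := PE.Bd.add t1 g dt dg hc
      have S2 := PE.Bd.add S1 m1 (dt.add dg) d1 hc
      have S3 := PE.Bd.add S2 m2 ((dt.add dg).add d1) d2 hc
      have S4 := PE.Bd.sub S3 a1' (((dt.add dg).add d1).add d2) da hc
      have S5 := PE.Bd.sub S4 b1 ((((dt.add dg).add d1).add d2).sub da) db hc
      refine (S5.mono le_rfl ?_).congr' fun x => ?_
      · nlinarith
      · ring
  · intro l x
    have e1 : nextA s q A (.leaf l) = A (.leaf l) := by
      unfold nextA; exact if_pos (by show 1 < s; omega)
    rw [e1]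
    exact h.good.leaf l x

end Skeleton

end GridLine
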