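import Pool.Agent.Work.MP_c07f0d_lc.TL.SkA

/-!
# One level of the construction of approximants: definitions
-/

set_option linter.unusedSectionVars false

namespace GridLine

open Finset LineSize

variable {ι : Type} [Fintype ι] [DecidableEq ι]

/-- `A` is a family of approximants for the formulas with at most `S` leaves: they have degree at
most `d`, and they are idempotent and compatible with the gates up to `ε`, as operators on the
functions of degree at most `t`. -/
structure Good (P : PE ι) (A : Tr ι → (ι → Bool) → ℝ) (S d t : ℕ) (ε : ℝ) : Prop where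
  deg : ∀ T : Tr ι, T.leaves ≤ S → LowDeg d (A T)
  idem : ∀ T : Tr ι, T.leaves ≤ S → P.Bd t (fun x => A T x ^ 2 - A T x) ε
  and' : ∀ a b : Tr ι, a.leaves + b.leaves ≤ S →
    P.Bd t (fun x => A (.and a b) x - A a x * A b x) ε
  or' : ∀ a b : Tr ι, a.leaves + b.leaves ≤ S →
    P.Bd t (fun x => A (.or a b) x - (A a x + A b x - A a x * A b x)) ε
  leaf : ∀ (l : Lit ι) (x : ι → Bool), A (.leaf l) x = bv (l.ev x)

/-- The approximant attached to a skeleton. -/
noncomputable def apx (q : ℕ) (A : Tr ι → (ι → Bool) → ℝ) (S : Sk (Tr ι)) : (ι → Bool) → ℝ :=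
  mle (Classical.choose (S.exists_apx q)) (fun i => A (S.lab i))

/-- The family of the next level. -/
noncomputable def nextA (s q : ℕ) (A : Tr ι → (ι → Bool) → ℝ) (T : Tr ι) : (ι → Bool) → ℝ :=
  if T.leaves < s then A T else apx q A (skel s T)

/-- Hypotheses for one level. -/
structure LevelHyp (P : PE ι) (A : Tr ι → (ι → Bool) → ℝ) (s d t m : ℕ) (ε : ℝ) : Prop where
  good : Good P A s d t ε
  hs : 2 ≤ s
  hm : 1 ≤ m
  hε : 0 ≤ ε
  hmε : 100 * m * ε ≤ 1
  hcap : t + 2 * d ≤ P.cap

/-- The structural evaluation of the skeleton of a large formula, the family itself on a small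
formula. -/
noncomputable def FA (s : ℕ) (A : Tr ι → (ι → Bool) → ℝ) (T : Tr ι) : (ι → Bool) → ℝ :=
  if T.leaves < s then A T else Sk.FE A (skel s T)

end GridLine
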