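import Pool.Agent.Work.MP_c07f0d_lc.TL.Pse

/-!
# Multilinear evaluation: definition
-/

set_option linter.unusedSectionVars false

namespace GridLine

open Finset LineSize

variable {ι : Type} [Fintype ι] [DecidableEq ι]

/-- The multilinear extension of `g`, evaluated at the functions `z j`. -/
noncomputable def mle {κ : Type} [Fintype κ] [DecidableEq κ] (g : (κ → Bool) → ℝ)
    (z : κ → (ι → Bool) → ℝ) : (ι → Bool) → ℝ :=
  fun x => ∑ v : κ → Bool, g v * ∏ j, (if v j then z j x else 1 - z j x)

end GridLine
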