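import Pool.Agent.Work.MP_c07f0d_lc.TL.MleDef

/-!
# Multilinear evaluation: identities and degrees
-/

set_option linter.unusedSectionVars false

namespace GridLine

open Finset LineSize

variable {ι : Type} [Fintype ι] [DecidableEq ι]

section Exact

variable {κ κ' : Type} [Fintype κ] [DecidableEq κ] [Fintype κ'] [DecidableEq κ']

lemma mle_fact (c : κ → Bool → ℝ) (z : κ → (ι → Bool) → ℝ) (x : ι → Bool) :
    mle (fun v => ∏ j, c j (v j)) z x = ∏ j, (c j true * z j x + c j false * (1 - z j x)) := by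
  unfold mle
  have h : ∏ j, (c j true * z j x + c j false * (1 - z j x)) =
      ∏ j, ∑ b : Bool, c j b * (if b then z j x else 1 - z j x) := by
    refine Finset.prod_congr rfl fun j _ => ?_
    simp
  rw [h, Finset.prod_univ_sum, Fintype.piFinset_univ]
  refine Finset.sum_congr rfl fun v _ => ?_
  rw [Finset.prod_mul_distrib]

lemma mle_add (g h : (κ → Bool) → ℝ) (z : κ → (ι → Bool) → ℝ) (x : ι → Bool) :
    mle (fun v => g v + h v) z x = mle g z x + mle h z x := by
  unfold mle
  rw [← Finset.sum_add_distrib]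
  exact Finset.sum_congr rfl fun v _ => by ring

lemma mle_sub (g h : (κ → Bool) → ℝ) (z : κ → (ι → Bool) → ℝ) (x : ι → Bool) :
    mle (fun v => g v - h v) z x = mle g z x - mle h z x := by
  unfold mle
  rw [← Finset.sum_sub_distrib]
  exact Finset.sum_congr rfl fun v _ => by ring

lemma mle_const_mul (a : ℝ) (g : (κ → Bool) → ℝ) (z : κ → (ι → Bool) → ℝ) (x : ι → Bool) :
    mle (fun v => a * g v) z x = a * mle g z x := by
  unfold mle
  rw [Finset.mul_sum]
  exact Finset.sum_congr rfl fun v _ => by ring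

lemma mle_sum {α : Type*} (s : Finset α) (g : α → (κ → Bool) → ℝ) (z : κ → (ι → Bool) → ℝ)
    (x : ι → Bool) : mle (fun v => ∑ a ∈ s, g a v) z x = ∑ a ∈ s, mle (g a) z x := by
  unfold mle
  rw [Finset.sum_comm]
  exact Finset.sum_congr rfl fun v _ => by rw [Finset.sum_mul]

lemma mle_const (a : ℝ) (z : κ → (ι → Bool) → ℝ) (x : ι → Bool) :
    mle (fun _ => a) z x = a := by
  have h := mle_fact (fun (_ : κ) (_ : Bool) => (1 : ℝ)) z x
  have h2 := mle_const_mul a (fun _ => (1 : ℝ)) z x
  simp only [Finset.prod_const_one, mul_one] at h h2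
  rw [h2, h]
  simp

lemma mle_coord (j : κ) (z : κ → (ι → Bool) → ℝ) (x : ι → Bool) :
    mle (fun v => bv (v j)) z x = z j x := by
  have h := mle_fact (fun (i : κ) (b : Bool) => if i = j then bv b else 1) z x
  simp only [Finset.prod_ite_eq', Finset.mem_univ, if_true] at h
  rw [h, Finset.prod_eq_single j]
  · simp [bv]
  · intro b _ hb
    simp [hb]
  · simp

lemma mle_mul_sum (g : (κ → Bool) → ℝ) (h : (κ' → Bool) → ℝ) (z : κ ⊕ κ' → (ι → Bool) → ℝ)
    (x : ι → Bool) :
    mle (fun v => g (fun j => v (Sum.inl j)) * h (fun j => v (Sum.inr j))) z x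
      = mle g (fun j => z (Sum.inl j)) x * mle h (fun j => z (Sum.inr j)) x := by
  unfold mle
  rw [← (Equiv.sumArrowEquivProdArrow κ κ' Bool).symm.sum_comp, Fintype.sum_prod_type,
    Finset.sum_mul_sum]
  refine Finset.sum_congr rfl fun v _ => Finset.sum_congr rfl fun w _ => ?_
  rw [Fintype.prod_sum_type]
  simp only [Equiv.sumArrowEquivProdArrow_symm_apply_inl,
    Equiv.sumArrowEquivProdArrow_symm_apply_inr]
  exact mul_mul_mul_comm _ _ _ _

lemma mle_chi (A : Finset κ) (z : κ → (ι → Bool) → ℝ) (x : ι → Bool) :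
    mle (chi A) z x = ∏ j ∈ A, (1 - 2 * z j x) := by
  have h := mle_fact (fun (i : κ) (b : Bool) => if i ∈ A then sg b else 1) z x
  have h2 : (fun v : κ → Bool => ∏ j, (if j ∈ A then sg (v j) else 1)) = chi A := by
    funext v
    exact (chi_eq A v).symm
  rw [h2] at h
  rw [h, ← Finset.prod_filter_mul_prod_filter_not Finset.univ (fun j => j ∈ A)]
  have h3 : ∏ j ∈ Finset.univ.filter (fun j => ¬ j ∈ A),
      ((if j ∈ A then sg true else 1) * z j x + (if j ∈ A then sg false else 1) * (1 - z j x)) = 1 :=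
    Finset.prod_eq_one fun j hj => by
      have := (Finset.mem_filter.mp hj).2
      simp [this]
  rw [h3, mul_one]
  have h4 : Finset.univ.filter (fun j => j ∈ A) = A := by
    ext j
    simp
  rw [h4]
  refine Finset.prod_congr rfl fun j hj => ?_
  simp only [hj, if_true, sg, Bool.false_eq_true, if_false]
  ring

/-- The multilinear extension of a function of degree `D`. -/
lemma mle_lowDeg {D d : ℕ} {g : (κ → Bool) → ℝ} (hg : LowDeg D g)
    {z : κ → (ι → Bool) → ℝ} (hz : ∀ j, LowDeg d (z j)) : LowDeg (D * d) (mle g z) := by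
  have h : mle g z = fun x => ∑ A : Finset κ, fc g A * ∏ j ∈ A, (1 - 2 * z j x) := by
    funext x
    have h1 : g = fun v => ∑ A : Finset κ, fc g A * chi A v := by
      funext v
      exact (walsh g v).symm
    conv_lhs => rw [h1]
    rw [mle_sum]
    refine Finset.sum_congr rfl fun A _ => ?_
    rw [mle_const_mul, mle_chi]
  rw [h]
  refine LowDeg.sum fun A _ => ?_
  by_cases hA : D < A.card
  · rw [hg A hA]
    simpa using LowDeg.const (D * d) 0
  · refine LowDeg.const_mul _ ((LowDeg.prod (d := fun _ => d) fun j _ => ?_).mono ?_)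
    · exact (LowDeg.const d 1).sub (LowDeg.const_mul 2 (hz j))
    · rw [Finset.sum_const, smul_eq_mul]
      exact Nat.mul_le_mul_right _ (not_lt.mp hA)

/-- The trivial bound. -/
lemma mle_lowDeg' {d : ℕ} (g : (κ → Bool) → ℝ)
    {z : κ → (ι → Bool) → ℝ} (hz : ∀ j, LowDeg d (z j)) :
    LowDeg (Fintype.card κ * d) (mle g z) :=
  mle_lowDeg (fun S hS => absurd (Finset.card_le_univ S) (not_le.mpr hS)) hz

end Exact

end GridLine
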