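import Pool.Agent.Work.MP_c07f0d_lc.TL.Pse
import Pool.Agent.Work.MP_c07f0d_lc.LS.Tse

/-!
# Graphs with a path system and a generating set of cycles
-/

set_option linter.unusedSectionVars false

namespace GridLine

open Finset LineSize

/-- A graph with a path system of small congestion and a generating set of cycles. -/
structure Net (V E J : Type) [Fintype V] [DecidableEq V] [Fintype E] [DecidableEq E] [Fintype J]
    [DecidableEq J] where
  /-- the ends of the edges -/
  src : E → V
  /-- the ends of the edges -/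
  tgt : E → V
  /-- the paths -/
  path : V → V → Finset E
  /-- the cycles -/
  cyc : J → Finset E
  /-- the congestion is at most `lam * card V` -/
  lam : ℕ
  /-- the bound for the out- and indegrees -/
  deg : ℕ
  /-- the bound for the number of cycles through an edge -/
  B : ℕ
  lam_pos : 1 ≤ lam
  path_spec : ∀ a b U, Odd (path a b ∩ bd src tgt U).card ↔ ¬ (a ∈ U ↔ b ∈ U)
  cyc_spec : ∀ j U, Even (cyc j ∩ bd src tgt U).card
  orth : ∀ A : Finset E, (∀ j, Even (cyc j ∩ A).card) → ∃ U, A = bd src tgt U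
  cong : ∀ g, (univ.filter fun p : V × V => g ∈ path p.1 p.2).card ≤ lam * Fintype.card V
  out_le : ∀ v, (univ.filter fun e => src e = v).card ≤ deg
  in_le : ∀ v, (univ.filter fun e => tgt e = v).card ≤ deg
  cyc_le : ∀ e, (univ.filter fun j => e ∈ cyc j).card ≤ B

namespace Net

variable {V E J : Type} [Fintype V] [DecidableEq V] [Fintype E] [DecidableEq E] [Fintype J]
  [DecidableEq J] (G : Net V E J)

/-- The boundary. -/
abbrev bdG (U : Finset V) : Finset E := bd G.src G.tgt U

/-- Cuts. -/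
def Cut (A : Finset E) : Prop := ∃ U, A = G.bdG U

/-- The pseudo-expectation. -/
noncomputable abbrev Ex (c : V → Bool) (f : (E → Bool) → ℝ) : ℝ := Et G.src G.tgt c f

variable {G}

lemma net_path_nonempty {U : Finset V} {a b : V} (ha : a ∈ U) (hb : b ∉ U) :
    (G.path a b ∩ G.bdG U).Nonempty := by
  have h : Odd (G.path a b ∩ bd G.src G.tgt U).card :=
    (G.path_spec a b U).mpr (by simp [ha, hb])
  exact Finset.card_pos.mp h.pos

/-- Isoperimetry. -/
lemma iso (U : Finset V) :
    U.card * (Fintype.card V - U.card) ≤ G.lam * Fintype.card V * (G.bdG U).card := by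
  have h1 : (U ×ˢ Uᶜ).card = U.card * (Fintype.card V - U.card) := by
    rw [Finset.card_product, Finset.card_compl]
  rw [← h1]
  have h2 : U ×ˢ Uᶜ ⊆ (G.bdG U).biUnion
      fun g => univ.filter fun p : V × V => g ∈ G.path p.1 p.2 := by
    intro p hp
    rw [Finset.mem_product, Finset.mem_compl] at hp
    obtain ⟨g, hg⟩ := net_path_nonempty (G := G) hp.1 hp.2
    rw [Finset.mem_inter] at hg
    rw [Finset.mem_biUnion]
    exact ⟨g, hg.2, by simpa using hg.1⟩
  calc (U ×ˢ Uᶜ).card ≤ _ := Finset.card_le_card h2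
    _ ≤ ∑ g ∈ G.bdG U, (univ.filter fun p : V × V => g ∈ G.path p.1 p.2).card :=
        Finset.card_biUnion_le
    _ ≤ ∑ _g ∈ G.bdG U, G.lam * Fintype.card V := Finset.sum_le_sum fun g _ => G.cong g
    _ = G.lam * Fintype.card V * (G.bdG U).card := by
        rw [Finset.sum_const, smul_eq_mul, mul_comm]

lemma net_half {n u l t : ℕ} (hn : 0 < n) (hu : 2 * u ≤ n) (h : u * (n - u) ≤ l * n * t) :
    u ≤ 2 * l * t := by
  have h1 : n ≤ 2 * (n - u) := by omega
  have h2 : u * n ≤ (2 * l * t) * n := by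
    calc u * n ≤ u * (2 * (n - u)) := Nat.mul_le_mul_left _ h1
      _ = 2 * (u * (n - u)) := by ring
      _ ≤ 2 * (l * n * t) := Nat.mul_le_mul_left _ h
      _ = (2 * l * t) * n := by ring
  exact Nat.le_of_mul_le_mul_right h2 hn

lemma small_or {t : ℕ} (ht : 64 * G.lam * t ≤ Fintype.card V) (U : Finset V)
    (hU : (G.bdG U).card ≤ t) :
    U.card ≤ 2 * G.lam * t ∨ Fintype.card V - U.card ≤ 2 * G.lam * t := by
  have hle : U.card ≤ Fintype.card V := Finset.card_le_univ U
  rcases Nat.eq_zero_or_pos (Fintype.card V) with h0 | hpos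
  · left
    omega
  · have hi : U.card * (Fintype.card V - U.card) ≤ G.lam * Fintype.card V * t :=
      (iso U).trans (Nat.mul_le_mul_left _ hU)
    by_cases h : 2 * U.card ≤ Fintype.card V
    · left
      exact net_half hpos h hi
    · right
      refine net_half hpos (by omega) ?_
      have : Fintype.card V - (Fintype.card V - U.card) = U.card := by omega
      rw [this, mul_comm]
      exact hi

lemma bdG_compl (U : Finset V) : G.bdG Uᶜ = G.bdG U := by
  ext e
  simp only [bd, Finset.mem_filter, Finset.mem_univ, true_and, Finset.mem_compl]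
  tauto

/-- A cut with few edges is the boundary of a small set. -/
lemma Cut.small {t : ℕ} (ht : 64 * G.lam * t ≤ Fintype.card V) {A : Finset E} (hA : G.Cut A)
    (hc : A.card ≤ t) : ∃ U, A = G.bdG U ∧ U.card ≤ 2 * G.lam * t := by
  obtain ⟨U, hU⟩ := hA
  have h1 : (G.bdG U).card ≤ t := by
    rw [← hU]
    exact hc
  rcases small_or ht U h1 with h | h
  · exact ⟨U, hU, h⟩
  · refine ⟨Uᶜ, ?_, ?_⟩
    · rw [bdG_compl]
      exact hU
    · rw [Finset.card_compl]
      exact h

lemma eq_of_bdG_eq {U W : Finset V} (h : G.bdG U = G.bdG W) (hU : 3 * U.card < Fintype.card V)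
    (hW : 3 * W.card < Fintype.card V) : U = W := by
  have h1 : G.bdG (symmDiff U W) = ∅ := by
    show bd G.src G.tgt (symmDiff U W) = ∅
    rw [bd_symmDiff]
    change bd G.src G.tgt U = bd G.src G.tgt W at h
    rw [h]
    simp
  have h2 := iso (G := G) (symmDiff U W)
  rw [h1, Finset.card_empty, Nat.mul_zero, Nat.le_zero, Nat.mul_eq_zero] at h2
  have h3 := card_symmDiff_le U W
  rcases h2 with h2 | h2
  · rw [Finset.card_eq_zero] at h2
    have : symmDiff U W = ⊥ := h2
    exact symmDiff_eq_bot.mp this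
  · omega

lemma Ex_chi_bdG (c : V → Bool) {U : Finset V} (hU : 3 * U.card < Fintype.card V) :
    G.Ex c (chi (G.bdG U)) = chi U c := by
  show Et G.src G.tgt c (chi (G.bdG U)) = chi U c
  unfold Et
  rw [Finset.sum_eq_single U]
  · rw [if_pos hU, fc_chi, if_pos rfl, mul_one]
  · intro W _ hW
    split_ifs with h
    · rw [fc_chi, if_neg, mul_zero]
      intro he
      exact hW (eq_of_bdG_eq (G := G) he h hU)
    · rfl
  · intro h
    exact absurd (Finset.mem_univ U) h

lemma Ex_chi_of_not_cut (c : V → Bool) {A : Finset E} (hA : ¬ G.Cut A) :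
    G.Ex c (chi A) = 0 := by
  show Et G.src G.tgt c (chi A) = 0
  unfold Et
  refine Finset.sum_eq_zero fun W _ => ?_
  split_ifs with h
  · rw [fc_chi, if_neg, mul_zero]
    intro he
    exact hA ⟨W, he.symm⟩
  · rfl

/-- The boundary parity map with respect to the cycles. -/
def phi (G : Net V E J) (A : Finset E) : Finset J := univ.filter fun j => Odd (G.cyc j ∩ A).card

lemma net_odd_symmDiff (C A B : Finset E) :
    Odd (C ∩ symmDiff A B).card ↔ ¬ (Odd (C ∩ A).card ↔ Odd (C ∩ B).card) := by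
  have h1 : C ∩ symmDiff A B = symmDiff (C ∩ A) (C ∩ B) := by
    ext x
    simp only [Finset.mem_inter, Finset.mem_symmDiff]
    tauto
  have h2 : (symmDiff (C ∩ A) (C ∩ B)).card + 2 * ((C ∩ A) ∩ (C ∩ B)).card
      = (C ∩ A).card + (C ∩ B).card := by
    have h3 : symmDiff (C ∩ A) (C ∩ B) = ((C ∩ A) \ (C ∩ B)) ∪ ((C ∩ B) \ (C ∩ A)) := rfl
    have h4 : Disjoint ((C ∩ A) \ (C ∩ B)) ((C ∩ B) \ (C ∩ A)) := by
      rw [Finset.disjoint_left]
      intro x hx hy
      simp only [Finset.mem_sdiff] at hx hy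
      tauto
    rw [h3, Finset.card_union_of_disjoint h4]
    have h5 := Finset.card_sdiff_add_card_inter (C ∩ A) (C ∩ B)
    have h6 := Finset.card_sdiff_add_card_inter (C ∩ B) (C ∩ A)
    rw [Finset.inter_comm (C ∩ B) (C ∩ A)] at h6
    omega
  rw [h1, Nat.odd_iff, Nat.odd_iff, Nat.odd_iff]
  omega

lemma phi_symmDiff (A B : Finset E) : G.phi (symmDiff A B) = symmDiff (G.phi A) (G.phi B) := by
  ext j
  simp only [phi, Finset.mem_symmDiff, Finset.mem_filter, Finset.mem_univ, true_and]
  rw [net_odd_symmDiff]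
  tauto

lemma phi_eq_empty_iff (A : Finset E) : G.phi A = ∅ ↔ G.Cut A := by
  constructor
  · intro h
    refine G.orth A fun j => ?_
    rw [← Nat.not_odd_iff_even]
    intro ho
    have : j ∈ G.phi A := by simp [phi, ho]
    rw [h] at this
    simp at this
  · rintro ⟨U, rfl⟩
    rw [Finset.eq_empty_iff_forall_notMem]
    intro j hj
    simp only [phi, Finset.mem_filter, Finset.mem_univ, true_and] at hj
    have := G.cyc_spec j U
    rw [← Nat.not_odd_iff_even] at this
    exact this hj

lemma card_phi_le (A : Finset E) : (G.phi A).card ≤ G.B * A.card := by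
  have h2 : G.phi A ⊆ A.biUnion fun e => univ.filter fun j => e ∈ G.cyc j := by
    intro j hj
    simp only [phi, Finset.mem_filter, Finset.mem_univ, true_and] at hj
    obtain ⟨e, he⟩ := Finset.card_pos.mp hj.pos
    rw [Finset.mem_inter] at he
    rw [Finset.mem_biUnion]
    exact ⟨e, he.2, by simpa using he.1⟩
  calc (G.phi A).card ≤ _ := Finset.card_le_card h2
    _ ≤ ∑ e ∈ A, (univ.filter fun j => e ∈ G.cyc j).card := Finset.card_biUnion_le
    _ ≤ ∑ _e ∈ A, G.B := Finset.sum_le_sum fun e _ => G.cyc_le e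
    _ = G.B * A.card := by
        rw [Finset.sum_const, smul_eq_mul, mul_comm]

lemma cut_symmDiff {A B : Finset E} (hA : G.Cut A) (hB : G.Cut B) : G.Cut (symmDiff A B) := by
  obtain ⟨U, rfl⟩ := hA
  obtain ⟨W, rfl⟩ := hB
  exact ⟨symmDiff U W, (bd_symmDiff G.src G.tgt U W).symm⟩

lemma cut_empty : G.Cut ∅ := by
  refine ⟨∅, ?_⟩
  ext e
  simp [bd]

/-- The total charge is odd. -/
def OddCharge (c : V → Bool) : Prop := chi univ c = -1

lemma net_abs_chi (U : Finset V) (c : V → Bool) : |chi U c| = 1 := by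
  have h := chi_sq U c
  rw [← abs_mul_abs_self] at h
  have h0 := abs_nonneg (chi U c)
  nlinarith

lemma abs_Ex_chi_le (c : V → Bool) (A : Finset E) : |G.Ex c (chi A)| ≤ 1 := by
  by_cases h : ∃ U : Finset V, 3 * U.card < Fintype.card V ∧ A = G.bdG U
  · obtain ⟨U, hU, rfl⟩ := h
    rw [Ex_chi_bdG c hU, net_abs_chi]
  · have h0 : G.Ex c (chi A) = 0 := by
      show Et G.src G.tgt c (chi A) = 0
      unfold Et
      refine Finset.sum_eq_zero fun W _ => ?_
      split_ifs with hW
      · rw [fc_chi, if_neg, mul_zero]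
        intro he
        exact h ⟨W, hW, he.symm⟩
      · rfl
    rw [h0, abs_zero]
    exact zero_le_one

/-- The signs are multiplicative on small cuts. -/
lemma Ex_chi_mul (c : V → Bool) {t : ℕ} (ht : 64 * G.lam * t ≤ Fintype.card V)
    (hV : 0 < Fintype.card V) {A B : Finset E} (hA : G.Cut A) (hB : G.Cut B) (hAc : A.card ≤ t)
    (hBc : B.card ≤ t) :
    G.Ex c (chi (symmDiff A B)) = G.Ex c (chi A) * G.Ex c (chi B) := by
  obtain ⟨U, rfl, hU⟩ := hA.small ht hAc
  obtain ⟨W, rfl, hW⟩ := hB.small ht hBc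
  have h1 : symmDiff (G.bdG U) (G.bdG W) = G.bdG (symmDiff U W) :=
    (bd_symmDiff G.src G.tgt U W).symm
  have e1 : 64 * G.lam * t = 64 * (G.lam * t) := by ring
  have e2 : 2 * G.lam * t = 2 * (G.lam * t) := by ring
  rw [e1] at ht
  rw [e2] at hU hW
  have h2 := card_symmDiff_le U W
  rw [h1, Ex_chi_bdG c (by omega), Ex_chi_bdG c (by omega), Ex_chi_bdG c (by omega), chi_mul]

lemma Ex_chi_sq (c : V → Bool) {t : ℕ} (ht : 64 * G.lam * t ≤ Fintype.card V)
    (hV : 0 < Fintype.card V) {A : Finset E} (hA : G.Cut A) (hAc : A.card ≤ t) :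
    G.Ex c (chi A) ^ 2 = 1 := by
  obtain ⟨U, rfl, hU⟩ := hA.small ht hAc
  have e1 : 64 * G.lam * t = 64 * (G.lam * t) := by ring
  have e2 : 2 * G.lam * t = 2 * (G.lam * t) := by ring
  rw [e1] at ht
  rw [e2] at hU
  rw [Ex_chi_bdG c (by omega), pow_two, chi_sq]

lemma Ex_expand (c : V → Bool) (f : (E → Bool) → ℝ) :
    G.Ex c f = ∑ A : Finset E, fc f A * G.Ex c (chi A) := by
  have h1 : f = fun y => ∑ A : Finset E, fc f A * chi A y := by
    funext y
    exact (walsh f y).symm
  show Et G.src G.tgt c f = ∑ A : Finset E, fc f A * Et G.src G.tgt c (chi A)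
  conv_lhs => rw [h1]
  rw [Et_sum]
  refine Finset.sum_congr rfl fun A _ => ?_
  rw [Et_const_mul]

end Net

end GridLine
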