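import Pool.Agent.Work.MP_c07f0d_lc.TL.Pse

/-!
# Relations
-/

set_option linter.unusedSectionVars false

namespace GridLine

open Finset LineSize

/-- A relation `p a = α₀ + α₁ p b + α₂ p c + α₃ p b p c` between members of a family. -/
structure Rl (I : Type) where
  /-- first index -/
  a : I
  /-- second index -/
  b : I
  /-- third index -/
  c : I
  /-- coefficient -/
  α₀ : ℝ
  /-- coefficient -/
  α₁ : ℝ
  /-- coefficient -/
  α₂ : ℝ
  /-- coefficient -/
  α₃ : ℝ
  h₁ : |α₁| ≤ 1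
  h₂ : |α₂| ≤ 1
  h₃ : |α₃| ≤ 1

/-- The defect of a relation. -/
def Rl.val {I ι : Type} (r : Rl I) (p : I → (ι → Bool) → ℝ) : (ι → Bool) → ℝ :=
  fun x => p r.a x - (r.α₀ + r.α₁ * p r.b x + r.α₂ * p r.c x + r.α₃ * (p r.b x * p r.c x))

end GridLine
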