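import Pool.Agent.Work.MP_c07f0d_lc.TL.RouteDef

/-!
# Random routing: moments and tails
-/

set_option linter.unusedSectionVars false

namespace GridLine

open Finset LineSize

section

variable {V₀ E₀ J₀ V₁ E₁ J₁ : Type} [Fintype V₀] [DecidableEq V₀] [Fintype E₀] [DecidableEq E₀]
  [Fintype J₀] [DecidableEq J₀] [Fintype V₁] [DecidableEq V₁] [Fintype E₁] [DecidableEq E₁]
  [Fintype J₁] [DecidableEq J₁] (G₀ : Net V₀ E₀ J₀) (G₁ : Net V₁ E₁ J₁)

/-- indicator: `A` meets the path from `a` to `v` -/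
def rtX (A : Finset E₀) (a v : V₀) : ℝ := if ∃ g ∈ A, g ∈ G₀.path a v then 1 else 0

lemma rtX_nonneg (A : Finset E₀) (a v : V₀) : 0 ≤ rtX G₀ A a v := by
  unfold rtX
  split_ifs <;> norm_num

lemma rtX_le (A : Finset E₀) (a v : V₀) : rtX G₀ A a v ≤ 1 := by
  unfold rtX
  split_ifs <;> norm_num

lemma rtX_le_sum (A : Finset E₀) (a v : V₀) :
    rtX G₀ A a v ≤ ∑ g ∈ A, if g ∈ G₀.path a v then (1 : ℝ) else 0 := by
  unfold rtX
  split_ifs with h
  · obtain ⟨g, hg, hg'⟩ := h
    have h1 := Finset.single_le_sum (f := fun g => if g ∈ G₀.path a v then (1 : ℝ) else 0)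
      (fun i _ => by split_ifs <;> norm_num) hg
    simpa [hg'] using h1
  · exact Finset.sum_nonneg fun i _ => by split_ifs <;> norm_num

/-- the total number of pairs whose path meets `A` -/
lemma rtX_sum (A : Finset E₀) :
    ∑ a, ∑ v, rtX G₀ A a v ≤ (G₀.lam * A.card * Fintype.card V₀ : ℝ) := by
  have h1 : ∑ a, ∑ v, rtX G₀ A a v ≤
      ∑ g ∈ A, ∑ p : V₀ × V₀, if g ∈ G₀.path p.1 p.2 then (1 : ℝ) else 0 := by
    rw [Finset.sum_comm]
    rw [← Fintype.sum_prod_type' (f := fun a v => rtX G₀ A v a)]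
    rw [← Finset.sum_comm (s := univ)]
    rw [← (Equiv.prodComm V₀ V₀).sum_comp]
    refine Finset.sum_le_sum fun p _ => ?_
    exact rtX_le_sum G₀ A _ _
  refine h1.trans ?_
  have h2 : ∀ g ∈ A, (∑ p : V₀ × V₀, if g ∈ G₀.path p.1 p.2 then (1 : ℝ) else 0) ≤
      G₀.lam * Fintype.card V₀ := by
    intro g _
    have h3 := G₀.cong g
    rw [Finset.sum_boole]
    exact_mod_cast h3
  refine (Finset.sum_le_sum h2).trans (le_of_eq ?_)
  rw [Finset.sum_const, nsmul_eq_mul]
  ring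

/-- one route -/
lemma rt_factor {θ : ℝ} (hθ : 1 ≤ θ) (A : Finset E₀) (b : V₁ → V₀) (w : E₁ → V₀) (e : E₁) :
    (if Odd (A ∩ rt G₀ G₁ b w e).card then θ else 1) ≤
      1 + θ * rtX G₀ A (b (G₁.src e)) (w e) + θ * rtX G₀ A (w e) (b (G₁.tgt e)) := by
  have hX1 := rtX_nonneg G₀ A (b (G₁.src e)) (w e)
  have hX2 := rtX_nonneg G₀ A (w e) (b (G₁.tgt e))
  have hθ0 : 0 ≤ θ := by linarith
  have h1 := mul_nonneg hθ0 hX1
  have h2 := mul_nonneg hθ0 hX2
  split_ifs with h
  · have hne : (A ∩ rt G₀ G₁ b w e).Nonempty := by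
      rw [Finset.nonempty_iff_ne_empty]
      intro h0
      rw [h0] at h
      simp at h
    obtain ⟨g, hg⟩ := hne
    rw [Finset.mem_inter] at hg
    obtain ⟨hgA, hg⟩ := hg
    unfold rt at hg
    rw [Finset.mem_symmDiff] at hg
    rcases hg with ⟨hg, -⟩ | ⟨hg, -⟩
    · have : rtX G₀ A (b (G₁.src e)) (w e) = 1 := by
        unfold rtX
        rw [if_pos ⟨g, hgA, hg⟩]
      rw [this]
      linarith
    · have : rtX G₀ A (w e) (b (G₁.tgt e)) = 1 := by
        unfold rtX
        rw [if_pos ⟨g, hgA, hg⟩]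
      rw [this]
      linarith
  · linarith

lemma rt_pow_card {ι : Type} [Fintype ι] (θ : ℝ) (p : ι → Prop) [DecidablePred p] :
    θ ^ (univ.filter p).card = ∏ e, if p e then θ else 1 := by
  rw [Finset.prod_ite]
  simp

/-- product over the edges, regrouped by one end -/
lemma rt_regroup {ι κ : Type} [Fintype ι] [Fintype κ] [DecidableEq κ] (s : ι → κ) (f : κ → ℝ)
    (hf : ∀ x, 1 ≤ f x) {d : ℕ} (hd : ∀ x, (univ.filter fun e => s e = x).card ≤ d) :
    ∏ e, f (s e) ≤ ∏ x, f x ^ d := by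
  rw [← Finset.prod_fiberwise (s := univ) (g := s) (f := fun e => f (s e))]
  refine Finset.prod_le_prod (fun x _ => ?_) fun x _ => ?_
  · exact Finset.prod_nonneg fun e _ => by linarith [hf (s e)]
  · have : ∏ e ∈ univ.filter (fun e => s e = x), f (s e) =
        ∏ e ∈ univ.filter (fun e => s e = x), f x :=
      Finset.prod_congr rfl fun e he => by rw [(Finset.mem_filter.1 he).2]
    rw [this, Finset.prod_const]
    exact pow_le_pow_right₀ (hf x) (hd x)

lemma rt_pow_bound {θ α : ℝ} (hθ : 1 ≤ θ) (h0 : 0 ≤ α) (h1 : α ≤ 1) (d : ℕ) :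
    (1 + θ * α) ^ d ≤ 1 + α * ((1 + θ) ^ d - 1) := by
  induction d with
  | zero => simp
  | succ d ih =>
    have h2 : (1 : ℝ) ≤ (1 + θ) ^ d := one_le_pow₀ (by linarith)
    have h3 : 0 ≤ 1 + θ * α := by nlinarith
    calc (1 + θ * α) ^ (d + 1) = (1 + θ * α) ^ d * (1 + θ * α) := pow_succ _ _
      _ ≤ (1 + α * ((1 + θ) ^ d - 1)) * (1 + θ * α) := mul_le_mul_of_nonneg_right ih h3
      _ ≤ 1 + α * ((1 + θ) ^ (d + 1) - 1) := by
        rw [pow_succ]
        have h4 : 0 ≤ α * (1 - α) * θ * ((1 + θ) ^ d - 1) := by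
          have h5 : 0 ≤ 1 - α := by linarith
          have h6 : 0 ≤ (1 + θ) ^ d - 1 := by linarith
          have h7 : 0 ≤ θ := by linarith
          positivity
        nlinarith

lemma rt_two_bound {θ α β : ℝ} (hθ : 1 ≤ θ) (h0 : 0 ≤ α) (h1 : α ≤ 1) (g0 : 0 ≤ β) (g1 : β ≤ 1)
    (d : ℕ) : (1 + θ * α) ^ d * (1 + θ * β) ^ d ≤ 1 + (1 + θ) ^ (2 * d) * (α + β) := by
  have h2 : (1 : ℝ) ≤ (1 + θ) ^ d := one_le_pow₀ (by linarith)
  set C := (1 + θ) ^ d with hC
  have hC2 : (1 + θ) ^ (2 * d) = C ^ 2 := by rw [hC, ← pow_mul, mul_comm]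
  have h3 := rt_pow_bound hθ h0 h1 d
  have h4 := rt_pow_bound hθ g0 g1 d
  rw [← hC] at h3 h4
  have h5 : 0 ≤ (1 + θ * β) ^ d := pow_nonneg (by nlinarith) d
  have h6 : 0 ≤ C - 1 := by linarith
  calc (1 + θ * α) ^ d * (1 + θ * β) ^ d ≤ (1 + α * (C - 1)) * (1 + β * (C - 1)) :=
        mul_le_mul h3 h4 h5 (by positivity)
    _ ≤ 1 + (1 + θ) ^ (2 * d) * (α + β) := by
        rw [hC2]
        have h7 : α * β ≤ α := by nlinarith
        have h8 : α * β * (C - 1) ^ 2 ≤ α * (C - 1) ^ 2 :=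
          mul_le_mul_of_nonneg_right h7 (sq_nonneg _)
        have h9 : (C - 1) * (α + β) + α * (C - 1) ^ 2 ≤ C ^ 2 * (α + β) := by
          have h10 : α * (C - 1) ^ 2 ≤ (α + β) * (C - 1) ^ 2 :=
            mul_le_mul_of_nonneg_right (by linarith) (sq_nonneg _)
          have h11 : (C - 1) + (C - 1) ^ 2 ≤ C ^ 2 := by nlinarith
          have h12 := mul_le_mul_of_nonneg_right h11 (show 0 ≤ α + β by linarith)
          nlinarith
        nlinarith

/-- The exponential moment of the number of edges whose route meets `A`. -/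
theorem route_moment {θ : ℝ} (hθ : 1 ≤ θ) (A : Finset E₀) :
    ∑ T : (V₁ → V₀) × (E₁ → V₀), θ ^ (pull G₀ G₁ T.1 T.2 A).card
      ≤ (Fintype.card ((V₁ → V₀) × (E₁ → V₀)) : ℝ) *
        Real.exp (2 * (1 + θ) ^ (2 * G₁.deg) * G₀.lam * A.card * Fintype.card V₁
          / Fintype.card V₀) := by
  have hθ0 : 0 ≤ θ := by linarith
  have hsum : ∑ T : (V₁ → V₀) × (E₁ → V₀), θ ^ (pull G₀ G₁ T.1 T.2 A).card =
      ∑ b : V₁ → V₀, ∑ w : E₁ → V₀, θ ^ (pull G₀ G₁ b w A).card :=
    Fintype.sum_prod_type _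
  rw [hsum]
  rcases isEmpty_or_nonempty V₀ with hE | hNe
  · -- the degenerate case
    have hcard : Fintype.card V₀ = 0 := Fintype.card_eq_zero
    rw [hcard]
    simp only [CharP.cast_eq_zero, div_zero, Real.exp_zero, mul_one]
    rcases isEmpty_or_nonempty V₁ with hE1 | hNe1
    · have hE2 : IsEmpty E₁ := ⟨fun e => hE1.false (G₁.src e)⟩
      have h1 : ∀ b : V₁ → V₀, ∀ w : E₁ → V₀, θ ^ (pull G₀ G₁ b w A).card = 1 := by
        intro b w
        have : pull G₀ G₁ b w A = ∅ := by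
          ext e
          exact (hE2.false e).elim
        rw [this]
        simp
      simp only [h1]
      simp
    · have hE3 : IsEmpty (V₁ → V₀) := ⟨fun b => hE.false (b (Classical.arbitrary V₁))⟩
      simp
  · have hN : (0 : ℝ) < Fintype.card V₀ := by exact_mod_cast Fintype.card_pos
    set N : ℝ := ((Fintype.card V₀ : ℕ) : ℝ) with hNdef
    set α : V₀ → ℝ := fun a => (∑ v, rtX G₀ A a v) / N with hα
    set β : V₀ → ℝ := fun a => (∑ v, rtX G₀ A v a) / N with hβ
    have hα0 : ∀ a, 0 ≤ α a := fun a =>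
      div_nonneg (Finset.sum_nonneg fun v _ => rtX_nonneg G₀ A a v) hN.le
    have hβ0 : ∀ a, 0 ≤ β a := fun a =>
      div_nonneg (Finset.sum_nonneg fun v _ => rtX_nonneg G₀ A v a) hN.le
    have hα1 : ∀ a, α a ≤ 1 := by
      intro a
      rw [hα]
      simp only
      rw [div_le_one hN]
      refine (Finset.sum_le_sum fun v _ => rtX_le G₀ A a v).trans (le_of_eq ?_)
      simp [hNdef]
    have hβ1 : ∀ a, β a ≤ 1 := by
      intro a
      rw [hβ]
      simp only
      rw [div_le_one hN]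
      refine (Finset.sum_le_sum fun v _ => rtX_le G₀ A v a).trans (le_of_eq ?_)
      simp [hNdef]
    have hαs : ∑ a, α a ≤ G₀.lam * A.card := by
      rw [hα]
      simp only
      rw [← Finset.sum_div, div_le_iff₀ hN]
      exact rtX_sum G₀ A
    have hβs : ∑ a, β a ≤ G₀.lam * A.card := by
      rw [hβ]
      simp only
      rw [← Finset.sum_div, div_le_iff₀ hN, Finset.sum_comm]
      exact rtX_sum G₀ A
    set f : V₀ → ℝ := fun a => 1 + θ * α a with hf
    set g : V₀ → ℝ := fun a => 1 + θ * β a with hg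
    have hf1 : ∀ a, 1 ≤ f a := fun a => by
      have := mul_nonneg hθ0 (hα0 a)
      simp only [hf]
      linarith
    have hg1 : ∀ a, 1 ≤ g a := fun a => by
      have := mul_nonneg hθ0 (hβ0 a)
      simp only [hg]
      linarith
    -- average over `w`
    have hw : ∀ b : V₁ → V₀, ∑ w : E₁ → V₀, θ ^ (pull G₀ G₁ b w A).card ≤
        N ^ Fintype.card E₁ * ∏ x, (f (b x) ^ G₁.deg * g (b x) ^ G₁.deg) := by
      intro b
      have h1 : ∑ w : E₁ → V₀, θ ^ (pull G₀ G₁ b w A).card ≤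
          ∑ w : E₁ → V₀, ∏ e, (1 + θ * rtX G₀ A (b (G₁.src e)) (w e) +
            θ * rtX G₀ A (w e) (b (G₁.tgt e))) := by
        refine Finset.sum_le_sum fun w _ => ?_
        unfold pull
        rw [rt_pow_card]
        refine Finset.prod_le_prod (fun e _ => ?_) fun e _ => rt_factor G₀ G₁ hθ A b w e
        split_ifs
        · exact hθ0
        · norm_num
      have h2 : ∑ w : E₁ → V₀, ∏ e, (1 + θ * rtX G₀ A (b (G₁.src e)) (w e) +
            θ * rtX G₀ A (w e) (b (G₁.tgt e))) =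
          ∏ e, ∑ v, (1 + θ * rtX G₀ A (b (G₁.src e)) v + θ * rtX G₀ A v (b (G₁.tgt e))) := by
        rw [Finset.prod_univ_sum, Fintype.piFinset_univ]
      have h3 : ∀ e, ∑ v, (1 + θ * rtX G₀ A (b (G₁.src e)) v + θ * rtX G₀ A v (b (G₁.tgt e))) ≤
          N * (f (b (G₁.src e)) * g (b (G₁.tgt e))) := by
        intro e
        rw [Finset.sum_add_distrib, Finset.sum_add_distrib, ← Finset.mul_sum, ← Finset.mul_sum]
        have e1 : ∑ v, rtX G₀ A (b (G₁.src e)) v = N * α (b (G₁.src e)) := by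
          simp only [hα]
          field_simp
        have e2 : ∑ v, rtX G₀ A v (b (G₁.tgt e)) = N * β (b (G₁.tgt e)) := by
          simp only [hβ]
          field_simp
        have e3 : ∑ _v : V₀, (1 : ℝ) = N := by simp [hNdef]
        rw [e1, e2, e3]
        have e4 : 0 ≤ θ * θ * N * (α (b (G₁.src e)) * β (b (G₁.tgt e))) := by
          have := mul_nonneg (hα0 (b (G₁.src e))) (hβ0 (b (G₁.tgt e)))
          positivity
        simp only [hf, hg]
        nlinarith
      rw [h2] at h1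
      refine h1.trans ?_
      have h4 : ∏ e, ∑ v, (1 + θ * rtX G₀ A (b (G₁.src e)) v + θ * rtX G₀ A v (b (G₁.tgt e))) ≤
          ∏ e, (N * (f (b (G₁.src e)) * g (b (G₁.tgt e)))) := by
        refine Finset.prod_le_prod (fun e _ => ?_) fun e _ => h3 e
        refine Finset.sum_nonneg fun v _ => ?_
        have a1 := mul_nonneg hθ0 (rtX_nonneg G₀ A (b (G₁.src e)) v)
        have a2 := mul_nonneg hθ0 (rtX_nonneg G₀ A v (b (G₁.tgt e)))
        linarith
      refine h4.trans ?_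
      rw [Finset.prod_mul_distrib, Finset.prod_mul_distrib, Finset.prod_const, Finset.card_univ,
        Finset.prod_mul_distrib]
      refine mul_le_mul_of_nonneg_left ?_ (by positivity)
      have h5 : ∏ e, f (b (G₁.src e)) ≤ ∏ x, f (b x) ^ G₁.deg :=
        rt_regroup G₁.src (fun x => f (b x)) (fun x => hf1 _) G₁.out_le
      have h6 : ∏ e, g (b (G₁.tgt e)) ≤ ∏ x, g (b x) ^ G₁.deg :=
        rt_regroup G₁.tgt (fun x => g (b x)) (fun x => hg1 _) G₁.in_le
      refine mul_le_mul h5 h6 (Finset.prod_nonneg fun e _ => ?_) (Finset.prod_nonneg fun x _ => ?_)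
      · linarith [hg1 (b (G₁.tgt e))]
      · exact pow_nonneg (by linarith [hf1 (b x)]) _
    -- average over `b`
    refine (Finset.sum_le_sum fun b _ => hw b).trans ?_
    rw [← Finset.mul_sum]
    have h7 : ∑ b : V₁ → V₀, ∏ x, (f (b x) ^ G₁.deg * g (b x) ^ G₁.deg) =
        (∑ v, (f v ^ G₁.deg * g v ^ G₁.deg)) ^ Fintype.card V₁ := by
      have h8 := Finset.prod_univ_sum (fun _ : V₁ => (univ : Finset V₀))
        (fun _ v => f v ^ G₁.deg * g v ^ G₁.deg)
      rw [Fintype.piFinset_univ] at h8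
      rw [← h8, Finset.prod_const, Finset.card_univ]
    rw [h7]
    set X : ℝ := 2 * (1 + θ) ^ (2 * G₁.deg) * G₀.lam * A.card with hX
    have h9 : ∑ v, (f v ^ G₁.deg * g v ^ G₁.deg) ≤ N * Real.exp (X / N) := by
      have h10 : ∑ v, (f v ^ G₁.deg * g v ^ G₁.deg) ≤
          ∑ v, (1 + (1 + θ) ^ (2 * G₁.deg) * (α v + β v)) :=
        Finset.sum_le_sum fun v _ => rt_two_bound hθ (hα0 v) (hα1 v) (hβ0 v) (hβ1 v) _
      refine h10.trans ?_
      rw [Finset.sum_add_distrib, ← Finset.mul_sum, Finset.sum_add_distrib]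
      have e3 : ∑ _v : V₀, (1 : ℝ) = N := by simp [hNdef]
      rw [e3]
      have h11 : N + X ≤ N * Real.exp (X / N) := by
        have := Real.add_one_le_exp (X / N)
        calc N + X = N * (X / N + 1) := by field_simp; ring
          _ ≤ N * Real.exp (X / N) := mul_le_mul_of_nonneg_left this hN.le
      refine le_trans ?_ h11
      have h12 : 0 ≤ (1 + θ) ^ (2 * G₁.deg) := pow_nonneg (by linarith) _
      have h13 := mul_le_mul_of_nonneg_left (add_le_add hαs hβs) h12
      rw [hX]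
      linarith
    have h14 : 0 ≤ ∑ v, (f v ^ G₁.deg * g v ^ G₁.deg) := by
      refine Finset.sum_nonneg fun v _ => mul_nonneg (pow_nonneg ?_ _) (pow_nonneg ?_ _)
      · linarith [hf1 v]
      · linarith [hg1 v]
    have h15 := pow_le_pow_left₀ h14 h9 (Fintype.card V₁)
    have h16 : (Fintype.card ((V₁ → V₀) × (E₁ → V₀)) : ℝ) =
        N ^ Fintype.card V₁ * N ^ Fintype.card E₁ := by
      rw [Fintype.card_prod, Fintype.card_fun, Fintype.card_fun]
      push_cast
      rfl
    rw [h16]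
    calc N ^ Fintype.card E₁ * (∑ v, (f v ^ G₁.deg * g v ^ G₁.deg)) ^ Fintype.card V₁
        ≤ N ^ Fintype.card E₁ * (N * Real.exp (X / N)) ^ Fintype.card V₁ :=
          mul_le_mul_of_nonneg_left h15 (by positivity)
      _ = N ^ Fintype.card V₁ * N ^ Fintype.card E₁ *
          Real.exp (X * Fintype.card V₁ / N) := by
          rw [mul_pow, ← Real.exp_nat_mul]
          have : ((Fintype.card V₁ : ℕ) : ℝ) * (X / N) = X * Fintype.card V₁ / N := by ring
          rw [this]
          ring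

/-- The tail of the number of edges whose route meets `A`. -/
theorem route_tail {θ : ℝ} (hθ : 1 ≤ θ) (A : Finset E₀) (k : ℕ)
    (h : 2 * (1 + θ) ^ (2 * G₁.deg) * G₀.lam * A.card * Fintype.card V₁ ≤ k * Fintype.card V₀) :
    ((univ.filter fun T : (V₁ → V₀) × (E₁ → V₀) => k < (pull G₀ G₁ T.1 T.2 A).card).card : ℝ)
      ≤ (Fintype.card ((V₁ → V₀) × (E₁ → V₀)) : ℝ) * (Real.exp 1 / θ) ^ k := by
  have hθ0 : 0 < θ := by linarith
  have h1 := route_moment G₀ G₁ hθ A
  have h2 : Real.exp (2 * (1 + θ) ^ (2 * G₁.deg) * G₀.lam * A.card * Fintype.card V₁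
          / Fintype.card V₀) ≤ Real.exp 1 ^ k := by
    rw [← Real.exp_nat_mul, mul_one]
    refine Real.exp_le_exp.2 ?_
    exact div_le_of_le_mul₀ (by positivity) (by positivity) h
  have h3 : ((univ.filter fun T : (V₁ → V₀) × (E₁ → V₀) =>
      k < (pull G₀ G₁ T.1 T.2 A).card).card : ℝ) * θ ^ k ≤
      ∑ T : (V₁ → V₀) × (E₁ → V₀), θ ^ (pull G₀ G₁ T.1 T.2 A).card := by
    rw [← nsmul_eq_mul, ← Finset.sum_const]
    refine (Finset.sum_le_sum fun T hT => ?_).trans
      (Finset.sum_le_sum_of_subset_of_nonneg (Finset.filter_subset _ _) fun T _ _ => ?_)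
    · exact pow_le_pow_right₀ hθ (Finset.mem_filter.1 hT).2.le
    · positivity
  rw [div_pow, mul_div_assoc', le_div_iff₀ (by positivity)]
  exact h3.trans (h1.trans (mul_le_mul_of_nonneg_left h2 (by positivity)))

lemma rt_fib_moment (v : V₀) :
    ∑ b : V₁ → V₀, (2 : ℝ) ^ (univ.filter fun x => b x = v).card =
      (Fintype.card V₀ + 1 : ℝ) ^ Fintype.card V₁ := by
  have h1 : ∀ b : V₁ → V₀, (2 : ℝ) ^ (univ.filter fun x => b x = v).card =
      ∏ x, if b x = v then (2 : ℝ) else 1 := fun b => rt_pow_card 2 _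
  rw [Finset.sum_congr rfl fun b _ => h1 b]
  have h8 := Finset.prod_univ_sum (fun _ : V₁ => (univ : Finset V₀))
    (fun _ a => if a = v then (2 : ℝ) else 1)
  rw [Fintype.piFinset_univ] at h8
  rw [← h8, Finset.prod_const, Finset.card_univ]
  congr 1
  have h2 : ∀ a : V₀, (if a = v then (2 : ℝ) else 1) = 1 + if a = v then 1 else 0 := by
    intro a
    split_ifs <;> norm_num
  rw [Finset.sum_congr rfl fun a _ => h2 a, Finset.sum_add_distrib]
  simp

open Classical in
/-- At least half of the routings are good. -/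
theorem route_good {u : ℕ} (hV : 0 < Fintype.card V₀)
    (h1 : 2 * 3 ^ (2 * G₁.deg) * G₀.lam * Fintype.card V₁ ≤ Fintype.card V₀)
    (h2 : 32 * (Fintype.card V₀ + Fintype.card E₀) ≤ 2 ^ u) :
    Fintype.card ((V₁ → V₀) × (E₁ → V₀))
      ≤ 2 * (univ.filter fun T : (V₁ → V₀) × (E₁ → V₀) => GoodT G₀ G₁ u T.1 T.2).card := by
  set M : ℝ := (Fintype.card ((V₁ → V₀) × (E₁ → V₀)) : ℝ) with hM
  have hM0 : 0 ≤ M := by positivity
  have hN : (0 : ℝ) < Fintype.card V₀ := by exact_mod_cast hV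
  have hV1 : (Fintype.card V₁ : ℝ) ≤ Fintype.card V₀ := by
    have h3 : 1 ≤ 2 * 3 ^ (2 * G₁.deg) * G₀.lam := by
      have := G₀.lam_pos
      have h4 : 0 < 3 ^ (2 * G₁.deg) := by positivity
      nlinarith
    have h5 : Fintype.card V₁ ≤ Fintype.card V₀ := by
      calc Fintype.card V₁ = 1 * Fintype.card V₁ := (one_mul _).symm
        _ ≤ 2 * 3 ^ (2 * G₁.deg) * G₀.lam * Fintype.card V₁ := Nat.mul_le_mul_right _ h3
        _ ≤ _ := h1
    exact_mod_cast h5
  have he : Real.exp 1 ≤ 3 := by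
    have := Real.exp_one_lt_d9
    linarith
  -- the bad events
  set Bv : V₀ → Finset ((V₁ → V₀) × (E₁ → V₀)) := fun v =>
    univ.filter fun T => u < (univ.filter fun x => T.1 x = v).card with hBv
  set Bg : E₀ → Finset ((V₁ → V₀) × (E₁ → V₀)) := fun g =>
    univ.filter fun T => u < (univ.filter fun e => g ∈ rt G₀ G₁ T.1 T.2 e).card with hBg
  have hbv : ∀ v, ((Bv v).card : ℝ) * 2 ^ u ≤ M * 3 := by
    intro v
    have h3 : ((Bv v).card : ℝ) * 2 ^ u ≤
        ∑ T : (V₁ → V₀) × (E₁ → V₀), (2 : ℝ) ^ (univ.filter fun x => T.1 x = v).card := by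
      rw [← nsmul_eq_mul, ← Finset.sum_const]
      refine (Finset.sum_le_sum fun T hT => ?_).trans
        (Finset.sum_le_sum_of_subset_of_nonneg (Finset.subset_univ _) fun T _ _ => ?_)
      · exact pow_le_pow_right₀ (by norm_num) (Finset.mem_filter.1 hT).2.le
      · positivity
    refine h3.trans ?_
    rw [Fintype.sum_prod_type]
    simp only [Finset.sum_const, Finset.card_univ, nsmul_eq_mul]
    rw [← Finset.mul_sum, rt_fib_moment v, hM, Fintype.card_prod, Fintype.card_fun,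
      Fintype.card_fun]
    push_cast
    rw [mul_comm ((Fintype.card V₀ : ℝ) ^ Fintype.card V₁), mul_assoc]
    refine mul_le_mul_of_nonneg_left ?_ (by positivity)
    have h4 : (Fintype.card V₀ + 1 : ℝ) ≤ Fintype.card V₀ * Real.exp (1 / Fintype.card V₀) := by
      have := Real.add_one_le_exp (1 / (Fintype.card V₀ : ℝ))
      calc (Fintype.card V₀ + 1 : ℝ) = Fintype.card V₀ * (1 / Fintype.card V₀ + 1) := by
            field_simp; ring
        _ ≤ _ := mul_le_mul_of_nonneg_left this hN.le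
    calc (Fintype.card V₀ + 1 : ℝ) ^ Fintype.card V₁
        ≤ (Fintype.card V₀ * Real.exp (1 / Fintype.card V₀)) ^ Fintype.card V₁ :=
          pow_le_pow_left₀ (by positivity) h4 _
      _ = (Fintype.card V₀ : ℝ) ^ Fintype.card V₁ *
          Real.exp (Fintype.card V₁ * (1 / Fintype.card V₀)) := by
          rw [mul_pow, ← Real.exp_nat_mul]
      _ ≤ (Fintype.card V₀ : ℝ) ^ Fintype.card V₁ * 3 := by
          refine mul_le_mul_of_nonneg_left (le_trans (Real.exp_le_exp.2 ?_) he) (by positivity)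
          rw [mul_one_div, div_le_one hN]
          exact hV1
  have hbg : ∀ g, ((Bg g).card : ℝ) * 2 ^ u ≤ M * 3 := by
    intro g
    have h3 : ∀ T : (V₁ → V₀) × (E₁ → V₀), (univ.filter fun e => g ∈ rt G₀ G₁ T.1 T.2 e) =
        pull G₀ G₁ T.1 T.2 {g} := by
      intro T
      unfold pull
      refine Finset.filter_congr fun e _ => ?_
      by_cases hg : g ∈ rt G₀ G₁ T.1 T.2 e
      · rw [Finset.singleton_inter_of_mem hg]
        simp [hg]
      · rw [Finset.singleton_inter_of_notMem hg]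
        simp [hg]
    have h4 : ((Bg g).card : ℝ) * 2 ^ u ≤
        ∑ T : (V₁ → V₀) × (E₁ → V₀), (2 : ℝ) ^ (pull G₀ G₁ T.1 T.2 {g}).card := by
      rw [← nsmul_eq_mul, ← Finset.sum_const]
      refine (Finset.sum_le_sum fun T hT => ?_).trans
        (Finset.sum_le_sum_of_subset_of_nonneg (Finset.subset_univ _) fun T _ _ => ?_)
      · have h5 := (Finset.mem_filter.1 hT).2
        rw [h3 T] at h5
        exact pow_le_pow_right₀ (by norm_num) h5.le
      · positivity
    refine h4.trans ((route_moment G₀ G₁ (by norm_num : (1 : ℝ) ≤ 2) {g}).trans ?_)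
    refine mul_le_mul_of_nonneg_left (le_trans (Real.exp_le_exp.2 ?_) he) hM0
    rw [div_le_one hN, Finset.card_singleton]
    have h5 : ((2 * 3 ^ (2 * G₁.deg) * G₀.lam * Fintype.card V₁ : ℕ) : ℝ) ≤ Fintype.card V₀ := by
      exact_mod_cast h1
    push_cast at h5 ⊢
    norm_num
    exact h5
  -- union bound
  have hsub : (univ.filter fun T : (V₁ → V₀) × (E₁ → V₀) => ¬ GoodT G₀ G₁ u T.1 T.2) ⊆
      (univ.biUnion Bv) ∪ (univ.biUnion Bg) := by
    intro T hT
    rw [Finset.mem_filter] at hT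
    rw [Finset.mem_union, Finset.mem_biUnion, Finset.mem_biUnion]
    by_contra hcon
    push Not at hcon
    refine hT.2 ⟨fun v => ?_, fun g => ?_⟩
    · have h3 := hcon.1 v (Finset.mem_univ _)
      simp only [hBv, Finset.mem_filter, Finset.mem_univ, true_and, not_lt] at h3
      exact h3
    · have h3 := hcon.2 g (Finset.mem_univ _)
      simp only [hBg, Finset.mem_filter, Finset.mem_univ, true_and, not_lt] at h3
      exact h3
  have hbad : ((univ.filter fun T : (V₁ → V₀) × (E₁ → V₀) =>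
      ¬ GoodT G₀ G₁ u T.1 T.2).card : ℝ) * 2 ≤ M := by
    have h3 : ((univ.filter fun T : (V₁ → V₀) × (E₁ → V₀) =>
        ¬ GoodT G₀ G₁ u T.1 T.2).card : ℝ) ≤
        ∑ v, ((Bv v).card : ℝ) + ∑ g, ((Bg g).card : ℝ) := by
      have h4 := (Finset.card_le_card hsub).trans (Finset.card_union_le _ _)
      have h5 := Finset.card_biUnion_le (s := (univ : Finset V₀)) (t := Bv)
      have h6 := Finset.card_biUnion_le (s := (univ : Finset E₀)) (t := Bg)
      have h7 := h4.trans (add_le_add h5 h6)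
      exact_mod_cast h7
    have h4 : (∑ v, ((Bv v).card : ℝ) + ∑ g, ((Bg g).card : ℝ)) * 2 ^ u ≤
        (Fintype.card V₀ + Fintype.card E₀ : ℝ) * (M * 3) := by
      rw [add_mul, Finset.sum_mul, Finset.sum_mul, add_mul]
      refine add_le_add ?_ ?_
      · refine (Finset.sum_le_sum fun v _ => hbv v).trans (le_of_eq ?_)
        simp
      · refine (Finset.sum_le_sum fun g _ => hbg g).trans (le_of_eq ?_)
        simp
    have h5 : (32 : ℝ) * (Fintype.card V₀ + Fintype.card E₀) ≤ 2 ^ u := by exact_mod_cast h2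
    have h6 : (0 : ℝ) < 2 ^ u := by positivity
    set b : ℝ := ((univ.filter fun T : (V₁ → V₀) × (E₁ → V₀) =>
        ¬ GoodT G₀ G₁ u T.1 T.2).card : ℝ) with hb
    have h7 : b * 2 ^ u ≤ (Fintype.card V₀ + Fintype.card E₀ : ℝ) * (M * 3) :=
      (mul_le_mul_of_nonneg_right h3 h6.le).trans h4
    have h8 : (Fintype.card V₀ + Fintype.card E₀ : ℝ) * (M * 3) * 32 ≤ 2 ^ u * (M * 3) := by
      have := mul_le_mul_of_nonneg_right h5 (show 0 ≤ M * 3 by positivity)
      linarith
    have h9 : b * 32 * 2 ^ u ≤ (M * 3) * 2 ^ u := by linarith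
    have h10 : b * 32 ≤ M * 3 := le_of_mul_le_mul_right h9 h6
    linarith
  have hsplit := Finset.card_filter_add_card_filter_not (s := (univ : Finset ((V₁ → V₀) × (E₁ → V₀))))
    (fun T => GoodT G₀ G₁ u T.1 T.2)
  rw [Finset.card_univ] at hsplit
  have hbad' : (univ.filter fun T : (V₁ → V₀) × (E₁ → V₀) =>
      ¬ GoodT G₀ G₁ u T.1 T.2).card * 2 ≤ Fintype.card ((V₁ → V₀) × (E₁ → V₀)) := by
    rw [hM] at hbad
    exact_mod_cast hbad
  omega

end

end GridLine
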