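import Pool.Agent.Work.MP_c07f0d_lc.TL.Net

/-!
# Random routing
-/

set_option linter.unusedSectionVars false

namespace GridLine

open Finset LineSize

section

variable {V₀ E₀ J₀ V₁ E₁ J₁ : Type} [Fintype V₀] [DecidableEq V₀] [Fintype E₀] [DecidableEq E₀]
  [Fintype J₀] [DecidableEq J₀] [Fintype V₁] [DecidableEq V₁] [Fintype E₁] [DecidableEq E₁]
  [Fintype J₁] [DecidableEq J₁] (G₀ : Net V₀ E₀ J₀) (G₁ : Net V₁ E₁ J₁)

/-- The route of the edge `e`. -/
def rt (b : V₁ → V₀) (w : E₁ → V₀) (e : E₁) : Finset E₀ :=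
  symmDiff (G₀.path (b (G₁.src e)) (w e)) (G₀.path (w e) (b (G₁.tgt e)))

/-- The edges whose route meets `A` in an odd number of edges. -/
def pull (b : V₁ → V₀) (w : E₁ → V₀) (A : Finset E₀) : Finset E₁ :=
  univ.filter fun e => Odd (A ∩ rt G₀ G₁ b w e).card

/-- Good routings. -/
structure GoodT (u : ℕ) (b : V₁ → V₀) (w : E₁ → V₀) : Prop where
  fib : ∀ v, (univ.filter fun x => b x = v).card ≤ u
  mult : ∀ g, (univ.filter fun e => g ∈ rt G₀ G₁ b w e).card ≤ u

end

end GridLine
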