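import Pool.Agent.Work.MP_c07f0d_lc.TL.RlDef

/-!
# Moments
-/

set_option linter.unusedSectionVars false

namespace GridLine

open Finset LineSize

variable {ι : Type} [Fintype ι] [DecidableEq ι] {I : Type} {P : PE ι}

lemma Rl.lowDeg (r : Rl I) {p : I → (ι → Bool) → ℝ} {K : ℕ} (h : ∀ a, LowDeg K (p a)) :
    LowDeg (2 * K) (r.val p) := by
  have h1 : ∀ a, LowDeg (2 * K) (p a) := fun a => (h a).mono (by omega)
  have h2 : LowDeg (2 * K) (fun x => p r.b x * p r.c x) :=
    ((h r.b).mul (h r.c)).mono (by omega)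
  unfold Rl.val
  exact (h1 r.a).sub ((((LowDeg.const _ r.α₀).add ((h1 r.b).const_mul r.α₁)).add
    ((h1 r.c).const_mul r.α₂)).add (h2.const_mul r.α₃))

/-- Log-convexity of the moments. -/
lemma mom_le (h1 : P.E (fun _ => 1) = 1) {f : (ι → Bool) → ℝ} {T n j : ℕ} (hf : LowDeg T f)
    (hcap : n * T ≤ P.cap) (hj : j ≤ n) {Y : ℝ} (hY : 1 ≤ Y)
    (h : P.E (fun x => f x ^ (2 * n)) ≤ Y) : P.E (fun x => f x ^ (2 * j)) ≤ Y := by
  set M : ℕ → ℝ := fun i => P.E (fun x => f x ^ (2 * i)) with hM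
  have hlow : ∀ i, i ≤ n → LowDeg P.cap (fun x => f x ^ i) := fun i hi =>
    (hf.pow i).mono ((Nat.mul_le_mul_right T hi).trans hcap)
  have hnn : ∀ i, i ≤ n → 0 ≤ M i := by
    intro i hi
    have h2 := P.psd _ (hlow i hi)
    have h3 : (fun x => (f x ^ i) ^ 2) = fun x => f x ^ (2 * i) := by
      funext x; rw [← pow_mul, mul_comm]
    rw [h3] at h2
    exact h2
  have hM0 : M 0 = 1 := by
    simp only [hM, Nat.mul_zero, pow_zero]
    exact h1
  have hcs : ∀ i, i + 2 ≤ n → M (i + 1) ^ 2 ≤ M i * M (i + 2) := by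
    intro i hi
    have h2 := PE.cs' (hlow i (by omega)) (hlow (i + 2) hi)
    have e1 : (fun x => f x ^ i * f x ^ (i + 2)) = fun x => f x ^ (2 * (i + 1)) := by
      funext x; rw [← pow_add]; congr 1; ring
    have e2 : (fun x => (f x ^ i) ^ 2) = fun x => f x ^ (2 * i) := by
      funext x; rw [← pow_mul, mul_comm]
    have e3 : (fun x => (f x ^ (i + 2)) ^ 2) = fun x => f x ^ (2 * (i + 2)) := by
      funext x; rw [← pow_mul, mul_comm]
    rw [e1, e2, e3] at h2
    exact h2
  -- once the moments increase above `Y` they go on increasing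
  have hinc : ∀ i, i + 1 ≤ n → Y < M (i + 1) → M i < M (i + 1) → Y < M n := by
    intro i hi h2 h3
    have key : ∀ k, i + 1 + k ≤ n → Y < M (i + 1 + k) ∧ M (i + k) < M (i + 1 + k) := by
      intro k
      induction k with
      | zero => intro _; exact ⟨h2, h3⟩
      | succ k ih =>
        intro hk
        obtain ⟨h4, h5⟩ := ih (by omega)
        have h6 := hcs (i + k) (by omega)
        have e1 : i + k + 1 = i + 1 + k := by omega
        have e2 : i + k + 2 = i + 1 + (k + 1) := by omega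
        have e3 : i + (k + 1) = i + 1 + k := by omega
        rw [e1, e2] at h6
        rw [e3]
        have h7 : M (i + 1 + k) < M (i + 1 + (k + 1)) := by
          by_contra hc
          have hc' := not_lt.1 hc
          have h8 := hnn (i + k) (by omega)
          have h9 : 0 < M (i + 1 + k) := by linarith
          have h10 : M (i + k) * M (i + 1 + (k + 1)) ≤ M (i + k) * M (i + 1 + k) :=
            mul_le_mul_of_nonneg_left hc' h8
          have h11 : M (i + k) * M (i + 1 + k) < M (i + 1 + k) * M (i + 1 + k) :=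
            mul_lt_mul_of_pos_right h5 h9
          nlinarith
        exact ⟨h4.trans h7, h7⟩
    have := (key (n - (i + 1)) (by omega)).1
    rwa [show i + 1 + (n - (i + 1)) = n by omega] at this
  have hall : ∀ i, i ≤ n → M i ≤ Y := by
    intro i
    induction i with
    | zero => intro _; rw [hM0]; exact hY
    | succ i ih =>
      intro hi
      by_contra hc
      have hc' := not_le.1 hc
      have h2 := ih (by omega)
      exact absurd h (not_le.2 (hinc i hi hc' (h2.trans_lt hc')))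
  exact hall j hj

/-- Hypercontractivity for the higher moments. -/
lemma hc_moment {B k s : ℕ} {X : ℝ} (hX : 1 ≤ X)
    (hHC : ∀ (t : ℕ) (f : (ι → Bool) → ℝ), 4 * t ≤ P.cap → LowDeg t f →
      P.E (fun x => f x ^ 4) ≤ 9 ^ (B * t) * P.E (fun x => f x ^ 2) ^ 2)
    {q : (ι → Bool) → ℝ} (hq : LowDeg k q) (hcap : 2 ^ (s + 1) * k ≤ P.cap)
    (h2 : P.E (fun x => q x ^ 2) ≤ X) :
    P.E (fun x => q x ^ 2 ^ (s + 1)) ≤ (9 ^ (B * k * s) * X) ^ 2 ^ s := by
  have key : ∀ i, i ≤ s → P.E (fun x => q x ^ 2 ^ (i + 1)) ≤ (9 ^ (B * k * i) * X) ^ 2 ^ i := by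
    intro i
    induction i with
    | zero =>
      intro _
      simpa using h2
    | succ i ih =>
      intro hi
      have h3 := ih (by omega)
      have hle : 2 ^ (i + 2) ≤ 2 ^ (s + 1) := Nat.pow_le_pow_right (by norm_num) (by omega)
      have hcap' : 4 * (2 ^ i * k) ≤ P.cap := by
        refine le_trans ?_ hcap
        calc 4 * (2 ^ i * k) = 2 ^ (i + 2) * k := by ring
          _ ≤ 2 ^ (s + 1) * k := Nat.mul_le_mul_right k hle
      have h4 := hHC (2 ^ i * k) (fun x => q x ^ 2 ^ i) hcap' (hq.pow (2 ^ i))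
      have e1 : (fun x => (q x ^ 2 ^ i) ^ 4) = fun x => q x ^ 2 ^ (i + 1 + 1) := by
        funext x; rw [← pow_mul]; congr 1; ring
      have e2 : (fun x => (q x ^ 2 ^ i) ^ 2) = fun x => q x ^ 2 ^ (i + 1) := by
        funext x; rw [← pow_mul]; congr 1
      rw [e1, e2] at h4
      have h5 : 0 ≤ P.E (fun x => q x ^ 2 ^ (i + 1)) := by
        have h6 := P.psd (fun x => q x ^ 2 ^ i) ((hq.pow (2 ^ i)).mono (by omega))
        rwa [e2] at h6
      have h7 : P.E (fun x => q x ^ 2 ^ (i + 1)) ^ 2 ≤ ((9 ^ (B * k * i) * X) ^ 2 ^ i) ^ 2 :=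
        pow_le_pow_left₀ h5 h3 2
      have h8 : ((9 : ℝ) ^ (B * k * i) * X) ^ 2 ^ i = 9 ^ (B * k * i * 2 ^ i) * X ^ 2 ^ i := by
        rw [mul_pow, ← pow_mul]
      calc P.E (fun x => q x ^ 2 ^ (i + 1 + 1))
          ≤ 9 ^ (B * (2 ^ i * k)) * P.E (fun x => q x ^ 2 ^ (i + 1)) ^ 2 := h4
        _ ≤ 9 ^ (B * (2 ^ i * k)) * ((9 ^ (B * k * i) * X) ^ 2 ^ i) ^ 2 :=
            mul_le_mul_of_nonneg_left h7 (by positivity)
        _ = 9 ^ (B * (2 ^ i * k) + B * k * i * 2 ^ (i + 1)) * X ^ 2 ^ (i + 1) := by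
            rw [h8, mul_pow, ← pow_mul, ← pow_mul, pow_add, ← mul_assoc]
            congr 2 <;> ring_nf
        _ ≤ 9 ^ (B * k * (i + 1) * 2 ^ (i + 1)) * X ^ 2 ^ (i + 1) := by
            refine mul_le_mul_of_nonneg_right (pow_le_pow_right₀ (by norm_num) ?_)
              (by positivity)
            have h9 : B * (2 ^ i * k) ≤ B * k * 2 ^ (i + 1) := by
              have : 2 ^ i ≤ 2 ^ (i + 1) := Nat.pow_le_pow_right (by norm_num) (by omega)
              calc B * (2 ^ i * k) = B * k * 2 ^ i := by ring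
                _ ≤ B * k * 2 ^ (i + 1) := Nat.mul_le_mul_left _ this
            calc B * (2 ^ i * k) + B * k * i * 2 ^ (i + 1)
                ≤ B * k * 2 ^ (i + 1) + B * k * i * 2 ^ (i + 1) := Nat.add_le_add_right h9 _
              _ = B * k * (i + 1) * 2 ^ (i + 1) := by ring
        _ = (9 ^ (B * k * (i + 1)) * X) ^ 2 ^ (i + 1) := by
            rw [mul_pow, ← pow_mul]
  exact key s le_rfl

end GridLine
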