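import Pool.Agent.Work.MP_c07f0d_lc.TL.SA1

/-!
# Truncation of families which satisfy relations
-/

set_option linter.unusedSectionVars false

namespace GridLine

open Finset LineSize

variable {ι : Type} [Fintype ι] [DecidableEq ι] {I : Type} {P : PE ι}

private lemma sa2_mixed {f q : (ι → Bool) → ℝ} (h1 : P.E (fun _ => 1) = 1) {T s i j : ℕ} {Y : ℝ}
    (hf : LowDeg T f) (hq : LowDeg T q) (hcap : 2 ^ (s + 3) * T ≤ P.cap)
    (hY : 1 ≤ Y) (hfm : P.E (fun x => f x ^ 2 ^ (s + 3)) ≤ Y)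
    (hqm : P.E (fun x => q x ^ 2 ^ (s + 3)) ≤ Y) (hi : i ≤ 2 ^ (s + 1)) (hj : j ≤ 2 ^ (s + 1)) :
    P.N (fun x => f x ^ i * q x ^ j) ≤ Real.sqrt Y := by
  have e3 : 2 ^ (s + 3) = 2 * 2 ^ (s + 2) := by ring
  have e2 : 2 ^ (s + 2) = 2 * 2 ^ (s + 1) := by ring
  have hcap' : 2 ^ (s + 2) * T ≤ P.cap := by
    refine le_trans (Nat.mul_le_mul_right T ?_) hcap
    omega
  have hF : LowDeg P.cap (fun x => f x ^ (2 * i)) :=
    (hf.pow (2 * i)).mono (le_trans (Nat.mul_le_mul_right T (by omega)) hcap')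
  have hG : LowDeg P.cap (fun x => q x ^ (2 * j)) :=
    (hq.pow (2 * j)).mono (le_trans (Nat.mul_le_mul_right T (by omega)) hcap')
  have hc := PE.cs' hF hG
  have hA : P.E (fun x => (f x ^ (2 * i)) ^ 2) ≤ Y := by
    have h := mom_le (P := P) h1 hf hcap' (j := 2 * i) (by omega) hY
      (by rw [← e3]; exact hfm)
    have e : (fun x => (f x ^ (2 * i)) ^ 2) = fun x => f x ^ (2 * (2 * i)) := by
      funext x; rw [← pow_mul]; congr 1; ring
    rw [e]; exact h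
  have hB : P.E (fun x => (q x ^ (2 * j)) ^ 2) ≤ Y := by
    have h := mom_le (P := P) h1 hq hcap' (j := 2 * j) (by omega) hY
      (by rw [← e3]; exact hqm)
    have e : (fun x => (q x ^ (2 * j)) ^ 2) = fun x => q x ^ (2 * (2 * j)) := by
      funext x; rw [← pow_mul]; congr 1; ring
    rw [e]; exact h
  have hB0 : 0 ≤ P.E (fun x => (q x ^ (2 * j)) ^ 2) := P.psd _ hG
  have hY0 : (0 : ℝ) ≤ Y := by linarith
  have hsq : (P.E fun x => f x ^ (2 * i) * q x ^ (2 * j)) ^ 2 ≤ Y ^ 2 := by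
    refine le_trans hc ?_
    calc (P.E fun x => (f x ^ (2 * i)) ^ 2) * P.E (fun x => (q x ^ (2 * j)) ^ 2)
        ≤ Y * Y := mul_le_mul hA hB hB0 hY0
      _ = Y ^ 2 := by ring
  have hle : (P.E fun x => f x ^ (2 * i) * q x ^ (2 * j)) ≤ Y := by
    exact (abs_le_of_sq_le_sq' hsq hY0).2
  have e : (fun x => (f x ^ i * q x ^ j) ^ 2) = fun x => f x ^ (2 * i) * q x ^ (2 * j) := by
    funext x; rw [mul_pow, ← pow_mul, ← pow_mul, mul_comm i 2, mul_comm j 2]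
  unfold PE.N
  rw [e]
  exact Real.sqrt_le_sqrt hle

private lemma sa2_gu {f q u : (ι → Bool) → ℝ} (h1 : P.E (fun _ => 1) = 1) {T s : ℕ} {ω Y : ℝ}
    (hf : LowDeg T f) (hq : LowDeg T q) (hu : LowDeg T u) (hcap : 2 ^ (s + 3) * T ≤ P.cap)
    (hY : 1 ≤ Y) (hfm : P.E (fun x => f x ^ 2 ^ (s + 3)) ≤ Y)
    (hqm : P.E (fun x => q x ^ 2 ^ (s + 3)) ≤ Y) (hum : P.E (fun x => u x ^ 2 ^ (s + 3)) ≤ Y)
    (hω : P.N (fun x => f x - q x) ≤ ω) :
    P.N (fun x => (f x - q x) * u x) ≤ Real.sqrt (2 * Real.sqrt Y * ω) := by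
  have hp : 2 ^ (s + 3) = 4 * 2 ^ (s + 1) := by ring
  have hp1 : 1 ≤ 2 ^ s := Nat.one_le_two_pow
  have hp2 : 2 ^ (s + 1) = 2 * 2 ^ s := by ring
  have hcap3 : 3 * T ≤ P.cap := le_trans (Nat.mul_le_mul_right T (by omega)) hcap
  have hcap1 : T ≤ P.cap := by omega
  have hcap2 : 2 * T ≤ P.cap := by omega
  have hg : LowDeg T (fun x => f x - q x) := hf.sub hq
  have hu2 : LowDeg (2 * T) (fun x => u x ^ 2) := hu.pow 2
  have hfu : LowDeg P.cap (fun x => f x ^ 1 * u x ^ 2) :=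
    ((hf.pow 1).mul hu2).mono (by omega)
  have hqu : LowDeg P.cap (fun x => q x ^ 1 * u x ^ 2) :=
    ((hq.pow 1).mul hu2).mono (by omega)
  have hgu : LowDeg P.cap (fun x => (f x - q x) * u x) := (hg.mul hu).mono (by omega)
  have hgu2 : LowDeg P.cap (fun x => (f x - q x) * u x ^ 2) := (hg.mul hu2).mono (by omega)
  have b1 : P.N (fun x => f x ^ 1 * u x ^ 2) ≤ Real.sqrt Y :=
    sa2_mixed h1 hf hu hcap hY hfm hum (by omega) (by omega)
  have b2 : P.N (fun x => q x ^ 1 * u x ^ 2) ≤ Real.sqrt Y :=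
    sa2_mixed h1 hq hu hcap hY hqm hum (by omega) (by omega)
  have b3 : P.N (fun x => (f x - q x) * u x ^ 2) ≤ 2 * Real.sqrt Y := by
    have e : (fun x => (f x - q x) * u x ^ 2)
        = fun x => f x ^ 1 * u x ^ 2 - q x ^ 1 * u x ^ 2 := by
      funext x; ring
    rw [e]
    have := PE.N_sub_le hfu hqu
    linarith
  have hω0 : 0 ≤ ω := le_trans (PE.N_nonneg _) hω
  have key : P.N (fun x => (f x - q x) * u x) ^ 2 ≤ 2 * Real.sqrt Y * ω := by
    rw [PE.N_sq hgu]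
    have e : (fun x => ((f x - q x) * u x) ^ 2)
        = fun x => (f x - q x) * ((f x - q x) * u x ^ 2) := by
      funext x; ring
    rw [e]
    refine le_trans (le_abs_self _) ?_
    refine le_trans (PE.cs (hg.mono hcap1) hgu2) ?_
    calc P.N (fun x => f x - q x) * P.N (fun x => (f x - q x) * u x ^ 2)
        ≤ ω * (2 * Real.sqrt Y) := mul_le_mul hω b3 (PE.N_nonneg _) hω0
      _ = 2 * Real.sqrt Y * ω := by ring
  exact Real.le_sqrt_of_sq_le key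

/-- The relations after truncation. -/
theorem stage_rel (h1 : P.E (fun _ => 1) = 1) {f q : I → (ι → Bool) → ℝ} {T s : ℕ} {ω Y ρ : ℝ}
    (hf : ∀ a, LowDeg T (f a)) (hq : ∀ a, LowDeg T (q a)) (hcap : 2 ^ (s + 3) * T ≤ P.cap)
    (hY : 1 ≤ Y) (hfm : ∀ a, P.E (fun x => f a x ^ 2 ^ (s + 3)) ≤ Y)
    (hqm : ∀ a, P.E (fun x => q a x ^ 2 ^ (s + 3)) ≤ Y)
    (hω : ∀ a, P.N (fun x => f a x - q a x) ≤ ω) (r : Rl I) (hr : P.N (r.val f) ≤ ρ) :
    P.N (r.val q) ≤ ρ + 3 * ω + 2 * Real.sqrt (2 * Real.sqrt Y * ω) := by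
  have hp : 2 ^ (s + 3) = 4 * 2 ^ (s + 1) := by ring
  have hp1 : 1 ≤ 2 ^ s := Nat.one_le_two_pow
  have hp2 : 2 ^ (s + 1) = 2 * 2 ^ s := by ring
  have hcap3 : 3 * T ≤ P.cap := le_trans (Nat.mul_le_mul_right T (by omega)) hcap
  have hcap1 : T ≤ P.cap := by omega
  have hcap2 : 2 * T ≤ P.cap := by omega
  have hg : ∀ a, LowDeg T (fun x => f a x - q a x) := fun a => (hf a).sub (hq a)
  -- the degrees
  have d0 : LowDeg P.cap (r.val f) := (r.lowDeg hf).mono hcap2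
  have d1 : LowDeg P.cap (fun x => f r.a x - q r.a x) := (hg r.a).mono hcap1
  have d2 : LowDeg P.cap (fun x => r.α₁ * (f r.b x - q r.b x)) :=
    ((hg r.b).const_mul _).mono hcap1
  have d3 : LowDeg P.cap (fun x => r.α₂ * (f r.c x - q r.c x)) :=
    ((hg r.c).const_mul _).mono hcap1
  have d4 : LowDeg P.cap (fun x => (f r.b x - q r.b x) * f r.c x) :=
    ((hg r.b).mul (hf r.c)).mono (by omega)
  have d5 : LowDeg P.cap (fun x => (f r.c x - q r.c x) * q r.b x) :=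
    ((hg r.c).mul (hq r.b)).mono (by omega)
  have d6 : LowDeg P.cap (fun x => r.α₃ * ((f r.b x - q r.b x) * f r.c x
      + (f r.c x - q r.c x) * q r.b x)) := (d4.add d5).const_mul _
  -- the norms
  have n4 : P.N (fun x => (f r.b x - q r.b x) * f r.c x) ≤ Real.sqrt (2 * Real.sqrt Y * ω) :=
    sa2_gu h1 (hf _) (hq _) (hf _) hcap hY (hfm _) (hqm _) (hfm _) (hω _)
  have n5 : P.N (fun x => (f r.c x - q r.c x) * q r.b x) ≤ Real.sqrt (2 * Real.sqrt Y * ω) :=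
    sa2_gu h1 (hf _) (hq _) (hq _) hcap hY (hfm _) (hqm _) (hqm _) (hω _)
  have n45 := PE.N_add_le d4 d5
  have nn : ∀ (a : ℝ) (h : (ι → Bool) → ℝ), |a| ≤ 1 → P.N (fun x => a * h x) ≤ P.N h := by
    intro a h ha
    rw [PE.N_const_mul]
    exact mul_le_of_le_one_left (PE.N_nonneg _) ha
  have n2 := nn r.α₁ (fun x => f r.b x - q r.b x) r.h₁
  have n3 := nn r.α₂ (fun x => f r.c x - q r.c x) r.h₂
  have n6 := nn r.α₃ (fun x => (f r.b x - q r.b x) * f r.c x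
      + (f r.c x - q r.c x) * q r.b x) r.h₃
  have e : r.val q = fun x => (((r.val f x - (f r.a x - q r.a x))
      + r.α₁ * (f r.b x - q r.b x)) + r.α₂ * (f r.c x - q r.c x))
      + r.α₃ * ((f r.b x - q r.b x) * f r.c x + (f r.c x - q r.c x) * q r.b x) := by
    funext x
    unfold Rl.val
    ring
  rw [e]
  have s1 := PE.N_sub_le d0 d1
  have s2 := PE.N_add_le (d0.sub d1) d2
  have s3 := PE.N_add_le ((d0.sub d1).add d2) d3
  have s4 := PE.N_add_le (((d0.sub d1).add d2).add d3) d6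
  have wa := hω r.a
  have wb := hω r.b
  have wc := hω r.c
  linarith

/-- The moments after truncation. -/
theorem stage_mom (h1 : P.E (fun _ => 1) = 1) {f q : (ι → Bool) → ℝ} {T s : ℕ} {ω Y Q : ℝ}
    (hf : LowDeg T f) (hq : LowDeg T q) (hcap : 2 ^ (s + 3) * T ≤ P.cap)
    (hY : 1 ≤ Y) (hQ : 1 ≤ Q) (hfm : P.E (fun x => f x ^ 2 ^ (s + 3)) ≤ Y)
    (hqm : P.E (fun x => q x ^ 2 ^ (s + 3)) ≤ Y)
    (hfQ : P.E (fun x => f x ^ 2 ^ (s + 3)) ≤ Q)
    (hω : P.N (fun x => f x - q x) ≤ ω) :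
    P.E (fun x => q x ^ 2 ^ (s + 1)) ≤ Q + 2 ^ (s + 1) * Real.sqrt Y * ω := by
  have e3 : 2 ^ (s + 3) = 2 * 2 ^ (s + 2) := by ring
  have e2 : 2 ^ (s + 2) = 2 * 2 ^ (s + 1) := by ring
  have e1 : 2 ^ (s + 1) = 2 * 2 ^ s := by ring
  have hp1 : 1 ≤ 2 ^ s := Nat.one_le_two_pow
  have hcap' : 2 ^ (s + 2) * T ≤ P.cap :=
    le_trans (Nat.mul_le_mul_right T (by omega)) hcap
  have hcap1 : T ≤ P.cap := by
    have : 1 * T ≤ 2 ^ (s + 3) * T := Nat.mul_le_mul_right T (by omega)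
    omega
  have hω0 : 0 ≤ ω := le_trans (PE.N_nonneg _) hω
  have hg : LowDeg T (fun x => f x - q x) := hf.sub hq
  have hfE : P.E (fun x => f x ^ 2 ^ (s + 1)) ≤ Q := by
    have h := mom_le (P := P) h1 hf hcap' (j := 2 ^ s) (by omega) hQ
      (by rw [← e3]; exact hfQ)
    rw [e1]; exact h
  have ef : (fun x => q x ^ 2 ^ (s + 1)) = fun x => f x ^ 2 ^ (s + 1)
      - ∑ i ∈ range (2 ^ (s + 1)), (f x - q x) * (f x ^ i * q x ^ (2 ^ (s + 1) - 1 - i)) := by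
    funext x
    rw [← Finset.mul_sum]
    have := (Commute.all (f x) (q x)).mul_geom_sum₂ (2 ^ (s + 1))
    rw [this]
    ring
  rw [ef, PE.E_sub, PE.E_sum]
  have hterm : ∀ i ∈ range (2 ^ (s + 1)),
      -(Real.sqrt Y * ω) ≤ P.E (fun x => (f x - q x) * (f x ^ i * q x ^ (2 ^ (s + 1) - 1 - i))) := by
    intro i hi
    rw [Finset.mem_range] at hi
    have dm : LowDeg P.cap (fun x => f x ^ i * q x ^ (2 ^ (s + 1) - 1 - i)) := by
      refine ((hf.pow i).mul (hq.pow (2 ^ (s + 1) - 1 - i))).mono ?_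
      rw [← Nat.add_mul]
      exact le_trans (Nat.mul_le_mul_right T (by omega)) hcap
    have hN : P.N (fun x => f x ^ i * q x ^ (2 ^ (s + 1) - 1 - i)) ≤ Real.sqrt Y :=
      sa2_mixed h1 hf hq hcap hY hfm hqm (by omega) (by omega)
    have hc := PE.cs (hg.mono hcap1) dm
    have hb : P.N (fun x => f x - q x) * P.N (fun x => f x ^ i * q x ^ (2 ^ (s + 1) - 1 - i))
        ≤ ω * Real.sqrt Y := mul_le_mul hω hN (PE.N_nonneg _) hω0
    have := neg_abs_le (P.E (fun x => (f x - q x) * (f x ^ i * q x ^ (2 ^ (s + 1) - 1 - i))))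
    linarith
  have hsum := Finset.sum_le_sum hterm
  rw [Finset.sum_const, Finset.card_range, nsmul_eq_mul] at hsum
  push_cast at hsum
  linarith

end GridLine
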