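import Mathlib

/-!
# An averaging argument
-/

set_option linter.unusedSectionVars false

namespace GridLine

open Finset

/-- An averaging argument. -/
theorem avg_exists {Ω S K I : Type} [Fintype Ω] [Fintype S] [Nonempty S] [Fintype K] [Fintype I]
    (good : Finset Ω) (hne : 0 < Fintype.card Ω) (hgood : Fintype.card Ω ≤ 2 * good.card)
    {x : ℕ} (hx : 1 ≤ x)
    (hK : Fintype.card K ≤ x) (hI : Fintype.card I ≤ x) {A₁ A₂ A₃ : ℝ} (h1 : 0 < A₁)
    (h2 : 0 < A₂) (h3 : 0 < A₃) (X : K → Ω → S → ℝ) (M τ : I → Ω → S → ℝ)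
    (hX0 : ∀ k, ∀ T ∈ good, ∀ r, 0 ≤ X k T r) (hM0 : ∀ a, ∀ T ∈ good, ∀ r, 0 ≤ M a T r)
    (hτ0 : ∀ a, ∀ T ∈ good, ∀ r, 0 ≤ τ a T r)
    (hX : ∀ k, ∀ T ∈ good, ∑ r, X k T r ≤ Fintype.card S * A₁)
    (hM : ∀ a, ∀ T ∈ good, ∑ r, M a T r ≤ Fintype.card S * A₂)
    (hτ : ∀ a, ∑ T ∈ good, ∑ r, τ a T r ≤ Fintype.card Ω * Fintype.card S * A₃) :
    ∃ T ∈ good, ∃ r, (∀ k, X k T r ≤ 3 * x * A₁) ∧ (∀ a, M a T r ≤ 3 * x * A₂) ∧
      (∀ a, τ a T r ≤ 6 * x * A₃) := by
  have hx0 : (0 : ℝ) < x := by exact_mod_cast hx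
  have hgc : 0 < good.card := by omega
  have hKx : (Fintype.card K : ℝ) ≤ x := by exact_mod_cast hK
  have hIx : (Fintype.card I : ℝ) ≤ x := by exact_mod_cast hI
  have hgoodR : (Fintype.card Ω : ℝ) ≤ 2 * good.card := by exact_mod_cast hgood
  have hS0 : (0 : ℝ) < Fintype.card S := by exact_mod_cast Fintype.card_pos
  set F : Ω × S → ℝ := fun w => (∑ k, X k w.1 w.2) / (x * A₁) + (∑ a, M a w.1 w.2) / (x * A₂)
    + (∑ a, τ a w.1 w.2) / (2 * x * A₃) with hF
  have hsum : ∑ w ∈ good ×ˢ (univ : Finset S), F w ≤ ∑ w ∈ good ×ˢ (univ : Finset S), (3 : ℝ) := by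
    rw [hF]
    simp only [sum_add_distrib, ← sum_div]
    have e1 : (∑ w ∈ good ×ˢ (univ : Finset S), ∑ k, X k w.1 w.2)
        ≤ good.card * Fintype.card S * (x * A₁) := by
      rw [sum_product]
      calc _ ≤ ∑ T ∈ good, (Fintype.card S * (x * A₁) : ℝ) := by
            refine sum_le_sum fun T hT => ?_
            rw [sum_comm]
            calc _ ≤ ∑ k : K, (Fintype.card S * A₁ : ℝ) := sum_le_sum fun k _ => hX k T hT
              _ = Fintype.card K * (Fintype.card S * A₁) := by simp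
              _ ≤ x * (Fintype.card S * A₁) := by gcongr
              _ = _ := by ring
        _ = _ := by rw [sum_const, nsmul_eq_mul]; ring
    have e2 : (∑ w ∈ good ×ˢ (univ : Finset S), ∑ a, M a w.1 w.2)
        ≤ good.card * Fintype.card S * (x * A₂) := by
      rw [sum_product]
      calc _ ≤ ∑ T ∈ good, (Fintype.card S * (x * A₂) : ℝ) := by
            refine sum_le_sum fun T hT => ?_
            rw [sum_comm]
            calc _ ≤ ∑ k : I, (Fintype.card S * A₂ : ℝ) := sum_le_sum fun k _ => hM k T hT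
              _ = Fintype.card I * (Fintype.card S * A₂) := by simp
              _ ≤ x * (Fintype.card S * A₂) := by gcongr
              _ = _ := by ring
        _ = _ := by rw [sum_const, nsmul_eq_mul]; ring
    have e3 : (∑ w ∈ good ×ˢ (univ : Finset S), ∑ a, τ a w.1 w.2)
        ≤ good.card * Fintype.card S * (2 * x * A₃) := by
      rw [sum_comm]
      calc _ ≤ ∑ a : I, (Fintype.card Ω * Fintype.card S * A₃ : ℝ) := by
            refine sum_le_sum fun a _ => ?_
            rw [sum_product]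
            exact hτ a
        _ = Fintype.card I * (Fintype.card Ω * Fintype.card S * A₃) := by simp
        _ ≤ x * (2 * good.card * Fintype.card S * A₃) := by gcongr
        _ = _ := by ring
    have f1 : (∑ w ∈ good ×ˢ (univ : Finset S), ∑ k, X k w.1 w.2) / (x * A₁)
        ≤ good.card * Fintype.card S := (div_le_iff₀ (by positivity)).2 e1
    have f2 : (∑ w ∈ good ×ˢ (univ : Finset S), ∑ a, M a w.1 w.2) / (x * A₂)
        ≤ good.card * Fintype.card S := (div_le_iff₀ (by positivity)).2 e2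
    have f3 : (∑ w ∈ good ×ˢ (univ : Finset S), ∑ a, τ a w.1 w.2) / (2 * x * A₃)
        ≤ good.card * Fintype.card S := (div_le_iff₀ (by positivity)).2 e3
    rw [sum_const, nsmul_eq_mul, card_product, card_univ]
    push_cast
    linarith
  obtain ⟨T₀, hT₀⟩ := card_pos.1 hgc
  obtain ⟨⟨T, r⟩, hw, hle⟩ := exists_le_of_sum_le
    (⟨(T₀, Classical.arbitrary S), by simp [hT₀]⟩ :
      (good ×ˢ (univ : Finset S)).Nonempty) hsum
  have hT : T ∈ good := (mem_product.1 hw).1
  have hle' : (∑ k, X k T r) / (x * A₁) + (∑ a, M a T r) / (x * A₂)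
    + (∑ a, τ a T r) / (2 * x * A₃) ≤ 3 := hle
  have g1 : 0 ≤ (∑ k, X k T r) / (x * A₁) :=
    div_nonneg (sum_nonneg fun k _ => hX0 k T hT r) (by positivity)
  have g2 : 0 ≤ (∑ a, M a T r) / (x * A₂) :=
    div_nonneg (sum_nonneg fun k _ => hM0 k T hT r) (by positivity)
  have g3 : 0 ≤ (∑ a, τ a T r) / (2 * x * A₃) :=
    div_nonneg (sum_nonneg fun k _ => hτ0 k T hT r) (by positivity)
  refine ⟨T, hT, r, fun k => ?_, fun a => ?_, fun a => ?_⟩
  · have h := (div_le_iff₀ (by positivity)).1 (show (∑ k, X k T r) / (x * A₁) ≤ 3 by linarith)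
    have h' := single_le_sum (fun k _ => hX0 k T hT r) (mem_univ k)
    calc X k T r ≤ ∑ k, X k T r := h'
      _ ≤ 3 * (x * A₁) := h
      _ = _ := by ring
  · have h := (div_le_iff₀ (by positivity)).1 (show (∑ a, M a T r) / (x * A₂) ≤ 3 by linarith)
    have h' := single_le_sum (fun k _ => hM0 k T hT r) (mem_univ a)
    calc M a T r ≤ ∑ k, M k T r := h'
      _ ≤ 3 * (x * A₂) := h
      _ = _ := by ring
  · have h := (div_le_iff₀ (by positivity)).1 (show (∑ a, τ a T r) / (2 * x * A₃) ≤ 3 by linarith)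
    have h' := single_le_sum (fun k _ => hτ0 k T hT r) (mem_univ a)
    calc τ a T r ≤ ∑ k, τ k T r := h'
      _ ≤ 3 * (2 * x * A₃) := h
      _ = _ := by ring

end GridLine
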