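import Pool.Agent.Work.MP_c07f0d_lc.TL.SkDef

/-!
# Skeletons: evaluation and approximants
-/

set_option linter.unusedSectionVars false

namespace GridLine

open Finset LineSize

namespace Sk

variable {β : Type}

lemma card_pos (S : Sk β) : Fintype.card S.Pos = S.size := by
  induction S with
  | leaf b => exact Fintype.card_unit
  | and a b iha ihb =>
    show Fintype.card (a.Pos ⊕ b.Pos) = a.size + b.size
    rw [Fintype.card_sum, iha, ihb]
  | or a b iha ihb =>
    show Fintype.card (a.Pos ⊕ b.Pos) = a.size + b.size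
    rw [Fintype.card_sum, iha, ihb]

lemma mem_lab (S : Sk β) (i : S.Pos) : S.Mem (S.lab i) := by
  induction S with
  | leaf b => exact rfl
  | and a b iha ihb =>
    cases i with
    | inl i => exact Or.inl (iha i)
    | inr i => exact Or.inr (ihb i)
  | or a b iha ihb =>
    cases i with
    | inl i => exact Or.inl (iha i)
    | inr i => exact Or.inr (ihb i)

lemma skA_bv_or (a b : Bool) : bv (a || b) = bv a + bv b - bv a * bv b := by
  cases a <;> cases b <;> simp [bv]

/-- The structural evaluation is the multilinear extension of the Boolean function. -/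
lemma FE_eq {ι : Type} [Fintype ι] [DecidableEq ι] (A : β → (ι → Bool) → ℝ) (S : Sk β)
    (x : ι → Bool) : FE A S x = mle (fun v => bv (S.evb v)) (fun i => A (S.lab i)) x := by
  induction S with
  | leaf b =>
    exact (mle_coord (κ := Unit) () (fun _ => A b) x).symm
  | and a b iha ihb =>
    have h := mle_mul_sum (fun v => bv (a.evb v)) (fun v => bv (b.evb v))
      (Sum.elim (fun i => A (a.lab i)) (fun i => A (b.lab i))) x
    simp only [Sum.elim_inl, Sum.elim_inr] at h
    have hz : (fun i : (Sk.and a b).Pos => A ((Sk.and a b).lab i)) =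
        Sum.elim (fun i => A (a.lab i)) (fun i => A (b.lab i)) := by
      funext i
      cases i <;> rfl
    have hv : (fun v : (Sk.and a b).Pos → Bool => bv ((Sk.and a b).evb v)) =
        fun v => bv (a.evb fun i => v (Sum.inl i)) * bv (b.evb fun i => v (Sum.inr i)) := by
      funext v
      exact bv_and _ _
    show FE A a x * FE A b x = _
    rw [iha, ihb, hz, hv]
    exact h.symm
  | or a b iha ihb =>
    set z : a.Pos ⊕ b.Pos → (ι → Bool) → ℝ :=
      Sum.elim (fun i => A (a.lab i)) (fun i => A (b.lab i)) with hzdef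
    have h := mle_mul_sum (fun v => bv (a.evb v)) (fun v => bv (b.evb v)) z x
    have h1 := mle_mul_sum (fun v => bv (a.evb v)) (fun _ : b.Pos → Bool => (1 : ℝ)) z x
    have h2 := mle_mul_sum (fun _ : a.Pos → Bool => (1 : ℝ)) (fun v => bv (b.evb v)) z x
    rw [mle_const] at h1 h2
    simp only [mul_one, one_mul, hzdef, Sum.elim_inl, Sum.elim_inr] at h h1 h2
    have hz : (fun i : (Sk.or a b).Pos => A ((Sk.or a b).lab i)) = z := by
      funext i
      cases i <;> rfl
    have hv : (fun v : (Sk.or a b).Pos → Bool => bv ((Sk.or a b).evb v)) =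
        fun v : a.Pos ⊕ b.Pos → Bool =>
          (bv (a.evb fun i => v (Sum.inl i)) + bv (b.evb fun i => v (Sum.inr i))) -
          bv (a.evb fun i => v (Sum.inl i)) * bv (b.evb fun i => v (Sum.inr i)) := by
      funext v
      exact skA_bv_or _ _
    show FE A a x + FE A b x - FE A a x * FE A b x = _
    rw [iha, ihb, hz, hv]
    refine Eq.trans ?_ (mle_sub (κ := a.Pos ⊕ b.Pos) _ _ z x).symm
    rw [mle_add (κ := a.Pos ⊕ b.Pos)]
    exact congrArg₂ (· - ·) (congrArg₂ (· + ·) h1.symm h2.symm) h.symm

lemma Dg_mono {q l l' : ℕ} (h : l ≤ l') : Dg q l ≤ Dg q l' := by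
  unfold Dg
  have := Nat.sqrt_le_sqrt (Nat.mul_le_mul_left 23 h)
  gcongr

/-- The formula over the positions with the shape of a skeleton. -/
def skA_tr : (S : Sk β) → {γ : Type} → (S.Pos → γ) → Tr γ
  | leaf _, _, f => .leaf (.pos (f ()))
  | and a b, _, f => .and (skA_tr a fun i => f (Sum.inl i)) (skA_tr b fun i => f (Sum.inr i))
  | or a b, _, f => .or (skA_tr a fun i => f (Sum.inl i)) (skA_tr b fun i => f (Sum.inr i))

lemma skA_tr_leaves (S : Sk β) {γ : Type} (f : S.Pos → γ) : (skA_tr S f).leaves = S.size := by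
  induction S with
  | leaf b => rfl
  | and a b iha ihb =>
    show (skA_tr a _).leaves + (skA_tr b _).leaves = a.size + b.size
    rw [iha, ihb]
  | or a b iha ihb =>
    show (skA_tr a _).leaves + (skA_tr b _).leaves = a.size + b.size
    rw [iha, ihb]

lemma skA_tr_ev (S : Sk β) {γ : Type} (f : S.Pos → γ) (v : γ → Bool) :
    (skA_tr S f).ev v = S.evb fun i => v (f i) := by
  induction S with
  | leaf b => rfl
  | and a b iha ihb =>
    show ((skA_tr a _).ev v && (skA_tr b _).ev v) = (a.evb _ && b.evb _)
    rw [iha, ihb]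
  | or a b iha ihb =>
    show ((skA_tr a _).ev v || (skA_tr b _).ev v) = (a.evb _ || b.evb _)
    rw [iha, ihb]

/-- Approximants of a skeleton. -/
theorem exists_apx (S : Sk β) (q : ℕ) : ∃ G : (S.Pos → Bool) → ℝ, LowDeg (Dg q S.size) G ∧
    ∀ v, |G v - bv (S.evb v)| ≤ (3 / 5) ^ (2 * q + 1) := by
  have hk : 45 * (skA_tr S (id : S.Pos → S.Pos)).leaves ≤
      2 * (Nat.sqrt (23 * S.size) + 1) ^ 2 := by
    rw [skA_tr_leaves]
    have h := Nat.lt_succ_sqrt (23 * S.size)
    rw [Nat.succ_eq_add_one] at h
    nlinarith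
  obtain ⟨g, hg, h1, h0⟩ := approx (skA_tr S (id : S.Pos → S.Pos)) _ hk
  refine ⟨fun v => maj q (g v), ?_, ?_⟩
  · exact lowDeg_maj hg q
  · intro v
    have he := skA_tr_ev S (id : S.Pos → S.Pos) v
    simp only [id] at he
    cases hx : S.evb v with
    | true =>
      rw [hx] at he
      obtain ⟨ha, hb⟩ := h1 v he
      have := maj_high (q := q) ha hb
      rw [abs_sub_comm]
      simpa [bv] using this
    | false =>
      rw [hx] at he
      obtain ⟨ha, hb⟩ := h0 v he
      have := maj_low (q := q) ha hb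
      simpa [bv] using this

end Sk

end GridLine
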