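import Pool.Agent.Work.MP_c07f0d_lc.TL.MleX
import Pool.Agent.Work.MP_c07f0d_lc.LS.Amp

/-!
# Skeletons of formulas: definitions
-/

set_option linter.unusedSectionVars false

namespace GridLine

open Finset LineSize

/-- Skeletons: formulas over `∧, ∨` whose leaves carry labels. -/
inductive Sk (β : Type) : Type
  | leaf : β → Sk β
  | and : Sk β → Sk β → Sk β
  | or : Sk β → Sk β → Sk β

namespace Sk

variable {β : Type}

/-- The positions of the leaves. -/
def Pos : Sk β → Type
  | leaf _ => Unit
  | and a b => a.Pos ⊕ b.Pos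
  | or a b => a.Pos ⊕ b.Pos

instance instFintypePos : (S : Sk β) → Fintype S.Pos
  | leaf _ => inferInstanceAs (Fintype Unit)
  | and a b =>
    haveI := instFintypePos a
    haveI := instFintypePos b
    inferInstanceAs (Fintype (a.Pos ⊕ b.Pos))
  | or a b =>
    haveI := instFintypePos a
    haveI := instFintypePos b
    inferInstanceAs (Fintype (a.Pos ⊕ b.Pos))

instance instDecEqPos : (S : Sk β) → DecidableEq S.Pos
  | leaf _ => inferInstanceAs (DecidableEq Unit)
  | and a b =>
    haveI := instDecEqPos a
    haveI := instDecEqPos b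
    inferInstanceAs (DecidableEq (a.Pos ⊕ b.Pos))
  | or a b =>
    haveI := instDecEqPos a
    haveI := instDecEqPos b
    inferInstanceAs (DecidableEq (a.Pos ⊕ b.Pos))

/-- The number of leaves. -/
def size : Sk β → ℕ
  | leaf _ => 1
  | and a b => a.size + b.size
  | or a b => a.size + b.size

/-- The label of a leaf. -/
def lab : (S : Sk β) → S.Pos → β
  | leaf b => fun _ => b
  | and a b => Sum.elim a.lab b.lab
  | or a b => Sum.elim a.lab b.lab

/-- The labels. -/
def Mem (x : β) : Sk β → Prop
  | leaf b => x = b
  | and a b => a.Mem x ∨ b.Mem x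
  | or a b => a.Mem x ∨ b.Mem x

/-- The value, for given values of the leaves. -/
def evb : (S : Sk β) → (S.Pos → Bool) → Bool
  | leaf _ => fun v => v ()
  | and a b => fun v => a.evb (fun i => v (Sum.inl i)) && b.evb (fun i => v (Sum.inr i))
  | or a b => fun v => a.evb (fun i => v (Sum.inl i)) || b.evb (fun i => v (Sum.inr i))

/-- Structural real evaluation. -/
noncomputable def FE {ι : Type} (A : β → (ι → Bool) → ℝ) : Sk β → (ι → Bool) → ℝ
  | leaf b => A b
  | and a b => fun x => FE A a x * FE A b x
  | or a b => fun x => FE A a x + FE A b x - FE A a x * FE A b x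

/-- The degree of the approximants. -/
def Dg (q l : ℕ) : ℕ := (2 * q + 1) * (2 * Nat.sqrt (23 * l) + 1)

end Sk

section Rep

variable {ι : Type}

/-- Closing a representation: `(Z, some (w₀, w₁))` means `(w₁ ∧ Z) ∨ w₀`. -/
def full : Sk (Tr ι) × Option (Tr ι × Tr ι) → Sk (Tr ι)
  | (Z, none) => Z
  | (Z, some (w₀, w₁)) => .or (.and (.leaf w₁) Z) (.leaf w₀)

/-- Adding a small formula `b` with the gate `o`. -/
def addSmall (s : ℕ) (o : Tr ι → Tr ι → Tr ι) (r : Sk (Tr ι) × Option (Tr ι × Tr ι))
    (b : Tr ι) : Sk (Tr ι) × Option (Tr ι × Tr ι) :=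
  match r with
  | (Z, none) => (Z, some (o (.leaf (.cst false)) b, o (.leaf (.cst true)) b))
  | (Z, some (w₀, w₁)) =>
    if w₁.leaves + b.leaves ≤ s then (Z, some (o w₀ b, o w₁ b))
    else (full (Z, some (w₀, w₁)), some (o (.leaf (.cst false)) b, o (.leaf (.cst true)) b))

/-- The representation of a formula with at least `s` leaves by a skeleton whose labels have at
most `s` leaves. -/
def rep (s : ℕ) : Tr ι → Sk (Tr ι) × Option (Tr ι × Tr ι)
  | .leaf l => (.leaf (.leaf l), none)
  | .and a b =>
    if s ≤ a.leaves then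
      if s ≤ b.leaves then (.and (full (rep s a)) (full (rep s b)), none)
      else addSmall s Tr.and (rep s a) b
    else
      if s ≤ b.leaves then addSmall s (fun x y => Tr.and y x) (rep s b) a
      else (.and (.leaf a) (.leaf b), none)
  | .or a b =>
    if s ≤ a.leaves then
      if s ≤ b.leaves then (.or (full (rep s a)) (full (rep s b)), none)
      else addSmall s Tr.or (rep s a) b
    else
      if s ≤ b.leaves then addSmall s (fun x y => Tr.or y x) (rep s b) a
      else (.or (.leaf a) (.leaf b), none)

/-- The skeleton of a large formula. -/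
def skel (s : ℕ) (T : Tr ι) : Sk (Tr ι) := full (rep s T)

end Rep

end GridLine
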