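import Pool.Agent.Work.MP_c07f0d_lc.TL.StageDef
import Pool.Agent.Work.MP_c07f0d_lc.TL.WorldB
import Pool.Agent.Work.MP_c07f0d_lc.TL.SA1

/-!
# Passing to canonical functions
-/

set_option linter.unusedSectionVars false

namespace GridLine

open Finset LineSize

/-- `f` and `g` have the same inner products with the functions of degree at most `d`. -/
def StaRel {V E J : Type} [Fintype V] [DecidableEq V] [Fintype E] [DecidableEq E]
    [Fintype J] [DecidableEq J] (G : Net V E J) (c : V → Bool) (d : ℕ)
    (f g : (E → Bool) → ℝ) : Prop :=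
  ∀ u, LowDeg d u → G.Ex c (fun x => f x * u x) = G.Ex c (fun x => g x * u x)

section sta

variable {V E J : Type} [Fintype V] [DecidableEq V] [Fintype E] [DecidableEq E]
    [Fintype J] [DecidableEq J] {G : Net V E J} {c : V → Bool}

lemma StaRel.mono {d d' : ℕ} {f g : (E → Bool) → ℝ} (h : StaRel G c d f g) (hd : d' ≤ d) :
    StaRel G c d' f g := fun u hu => h u (hu.mono hd)

lemma StaRel.refl (d : ℕ) (f : (E → Bool) → ℝ) : StaRel G c d f f := fun _ _ => rfl

lemma StaRel.add {d : ℕ} {f g f' g' : (E → Bool) → ℝ} (h : StaRel G c d f g)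
    (h' : StaRel G c d f' g') :
    StaRel G c d (fun x => f x + f' x) (fun x => g x + g' x) := by
  intro u hu
  have e1 : (fun x => (f x + f' x) * u x) = fun x => f x * u x + f' x * u x := by
    funext x
    ring
  have e2 : (fun x => (g x + g' x) * u x) = fun x => g x * u x + g' x * u x := by
    funext x
    ring
  rw [e1, e2]
  change Et G.src G.tgt c _ = Et G.src G.tgt c _
  rw [Et_add, Et_add]
  have h1 := h u hu
  have h2 := h' u hu
  change Et G.src G.tgt c _ = Et G.src G.tgt c _ at h1 h2
  rw [h1, h2]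

lemma StaRel.const_mul {d : ℕ} (a : ℝ) {f g : (E → Bool) → ℝ} (h : StaRel G c d f g) :
    StaRel G c d (fun x => a * f x) (fun x => a * g x) := by
  intro u hu
  have e1 : (fun x => (a * f x) * u x) = fun x => a * (f x * u x) := by
    funext x
    ring
  have e2 : (fun x => (a * g x) * u x) = fun x => a * (g x * u x) := by
    funext x
    ring
  rw [e1, e2]
  change Et G.src G.tgt c _ = Et G.src G.tgt c _
  rw [Et_const_mul, Et_const_mul]
  have h1 := h u hu
  change Et G.src G.tgt c _ = Et G.src G.tgt c _ at h1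
  rw [h1]

lemma StaRel.mul {d e₁ e₂ : ℕ} {f₁ g₁ f₂ g₂ : (E → Bool) → ℝ} (h₁ : StaRel G c (d + e₂) f₁ g₁)
    (h₂ : StaRel G c (d + e₁) f₂ g₂) (hf : LowDeg e₂ f₂) (hg : LowDeg e₁ g₁) :
    StaRel G c d (fun x => f₁ x * f₂ x) (fun x => g₁ x * g₂ x) := by
  intro u hu
  have e1 : (fun x => (f₁ x * f₂ x) * u x) = fun x => f₁ x * (u x * f₂ x) := by
    funext x
    ring
  have e2 : (fun x => g₁ x * (u x * f₂ x)) = fun x => f₂ x * (u x * g₁ x) := by
    funext x
    ring
  have e3 : (fun x => (g₁ x * g₂ x) * u x) = fun x => g₂ x * (u x * g₁ x) := by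
    funext x
    ring
  rw [e1, h₁ _ (hu.mul hf), e2, h₂ _ (hu.mul hg), e3]

lemma StaRel.ex {d : ℕ} {f g : (E → Bool) → ℝ} (h : StaRel G c d f g) :
    G.Ex c f = G.Ex c g := by
  have h1 := h (fun _ => 1) (LowDeg.const d 1)
  simpa only [mul_one] using h1

lemma StaRel.pow {K T : ℕ} {f g : (E → Bool) → ℝ} (h : StaRel G c T f g) (hf : LowDeg K f)
    (hg : LowDeg K g) : ∀ (n d : ℕ), d + n * K ≤ T →
      StaRel G c d (fun x => f x ^ n) (fun x => g x ^ n) := by
  intro n
  induction n with
  | zero =>
    intro d _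
    simp only [pow_zero]
    exact StaRel.refl d _
  | succ n ih =>
    intro d hd
    rw [add_mul, one_mul] at hd
    have h1 : StaRel G c d (fun x => f x ^ n * f x) (fun x => g x ^ n * g x) := by
      refine StaRel.mul (e₁ := n * K) (e₂ := K) (ih (d + K) (by omega)) (h.mono (by omega)) hf ?_
      exact hg.pow n
    simpa only [pow_succ] using h1

end sta

/-- Passing to canonical functions. -/
theorem canon_family {V E J : Type} [Fintype V] [DecidableEq V] [Fintype E] [DecidableEq E]
    [Fintype J] [DecidableEq J] {G : Net V E J} {c : V → Bool} {I R : Type} (rel : R → Rl I)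
    {K s : ℕ} {Q η : ℝ} (h : G.Ok (2 ^ (s + 2) * K)) (p : I → (E → Bool) → ℝ)
    (deg : ∀ a, LowDeg K (p a))
    (rels : ∀ r, G.Ex c (fun x => (rel r).val p x ^ 2) ≤ η ^ 2)
    (mom : ∀ a, G.Ex c (fun x => p a x ^ 2 ^ (s + 1)) ≤ Q) :
    ∃ q, Fam G c rel K s Q η q := by
  set T := 2 ^ (s + 2) * K with hT
  have hp1 : 4 ≤ 2 ^ (s + 2) := by
    have h1 : 1 ≤ 2 ^ s := Nat.one_le_two_pow
    rw [pow_add]
    omega
  have hKT : 4 * K ≤ T := Nat.mul_le_mul_right K hp1
  have hK : K ≤ T := by omega
  have hrel : ∀ a, StaRel G c T (G.proj c K (p a)) (p a) := by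
    intro a u hu
    exact Net.Ex_proj_mul h hK (deg a) hu
  have hqd : ∀ a, LowDeg K (G.proj c K (p a)) := fun a => Net.lowDeg_proj K (p a)
  refine ⟨fun a => G.proj c K (p a), ⟨hqd, fun a => Net.canon_proj K (p a), ?_, ?_⟩⟩
  · intro r
    have hval : StaRel G c (3 * K) ((rel r).val fun a => G.proj c K (p a)) ((rel r).val p) := by
      have hprod : StaRel G c (3 * K)
          (fun x => G.proj c K (p (rel r).b) x * G.proj c K (p (rel r).c) x)
          (fun x => p (rel r).b x * p (rel r).c x) :=
        StaRel.mul (e₁ := K) (e₂ := K) ((hrel _).mono (by omega)) ((hrel _).mono (by omega))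
          (hqd _) (deg _)
      have h1 := (((StaRel.refl (G := G) (c := c) (3 * K) (fun _ => -(rel r).α₀)).add
        (((hrel (rel r).b).mono (by omega : 3 * K ≤ T)).const_mul (-(rel r).α₁))).add
        (((hrel (rel r).c).mono (by omega : 3 * K ≤ T)).const_mul (-(rel r).α₂))).add
        (hprod.const_mul (-(rel r).α₃))
      have h2 := ((hrel (rel r).a).mono (by omega : 3 * K ≤ T)).add h1
      intro u hu
      have h3 := h2 u hu
      have e1 : (fun x => (rel r).val (fun a => G.proj c K (p a)) x * u x) = fun x =>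
          (G.proj c K (p (rel r).a) x + (-(rel r).α₀ + -(rel r).α₁ * G.proj c K (p (rel r).b) x
            + -(rel r).α₂ * G.proj c K (p (rel r).c) x + -(rel r).α₃ *
            (G.proj c K (p (rel r).b) x * G.proj c K (p (rel r).c) x))) * u x := by
        funext x
        simp only [Rl.val]
        ring
      have e2 : (fun x => (rel r).val p x * u x) = fun x =>
          (p (rel r).a x + (-(rel r).α₀ + -(rel r).α₁ * p (rel r).b x
            + -(rel r).α₂ * p (rel r).c x + -(rel r).α₃ *
            (p (rel r).b x * p (rel r).c x))) * u x := by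
        funext x
        simp only [Rl.val]
        ring
      rw [e1, e2]
      exact h3
    have hd1 : LowDeg (2 * K) ((rel r).val fun a => G.proj c K (p a)) := Rl.lowDeg _ hqd
    have hd2 : LowDeg (2 * K) ((rel r).val p) := Rl.lowDeg _ deg
    have h4 : StaRel G c 0
        (fun x => (rel r).val (fun a => G.proj c K (p a)) x
          * (rel r).val (fun a => G.proj c K (p a)) x)
        (fun x => (rel r).val p x * (rel r).val p x) :=
      StaRel.mul (e₁ := 2 * K) (e₂ := 2 * K) (hval.mono (by omega)) (hval.mono (by omega)) hd1 hd2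
    have h5 := h4.ex
    have h6 := rels r
    simp only [pow_two] at h6 ⊢
    rw [h5]
    exact h6
  · intro a
    have hle : 0 + 2 ^ (s + 1) * K ≤ T := by
      rw [zero_add]
      exact Nat.mul_le_mul_right K (Nat.pow_le_pow_right (by norm_num) (by omega))
    have h1 := (StaRel.pow (hrel a) (hqd a) (deg a) (2 ^ (s + 1)) 0 hle).ex
    rw [h1]
    exact mom a

end GridLine
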