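import Pool.Agent.Work.MP_c07f0d_lc.TL.TowerA

/-!
# Restrictions along a routing: the tail
-/

set_option linter.unusedSectionVars false

namespace GridLine

open Finset LineSize

section

variable {V₀ E₀ J₀ V₁ E₁ J₁ : Type} [Fintype V₀] [DecidableEq V₀] [Fintype E₀] [DecidableEq E₀]
  [Fintype J₀] [DecidableEq J₀] [Fintype V₁] [DecidableEq V₁] [Fintype E₁] [DecidableEq E₁]
  [Fintype J₁] [DecidableEq J₁]
  {G₀ : Net V₀ E₀ J₀} {G₁ : Net V₁ E₁ J₁} {b : V₁ → V₀} {w : E₁ → V₀}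

/-- The coefficients of the restricted function. -/
lemma towB_cc (c₁ : V₁ → Bool) (y₀ : E₀ → Bool) (p : (E₀ → Bool) → ℝ) (r : J₀ → Bool)
    (C : Finset E₁) :
    G₁.cc c₁ (fun x => p (ymap G₀ G₁ b w y₀ r x)) C
      = ∑ A : Finset E₀, (fc p A * chi A y₀ * G₁.Ex c₁ (chi (symmDiff (pull G₀ G₁ b w A) C)))
        * chi (G₀.phi A) r := by
  unfold Net.cc
  have h : (fun x => p (ymap G₀ G₁ b w y₀ r x) * chi C x)
      = fun x => ∑ A : Finset E₀, (fc p A * chi A y₀ * chi (G₀.phi A) r)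
        * chi (symmDiff (pull G₀ G₁ b w A) C) x := by
    funext x
    rw [towA_expand p y₀ r x, Finset.sum_mul]
    refine Finset.sum_congr rfl fun A _ => ?_
    rw [mul_assoc, chi_mul]
  rw [h]
  unfold Net.Ex
  rw [Et_sum]
  refine Finset.sum_congr rfl fun A _ => ?_
  rw [Et_const_mul]
  ring

/-- Orthogonality over the combinations of cycles. -/
lemma towB_sum_sq (a : Finset E₀ → ℝ) (ha : ∀ A, a A ≠ 0 → G₀.rp A = A) :
    ∑ r : J₀ → Bool, (∑ A : Finset E₀, a A * chi (G₀.phi A) r) ^ 2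
      = 2 ^ Fintype.card J₀ * ∑ A : Finset E₀, a A ^ 2 := by
  have h1 : ∀ r : J₀ → Bool, (∑ A : Finset E₀, a A * chi (G₀.phi A) r) ^ 2
      = ∑ A : Finset E₀, ∑ B : Finset E₀,
        (a A * a B) * chi (symmDiff (G₀.phi A) (G₀.phi B)) r := by
    intro r
    rw [sq, Finset.sum_mul_sum]
    refine Finset.sum_congr rfl fun A _ => Finset.sum_congr rfl fun B _ => ?_
    rw [← chi_mul]
    ring
  simp only [h1]
  rw [Finset.sum_comm, Finset.mul_sum]
  refine Finset.sum_congr rfl fun A _ => ?_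
  rw [Finset.sum_comm]
  simp only [← Finset.mul_sum, sum_chi]
  rw [Finset.sum_eq_single A]
  · rw [if_pos (by simp)]
    ring
  · intro B _ hBA
    by_cases hA : a A = 0
    · rw [hA]
      ring
    by_cases hB : a B = 0
    · rw [hB]
      ring
    rw [if_neg, mul_zero]
    intro h
    exact hBA (Net.phi_inj (ha A hA) (ha B hB) (symmDiff_eq_bot.mp h)).symm
  · intro h
    exact absurd (Finset.mem_univ A) h

/-- The tail property. -/
theorem tail_bound {c₁ : V₁ → Bool} {T₁ k : ℕ} (h₁ : G₁.Ok T₁)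
    (y₀ : E₀ → Bool) {p : (E₀ → Bool) → ℝ} (hc : G₀.Canon p) :
    ∑ r : J₀ → Bool, ∑ C ∈ (G₁.Reps T₁).filter (fun C => k < C.card),
        G₁.cc c₁ (fun x => p (ymap G₀ G₁ b w y₀ r x)) C ^ 2
      ≤ 2 ^ Fintype.card J₀ * ∑ A : Finset E₀,
        fc p A ^ 2 * (if k < (pull G₀ G₁ b w A).card then 1 else 0) := by
  rw [Finset.sum_comm]
  have h1 : ∀ C : Finset E₁, ∑ r : J₀ → Bool,
        G₁.cc c₁ (fun x => p (ymap G₀ G₁ b w y₀ r x)) C ^ 2
      = 2 ^ Fintype.card J₀ * ∑ A : Finset E₀,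
        fc p A ^ 2 * G₁.Ex c₁ (chi (symmDiff (pull G₀ G₁ b w A) C)) ^ 2 := by
    intro C
    simp only [towB_cc]
    rw [towB_sum_sq]
    · congr 1
      refine Finset.sum_congr rfl fun A _ => ?_
      linear_combination (fc p A ^ 2
        * G₁.Ex c₁ (chi (symmDiff (pull G₀ G₁ b w A) C)) ^ 2) * chi_sq A y₀
    · intro A hA
      refine hc A fun h0 => hA ?_
      rw [h0]
      ring
  simp only [h1]
  rw [← Finset.mul_sum]
  refine mul_le_mul_of_nonneg_left ?_ (by positivity)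
  rw [Finset.sum_comm]
  refine Finset.sum_le_sum fun A _ => ?_
  rw [← Finset.mul_sum]
  refine mul_le_mul_of_nonneg_left ?_ (sq_nonneg _)
  have hz : ∀ C ∈ (G₁.Reps T₁).filter (fun C => k < C.card),
      G₁.Ex c₁ (chi (symmDiff (pull G₀ G₁ b w A) C)) ^ 2 ≠ 0 →
        C = G₁.rp (pull G₀ G₁ b w A) ∧ k < (pull G₀ G₁ b w A).card := by
    intro C hC hne
    rw [Finset.mem_filter] at hC
    have hCr : G₁.rp C = C := (Finset.mem_filter.mp hC.1).2.1
    have hcut : G₁.Cut (symmDiff (pull G₀ G₁ b w A) C) := by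
      by_contra hcon
      apply hne
      rw [Net.Ex_chi_of_not_cut c₁ hcon]
      ring
    have hrp : G₁.rp (pull G₀ G₁ b w A) = G₁.rp C := Net.rp_congr hcut
    rw [hCr] at hrp
    refine ⟨hrp.symm, ?_⟩
    have := Net.rp_card (G := G₁) (pull G₀ G₁ b w A)
    rw [hrp] at this
    omega
  by_cases hk : k < (pull G₀ G₁ b w A).card
  · rw [if_pos hk]
    calc ∑ C ∈ (G₁.Reps T₁).filter (fun C => k < C.card),
          G₁.Ex c₁ (chi (symmDiff (pull G₀ G₁ b w A) C)) ^ 2
        ≤ ∑ C ∈ (G₁.Reps T₁).filter (fun C => k < C.card),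
          (if C = G₁.rp (pull G₀ G₁ b w A) then (1 : ℝ) else 0) := by
          refine Finset.sum_le_sum fun C hC => ?_
          by_cases hne : G₁.Ex c₁ (chi (symmDiff (pull G₀ G₁ b w A) C)) ^ 2 = 0
          · rw [hne]
            split_ifs <;> norm_num
          · rw [if_pos (hz C hC hne).1]
            have := Net.abs_Ex_chi_le (G := G₁) c₁ (symmDiff (pull G₀ G₁ b w A) C)
            rw [← sq_abs]
            exact pow_le_one₀ (abs_nonneg _) this
      _ ≤ 1 := by
          rw [Finset.sum_ite_eq']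
          split_ifs <;> norm_num
  · rw [if_neg hk]
    refine le_of_eq (Finset.sum_eq_zero fun C hC => ?_)
    by_contra hne
    exact hk (hz C hC hne).2

end

end GridLine
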