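import Pool.Agent.Work.MP_c07f0d_lc.TL.StageDef
import Pool.Agent.Work.MP_c07f0d_lc.TL.SA2
import Pool.Agent.Work.MP_c07f0d_lc.TL.SA3
import Pool.Agent.Work.MP_c07f0d_lc.TL.TowerB
import Pool.Agent.Work.MP_c07f0d_lc.TL.Route
import Pool.Agent.Work.MP_c07f0d_lc.TL.WorldB
import Pool.Agent.Work.MP_c07f0d_lc.TL.HypNet

/-!
# One stage of the restriction process
-/

set_option linter.unusedSectionVars false

namespace GridLine

open Finset LineSize

section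

variable {V₀ E₀ J₀ V₁ E₁ J₁ : Type} [Fintype V₀] [DecidableEq V₀] [Fintype E₀] [DecidableEq E₀]
  [Fintype J₀] [DecidableEq J₀] [Fintype V₁] [DecidableEq V₁] [Fintype E₁] [DecidableEq E₁]
  [Fintype J₁] [DecidableEq J₁]

lemma stB_tau (G₀ : Net V₀ E₀ J₀) (G₁ : Net V₁ E₁ J₁) {c₁ : V₁ → Bool} {K k T₁ : ℕ} {Q θ : ℝ}
    (hθ : 1 ≤ θ) (h₁ : G₁.Ok T₁)
    (htail : 2 * (1 + θ) ^ (2 * G₁.deg) * G₀.lam * K * Fintype.card V₁ ≤ k * Fintype.card V₀)
    {p : (E₀ → Bool) → ℝ} (hp : LowDeg K p) (hc : G₀.Canon p)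
    (hsum : ∑ A : Finset E₀, fc p A ^ 2 ≤ Q)
    (y₀ : (V₁ → V₀) → E₀ → Bool) (good : Finset ((V₁ → V₀) × (E₁ → V₀))) :
    ∑ T ∈ good, ∑ r : J₀ → Bool, ∑ C ∈ (G₁.Reps T₁).filter (fun C => k < C.card),
        G₁.cc c₁ (fun x => p (ymap G₀ G₁ T.1 T.2 (y₀ T.1) r x)) C ^ 2 ≤
      Fintype.card ((V₁ → V₀) × (E₁ → V₀)) * Fintype.card (J₀ → Bool) *
        (Q * (Real.exp 1 / θ) ^ k) := by
  have hS : (Fintype.card (J₀ → Bool) : ℝ) = 2 ^ Fintype.card J₀ := by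
    rw [Fintype.card_fun, Fintype.card_bool]
    push_cast
    rfl
  have hex : 0 ≤ Real.exp 1 / θ := by positivity
  calc ∑ T ∈ good, ∑ r : J₀ → Bool, ∑ C ∈ (G₁.Reps T₁).filter (fun C => k < C.card),
        G₁.cc c₁ (fun x => p (ymap G₀ G₁ T.1 T.2 (y₀ T.1) r x)) C ^ 2
      ≤ ∑ T ∈ good, 2 ^ Fintype.card J₀ * ∑ A : Finset E₀,
        fc p A ^ 2 * (if k < (pull G₀ G₁ T.1 T.2 A).card then 1 else 0) :=
        Finset.sum_le_sum fun T _ => tail_bound h₁ (y₀ T.1) hc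
    _ ≤ ∑ T : (V₁ → V₀) × (E₁ → V₀), 2 ^ Fintype.card J₀ * ∑ A : Finset E₀,
        fc p A ^ 2 * (if k < (pull G₀ G₁ T.1 T.2 A).card then 1 else 0) := by
        refine Finset.sum_le_sum_of_subset_of_nonneg (Finset.subset_univ _) fun T _ _ => ?_
        refine mul_nonneg (by positivity) (Finset.sum_nonneg fun A _ => ?_)
        refine mul_nonneg (sq_nonneg _) ?_
        split_ifs <;> norm_num
    _ = 2 ^ Fintype.card J₀ * ∑ A : Finset E₀, fc p A ^ 2 *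
        ((univ.filter fun T : (V₁ → V₀) × (E₁ → V₀) =>
          k < (pull G₀ G₁ T.1 T.2 A).card).card : ℝ) := by
        rw [← Finset.mul_sum, Finset.sum_comm]
        congr 1
        refine Finset.sum_congr rfl fun A _ => ?_
        rw [← Finset.mul_sum, Finset.sum_boole]
    _ ≤ 2 ^ Fintype.card J₀ * ∑ A : Finset E₀, fc p A ^ 2 *
        ((Fintype.card ((V₁ → V₀) × (E₁ → V₀)) : ℝ) * (Real.exp 1 / θ) ^ k) := by
        refine mul_le_mul_of_nonneg_left (Finset.sum_le_sum fun A _ => ?_) (by positivity)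
        by_cases hA : fc p A = 0
        · simp [hA]
        · refine mul_le_mul_of_nonneg_left ?_ (sq_nonneg _)
          refine route_tail G₀ G₁ hθ A k (le_trans ?_ htail)
          have hAK : A.card ≤ K := by
            by_contra h
            exact hA (hp A (by omega))
          have hAK' : (A.card : ℝ) ≤ K := by exact_mod_cast hAK
          have h0 : (0 : ℝ) ≤ 2 * (1 + θ) ^ (2 * G₁.deg) * G₀.lam := by positivity
          exact mul_le_mul_of_nonneg_right (mul_le_mul_of_nonneg_left hAK' h0)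
            (Nat.cast_nonneg _)
    _ = 2 ^ Fintype.card J₀ * ((∑ A : Finset E₀, fc p A ^ 2) *
        ((Fintype.card ((V₁ → V₀) × (E₁ → V₀)) : ℝ) * (Real.exp 1 / θ) ^ k)) := by
        rw [Finset.sum_mul]
    _ ≤ 2 ^ Fintype.card J₀ * (Q *
        ((Fintype.card ((V₁ → V₀) × (E₁ → V₀)) : ℝ) * (Real.exp 1 / θ) ^ k)) := by
        refine mul_le_mul_of_nonneg_left (mul_le_mul_of_nonneg_right hsum ?_) (by positivity)
        exact mul_nonneg (Nat.cast_nonneg _) (pow_nonneg hex k)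
    _ = _ := by
        rw [hS]
        ring

lemma stB_tower (G₀ : Net V₀ E₀ J₀) (G₁ : Net V₁ E₁ J₁)
    {c₀ : V₀ → Bool} {c₁ : V₁ → Bool} {u t : ℕ} (h₀ : G₀.Ok t) (hV : 0 < Fintype.card V₁)
    (ht : 8 * u * G₀.lam * t ≤ Fintype.card V₁) {b : V₁ → V₀} {w : E₁ → V₀}
    (hT : GoodT G₀ G₁ u b w) {y₀ : E₀ → Bool} (hy : Base G₀ c₀ c₁ b y₀)
    {F : (E₀ → Bool) → ℝ} (hF : LowDeg t F) {M : ℝ} (hM : G₀.Ex c₀ F ≤ M) :
    ∑ r : J₀ → Bool, G₁.Ex c₁ (fun x => F (ymap G₀ G₁ b w y₀ r x))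
      ≤ Fintype.card (J₀ → Bool) * M := by
  have hS : (Fintype.card (J₀ → Bool) : ℝ) = 2 ^ Fintype.card J₀ := by
    rw [Fintype.card_fun, Fintype.card_bool]
    push_cast
    rfl
  rw [tower hT h₀ hV ht hy hF, hS]
  exact mul_le_mul_of_nonneg_left hM (by positivity)

end

/-- One stage. -/
theorem stage {V₀ E₀ J₀ V₁ E₁ J₁ : Type} [Fintype V₀] [DecidableEq V₀] [Fintype E₀]
    [DecidableEq E₀] [Fintype J₀] [DecidableEq J₀] [Fintype V₁] [DecidableEq V₁] [Fintype E₁]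
    [DecidableEq E₁] [Fintype J₁] [DecidableEq J₁] (G₀ : Net V₀ E₀ J₀) (G₁ : Net V₁ E₁ J₁)
    {c₀ : V₀ → Bool} {c₁ : V₁ → Bool} (hc₀ : Net.OddCharge c₀) (hc₁ : Net.OddCharge c₁)
    {I R : Type} [Fintype I] [Fintype R] (rel : R → Rl I) {K k u s x : ℕ} {Q η θ : ℝ}
    (hx : 1 ≤ x) (hI : Fintype.card I ≤ x) (hR : Fintype.card R ≤ x) (hQ : 1 ≤ Q) (hη : 0 < η)
    (hθ : 1 ≤ θ) (hk : k ≤ u * K)
    (hOk₀ : G₀.Ok (2 ^ (s + 3) * K)) (hOk₁ : G₁.Ok (2 ^ (s + 3) * (u * K)))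
    (htower : 8 * u * G₀.lam * (2 ^ (s + 3) * K) ≤ Fintype.card V₁)
    (hroute : 2 * 3 ^ (2 * G₁.deg) * G₀.lam * Fintype.card V₁ ≤ Fintype.card V₀)
    (hu : 32 * (Fintype.card V₀ + Fintype.card E₀) ≤ 2 ^ u)
    (htail : 2 * (1 + θ) ^ (2 * G₁.deg) * G₀.lam * K * Fintype.card V₁ ≤ k * Fintype.card V₀)
    (hω : 3 * om x k Q θ + 2 * Real.sqrt (2 * Real.sqrt (YY x G₁.B k s Q) * om x k Q θ) ≤ η)
    (hω' : 2 ^ (s + 1) * Real.sqrt (YY x G₁.B k s Q) * om x k Q θ ≤ 1)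
    {p : I → (E₀ → Bool) → ℝ} (hp : Fam G₀ c₀ rel K (s + 2) Q η p) :
    ∃ q, Fam G₁ c₁ rel k s (6 * x * Q) (4 * x * η) q := by
  classical
  have hV₀ : 0 < Fintype.card V₀ := hOk₀.2
  have hV₁ : 0 < Fintype.card V₁ := hOk₁.2
  have hx' : (1 : ℝ) ≤ x := by exact_mod_cast hx
  have hQ0 : 0 < Q := by linarith
  have hθ0 : 0 < θ := by linarith
  choose y₀ hy₀ using fun b : V₁ → V₀ => exists_base G₀ hc₀ hc₁ b
  set P₀ := G₀.pe c₀ (2 ^ (s + 3) * K) hOk₀ with hP₀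
  set P₁ := G₁.pe c₁ (2 ^ (s + 3) * (u * K)) hOk₁ with hP₁
  have hP₀1 : P₀.E (fun _ => 1) = 1 := Net.pe_one hOk₀
  have hP₁1 : P₁.E (fun _ => 1) = 1 := Net.pe_one hOk₁
  set good : Finset ((V₁ → V₀) × (E₁ → V₀)) :=
    univ.filter fun T : (V₁ → V₀) × (E₁ → V₀) => GoodT G₀ G₁ u T.1 T.2 with hgooddef
  have hgood : Fintype.card ((V₁ → V₀) × (E₁ → V₀)) ≤ 2 * good.card :=
    route_good G₀ G₁ hV₀ hroute hu
  have hΩ : 0 < Fintype.card ((V₁ → V₀) × (E₁ → V₀)) := by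
    have hne : Nonempty V₀ := Fintype.card_pos_iff.1 hV₀
    exact Fintype.card_pos
  -- degrees
  have hK2 : K ≤ 2 ^ (s + 3) * K := Nat.le_mul_of_pos_left _ (by positivity)
  have huK2 : u * K ≤ 2 ^ (s + 3) * (u * K) := Nat.le_mul_of_pos_left _ (by positivity)
  have hpow : 2 ^ (s + 3) = 2 * 2 ^ (s + 2) := by ring
  have h4le : 4 ≤ 2 ^ (s + 2) := by
    calc 4 = 2 ^ 2 := by norm_num
      _ ≤ 2 ^ (s + 2) := Nat.pow_le_pow_right (by norm_num) (by omega)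
  have h8le : 8 ≤ 2 ^ (s + 3) := by omega
  set f : (V₁ → V₀) × (E₁ → V₀) → (J₀ → Bool) → I → (E₁ → Bool) → ℝ := fun T r a x =>
    p a (ymap G₀ G₁ T.1 T.2 (y₀ T.1) r x) with hf
  have hfdeg : ∀ T ∈ good, ∀ r a, LowDeg (u * K) (f T r a) := by
    intro T hT r a
    exact lowDeg_ymap (Finset.mem_filter.1 hT).2 (hp.deg a) (y₀ T.1) r
  have hvaldeg : ∀ T ∈ good, ∀ r ρ, LowDeg (2 * (u * K)) ((rel ρ).val (f T r)) := by
    intro T hT r ρ
    exact (rel ρ).lowDeg (hfdeg T hT r)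
  -- moments of `p`
  have hpsum : ∀ a, ∑ A : Finset E₀, fc (p a) A ^ 2 ≤ Q := by
    intro a
    rw [← Net.Ex_sq_canon hOk₀ ((hp.deg a).mono hK2) (hp.can a)]
    have h := mom_le (P := P₀) hP₀1 (f := p a) (T := K) (n := 2 ^ (s + 2)) (j := 1) (hp.deg a)
      (by
        show 2 ^ (s + 2) * K ≤ 2 ^ (s + 3) * K
        exact Nat.mul_le_mul_right _ (by omega))
      Nat.one_le_two_pow hQ
      (by
        have h1 := hp.mom a
        have h2 : 2 * 2 ^ (s + 2) = 2 ^ (s + 2 + 1) := by ring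
        rw [h2]
        exact h1)
    rw [mul_one] at h
    exact h
  -- averaging
  obtain ⟨T, hT, r, hX, hM, hτ⟩ := avg_exists good hΩ hgood hx hR hI
    (A₁ := η ^ 2) (A₂ := Q) (A₃ := Q * (Real.exp 1 / θ) ^ k) (by positivity) hQ0 (by positivity)
    (fun ρ T r => G₁.Ex c₁ fun x => (rel ρ).val (f T r) x ^ 2)
    (fun a T r => G₁.Ex c₁ fun x => f T r a x ^ 2 ^ (s + 3))
    (fun a T r => ∑ C ∈ (G₁.Reps (2 ^ (s + 3) * (u * K))).filter (fun C => k < C.card),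
      G₁.cc c₁ (f T r a) C ^ 2)
    (fun ρ T hT r => P₁.psd _ ((hvaldeg T hT r ρ).mono (by
      show 2 * (u * K) ≤ 2 ^ (s + 3) * (u * K)
      exact Nat.mul_le_mul_right _ (by omega))))
    (fun a T hT r => by
      have h1 := P₁.psd (fun x => f T r a x ^ 2 ^ (s + 2)) (((hfdeg T hT r a).pow _).mono (by
        show 2 ^ (s + 2) * (u * K) ≤ 2 ^ (s + 3) * (u * K)
        exact Nat.mul_le_mul_right _ (by omega)))
      have h2 : (fun x => (f T r a x ^ 2 ^ (s + 2)) ^ 2) = fun x => f T r a x ^ 2 ^ (s + 3) := by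
        funext x
        rw [← pow_mul]
        congr 1
      rw [h2] at h1
      exact h1)
    (fun a T _ r => Finset.sum_nonneg fun C _ => sq_nonneg _)
    (fun ρ T hT => stB_tower G₀ G₁ hOk₀ hV₁ htower (Finset.mem_filter.1 hT).2 (hy₀ T.1)
      (F := fun y => (rel ρ).val p y ^ 2)
      ((((rel ρ).lowDeg hp.deg).pow 2).mono (by
        have : 2 * (2 * K) = 4 * K := by ring
        rw [this]
        exact Nat.mul_le_mul_right _ (by omega)))
      (hp.rels ρ))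
    (fun a T hT => stB_tower G₀ G₁ hOk₀ hV₁ htower (Finset.mem_filter.1 hT).2 (hy₀ T.1)
      (F := fun y => p a y ^ 2 ^ (s + 3)) ((hp.deg a).pow _) (hp.mom a))
    (fun a => stB_tau G₀ G₁ hθ hOk₁ htail (hp.deg a) (hp.can a) (hpsum a) y₀ good)
  -- the family
  have hfd := hfdeg T hT r
  set F : I → (E₁ → Bool) → ℝ := f T r with hFdef
  refine ⟨fun a => G₁.proj c₁ k (F a), fun a => Net.lowDeg_proj k (F a),
    fun a => Net.canon_proj k (F a), ?_, ?_⟩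
  all_goals
    have hkT : k ≤ 2 ^ (s + 3) * (u * K) := hk.trans huK2
    have hqd : ∀ a, LowDeg k (G₁.proj c₁ k (F a)) := fun a => Net.lowDeg_proj k (F a)
    have hX1 : (1 : ℝ) ≤ 3 * x * Q := by nlinarith
    have hω0 : 0 ≤ om x k Q θ := Real.sqrt_nonneg _
    have hbase : (1 : ℝ) ≤ 9 ^ (G₁.B * k * (s + 2)) := one_le_pow₀ (by norm_num)
    have hbase' : 3 * x * Q ≤ 9 ^ (G₁.B * k * (s + 2)) * (3 * x * Q) :=
      le_mul_of_one_le_left (by linarith) hbase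
    have hYX : 3 * x * Q ≤ YY x G₁.B k s Q := by
      unfold YY
      exact hbase'.trans (le_self_pow₀ (hX1.trans hbase') (by positivity))
    have hY1 : 1 ≤ YY x G₁.B k s Q := hX1.trans hYX
    have hfQ : ∀ a, P₁.E (fun x => F a x ^ 2 ^ (s + 3)) ≤ 3 * x * Q := fun a => hM a
    have hfm : ∀ a, P₁.E (fun x => F a x ^ 2 ^ (s + 3)) ≤ YY x G₁.B k s Q :=
      fun a => (hfQ a).trans hYX
    have hf2 : ∀ a, P₁.E (fun x => F a x ^ 2) ≤ 3 * x * Q := by
      intro a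
      have h := mom_le (P := P₁) hP₁1 (f := F a) (T := u * K) (n := 2 ^ (s + 2)) (j := 1) (hfd a)
        (by
          show 2 ^ (s + 2) * (u * K) ≤ 2 ^ (s + 3) * (u * K)
          exact Nat.mul_le_mul_right _ (by omega))
        Nat.one_le_two_pow hX1
        (by
          have h2 : 2 * 2 ^ (s + 2) = 2 ^ (s + 3) := by ring
          rw [h2]
          exact hfQ a)
      simpa using h
    have hq2 : ∀ a, P₁.E (fun x => G₁.proj c₁ k (F a) x ^ 2) ≤ 3 * x * Q := fun a =>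
      (Net.Ex_proj_sq_le hOk₁ hkT ((hfd a).mono huK2)).trans (hf2 a)
    have hqm : ∀ a, P₁.E (fun x => G₁.proj c₁ k (F a) x ^ 2 ^ (s + 3)) ≤ YY x G₁.B k s Q := by
      intro a
      exact hc_moment (P := P₁) (B := G₁.B) (k := k) (s := s + 2) hX1
        (fun t g ht hg => Net.hyper hOk₁ ht hg) (hqd a)
        (by
          show 2 ^ (s + 2 + 1) * k ≤ 2 ^ (s + 3) * (u * K)
          exact Nat.mul_le_mul_left _ hk)
        (hq2 a)
    have hN : ∀ a, P₁.N (fun x => F a x - G₁.proj c₁ k (F a) x) ≤ om x k Q θ := by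
      intro a
      refine Real.sqrt_le_sqrt ?_
      have h1 := Net.Ex_sub_proj_sq (c := c₁) hOk₁ hkT ((hfd a).mono huK2)
      show G₁.Ex c₁ _ ≤ _
      rw [h1]
      exact hτ a
  · -- the relations
    intro ρ
    have hρ : P₁.N ((rel ρ).val F) ≤ Real.sqrt (3 * x * η ^ 2) := Real.sqrt_le_sqrt (hX ρ)
    have h1 := stage_rel (P := P₁) hP₁1 (T := u * K) (s := s) (ω := om x k Q θ)
      (Y := YY x G₁.B k s Q) hfd (fun a => (hqd a).mono hk) le_rfl hY1 hfm hqm hN (rel ρ) hρ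
    have h2 : Real.sqrt (3 * x * η ^ 2) ≤ 3 * x * η := by
      rw [Real.sqrt_le_left (by positivity)]
      have : (3 * x * η) ^ 2 = (3 * x) * (3 * x * η ^ 2) := by ring
      rw [this]
      exact le_mul_of_one_le_left (by positivity) (by linarith)
    have h3 : P₁.N ((rel ρ).val fun a => G₁.proj c₁ k (F a)) ≤ 4 * x * η := by
      have h4 : η ≤ x * η := le_mul_of_one_le_left hη.le hx'
      have h5 : P₁.N ((rel ρ).val fun a => G₁.proj c₁ k (F a)) ≤ Real.sqrt (3 * x * η ^ 2) +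
        (3 * om x k Q θ + 2 * Real.sqrt (2 * Real.sqrt (YY x G₁.B k s Q) * om x k Q θ)) := by
        linarith
      linarith
    have h6 : LowDeg P₁.cap ((rel ρ).val fun a => G₁.proj c₁ k (F a)) := by
      refine ((rel ρ).lowDeg hqd).mono ?_
      show 2 * k ≤ 2 ^ (s + 3) * (u * K)
      exact Nat.mul_le_mul (by omega) hk
    have h7 := PE.N_sq h6
    have h8 : G₁.Ex c₁ (fun x => (rel ρ).val (fun a => G₁.proj c₁ k (F a)) x ^ 2) =
        P₁.N ((rel ρ).val fun a => G₁.proj c₁ k (F a)) ^ 2 := h7.symm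
    rw [h8]
    exact pow_le_pow_left₀ (PE.N_nonneg _) h3 2
  · -- the moments
    intro a
    have h1 := stage_mom (P := P₁) hP₁1 (T := u * K) (s := s) (ω := om x k Q θ)
      (Y := YY x G₁.B k s Q) (Q := 3 * x * Q) (hfd a) ((hqd a).mono hk) le_rfl hY1 hX1
      (hfm a) (hqm a) (hfQ a) (hN a)
    refine le_trans h1 ?_
    linarith

end GridLine
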