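import Pool.Agent.Work.MP_c07f0d_lc.TL.RlDef
import Pool.Agent.Work.MP_c07f0d_lc.TL.WorldA

/-!
# Families in a world
-/

set_option linter.unusedSectionVars false

namespace GridLine

open Finset LineSize

/-- A family of canonical functions of degree at most `K` in a world, which satisfies relations up
to `η` and whose moments are bounded by `Q`. -/
structure Fam {V E J : Type} [Fintype V] [DecidableEq V] [Fintype E] [DecidableEq E] [Fintype J]
    [DecidableEq J] (G : Net V E J) (c : V → Bool) {I R : Type} (rel : R → Rl I) (K s : ℕ)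
    (Q η : ℝ) (p : I → (E → Bool) → ℝ) : Prop where
  deg : ∀ a, LowDeg K (p a)
  can : ∀ a, G.Canon (p a)
  rels : ∀ r, G.Ex c (fun x => (rel r).val p x ^ 2) ≤ η ^ 2
  mom : ∀ a, G.Ex c (fun x => p a x ^ 2 ^ (s + 1)) ≤ Q

/-- The truncation error. -/
noncomputable def om (x k : ℕ) (Q θ : ℝ) : ℝ := Real.sqrt (6 * x * (Q * (Real.exp 1 / θ) ^ k))

/-- The moment bound after truncation. -/
noncomputable def YY (x B k s : ℕ) (Q : ℝ) : ℝ := (9 ^ (B * k * (s + 2)) * (3 * x * Q)) ^ 2 ^ (s + 2)

end GridLine
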