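import Pool.Agent.Work.MP_c07f0d_lc.TL.TowerDef

/-!
# Restrictions along a routing: the tower property
-/

set_option linter.unusedSectionVars false

namespace GridLine

open Finset LineSize

section

lemma towA_sg_odd (n : ℕ) : sg (decide (Odd n)) = (-1 : ℝ) ^ n := by
  by_cases h : Odd n
  · simp [sg, h, h.neg_one_pow]
  · rw [Nat.not_odd_iff_even] at h
    have h' : ¬ Odd n := by rwa [Nat.not_odd_iff_even]
    simp [sg, h', h.neg_one_pow]

lemma towA_chi_lin {ι κ : Type} [Fintype ι] [DecidableEq ι] [Fintype κ] [DecidableEq κ]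
    (c : κ → Finset ι) (A : Finset ι) (r : κ → Bool) :
    chi A (fun g => decide (Odd (univ.filter fun j => r j = true ∧ g ∈ c j).card))
      = chi (univ.filter fun j => Odd (A ∩ c j).card) r := by
  rw [chi_eq (univ.filter fun j => Odd (A ∩ c j).card) r]
  unfold chi
  have h1 : ∀ g, sg (decide (Odd (univ.filter fun j => r j = true ∧ g ∈ c j).card))
      = ∏ j, (if r j = true ∧ g ∈ c j then (-1 : ℝ) else 1) := by
    intro g
    rw [towA_sg_odd, Finset.prod_ite]
    simp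
  simp only [h1]
  rw [Finset.prod_comm]
  refine Finset.prod_congr rfl fun j _ => ?_
  by_cases hr : r j = true
  · have h2 : ∏ g ∈ A, (if r j = true ∧ g ∈ c j then (-1 : ℝ) else 1)
        = (-1) ^ (A ∩ c j).card := by
      simp only [hr, true_and]
      rw [Finset.prod_ite]
      simp [Finset.filter_mem_eq_inter]
    rw [h2]
    by_cases ho : Odd (A ∩ c j).card
    · simp [ho, hr, sg, ho.neg_one_pow]
    · have he : Even (A ∩ c j).card := by rwa [Nat.not_odd_iff_even] at ho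
      simp [ho, he.neg_one_pow]
  · simp [hr, sg]

lemma towA_odd_symmDiff {ι : Type} [DecidableEq ι] (A P Q : Finset ι) :
    Odd (A ∩ symmDiff P Q).card ↔ ¬ (Odd (A ∩ P).card ↔ Odd (A ∩ Q).card) := by
  have h : A ∩ symmDiff P Q = symmDiff (A ∩ P) (A ∩ Q) := by
    ext x
    simp only [Finset.mem_inter, Finset.mem_symmDiff]
    tauto
  rw [h]
  have h2 : (symmDiff (A ∩ P) (A ∩ Q)).card + 2 * ((A ∩ P) ∩ (A ∩ Q)).card
      = (A ∩ P).card + (A ∩ Q).card := by
    have e1 := Finset.card_sdiff_add_card_inter (A ∩ P) (A ∩ Q)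
    have e2 := Finset.card_sdiff_add_card_inter (A ∩ Q) (A ∩ P)
    have e3 : (symmDiff (A ∩ P) (A ∩ Q)).card
        = ((A ∩ P) \ (A ∩ Q)).card + ((A ∩ Q) \ (A ∩ P)).card := by
      rw [symmDiff_def, Finset.sup_eq_union, Finset.card_union_of_disjoint]
      exact disjoint_sdiff_sdiff
    have e4 : ((A ∩ Q) ∩ (A ∩ P)).card = ((A ∩ P) ∩ (A ∩ Q)).card := by
      rw [Finset.inter_comm]
    omega
  simp only [Nat.odd_iff]
  omega

end

section

variable {V₀ E₀ J₀ V₁ E₁ J₁ : Type} [Fintype V₀] [DecidableEq V₀] [Fintype E₀] [DecidableEq E₀]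
  [Fintype J₀] [DecidableEq J₀] [Fintype V₁] [DecidableEq V₁] [Fintype E₁] [DecidableEq E₁]
  [Fintype J₁] [DecidableEq J₁] (G₀ : Net V₀ E₀ J₀) (G₁ : Net V₁ E₁ J₁)

theorem exists_base {c₀ : V₀ → Bool} {c₁ : V₁ → Bool} (h₀ : Net.OddCharge c₀)
    (h₁ : Net.OddCharge c₁) (b : V₁ → V₀) : ∃ y₀, Base G₀ c₀ c₁ b y₀ := by
  unfold Net.OddCharge at h₀ h₁
  have hne : Nonempty V₀ := by
    by_contra hcon
    rw [not_nonempty_iff] at hcon
    rw [Finset.univ_eq_empty, chi_empty] at h₀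
    norm_num at h₀
  obtain ⟨ρ⟩ := hne
  let n : V₀ → ℝ := fun v => sg (c₀ v) * ∏ x ∈ univ.filter (fun x => b x = v), sg (c₁ x)
  have hsq : ∀ (s : Finset V₁), (∏ x ∈ s, sg (c₁ x)) * (∏ x ∈ s, sg (c₁ x)) = 1 := by
    intro s
    rw [← Finset.prod_mul_distrib]
    exact Finset.prod_eq_one fun x _ => sg_mul_self _
  have hn : ∀ v, n v = 1 ∨ n v = -1 := by
    intro v
    have h : n v * n v = 1 := by
      have h1 := sg_mul_self (c₀ v)
      have h2 := hsq (univ.filter (fun x => b x = v))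
      show (sg (c₀ v) * ∏ x ∈ univ.filter (fun x => b x = v), sg (c₁ x))
        * (sg (c₀ v) * ∏ x ∈ univ.filter (fun x => b x = v), sg (c₁ x)) = 1
      linear_combination (∏ x ∈ univ.filter (fun x => b x = v), sg (c₁ x)) ^ 2 * h1 + h2
    exact mul_self_eq_one_iff.mp h
  let m : V₀ → Bool := fun v => decide (n v = -1)
  have hm : ∀ v, sg (m v) = n v := by
    intro v
    rcases hn v with h | h
    · have h5 : m v = false := decide_eq_false (by rw [h]; norm_num)
      rw [h5, h]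
      simp [sg]
    · have h5 : m v = true := decide_eq_true h
      rw [h5, h]
      simp [sg]
  have hprod : ∀ U : Finset V₀, ∏ v ∈ U, n v = chi U c₀ * chi (pre b U) c₁ := by
    intro U
    show ∏ v ∈ U, (sg (c₀ v) * ∏ x ∈ univ.filter (fun x => b x = v), sg (c₁ x)) = _
    rw [Finset.prod_mul_distrib]
    congr 1
    unfold pre chi
    rw [← Finset.prod_fiberwise_of_maps_to (s := univ.filter fun x => b x ∈ U) (t := U)
      (g := b) (f := fun x => sg (c₁ x)) (by
        intro x hx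
        exact (Finset.mem_filter.mp hx).2)]
    refine Finset.prod_congr rfl fun v hv => ?_
    refine Finset.prod_congr ?_ fun _ _ => rfl
    ext x
    simp only [Finset.mem_filter, Finset.mem_univ, true_and]
    constructor
    · intro h
      exact ⟨by rw [h]; exact hv, h⟩
    · exact fun h => h.2
  have htot : ∏ v, n v = 1 := by
    rw [hprod univ, h₀]
    have : pre b (univ : Finset V₀) = univ := by
      ext x
      simp [pre]
    rw [this, h₁]
    norm_num
  refine ⟨fun g => decide (Odd (univ.filter fun v => m v = true ∧ g ∈ G₀.path ρ v).card), ?_⟩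
  intro U
  rw [towA_chi_lin (fun v => G₀.path ρ v) (G₀.bdG U) m, ← hprod U]
  have hset : ∀ v, Odd (G₀.bdG U ∩ G₀.path ρ v).card ↔ ¬ (ρ ∈ U ↔ v ∈ U) := by
    intro v
    rw [Finset.inter_comm]
    exact G₀.path_spec ρ v U
  have hS : (univ.filter fun v => Odd (G₀.bdG U ∩ G₀.path ρ v).card)
      = if ρ ∈ U then Uᶜ else U := by
    ext v
    simp only [Finset.mem_filter, Finset.mem_univ, true_and, hset v]
    by_cases hρ : ρ ∈ U
    · simp [hρ]
    · simp [hρ]
  rw [hS]
  unfold chi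
  simp only [hm]
  by_cases hρ : ρ ∈ U
  · rw [if_pos hρ]
    have h3 : (∏ v ∈ U, n v) * ∏ v ∈ Uᶜ, n v = 1 := by
      rw [Finset.prod_mul_prod_compl, htot]
    have h4 : (∏ v ∈ U, n v) * ∏ v ∈ U, n v = 1 := by
      rw [← Finset.prod_mul_distrib]
      refine Finset.prod_eq_one fun v _ => ?_
      rcases hn v with h | h <;> rw [h] <;> norm_num
    calc ∏ v ∈ Uᶜ, n v = ((∏ v ∈ U, n v) * ∏ v ∈ U, n v) * ∏ v ∈ Uᶜ, n v := by rw [h4, one_mul]
      _ = (∏ v ∈ U, n v) * ((∏ v ∈ U, n v) * ∏ v ∈ Uᶜ, n v) := by ring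
      _ = ∏ v ∈ U, n v := by rw [h3, mul_one]
  · rw [if_neg hρ]

variable {b : V₁ → V₀} {w : E₁ → V₀}

lemma chi_ymap (y₀ : E₀ → Bool) (r : J₀ → Bool) (x : E₁ → Bool) (A : Finset E₀) :
    chi A (ymap G₀ G₁ b w y₀ r x) = chi A y₀ * chi (G₀.phi A) r * chi (pull G₀ G₁ b w A) x := by
  have h1 : chi A (ymap G₀ G₁ b w y₀ r x)
      = chi A y₀ *
        (chi A (fun g => decide (Odd (univ.filter fun j => r j = true ∧ g ∈ G₀.cyc j).card)) *
        chi A (fun g => decide
          (Odd (univ.filter fun e => x e = true ∧ g ∈ rt G₀ G₁ b w e).card))) := by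
    unfold chi ymap
    simp only [sg_xor, Finset.prod_mul_distrib]
  rw [h1, towA_chi_lin G₀.cyc A r, towA_chi_lin (rt G₀ G₁ b w) A x, ← mul_assoc]
  congr 2
  unfold Net.phi
  congr 1
  ext j
  simp only [Finset.mem_filter, Finset.mem_univ, true_and]
  rw [Finset.inter_comm]

lemma pull_bdG (U : Finset V₀) : pull G₀ G₁ b w (G₀.bdG U) = G₁.bdG (pre b U) := by
  ext e
  have h1 : Odd (G₀.bdG U ∩ G₀.path (b (G₁.src e)) (w e)).card
      ↔ ¬ (b (G₁.src e) ∈ U ↔ w e ∈ U) := by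
    rw [Finset.inter_comm]
    exact G₀.path_spec _ _ U
  have h2 : Odd (G₀.bdG U ∩ G₀.path (w e) (b (G₁.tgt e))).card
      ↔ ¬ (w e ∈ U ↔ b (G₁.tgt e) ∈ U) := by
    rw [Finset.inter_comm]
    exact G₀.path_spec _ _ U
  simp only [pull, rt, Net.bdG, bd, pre, Finset.mem_filter, Finset.mem_univ, true_and]
  rw [show (univ.filter fun e => ¬ (G₀.src e ∈ U ↔ G₀.tgt e ∈ U)) = G₀.bdG U from rfl,
    towA_odd_symmDiff, h1, h2]
  tauto

variable {G₀ G₁}

lemma card_pull_le {u : ℕ} (hT : GoodT G₀ G₁ u b w) (A : Finset E₀) :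
    (pull G₀ G₁ b w A).card ≤ u * A.card := by
  have hsub : pull G₀ G₁ b w A
      ⊆ A.biUnion fun g => univ.filter fun e => g ∈ rt G₀ G₁ b w e := by
    intro e he
    simp only [pull, Finset.mem_filter, Finset.mem_univ, true_and] at he
    have hpos : 0 < (A ∩ rt G₀ G₁ b w e).card := he.pos
    obtain ⟨g, hg⟩ := Finset.card_pos.mp hpos
    rw [Finset.mem_inter] at hg
    simp only [Finset.mem_biUnion, Finset.mem_filter, Finset.mem_univ, true_and]
    exact ⟨g, hg.1, hg.2⟩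
  calc (pull G₀ G₁ b w A).card
      ≤ (A.biUnion fun g => univ.filter fun e => g ∈ rt G₀ G₁ b w e).card :=
        Finset.card_le_card hsub
    _ ≤ ∑ g ∈ A, (univ.filter fun e => g ∈ rt G₀ G₁ b w e).card := Finset.card_biUnion_le
    _ ≤ ∑ _g ∈ A, u := Finset.sum_le_sum fun g _ => hT.mult g
    _ = u * A.card := by rw [Finset.sum_const, smul_eq_mul, mul_comm]

lemma towA_expand (p : (E₀ → Bool) → ℝ) (y₀ : E₀ → Bool) (r : J₀ → Bool) (x : E₁ → Bool) :
    p (ymap G₀ G₁ b w y₀ r x)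
      = ∑ A : Finset E₀, (fc p A * chi A y₀ * chi (G₀.phi A) r)
        * chi (pull G₀ G₁ b w A) x := by
  rw [← walsh p (ymap G₀ G₁ b w y₀ r x)]
  refine Finset.sum_congr rfl fun A _ => ?_
  rw [chi_ymap]
  ring

lemma lowDeg_ymap {u K : ℕ} (hT : GoodT G₀ G₁ u b w) {p : (E₀ → Bool) → ℝ} (hp : LowDeg K p)
    (y₀ : E₀ → Bool) (r : J₀ → Bool) : LowDeg (u * K) (fun x => p (ymap G₀ G₁ b w y₀ r x)) := by
  have h : (fun x => p (ymap G₀ G₁ b w y₀ r x))
      = fun x => ∑ A : Finset E₀, (fc p A * chi A y₀ * chi (G₀.phi A) r)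
        * chi (pull G₀ G₁ b w A) x := funext fun x => towA_expand p y₀ r x
  rw [h]
  refine LowDeg.sum fun A _ => ?_
  by_cases hA : K < A.card
  · have : (fun x : E₁ → Bool => (fc p A * chi A y₀ * chi (G₀.phi A) r)
        * chi (pull G₀ G₁ b w A) x) = fun _ => 0 := by
      funext x
      rw [hp A hA]
      ring
    rw [this]
    exact LowDeg.const _ 0
  · push Not at hA
    refine LowDeg.const_mul _ ((LowDeg.chi (pull G₀ G₁ b w A)).mono ?_)
    exact (card_pull_le hT A).trans (Nat.mul_le_mul_left u hA)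

lemma towA_card_pre {u : ℕ} (hT : GoodT G₀ G₁ u b w) (U : Finset V₀) :
    (pre b U).card ≤ u * U.card := by
  have hsub : pre b U ⊆ U.biUnion fun v => univ.filter fun x => b x = v := by
    intro x hx
    simp only [pre, Finset.mem_filter, Finset.mem_univ, true_and] at hx
    simp only [Finset.mem_biUnion, Finset.mem_filter, Finset.mem_univ, true_and]
    exact ⟨b x, hx, rfl⟩
  calc (pre b U).card ≤ (U.biUnion fun v => univ.filter fun x => b x = v).card :=
        Finset.card_le_card hsub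
    _ ≤ ∑ v ∈ U, (univ.filter fun x => b x = v).card := Finset.card_biUnion_le
    _ ≤ ∑ _v ∈ U, u := Finset.sum_le_sum fun v _ => hT.fib v
    _ = u * U.card := by rw [Finset.sum_const, smul_eq_mul, mul_comm]

/-- The tower property. -/
theorem tower {c₀ : V₀ → Bool} {c₁ : V₁ → Bool} {u t : ℕ} (hT : GoodT G₀ G₁ u b w)
    (h₀ : G₀.Ok t) (hV : 0 < Fintype.card V₁) (ht : 8 * u * G₀.lam * t ≤ Fintype.card V₁)
    {y₀ : E₀ → Bool} (hy : Base G₀ c₀ c₁ b y₀)
    {F : (E₀ → Bool) → ℝ} (hF : LowDeg t F) :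
    ∑ r : J₀ → Bool, G₁.Ex c₁ (fun x => F (ymap G₀ G₁ b w y₀ r x))
      = 2 ^ Fintype.card J₀ * G₀.Ex c₀ F := by
  have h1 : ∀ r : J₀ → Bool, G₁.Ex c₁ (fun x => F (ymap G₀ G₁ b w y₀ r x))
      = ∑ A : Finset E₀, (fc F A * chi A y₀ * G₁.Ex c₁ (chi (pull G₀ G₁ b w A)))
        * chi (G₀.phi A) r := by
    intro r
    have h : (fun x => F (ymap G₀ G₁ b w y₀ r x))
        = fun x => ∑ A : Finset E₀, (fc F A * chi A y₀ * chi (G₀.phi A) r)
          * chi (pull G₀ G₁ b w A) x := funext fun x => towA_expand F y₀ r x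
    rw [h]
    unfold Net.Ex
    rw [Et_sum]
    refine Finset.sum_congr rfl fun A _ => ?_
    rw [Et_const_mul]
    ring
  simp only [h1]
  rw [Finset.sum_comm, Net.Ex_expand, Finset.mul_sum]
  refine Finset.sum_congr rfl fun A _ => ?_
  rw [← Finset.mul_sum, sum_chi]
  by_cases hA : t < A.card
  · rw [hF A hA]
    ring
  push Not at hA
  by_cases hphi : G₀.phi A = ∅
  · rw [if_pos hphi]
    have hcut := (Net.phi_eq_empty_iff (G := G₀) A).mp hphi
    obtain ⟨h₀1, h₀2⟩ := h₀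
    obtain ⟨U, hU, hUc⟩ := Net.Cut.small (t := t) (by
      refine le_trans ?_ h₀1
      refine Nat.mul_le_mul_right t (Nat.mul_le_mul_right _ (by norm_num))) hcut hA
    have hpre := towA_card_pre hT U
    have hU3 : 3 * U.card < Fintype.card V₀ := by
      have e1 : 3 * U.card ≤ 3 * (2 * G₀.lam * t) := Nat.mul_le_mul_left 3 hUc
      have e2 : 128 * G₀.lam * t = 128 * (G₀.lam * t) := by ring
      have e3 : 3 * (2 * G₀.lam * t) = 6 * (G₀.lam * t) := by ring
      rw [e2] at h₀1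
      rw [e3] at e1
      omega
    have hP3 : 3 * (pre b U).card < Fintype.card V₁ := by
      have e1 : (pre b U).card ≤ u * (2 * G₀.lam * t) :=
        hpre.trans (Nat.mul_le_mul_left u hUc)
      have e2 : 8 * u * G₀.lam * t = 8 * (u * (G₀.lam * t)) := by ring
      have e3 : u * (2 * G₀.lam * t) = 2 * (u * (G₀.lam * t)) := by ring
      rw [e2] at ht
      rw [e3] at e1
      omega
    have hx1 : G₀.Ex c₀ (chi A) = chi U c₀ := by
      rw [hU]
      exact Net.Ex_chi_bdG c₀ hU3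
    have hx2 : G₁.Ex c₁ (chi (pull G₀ G₁ b w A)) = chi (pre b U) c₁ := by
      rw [hU, pull_bdG]
      exact Net.Ex_chi_bdG c₁ hP3
    have hx3 : chi A y₀ = chi U c₀ * chi (pre b U) c₁ := by
      rw [hU]
      exact hy U
    rw [hx1, hx2, hx3]
    linear_combination (fc F A * chi U c₀ * 2 ^ Fintype.card J₀) * chi_sq (pre b U) c₁
  · rw [if_neg hphi]
    have hcut : ¬ G₀.Cut A := fun h => hphi ((Net.phi_eq_empty_iff (G := G₀) A).mpr h)
    rw [Net.Ex_chi_of_not_cut c₀ hcut]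
    ring

end

end GridLine
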