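import Pool.Agent.Work.MP_c07f0d_lc.TL.RouteDef
import Pool.Agent.Work.MP_c07f0d_lc.TL.WorldA

/-!
# Restrictions along a routing
-/

set_option linter.unusedSectionVars false

namespace GridLine

open Finset LineSize

section

variable {V₀ E₀ J₀ V₁ E₁ J₁ : Type} [Fintype V₀] [DecidableEq V₀] [Fintype E₀] [DecidableEq E₀]
  [Fintype J₀] [DecidableEq J₀] [Fintype V₁] [DecidableEq V₁] [Fintype E₁] [DecidableEq E₁]
  [Fintype J₁] [DecidableEq J₁] (G₀ : Net V₀ E₀ J₀) (G₁ : Net V₁ E₁ J₁)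

/-- The assignment of world `0` given by a base point, a combination of cycles and an assignment
of world `1`. -/
def ymap (b : V₁ → V₀) (w : E₁ → V₀) (y₀ : E₀ → Bool) (r : J₀ → Bool) (x : E₁ → Bool) :
    E₀ → Bool :=
  fun g => xor (y₀ g) (xor (decide (Odd (univ.filter fun j => r j = true ∧ g ∈ G₀.cyc j).card))
    (decide (Odd (univ.filter fun e => x e = true ∧ g ∈ rt G₀ G₁ b w e).card)))

/-- The preimage of a set of vertices. -/
def pre (b : V₁ → V₀) (U : Finset V₀) : Finset V₁ := univ.filter fun x => b x ∈ U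

/-- Base points. -/
def Base (c₀ : V₀ → Bool) (c₁ : V₁ → Bool) (b : V₁ → V₀) (y₀ : E₀ → Bool) : Prop :=
  ∀ U : Finset V₀, chi (G₀.bdG U) y₀ = chi U c₀ * chi (pre b U) c₁

end

end GridLine
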