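import Pool.Agent.Work.MP_c07f0d_lc.TL.RelSys
import Pool.Agent.Work.MP_c07f0d_lc.TL.HierB
import Pool.Agent.Work.MP_c07f0d_lc.TL.StA
import Pool.Agent.Work.MP_c07f0d_lc.TL.GStage
import Pool.Agent.Work.MP_c07f0d_lc.TL.UpperG

/-!
# The first world
-/

set_option linter.unusedSectionVars false

namespace GridLine

open Finset LineSize FregeEF

/-- The conditions on the parameters of the first world: `m = u ^ (2 ν)`, `q = u ^ 3`. -/
structure Par0 (D w e u ν J : ℕ) (A : ℝ) : Prop where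
  hu : 1 ≤ u
  hD : D = w + 4 + e
  hν : 2 * ν + 2 ≤ e
  hν1 : 1 ≤ ν
  hJ : 2 * ν + (4 + ν) * J ≤ (w + 1) * e
  hu128 : 128 ≤ u
  hn : 2 ^ (2 * (w + 1)) + 4 + 18 * (J + 1) ≤ u
  hs : 2 ^ (2 * (w + 1) + 10) ≤ u
  herr1 : 400 * ((u ^ (2 * ν) : ℕ) : ℝ) ^ (J + 2) * ((2 ^ (2 * (w + 1)) : ℕ) : ℝ)
    * eJ (u ^ (2 * ν)) (u ^ 3) J ≤ 1
  herr2 : 10 * ((u ^ (2 * ν) : ℕ) : ℝ) ^ (J + 1) * eJ (u ^ (2 * ν)) (u ^ 3) J ≤ (1 / A) ^ (u ^ 2)
  hax : 64 * D ^ 2 < u ^ (2 * ν)

lemma sqrt_bound (u ν : ℕ) (hu : 1 ≤ u) : Nat.sqrt (23 * (6 * u ^ (2 * ν))) ≤ 12 * u ^ ν := by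
  have h : 23 * (6 * u ^ (2 * ν)) ≤ (12 * u ^ ν) * (12 * u ^ ν) := by
    have e : u ^ (2 * ν) = u ^ ν * u ^ ν := by
      rw [two_mul, pow_add]
    rw [e]
    nlinarith [Nat.zero_le (u ^ ν * u ^ ν)]
  calc Nat.sqrt (23 * (6 * u ^ (2 * ν))) ≤ Nat.sqrt ((12 * u ^ ν) * (12 * u ^ ν)) :=
        Nat.sqrt_le_sqrt h
    _ = 12 * u ^ ν := Nat.sqrt_eq _

lemma Dg_bound {u ν : ℕ} (hu : 128 ≤ u) : Sk.Dg (u ^ 3) (6 * u ^ (2 * ν)) ≤ u ^ (4 + ν) := by
  unfold Sk.Dg
  have h1 := sqrt_bound u ν (by omega)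
  have hu3 : 1 ≤ u ^ 3 := Nat.one_le_pow _ _ (by omega)
  have huν : 1 ≤ u ^ ν := Nat.one_le_pow _ _ (by omega)
  calc (2 * u ^ 3 + 1) * (2 * Nat.sqrt (23 * (6 * u ^ (2 * ν))) + 1)
      ≤ (3 * u ^ 3) * (25 * u ^ ν) := Nat.mul_le_mul (by omega) (by omega)
    _ = 75 * (u ^ 3 * u ^ ν) := by ring
    _ ≤ u * (u ^ 3 * u ^ ν) := Nat.mul_le_mul_right _ (by omega)
    _ = u ^ (4 + ν) := by
      rw [pow_add, show (4 : ℕ) = 3 + 1 by rfl, pow_succ]
      ring

lemma dJ_bound {D w e u ν J : ℕ} {A : ℝ} (h : Par0 D w e u ν J A) :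
    dJ (u ^ (2 * ν)) (u ^ 3) J ≤ u ^ ((w + 1) * e) := by
  unfold dJ
  calc u ^ (2 * ν) * Sk.Dg (u ^ 3) (6 * u ^ (2 * ν)) ^ J
      ≤ u ^ (2 * ν) * (u ^ (4 + ν)) ^ J :=
        Nat.mul_le_mul_left _ (Nat.pow_le_pow_left (Dg_bound h.hu128) J)
    _ = u ^ (2 * ν + (4 + ν) * J) := by rw [← pow_mul, ← pow_add]
    _ ≤ u ^ ((w + 1) * e) := Nat.pow_le_pow_right h.hu h.hJ

/-- The exact relation of the axioms. -/
lemma ax_exact {D M : ℕ} (hM : 1 ≤ M) (hV : 4 ≤ Fintype.card (GV D M)) {T : ℕ}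
    (hOk : (gridNet D M hM).Ok T) (v : GV D M) :
    ((gridNet D M hM).pe gcharge T hOk).N (fun x => bv ((nf true (gridAx v)).ev x) - 1) = 0 := by
  have hval : ∀ x : GE D M → Bool, bv ((nf true (gridAx v)).ev x)
      = (1 + sg (gcharge v) * chi (bd gsrc gtgt {v}) x) / 2 := by
    intro x
    have h1 := (nf_ev x (gridAx v)).1.trans (gridAx_eval v x)
    have hv : chi (bd gsrc gtgt {v}) x = 1 ∨ chi (bd gsrc gtgt {v}) x = -1 :=
      mul_self_eq_one_iff.mp (chi_sq (bd gsrc gtgt {v}) x)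
    have hs : sg (gcharge v) = 1 ∨ sg (gcharge v) = -1 := by
      cases gcharge v <;> simp [sg]
    cases hy : (nf true (gridAx v)).ev x with
    | true =>
      have h3 := h1.mp hy
      rw [h3]
      have := sg_mul_self (gcharge v)
      simp only [bv, if_true]
      linarith
    | false =>
      have h3 : ¬ (chi (bd gsrc gtgt {v}) x = sg (gcharge v)) := by
        intro h
        rw [h1.mpr h] at hy
        exact Bool.noConfusion hy
      rcases hv with h | h <;> rcases hs with h' | h'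
      · exact absurd (h.trans h'.symm) h3
      · rw [h, h']
        norm_num [bv]
      · rw [h, h']
        norm_num [bv]
      · exact absurd (h.trans h'.symm) h3
  have hE : (gridNet D M hM).Ex gcharge (fun x => (bv ((nf true (gridAx v)).ev x) - 1) ^ 2) = 0 := by
    have h1 : (fun x : GE D M → Bool => (bv ((nf true (gridAx v)).ev x) - 1) ^ 2)
        = fun x => (1 / 2 : ℝ) * (fun _ => (1 : ℝ)) x
          + (-(sg (gcharge v)) / 2) * chi (bd gsrc gtgt {v}) x := by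
      funext x
      rw [hval]
      have h2 := chi_sq (bd gsrc gtgt {v}) x
      have h3 := sg_mul_self (gcharge v)
      have h4 : (sg (gcharge v) * chi (bd gsrc gtgt {v}) x) ^ 2 = 1 := by
        calc (sg (gcharge v) * chi (bd gsrc gtgt {v}) x) ^ 2
            = (sg (gcharge v) * sg (gcharge v))
              * (chi (bd gsrc gtgt {v}) x * chi (bd gsrc gtgt {v}) x) := by ring
          _ = 1 := by rw [h2, h3, one_mul]
      linear_combination (1 / 4 : ℝ) * h4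
    rw [h1]
    show Et (gridNet D M hM).src (gridNet D M hM).tgt gcharge _ = 0
    rw [Et_add, Et_const_mul, Et_const_mul]
    have h2 : Et (gridNet D M hM).src (gridNet D M hM).tgt gcharge (fun _ => 1) = 1 :=
      Net.pe_one (c := gcharge) hOk
    have h3 : Et (gridNet D M hM).src (gridNet D M hM).tgt gcharge
        (fun x => chi (bd gsrc gtgt {v}) x) = chi {v} gcharge :=
      Net.Ex_chi_bdG (G := gridNet D M hM) gcharge (U := {v}) (by
        rw [Finset.card_singleton]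
        omega)
    rw [h2, h3]
    have h4 : chi ({v} : Finset (GV D M)) gcharge = sg (gcharge v) := by simp [chi]
    rw [h4]
    have h5 := sg_mul_self (gcharge v)
    linear_combination (-(1 / 2) : ℝ) * h5
  show Real.sqrt _ = 0
  rw [Real.sqrt_eq_zero']
  exact le_of_eq hE

/-- The family of the first world. -/
theorem world0 {D w e u ν J : ℕ} {A : ℝ} (h : Par0 D w e u ν J A)
    (S : Finset (Fm (GE D (u ^ (w + 2))))) (hS : Closed (· ∈ S))
    (hsize : ∀ φ ∈ S, φ.size ≤ (u ^ (2 * ν)) ^ (J + 1)) :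
    ∃ p, Fam (gN D u (w + 2) h.hu) gcharge (relOf S hS (gridAxioms D (u ^ (w + 2))))
      (u ^ ((w + 1) * e)) (2 * (w + 1)) 2 ((1 / A) ^ (u ^ 2)) p := by
  classical
  have hc : ∀ w, Fintype.card (GV D (u ^ w)) = u ^ (w * D) := by
    intro w
    rw [card_GV, ← pow_mul]
  have hpow : ∀ {a b : ℕ}, a ≤ b → u ^ a ≤ u ^ b := fun h' => Nat.pow_le_pow_right h.hu h'
  set m := u ^ (2 * ν) with hm
  have hd := dJ_bound h
  -- the world
  set T₀ := u ^ (1 + 2 * ν + (w + 1) * e) with hT₀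
  have hexp : 1 + 2 * ν + (w + 1) * e + (w + 3) ≤ (w + 2) * D := by
    have h1 := h.hD
    have h2 := h.hν
    rw [h1]
    nlinarith
  have hOk : (gN D u (w + 2) h.hu).Ok T₀ := by
    refine ⟨?_, ?_⟩
    · rw [hc]
      show 128 * u ^ (w + 2) * T₀ ≤ _
      calc 128 * u ^ (w + 2) * T₀ ≤ u * u ^ (w + 2) * T₀ :=
            Nat.mul_le_mul_right _ (Nat.mul_le_mul_right _ h.hu128)
        _ = u ^ (1 + 2 * ν + (w + 1) * e + (w + 3)) := by
            rw [hT₀, pow_add u (1 + 2 * ν + (w + 1) * e) (w + 3), show w + 3 = w + 2 + 1 by rfl,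
              pow_succ u (w + 2)]
            ring
        _ ≤ u ^ ((w + 2) * D) := hpow hexp
    · rw [hc]
      exact Nat.pow_pos h.hu
  set P := (gN D u (w + 2) h.hu).pe gcharge T₀ hOk with hP
  have hcapP : P.cap = T₀ := rfl
  have h1 : P.E (fun _ => 1) = 1 := Net.pe_one hOk
  have hm2 : 2 ≤ m := by
    calc 2 ≤ u := by have := h.hu128; omega
      _ = u ^ 1 := (pow_one u).symm
      _ ≤ u ^ (2 * ν) := hpow (by have := h.hν1; omega)
  set n := 2 ^ (2 * (w + 1)) with hn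
  have hcap : (n + 4) * dJ m (u ^ 3) J + (J + 1) * (18 * m * dJ m (u ^ 3) J) ≤ P.cap := by
    rw [hcapP]
    have hm1 : 1 ≤ m := by omega
    calc (n + 4) * dJ m (u ^ 3) J + (J + 1) * (18 * m * dJ m (u ^ 3) J)
        ≤ (n + 4) * (m * dJ m (u ^ 3) J) + (J + 1) * (18 * (m * dJ m (u ^ 3) J)) := by
          refine Nat.add_le_add ?_ (le_of_eq (by ring))
          exact Nat.mul_le_mul_left _ (Nat.le_mul_of_pos_left _ hm1)
      _ = (n + 4 + 18 * (J + 1)) * (m * dJ m (u ^ 3) J) := by ring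
      _ ≤ u * (m * u ^ ((w + 1) * e)) := Nat.mul_le_mul h.hn (Nat.mul_le_mul_left _ hd)
      _ = T₀ := by
          rw [hT₀, hm, pow_add, pow_add, pow_one]
          ring
  have hn1 : 1 ≤ n := Nat.one_le_two_pow
  obtain ⟨p, hdeg, hidem, hbot, hneg, hand, hor, himp, hmom, hex⟩ := fm_family P h1 (q := u ^ 3)
    (n := n) hm2 h.herr1 hn1 hcap
  have herr := h.herr2
  have hη0 : (0 : ℝ) ≤ (1 / A) ^ (u ^ 2) := by
    refine le_trans ?_ herr
    unfold eJ
    positivity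
  have hrels := rels_of (P := P) hS (Γ := gridAxioms D (u ^ (w + 2))) hη0 (p := p)
    (fun φ hφ => (hidem φ (hsize φ hφ)).trans herr) (hbot.trans herr)
    (fun φ hφ => (hneg φ (hsize _ hφ)).trans herr)
    (fun φ ψ hφ => (hand φ ψ (hsize _ hφ)).trans herr)
    (fun φ ψ hφ => (hor φ ψ (hsize _ hφ)).trans herr)
    (fun φ ψ hφ => (himp φ ψ (hsize _ hφ)).trans herr) (by
      intro φ hφ
      obtain ⟨v, _, rfl⟩ := List.mem_map.mp hφ
      have hsz : (gridAx v).size < m := by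
        refine lt_of_le_of_lt (size_gridAx ?_ v) h.hax
        have := h.hD
        omega
      rw [hex _ hsz]
      have h4 : 4 ≤ Fintype.card (GV D (u ^ (w + 2))) := by
        rw [hc]
        calc 4 ≤ u := by have := h.hu128; omega
          _ = u ^ 1 := (pow_one u).symm
          _ ≤ u ^ ((w + 2) * D) := hpow (by have := h.hD; nlinarith)
      have := ax_exact (Nat.one_le_pow (w + 2) u h.hu) h4 hOk v
      exact this.le.trans hη0)
  refine canon_family (K := u ^ ((w + 1) * e)) _ ?_ (fun a : {φ // φ ∈ S} => p a.1) ?_ ?_ ?_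
  · refine ⟨?_, hOk.2⟩
    rw [hc]
    show 128 * u ^ (w + 2) * (2 ^ (2 * (w + 1) + 2) * u ^ ((w + 1) * e)) ≤ _
    calc 128 * u ^ (w + 2) * (2 ^ (2 * (w + 1) + 2) * u ^ ((w + 1) * e))
        = 2 ^ (2 * (w + 1) + 9) * (u ^ (w + 2) * u ^ ((w + 1) * e)) := by
          rw [show 2 * (w + 1) + 9 = 2 * (w + 1) + 2 + 7 by ring, pow_add 2 (2 * (w + 1) + 2) 7]
          norm_num
          ring
      _ ≤ u * (u ^ (w + 2) * u ^ ((w + 1) * e)) := by
          refine Nat.mul_le_mul_right _ (le_trans ?_ h.hs)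
          exact Nat.pow_le_pow_right (by norm_num) (by omega)
      _ = u ^ ((w + 1) * e + (w + 3)) := by
          rw [pow_add u ((w + 1) * e) (w + 3), show w + 3 = w + 2 + 1 by rfl, pow_succ u (w + 2)]
          ring
      _ ≤ u ^ ((w + 2) * D) := hpow (by omega)
  · intro a
    exact (hdeg a.1 (hsize a.1 a.2)).mono hd
  · intro r
    have h2 := hrels r
    have hlow : LowDeg P.cap ((relOf S hS (gridAxioms D (u ^ (w + 2))) r).val
        fun a : {φ // φ ∈ S} => p a.1) := by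
      refine (Rl.lowDeg _ (K := dJ m (u ^ 3) J) (p := fun a : {φ // φ ∈ S} => p a.1)
        fun a : {φ // φ ∈ S} => hdeg a.1 (hsize a.1 a.2)).mono ?_
      refine le_trans ?_ hcap
      nlinarith [Nat.zero_le ((J + 1) * (18 * m * dJ m (u ^ 3) J))]
    have h3 := PE.N_sq (P := P) hlow
    have h4 : (gN D u (w + 2) h.hu).Ex gcharge (fun x =>
        (relOf S hS (gridAxioms D (u ^ (w + 2))) r).val (fun a : {φ // φ ∈ S} => p a.1) x ^ 2)
        = P.N ((relOf S hS (gridAxioms D (u ^ (w + 2))) r).val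
        fun a : {φ // φ ∈ S} => p a.1) ^ 2 := h3.symm
    rw [h4]
    exact pow_le_pow_left₀ (PE.N_nonneg _) h2 2
  · intro a
    have h2 := hmom a.1 (hsize a.1 a.2)
    have e1 : 2 ^ (2 * (w + 1) + 1) = 2 * n := by
      rw [pow_succ, hn]
      ring
    rw [e1]
    exact h2

end GridLine
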